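import Pool.Agent.Helper3.SP.Ord

/-!
# Nice names coded in the tree type
-/

namespace Pool.Agent.Helper3.SP

open Cardinal Set

variable {A L : Type} [LinearOrder A] [LinearOrder L]

/-- A maximal antichain inside a set of conditions. -/
theorem nn_antichain (D : Set (PC A L)) : ∃ Z : Set (PC A L), Z ⊆ D ∧
    (∀ p ∈ Z, ∀ q ∈ Z, p ≠ q → ¬ ∃ r : PC A L, r ≤ p ∧ r ≤ q) ∧
    ∀ c ∈ D, ∃ z ∈ Z, ∃ r : PC A L, r ≤ z ∧ r ≤ c := by
  obtain ⟨Z, hZ⟩ := zorn_subset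
    {Z : Set (PC A L) | Z ⊆ D ∧ ∀ p ∈ Z, ∀ q ∈ Z, p ≠ q → ¬ ∃ r : PC A L, r ≤ p ∧ r ≤ q} (by
    intro c hc hchain
    refine ⟨⋃₀ c, ⟨?_, ?_⟩, fun s hs => subset_sUnion_of_mem hs⟩
    · exact sUnion_subset fun s hs => (hc hs).1
    · rintro p ⟨s, hs, hps⟩ q ⟨t, ht, hqt⟩ hpq
      rcases hchain.total hs ht with h1 | h1
      · exact (hc ht).2 p (h1 hps) q hqt hpq
      · exact (hc hs).2 p hps q (h1 hqt) hpq)
  refine ⟨Z, hZ.prop.1, hZ.prop.2, fun c hc => ?_⟩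
  by_contra hcon
  push Not at hcon
  have h1 : c ∉ Z := fun h1 => hcon c h1 c le_rfl le_rfl
  have h2 : insert c Z ∈ {Z : Set (PC A L) | Z ⊆ D ∧
      ∀ p ∈ Z, ∀ q ∈ Z, p ≠ q → ¬ ∃ r : PC A L, r ≤ p ∧ r ≤ q} := by
    refine ⟨insert_subset hc hZ.prop.1, ?_⟩
    rintro p (rfl | hp) q (rfl | hq) hpq ⟨r, hr1, hr2⟩
    · exact hpq rfl
    · exact hcon q hq r hr2 hr1
    · exact hcon p hp r hr1 hr2
    · exact hZ.prop.2 p hp q hq hpq ⟨r, hr1, hr2⟩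
  exact h1 (hZ.le_of_ge h2 (subset_insert c Z) (mem_insert c Z))

theorem nn_enum (h : Hyp A L) (hcc : ∀ s : Set (PC A L),
      (∀ p ∈ s, ∀ q ∈ s, p ≠ q → ¬ ∃ r : PC A L, r ≤ p ∧ r ≤ q) → #s ≤ #A) (D : Set (PC A L)) :
    ∃ (fl : A → Prop) (f : A → PC A L), (∀ e, fl e → f e ∈ D) ∧
      ∀ c ∈ D, ∃ e, fl e ∧ ∃ r : PC A L, r ≤ f e ∧ r ≤ c := by
  obtain ⟨Z, hZD, hZ, hmax⟩ := nn_antichain D
  obtain ⟨g⟩ := hcc Z hZ
  have hA : Nonempty A := by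
    rw [← mk_ne_zero_iff]
    exact (aleph0_pos.trans h.unc).ne'
  have hA0 : (0 : Cardinal) < #A := aleph0_pos.trans h.unc
  obtain ⟨a0⟩ := hA
  have p0 : PC A L := ⟨⟨a0, ∅, ∅, ∅⟩, by
    constructor
    · change #(∅ : Set (Ix A L × A)) < #A
      rw [mk_emptyCollection]; exact hA0
    · change #(∅ : Set (Ix A L × L)) < #A
      rw [mk_emptyCollection]; exact hA0⟩
  classical
  refine ⟨fun e => ∃ z, g z = e, fun e => if he : ∃ z, g z = e then (he.choose : PC A L) else p0,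
    fun e he => ?_, fun c hc => ?_⟩
  · simp only [dif_pos he]
    exact hZD he.choose.2
  · obtain ⟨z, hz, r, hr1, hr2⟩ := hmax c hc
    have he : ∃ z', g z' = g ⟨z, hz⟩ := ⟨_, rfl⟩
    refine ⟨g ⟨z, hz⟩, he, r, ?_, hr2⟩
    simp only [dif_pos he]
    rw [g.injective he.choose_spec]
    exact hr1

theorem nn_supp (h : Hyp A L) (p : PC A L) :
    ∃ (dm : A → Prop) (ch : {y : A // dm y} → Ix A L),
      (∀ j b, (j, b) ∈ p.1.S → ∃ y, ch y = j) ∧ ∀ j l, (j, l) ∈ p.1.K → ∃ y, ch y = j := by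
  have hcard : #{j : Ix A L | (∃ b, (j, b) ∈ p.1.S) ∨ ∃ l, (j, l) ∈ p.1.K} ≤ #A := by
    have h1 : {j : Ix A L | (∃ b, (j, b) ∈ p.1.S) ∨ ∃ l, (j, l) ∈ p.1.K} ⊆
        (Prod.fst '' p.1.S) ∪ (Prod.fst '' p.1.K) := by
      rintro j (⟨b, hb⟩ | ⟨l, hl⟩)
      · exact Or.inl ⟨_, hb, rfl⟩
      · exact Or.inr ⟨_, hl, rfl⟩
    refine (mk_le_mk_of_subset h1).trans ((mk_union_le _ _).trans ?_)
    exact (add_le_add mk_image_le mk_image_le).trans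
      (add_lt_of_lt h.unc.le p.2.1 p.2.2).le
  obtain ⟨g⟩ := hcard
  refine ⟨fun y => ∃ j, g j = y, fun y => (y.2.choose : Ix A L), ?_, ?_⟩
  · intro j b hb
    have hj : j ∈ {j : Ix A L | (∃ b, (j, b) ∈ p.1.S) ∨ ∃ l, (j, l) ∈ p.1.K} := Or.inl ⟨b, hb⟩
    have he : ∃ j', g j' = g ⟨j, hj⟩ := ⟨_, rfl⟩
    refine ⟨⟨g ⟨j, hj⟩, he⟩, ?_⟩
    exact congrArg Subtype.val (g.injective he.choose_spec)
  · intro j l hl
    have hj : j ∈ {j : Ix A L | (∃ b, (j, b) ∈ p.1.S) ∨ ∃ l, (j, l) ∈ p.1.K} := Or.inr ⟨l, hl⟩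
    have he : ∃ j', g j' = g ⟨j, hj⟩ := ⟨_, rfl⟩
    refine ⟨⟨g ⟨j, hj⟩, he⟩, ?_⟩
    exact congrArg Subtype.val (g.injective he.choose_spec)

/-- Every name of an `L`-sequence of subsets of `A` is coded in the tree type. -/
theorem exists_ix (h : Hyp A L) (hcc : ∀ s : Set (PC A L),
      (∀ p ∈ s, ∀ q ∈ s, p ≠ q → ¬ ∃ r : PC A L, r ≤ p ∧ r ≤ q) → #s ≤ #A)
    (E : L → A → Set (PC A L)) (hE : ∀ l b p q, q ≤ p → p ∈ E l b → q ∈ E l b) :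
    ∃ i : Ix A L, ∀ (p : PC A L) (l : L) (b : A), Frc i p.1 l b ↔ FrIn (E l) p b := by
  choose fl f hf hmax using fun (l : L) (b : A) => nn_enum h hcc (E l b)
  choose dm ch hS hK using fun (p : PC A L) => nn_supp h p
  let i : Ix A L := Ix.mk fl (fun l b e => (f l b e).1.len) (fun l b e a => a ∈ (f l b e).1.x)
    (fun l b e => dm (f l b e)) (fun l b e => ch (f l b e))
    (fun l b e y b' => ∃ hy : dm (f l b e) y, (ch (f l b e) ⟨y, hy⟩, b') ∈ (f l b e).1.S)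
    (fun l b e y l' => ∃ hy : dm (f l b e) y, (ch (f l b e) ⟨y, hy⟩, l') ∈ (f l b e).1.K)
  have hent : ∀ l b e, i.ent l b e = (f l b e).1 := by
    intro l b e
    have e1 : {a | a ∈ (f l b e).1.x} = (f l b e).1.x := rfl
    have e2 : {z : Ix A L × A | ∃ y : {y // dm (f l b e) y}, z.1 = ch (f l b e) y ∧
        ∃ hy : dm (f l b e) y.1, (ch (f l b e) ⟨y.1, hy⟩, z.2) ∈ (f l b e).1.S} =
        (f l b e).1.S := by
      ext ⟨j, b'⟩
      constructor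
      · rintro ⟨y, hy, _, hz⟩
        change j = ch (f l b e) y at hy
        rw [hy]
        exact hz
      · intro hz
        obtain ⟨y, hy⟩ := hS (f l b e) j b' hz
        refine ⟨y, hy.symm, y.2, ?_⟩
        change (ch (f l b e) y, b') ∈ _
        rw [hy]
        exact hz
    have e3 : {z : Ix A L × L | ∃ y : {y // dm (f l b e) y}, z.1 = ch (f l b e) y ∧
        ∃ hy : dm (f l b e) y.1, (ch (f l b e) ⟨y.1, hy⟩, z.2) ∈ (f l b e).1.K} =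
        (f l b e).1.K := by
      ext ⟨j, b'⟩
      constructor
      · rintro ⟨y, hy, _, hz⟩
        change j = ch (f l b e) y at hy
        rw [hy]
        exact hz
      · intro hz
        obtain ⟨y, hy⟩ := hK (f l b e) j b' hz
        refine ⟨y, hy.symm, y.2, ?_⟩
        change (ch (f l b e) y, b') ∈ _
        rw [hy]
        exact hz
    have e4 : i.ent l b e = ⟨(f l b e).1.len, {a | a ∈ (f l b e).1.x},
        {z : Ix A L × A | ∃ y : {y // dm (f l b e) y}, z.1 = ch (f l b e) y ∧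
          ∃ hy : dm (f l b e) y.1, (ch (f l b e) ⟨y.1, hy⟩, z.2) ∈ (f l b e).1.S},
        {z : Ix A L × L | ∃ y : {y // dm (f l b e) y}, z.1 = ch (f l b e) y ∧
          ∃ hy : dm (f l b e) y.1, (ch (f l b e) ⟨y.1, hy⟩, z.2) ∈ (f l b e).1.K}⟩ := rfl
    rw [e4, e1, e2, e3]
  refine ⟨i, fun p l b => ?_⟩
  rw [Frc_iff_C h.unc.le p.2]
  constructor
  · intro hp q hq
    obtain ⟨t', h1, h2, e, h3, h4⟩ := hp q.1 q.2 hq
    rw [hent] at h4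
    exact ⟨⟨t', h1⟩, h2, f l b e, hf l b e h3, h4⟩
  · intro hp t ht htp
    obtain ⟨r, hr, c, hc, hrc⟩ := hp ⟨t, ht⟩ htp
    obtain ⟨e, he, r', h1, h2⟩ := hmax l b r (hE l b c r hrc hc)
    refine ⟨r'.1, r'.2, h2.trans hr, e, he, ?_⟩
    rw [hent]
    exact h1

end Pool.Agent.Helper3.SP
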