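/-
Project SP (helper93, MP_41729c_an): common definitions.

H, E denote complex Hilbert spaces.  Operators are bounded operators `E →L[ℂ] E`, `star` is the
adjoint.
* `matOp a`   : the operator on the l2-sum of copies of E (indexed by a finite type) given by a
                matrix `a` of operators;   `amp T = matOp (diagonal T)`.
* `diagOp D`  : the operator f ↦ (x ↦ D x (f x)) on l2(X; H), D uniformly bounded.
* `permOp s U`: the unitary f ↦ (x ↦ U (f (s⁻¹ x))) on l2(X; H).
* `shift c`   : the automorphism of the free group on I × Q which replaces each letter (i, d) by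
                (i, c d).
* `hd`, `lst` : first and last letter of the reduced word.
* `grpAlg π`  : the star subalgebra of B(H) generated by a unitary representation.
* `LetterNet` : asymptotically free letters in K.
-/
import Mathlib

set_option autoImplicit false

open scoped InnerProductSpace ComplexConjugate ENNReal NNReal
open Filter Topology

namespace Pool.Agent.Helper93.SP

universe u v w

section matrices

variable {ι : Type*} [Fintype ι] {E : Type*} [NormedAddCommGroup E] [InnerProductSpace ℂ E]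
  [CompleteSpace E]

/-- The l2-sum of copies of `E`. -/
abbrev Pw (ι : Type*) (E : Type*) := PiLp 2 (fun _ : ι => E)

/-- The operator on the l2-sum given by a matrix of operators. -/
noncomputable def matOp (a : Matrix ι ι (E →L[ℂ] E)) : Pw ι E →L[ℂ] Pw ι E :=
  ((PiLp.continuousLinearEquiv 2 ℂ (fun _ : ι => E)).symm : (ι → E) →L[ℂ] Pw ι E) ∘L
    (ContinuousLinearMap.pi fun i => ∑ j, (a i j) ∘L (ContinuousLinearMap.proj j)) ∘L
    ((PiLp.continuousLinearEquiv 2 ℂ (fun _ : ι => E)) : Pw ι E →L[ℂ] (ι → E))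

theorem matOp_apply (a : Matrix ι ι (E →L[ℂ] E)) (x : Pw ι E) (i : ι) :
    matOp a x i = ∑ j, a i j (x j) := by
  simp [matOp]

variable [DecidableEq ι]

/-- `T ⊗ 1`. -/
noncomputable def amp (ι : Type*) [Fintype ι] [DecidableEq ι] (T : E →L[ℂ] E) :
    Pw ι E →L[ℂ] Pw ι E :=
  matOp (Matrix.diagonal fun _ : ι => T)

theorem amp_apply (T : E →L[ℂ] E) (x : Pw ι E) (i : ι) : amp ι T x i = T (x i) := by
  rw [amp, matOp_apply, Finset.sum_eq_single i]
  · simp
  · intro b _ hb
    simp [Matrix.diagonal_apply_ne' _ hb]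
  · intro h
    exact absurd (Finset.mem_univ i) h

end matrices

section ell

variable {X : Type*} {H : Type*} [NormedAddCommGroup H] [InnerProductSpace ℂ H] [CompleteSpace H]

/-- l2(X; H). -/
abbrev El (X : Type*) (H : Type*) [NormedAddCommGroup H] := lp (fun _ : X => H) 2

theorem memlp_diag (D : X → H →L[ℂ] H) (C : ℝ) (hD : ∀ x, ‖D x‖ ≤ C) (f : El X H) :
    Memℓp (fun x => D x (f x)) 2 := by
  have h := lp.memℓp f
  have hC : ∀ x, ‖D x (f x)‖ ≤ |C| * ‖f x‖ := fun x =>
    ((D x).le_opNorm (f x)).trans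
      (mul_le_mul_of_nonneg_right ((hD x).trans (le_abs_self C)) (norm_nonneg _))
  rw [memℓp_gen_iff (by norm_num)] at h ⊢
  refine Summable.of_nonneg_of_le (fun x => by positivity) (fun x => ?_) (h.mul_left (|C| ^ 2))
  have := hC x
  simp only [ENNReal.toReal_ofNat, Real.rpow_ofNat]
  calc ‖D x (f x)‖ ^ 2 ≤ (|C| * ‖f x‖) ^ 2 := by gcongr
    _ = |C| ^ 2 * ‖f x‖ ^ 2 := by ring

/-- The diagonal operator with entries `D x`. -/
noncomputable def diagOp (D : X → H →L[ℂ] H) (C : ℝ) (hD : ∀ x, ‖D x‖ ≤ C) :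
    El X H →L[ℂ] El X H :=
  LinearMap.mkContinuous
    { toFun := fun f => ⟨fun x => D x (f x), memlp_diag D C hD f⟩
      map_add' := by
        intro f g
        ext x
        simp
      map_smul' := by
        intro c f
        ext x
        simp } |C| (by
    intro f
    have hC : ∀ x, ‖D x (f x)‖ ≤ |C| * ‖f x‖ := fun x =>
      ((D x).le_opNorm (f x)).trans
        (mul_le_mul_of_nonneg_right ((hD x).trans (le_abs_self C)) (norm_nonneg _))
    apply lp.norm_le_of_tsum_le (by norm_num) (by positivity)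
    have h1 := lp.norm_rpow_eq_tsum (p := 2) (by norm_num) f
    have hs : Summable fun x => ‖f x‖ ^ (2 : ℝ≥0∞).toReal :=
      (memℓp_gen_iff (by norm_num)).1 (lp.memℓp f)
    calc (∑' x, ‖D x (f x)‖ ^ (2 : ℝ≥0∞).toReal)
        ≤ ∑' x, |C| ^ (2 : ℝ≥0∞).toReal * ‖f x‖ ^ (2 : ℝ≥0∞).toReal := by
          refine Summable.tsum_le_tsum (fun x => ?_) ?_ (hs.mul_left _)
          · rw [← Real.mul_rpow (abs_nonneg _) (norm_nonneg _)]
            exact Real.rpow_le_rpow (norm_nonneg _) (hC x) (by norm_num)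
          · exact (memℓp_gen_iff (by norm_num)).1 (memlp_diag D C hD f)
      _ = (|C| * ‖f‖) ^ (2 : ℝ≥0∞).toReal := by
          rw [tsum_mul_left, Real.mul_rpow (abs_nonneg _) (norm_nonneg _), h1])

theorem diagOp_apply (D : X → H →L[ℂ] H) (C : ℝ) (hD : ∀ x, ‖D x‖ ≤ C) (f : El X H) (x : X) :
    diagOp D C hD f x = D x (f x) := rfl

open Classical in
/-- The vector delta_x ⊗ ζ. -/
noncomputable def pt (x : X) (ζ : H) : El X H := lp.single 2 x ζ

open Classical in
theorem pt_apply (x : X) (ζ : H) (y : X) : pt x ζ y = if y = x then ζ else 0 := by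
  rw [pt, lp.single_apply]
  by_cases h : y = x
  · subst h
    simp
  · simp [h]

/-- `f` vanishes outside `A`. -/
def Supp (A : Set X) (f : El X H) : Prop := ∀ x, x ∉ A → f x = 0

theorem memlp_reind (σ : X ≃ X) (f : El X H) : Memℓp (fun x => f (σ.symm x)) 2 := by
  have h := lp.memℓp f
  rw [memℓp_gen_iff (by norm_num)] at h ⊢
  exact (Equiv.summable_iff (f := fun x => ‖f x‖ ^ (2 : ℝ≥0∞).toReal) σ.symm).2 h

/-- The operator `f ↦ (x ↦ f (σ⁻¹ x))` on l2(X; H). -/
noncomputable def reind (σ : X ≃ X) : El X H →L[ℂ] El X H :=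
  LinearMap.mkContinuous
    { toFun := fun f => ⟨fun x => f (σ.symm x), memlp_reind σ f⟩
      map_add' := by
        intro f g
        ext x
        simp
      map_smul' := by
        intro c f
        ext x
        simp } 1 (by
    intro f
    rw [one_mul]
    apply lp.norm_le_of_tsum_le (by norm_num) (norm_nonneg _)
    have h1 := lp.norm_rpow_eq_tsum (p := 2) (by norm_num) f
    rw [h1]
    exact le_of_eq ((Equiv.tsum_eq (f := fun x => ‖f x‖ ^ (2 : ℝ≥0∞).toReal) σ.symm)))

theorem reind_apply (σ : X ≃ X) (f : El X H) (x : X) : reind σ f x = f (σ.symm x) := rfl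

theorem reind_mul (σ ρ : X ≃ X) : (reind σ : El X H →L[ℂ] El X H) * reind ρ = reind (ρ.trans σ) := by
  ext f x
  rfl

theorem reind_refl : (reind (Equiv.refl X) : El X H →L[ℂ] El X H) = 1 := by
  ext f x
  rfl

theorem star_reind (σ : X ≃ X) : star (reind σ : El X H →L[ℂ] El X H) = reind σ.symm := by
  rw [ContinuousLinearMap.star_eq_adjoint]
  symm
  rw [ContinuousLinearMap.eq_adjoint_iff]
  intro f g
  rw [lp.inner_eq_tsum, lp.inner_eq_tsum]
  rw [← Equiv.tsum_eq σ.symm]
  simp only [reind_apply, Equiv.symm_symm, Equiv.apply_symm_apply]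

theorem star_diagOp (D : X → H →L[ℂ] H) (C : ℝ) (hD : ∀ x, ‖D x‖ ≤ C) :
    star (diagOp D C hD) = diagOp (fun x => star (D x)) C (fun x => by
      rw [norm_star]; exact hD x) := by
  rw [ContinuousLinearMap.star_eq_adjoint]
  symm
  rw [ContinuousLinearMap.eq_adjoint_iff]
  intro f g
  rw [lp.inner_eq_tsum, lp.inner_eq_tsum]
  refine tsum_congr fun x => ?_
  rw [diagOp_apply, diagOp_apply, ContinuousLinearMap.star_eq_adjoint,
    ContinuousLinearMap.adjoint_inner_left]

/-- Constant diagonal operator `1 ⊗ T` on l2(X; H). -/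
noncomputable def cst (X : Type*) (T : H →L[ℂ] H) : El X H →L[ℂ] El X H :=
  diagOp (fun _ : X => T) ‖T‖ (fun _ => le_rfl)

theorem cst_apply (T : H →L[ℂ] H) (f : El X H) (x : X) : cst X T f x = T (f x) := rfl

theorem star_cst (T : H →L[ℂ] H) : star (cst X T) = cst X (star T) := by
  rw [cst, star_diagOp]
  ext f x
  rfl

theorem cst_mul (S T : H →L[ℂ] H) : cst X S * cst X T = cst X (S * T) := by
  ext f x
  rfl

/-- The unitary `f ↦ (x ↦ U (f (σ⁻¹ x)))` on l2(X; H). -/
noncomputable def permOp (σ : X ≃ X) (U : unitary (H →L[ℂ] H)) : unitary (El X H →L[ℂ] El X H) :=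
  ⟨cst X (U : H →L[ℂ] H) * reind σ, by
    have h1 : cst X (star (U : H →L[ℂ] H)) * cst X (U : H →L[ℂ] H) = 1 := by
      rw [cst_mul, Unitary.star_mul_self_of_mem U.2]
      ext f x
      rfl
    have h2 : cst X (U : H →L[ℂ] H) * cst X (star (U : H →L[ℂ] H)) = 1 := by
      rw [cst_mul, Unitary.mul_star_self_of_mem U.2]
      ext f x
      rfl
    have h3 : (reind σ.symm : El X H →L[ℂ] El X H) * reind σ = 1 := by
      rw [reind_mul, Equiv.self_trans_symm, reind_refl]
    have h4 : (reind σ : El X H →L[ℂ] El X H) * reind σ.symm = 1 := by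
      rw [reind_mul, Equiv.symm_trans_self, reind_refl]
    constructor
    · rw [star_mul, star_cst, star_reind, mul_assoc, ← mul_assoc (cst X _) (cst X _), h1, one_mul, h3]
    · rw [star_mul, star_cst, star_reind, mul_assoc, ← mul_assoc (reind σ), h4, one_mul, h2]⟩

theorem permOp_apply (σ : X ≃ X) (U : unitary (H →L[ℂ] H)) (f : El X H) (x : X) :
    (permOp σ U : El X H →L[ℂ] El X H) f x = (U : H →L[ℂ] H) (f (σ.symm x)) := rfl

end ell

/-- Bounded operators on l2(F; H), F the free group on I × Q. -/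
abbrev BEl (I Q H : Type*) [NormedAddCommGroup H] [InnerProductSpace ℂ H] :=
  El (FreeGroup (I × Q)) H →L[ℂ] El (FreeGroup (I × Q)) H

section words

variable {α : Type*}

open Classical in
/-- First letter of the reduced word. -/
noncomputable def hd (ω : FreeGroup α) : Option (α × Bool) := ω.toWord.head?

open Classical in
/-- Last letter of the reduced word. -/
noncomputable def lst (ω : FreeGroup α) : Option (α × Bool) := ω.toWord.getLast?

/-- Shift of the labels. -/
noncomputable def shift {I Q : Type*} [Group Q] (c : Q) : FreeGroup (I × Q) ≃* FreeGroup (I × Q) :=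
  FreeGroup.freeGroupCongr (Equiv.prodCongr (Equiv.refl I) (Equiv.mulLeft c))

theorem shift_of {I Q : Type*} [Group Q] (c : Q) (i : I) (d : Q) :
    shift c (FreeGroup.of (i, d)) = FreeGroup.of (i, c * d) := by
  simp [shift]

end words

section reps

variable {G : Type*} [Group G] {H : Type*} [NormedAddCommGroup H] [InnerProductSpace ℂ H]
  [CompleteSpace H]

/-- The star subalgebra of B(H) generated by the operators of a unitary representation. -/
noncomputable def grpAlg (π : G →* unitary (H →L[ℂ] H)) : StarSubalgebra ℂ (H →L[ℂ] H) :=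
  StarAlgebra.adjoin ℂ (Set.range fun g => (π g : H →L[ℂ] H))

/-- Its norm closure. -/
noncomputable def grpCs (π : G →* unitary (H →L[ℂ] H)) : StarSubalgebra ℂ (H →L[ℂ] H) :=
  (grpAlg π).topologicalClosure

theorem mem_grpAlg (π : G →* unitary (H →L[ℂ] H)) (g : G) : (π g : H →L[ℂ] H) ∈ grpAlg π :=
  StarAlgebra.subset_adjoin ℂ _ ⟨g, rfl⟩

theorem mem_grpCs (π : G →* unitary (H →L[ℂ] H)) (g : G) : (π g : H →L[ℂ] H) ∈ grpCs π :=
  (grpAlg π).le_topologicalClosure (mem_grpAlg π g)

variable {Q : Type*} [Group Q]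

/-- `L_ν ⊗ 1` on l2(F; H), F the free group on I × Q. -/
noncomputable def Lop (I Q H : Type*) [NormedAddCommGroup H] [InnerProductSpace ℂ H]
    [CompleteSpace H] (ν : FreeGroup (I × Q)) :
    unitary (BEl I Q H) :=
  permOp (Equiv.mulLeft ν) 1

/-- `Π_g` on l2(F; H): delta_ω ⊗ ζ ↦ delta_(g ω) ⊗ π(g) ζ. -/
noncomputable def Pop (I : Type*) (q : G →* Q) (π : G →* unitary (H →L[ℂ] H)) (g : G) :
    unitary (BEl I Q H) :=
  permOp (shift (q g)).toEquiv (π g)

/-- The star subalgebra of B(l2(F; H)) generated by all `Π_g`, norm closed. -/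
noncomputable def csG (I : Type*) (q : G →* Q) (π : G →* unitary (H →L[ℂ] H)) :
    StarSubalgebra ℂ (BEl I Q H) :=
  (StarAlgebra.adjoin ℂ (Set.range fun g =>
    (Pop I q π g : BEl I Q H))).topologicalClosure

/-- The star subalgebra of B(l2(F; H)) generated by all `L_ν` and all `Π_g`, norm closed. -/
noncomputable def csL (I : Type*) (q : G →* Q) (π : G →* unitary (H →L[ℂ] H)) :
    StarSubalgebra ℂ (BEl I Q H) :=
  (StarAlgebra.adjoin ℂ ((Set.range fun ν =>
    (Lop I Q H ν : BEl I Q H)) ∪ (Set.range fun g =>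
    (Pop I q π g : BEl I Q H)))).topologicalClosure

/-- Asymptotically free letters in K: homomorphisms ψ_j from the free group on I × Q to G with
values in K, asymptotically equivariant, and such that π(ψ_j(ω)) → 0 weakly for ω ≠ 1. -/
structure LetterNet (K : Subgroup G) (q : G →* Q) (π : G →* unitary (H →L[ℂ] H)) (I : Type*)
    {J : Type*} (l : Filter J) (ψ : J → FreeGroup (I × Q) →* G) : Prop where
  mem : ∀ j ω, ψ j ω ∈ K
  equiv : ∀ g ω, ∀ᶠ j in l, g * ψ j ω * g⁻¹ = ψ j (shift (q g) ω)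
  weak : ∀ ω, ω ≠ 1 → ∀ ζ θ : H,
    Tendsto (fun j => ⟪θ, (π (ψ j ω) : H →L[ℂ] H) ζ⟫_ℂ) l (𝓝 0)

/-- Mixing (C_0) representations: matrix coefficients tend to zero at infinity. -/
def Mixing (π : G →* unitary (H →L[ℂ] H)) : Prop :=
  ∀ (ζ θ : H) (ε : ℝ), 0 < ε → {g : G | ε ≤ ‖⟪θ, (π g : H →L[ℂ] H) ζ⟫_ℂ‖}.Finite

end reps

section core

variable {Q : Type*} [Group Q] {H : Type*} [NormedAddCommGroup H] [InnerProductSpace ℂ H]
  [CompleteSpace H]

/-- The index set of letter names: w-letters and s-letters. -/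
abbrev Nm (m : ℕ) := Fin m ⊕ Fin m

/-- The free group of letters. -/
abbrev FG (m : ℕ) (Q : Type*) := FreeGroup (Nm m × Q)

/-- The embedding ζ ↦ delta_1 ⊗ ζ, coordinatewise. -/
noncomputable def e1 {m : ℕ} (Q : Type*) [Group Q] (ζ : Pw (Fin m) H) :
    Pw (Fin m) (El (FG m Q) H) :=
  WithLp.toLp 2 (fun i => pt (1 : FG m Q) (ζ i))

theorem e1_apply {m : ℕ} (ζ : Pw (Fin m) H) (i : Fin m) :
    e1 Q ζ i = pt (1 : FG m Q) (ζ i) := rfl

/-- The diagonal matrix of the w-letters with label 1. -/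
noncomputable def Wm (m : ℕ) (Q H : Type*) [Group Q] [NormedAddCommGroup H]
    [InnerProductSpace ℂ H] [CompleteSpace H] :
    Matrix (Fin m) (Fin m) (BEl (Nm m) Q H) :=
  Matrix.diagonal fun k => (Lop (Nm m) Q H (FreeGroup.of (Sum.inl k, 1)) :
    BEl (Nm m) Q H)

/-- u = W Y. -/
noncomputable def uop {m : ℕ} (Y : Matrix (Fin m) (Fin m) (BEl (Nm m) Q H)) :
    Pw (Fin m) (El (FG m Q) H) →L[ℂ] Pw (Fin m) (El (FG m Q) H) :=
  matOp (Wm m Q H) * matOp Y

/-- The unitary matrix m^(-1/2) (w^(ij) s_i), w = exp(2 pi i / m). -/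
noncomputable def Vm (m : ℕ) (Q H : Type*) [Group Q] [NormedAddCommGroup H]
    [InnerProductSpace ℂ H] [CompleteSpace H] :
    Matrix (Fin m) (Fin m) (BEl (Nm m) Q H) :=
  Matrix.of fun i j => ((((Real.sqrt m)⁻¹ : ℝ) : ℂ) *
      Complex.exp (2 * Real.pi * Complex.I / m) ^ ((i : ℕ) * (j : ℕ))) •
    (Lop (Nm m) Q H (FreeGroup.of (Sum.inr i, 1)) : BEl (Nm m) Q H)

/-- g_z = sum over b < 2m of z^b u^b. -/
noncomputable def gz {E : Type*} [NormedAddCommGroup E] [InnerProductSpace ℂ E]
    (m : ℕ) (z : ℂ) (u : E →L[ℂ] E) : E →L[ℂ] E :=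
  ∑ b ∈ Finset.range (2 * m), z ^ b • u ^ b

/-- f_z = (1/2m) g_z* g_z. -/
noncomputable def fz {E : Type*} [NormedAddCommGroup E] [InnerProductSpace ℂ E] [CompleteSpace E]
    (m : ℕ) (z : ℂ) (u : E →L[ℂ] E) : E →L[ℂ] E :=
  ((2 * m : ℂ)⁻¹) • (star (gz m z u) * gz m z u)

end core

section grp

/-- The homomorphism on the free group on `Fin m × G ⧸ L` which sends the letter (i, c) to the
conjugate of `x i` by the chosen representative of the coset c. -/
noncomputable def letterHom {G : Type*} [Group G] (L : Subgroup G) {m : ℕ} (x : Fin m → G) :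
    FreeGroup (Fin m × (G ⧸ L)) →* G :=
  FreeGroup.lift fun p => p.2.out * x p.1 * (p.2.out)⁻¹

/-- `K` has free letters relative to the subgroup `L`: for all finite sets E ⊆ L, D ⊆ G and every
finite set F of nontrivial elements of the free group on `Fin m × G ⧸ L` there are
x_1, ..., x_m ∈ K commuting with E such that no word of F, evaluated at the conjugates of the x_i
by the coset representatives, lies in D. -/
def HasFreeLetters {G : Type*} [Group G] (K L : Subgroup G) : Prop :=
  ∀ (m : ℕ) (E : Set G) (F : Set (FreeGroup (Fin m × (G ⧸ L)))) (D : Set G),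
    E.Finite → F.Finite → D.Finite → E ⊆ L → (1 : FreeGroup (Fin m × (G ⧸ L))) ∉ F →
    ∃ x : Fin m → G, (∀ i, x i ∈ K) ∧ (∀ i, ∀ e ∈ E, e * x i = x i * e) ∧
      ∀ ω ∈ F, letterHom L x ω ∉ D

/-- An invariant mean on bounded complex functions on the group `K`. -/
structure IsInvMean {K : Type*} [Group K] (μ : (K → ℂ) → ℂ) : Prop where
  add : ∀ f g : K → ℂ, (∃ C, ∀ k, ‖f k‖ ≤ C) → (∃ C, ∀ k, ‖g k‖ ≤ C) →
    μ (fun k => f k + g k) = μ f + μ g
  smul : ∀ (c : ℂ) (f : K → ℂ), (∃ C, ∀ k, ‖f k‖ ≤ C) → μ (fun k => c * f k) = c * μ f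
  one : μ (fun _ => 1) = 1
  le : ∀ (f : K → ℂ) (C : ℝ), (∀ k, ‖f k‖ ≤ C) → ‖μ f‖ ≤ C
  inv : ∀ (h : K) (f : K → ℂ), (∃ C, ∀ k, ‖f k‖ ≤ C) → μ (fun k => f (h * k)) = μ f

/-- `K` is amenable (as a discrete group). -/
def Amen (K : Type*) [Group K] : Prop := ∃ μ : (K → ℂ) → ℂ, IsInvMean μ

end grp

end Pool.Agent.Helper93.SP
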