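/-
Block SP-MAT (about 200 lines).  Elementary algebra of `matOp` (operators on the l2-sum of copies
of E given by matrices of operators).  Everything is coordinatewise: use `matOp_apply`,
`PiLp.inner_apply`, `PiLp.norm_sq_eq_of_L2`.

* matOp_star: adjoint of matOp a is matOp of the conjugate transpose: check
  ⟪matOp (star a) x, y⟫ = ⟪x, matOp a y⟫ coordinatewise (`ContinuousLinearMap.eq_adjoint_iff`).
* entry X i j = (coordinate i) ∘ X ∘ (inclusion j).
* norm_matOp_le: if all ‖a i j‖ ≤ c then ‖(matOp a x) i‖ ≤ c Σ_j ‖x j‖ ≤ c sqrt(n) ‖x‖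
  (Cauchy-Schwarz), so ‖matOp a x‖ ≤ c n ‖x‖ with n = card ι.
* matOp_mem_closed: if A is a closed star subalgebra then the set of all matOp a with entries in A
  is (the carrier of) a closed star subalgebra `matAlg A`.
-/
import Pool.Agent.Helper93.SP.Defs

set_option autoImplicit false

open scoped InnerProductSpace ComplexConjugate ENNReal NNReal
open Filter Topology

namespace Pool.Agent.Helper93.SP

variable {ι : Type*} [Fintype ι] [DecidableEq ι] {E : Type*} [NormedAddCommGroup E]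
  [InnerProductSpace ℂ E] [CompleteSpace E]

theorem matOp_add (a b : Matrix ι ι (E →L[ℂ] E)) : matOp (a + b) = matOp a + matOp b := by
  ext x i
  simp [matOp_apply, Finset.sum_add_distrib]

theorem matOp_sub (a b : Matrix ι ι (E →L[ℂ] E)) : matOp (a - b) = matOp a - matOp b := by
  ext x i
  simp [matOp_apply, Finset.sum_sub_distrib]

theorem matOp_smul (c : ℂ) (a : Matrix ι ι (E →L[ℂ] E)) : matOp (c • a) = c • matOp a := by
  ext x i
  simp [matOp_apply, Finset.smul_sum]

theorem matOp_mul (a b : Matrix ι ι (E →L[ℂ] E)) : matOp (a * b) = matOp a * matOp b := by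
  ext x i
  rw [ContinuousLinearMap.mul_apply, matOp_apply, matOp_apply]
  simp only [matOp_apply, Matrix.mul_apply, ContinuousLinearMap.sum_apply, map_sum,
    ContinuousLinearMap.mul_apply]
  exact Finset.sum_comm

theorem matOp_one : matOp (1 : Matrix ι ι (E →L[ℂ] E)) = 1 := by
  ext x i
  rw [matOp_apply, Finset.sum_eq_single i]
  · simp
  · intro b _ hb
    simp [Matrix.one_apply_ne' hb]
  · intro h
    exact absurd (Finset.mem_univ i) h

theorem matOp_star (a : Matrix ι ι (E →L[ℂ] E)) : star (matOp a) = matOp (star a) := by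
  rw [ContinuousLinearMap.star_eq_adjoint]
  symm
  rw [ContinuousLinearMap.eq_adjoint_iff]
  intro x y
  rw [PiLp.inner_apply, PiLp.inner_apply]
  simp only [matOp_apply, sum_inner, inner_sum, Matrix.star_apply,
    ContinuousLinearMap.star_eq_adjoint, ContinuousLinearMap.adjoint_inner_left]
  exact Finset.sum_comm

/-- The inclusion of the j-th coordinate. -/
noncomputable def incl (E : Type*) [NormedAddCommGroup E] [InnerProductSpace ℂ E]
    (j : ι) : E →L[ℂ] Pw ι E :=
  ((PiLp.continuousLinearEquiv 2 ℂ (fun _ : ι => E)).symm : (ι → E) →L[ℂ] Pw ι E) ∘L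
    (ContinuousLinearMap.single ℂ (fun _ : ι => E) j)

theorem incl_apply (j : ι) (v : E) (i : ι) : incl E j v i = if i = j then v else 0 := by
  simp only [incl, ContinuousLinearMap.comp_apply]
  by_cases h : i = j
  · subst h
    simp
  · simp [h]

theorem norm_incl (j : ι) (v : E) : ‖incl E j v‖ = ‖v‖ := by
  have h : ‖incl E j v‖ ^ 2 = ‖v‖ ^ 2 := by
    rw [PiLp.norm_sq_eq_of_L2, Finset.sum_eq_single j]
    · rw [incl_apply, if_pos rfl]
    · intro b _ hb
      rw [incl_apply, if_neg hb]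
      simp
    · intro h
      exact absurd (Finset.mem_univ j) h
  exact (sq_eq_sq₀ (norm_nonneg _) (norm_nonneg _)).1 h

/-- The (i, j) entry of an operator on the l2-sum. -/
noncomputable def entry (X : Pw ι E →L[ℂ] Pw ι E) (i j : ι) : E →L[ℂ] E :=
  (PiLp.proj 2 (fun _ : ι => E) i : Pw ι E →L[ℂ] E) ∘L X ∘L (incl E j)

theorem entry_apply (X : Pw ι E →L[ℂ] Pw ι E) (i j : ι) (v : E) :
    entry X i j v = X (incl E j v) i := by
  rfl

theorem matOp_entry (X : Pw ι E →L[ℂ] Pw ι E) : matOp (Matrix.of fun i j => entry X i j) = X := by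
  ext x i
  rw [matOp_apply]
  simp only [Matrix.of_apply, entry_apply]
  have hx : x = ∑ j, incl E j (x j) := by
    ext k
    rw [WithLp.ofLp_sum, Finset.sum_apply, Finset.sum_eq_single k]
    · rw [incl_apply, if_pos rfl]
    · intro b _ hb
      rw [incl_apply, if_neg (Ne.symm hb)]
    · intro h
      exact absurd (Finset.mem_univ k) h
  conv_rhs => rw [hx, map_sum]
  rw [WithLp.ofLp_sum, Finset.sum_apply]

theorem entry_matOp (a : Matrix ι ι (E →L[ℂ] E)) (i j : ι) : entry (matOp a) i j = a i j := by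
  ext v
  rw [entry_apply, matOp_apply, Finset.sum_eq_single j]
  · rw [incl_apply, if_pos rfl]
  · intro b _ hb
    rw [incl_apply, if_neg hb, map_zero]
  · intro h
    exact absurd (Finset.mem_univ j) h

theorem matOp_injective : Function.Injective (matOp : Matrix ι ι (E →L[ℂ] E) → _) := by
  intro a b h
  ext1 i j
  rw [← entry_matOp a, ← entry_matOp b, h]

theorem entry_mul (X Y : Pw ι E →L[ℂ] Pw ι E) (i j : ι) :
    entry (X * Y) i j = ∑ k, entry X i k * entry Y k j := by
  conv_lhs => rw [← matOp_entry X, ← matOp_entry Y, ← matOp_mul, entry_matOp]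
  simp [Matrix.mul_apply]

theorem entry_star (X : Pw ι E →L[ℂ] Pw ι E) (i j : ι) :
    entry (star X) i j = star (entry X j i) := by
  conv_lhs => rw [← matOp_entry X, matOp_star, entry_matOp]
  simp [Matrix.star_apply]

theorem norm_entry_le (X : Pw ι E →L[ℂ] Pw ι E) (i j : ι) : ‖entry X i j‖ ≤ ‖X‖ := by
  refine ContinuousLinearMap.opNorm_le_bound _ (norm_nonneg _) fun v => ?_
  rw [entry_apply]
  calc ‖X (incl E j v) i‖ ≤ ‖X (incl E j v)‖ := PiLp.norm_apply_le _ _
    _ ≤ ‖X‖ * ‖incl E j v‖ := X.le_opNorm _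
    _ = ‖X‖ * ‖v‖ := by rw [norm_incl]

theorem norm_matOp_le (a : Matrix ι ι (E →L[ℂ] E)) (c : ℝ) (hc : 0 ≤ c)
    (h : ∀ i j, ‖a i j‖ ≤ c) : ‖matOp a‖ ≤ (Fintype.card ι : ℝ) * c := by
  refine ContinuousLinearMap.opNorm_le_bound _ (by positivity) fun x => ?_
  have hxj : ∀ j, ‖x j‖ ≤ ‖x‖ := fun j => PiLp.norm_apply_le _ _
  have h1 : ∀ i, ‖matOp a x i‖ ≤ c * ∑ j, ‖x j‖ := by
    intro i
    rw [matOp_apply, Finset.mul_sum]
    refine (norm_sum_le _ _).trans (Finset.sum_le_sum fun j _ => ?_)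
    exact ((a i j).le_opNorm _).trans (mul_le_mul_of_nonneg_right (h i j) (norm_nonneg _))
  have h2 : (∑ j, ‖x j‖) ^ 2 ≤ (Fintype.card ι : ℝ) * ‖x‖ ^ 2 := by
    rw [PiLp.norm_sq_eq_of_L2]
    have := sq_sum_le_card_mul_sum_sq (s := (Finset.univ : Finset ι)) (f := fun j => ‖x j‖)
    simpa using this
  have h3 : ‖matOp a x‖ ^ 2 ≤ ((Fintype.card ι : ℝ) * c * ‖x‖) ^ 2 := by
    rw [PiLp.norm_sq_eq_of_L2]
    calc ∑ i, ‖matOp a x i‖ ^ 2 ≤ ∑ _i : ι, (c * ∑ j, ‖x j‖) ^ 2 := by
          refine Finset.sum_le_sum fun i _ => ?_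
          exact pow_le_pow_left₀ (norm_nonneg _) (h1 i) 2
      _ = (Fintype.card ι : ℝ) * (c ^ 2 * (∑ j, ‖x j‖) ^ 2) := by
          rw [Finset.sum_const, Finset.card_univ, nsmul_eq_mul, mul_pow]
      _ ≤ (Fintype.card ι : ℝ) * (c ^ 2 * ((Fintype.card ι : ℝ) * ‖x‖ ^ 2)) := by
          gcongr
      _ = ((Fintype.card ι : ℝ) * c * ‖x‖) ^ 2 := by ring
  exact (sq_le_sq₀ (norm_nonneg _) (by positivity)).1 h3

/-- If each entry is the commutator with T then the operator is the commutator with amp T. -/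
theorem amp_comm (T : E →L[ℂ] E) (a : Matrix ι ι (E →L[ℂ] E)) :
    amp ι T * matOp a - matOp a * amp ι T = matOp (Matrix.of fun i j => T * a i j - a i j * T) := by
  rw [amp, ← matOp_mul, ← matOp_mul, ← matOp_sub]
  congr 1
  ext1 i j
  simp [Matrix.diagonal_mul, Matrix.mul_diagonal]

theorem amp_mul (S T : E →L[ℂ] E) : amp ι S * amp ι T = amp ι (S * T) := by
  rw [amp, amp, amp, ← matOp_mul, Matrix.diagonal_mul_diagonal]

theorem star_amp (T : E →L[ℂ] E) : star (amp ι T) = amp ι (star T) := by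
  rw [amp, amp, matOp_star, Matrix.star_eq_conjTranspose, Matrix.diagonal_conjTranspose]
  rfl

theorem norm_amp_le (T : E →L[ℂ] E) : ‖amp ι T‖ ≤ ‖T‖ := by
  refine ContinuousLinearMap.opNorm_le_bound _ (norm_nonneg _) fun x => ?_
  have h3 : ‖amp ι T x‖ ^ 2 ≤ (‖T‖ * ‖x‖) ^ 2 := by
    rw [PiLp.norm_sq_eq_of_L2, mul_pow, PiLp.norm_sq_eq_of_L2, Finset.mul_sum]
    refine Finset.sum_le_sum fun i _ => ?_
    rw [amp_apply, ← mul_pow]
    exact pow_le_pow_left₀ (norm_nonneg _) (T.le_opNorm _) 2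
  exact (sq_le_sq₀ (norm_nonneg _) (by positivity)).1 h3

/-- Operators on the l2-sum all of whose entries lie in the star subalgebra A. -/
noncomputable def matAlg (ι : Type*) [Fintype ι] [DecidableEq ι]
    (A : StarSubalgebra ℂ (E →L[ℂ] E)) : StarSubalgebra ℂ (Pw ι E →L[ℂ] Pw ι E) where
  carrier := {X | ∀ i j, entry X i j ∈ A}
  mul_mem' := by
    intro X Y hX hY i j
    rw [entry_mul]
    exact sum_mem fun k _ => mul_mem (hX i k) (hY k j)
  one_mem' := by
    intro i j
    rw [← matOp_one, entry_matOp]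
    by_cases h : i = j
    · subst h
      rw [Matrix.one_apply_eq]
      exact one_mem A
    · rw [Matrix.one_apply_ne h]
      exact zero_mem A
  add_mem' := by
    intro X Y hX hY i j
    have h : entry (X + Y) i j = entry X i j + entry Y i j := by
      ext v
      simp [entry_apply]
    rw [h]
    exact add_mem (hX i j) (hY i j)
  zero_mem' := by
    intro i j
    have h : entry (0 : Pw ι E →L[ℂ] Pw ι E) i j = 0 := by
      ext v
      simp [entry_apply]
    rw [h]
    exact zero_mem A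
  algebraMap_mem' := by
    intro r i j
    have h : entry (algebraMap ℂ (Pw ι E →L[ℂ] Pw ι E) r) i j =
        r • (1 : Matrix ι ι (E →L[ℂ] E)) i j := by
      rw [Algebra.algebraMap_eq_smul_one, ← matOp_one, ← matOp_smul, entry_matOp,
        Matrix.smul_apply]
    rw [h]
    by_cases h : i = j
    · subst h
      rw [Matrix.one_apply_eq]
      exact SMulMemClass.smul_mem r (one_mem A)
    · rw [Matrix.one_apply_ne h]
      exact SMulMemClass.smul_mem r (zero_mem A)
  star_mem' := by
    intro X hX i j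
    rw [entry_star]
    exact star_mem (hX j i)

theorem mem_matAlg (A : StarSubalgebra ℂ (E →L[ℂ] E)) (X : Pw ι E →L[ℂ] Pw ι E) :
    X ∈ matAlg ι A ↔ ∀ i j, entry X i j ∈ A := Iff.rfl

theorem isClosed_matAlg (A : StarSubalgebra ℂ (E →L[ℂ] E))
    (hA : IsClosed (A : Set (E →L[ℂ] E))) :
    IsClosed (matAlg ι A : Set (Pw ι E →L[ℂ] Pw ι E)) := by
  have hcont : ∀ i j : ι, Continuous fun X : Pw ι E →L[ℂ] Pw ι E => entry X i j := by
    intro i j
    unfold entry
    exact (continuous_const.clm_comp (continuous_id.clm_comp continuous_const))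
  have h : (matAlg ι A : Set (Pw ι E →L[ℂ] Pw ι E)) =
      ⋂ i : ι, ⋂ j : ι, (fun X : Pw ι E →L[ℂ] Pw ι E => entry X i j) ⁻¹' (A : Set (E →L[ℂ] E)) := by
    ext X
    simp only [Set.mem_iInter, Set.mem_preimage, SetLike.mem_coe, mem_matAlg]
  rw [h]
  exact isClosed_iInter fun i => isClosed_iInter fun j => hA.preimage (hcont i j)

end Pool.Agent.Helper93.SP
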