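/-
Block SP-APX (about 250 lines).  A Kaplansky type approximation.  A closed unital star subalgebra
of B(E), ζ, θ in E^r with ⟪θ, amp S ζ⟫ = 0 for every S in the commutant A'.  Then for ε > 0 there
is a selfadjoint contraction X in matAlg A with ‖X ζ - ζ‖ ≤ ε, ‖X θ‖ ≤ ε.

Proof.  B = matAlg (Fin r) A, acting on E^r.
(0) B' = {amp S : S in A'} (B contains the matrix units, whose entries are 0 and 1).
(1) CLAIM: for ε' > 0 there is a selfadjoint b in B with ‖b ζ - ζ‖ ≤ ε', ‖b θ‖ ≤ ε'.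
    The set R = {(b ζ, b θ) : b in B selfadjoint} is a real subspace of the real Hilbert space
    E^r × E^r (l2-product; `Pw (Fin 2) (Pw (Fin r) E)` with `InnerProductSpace.rclikeToReal` /
    restrictScalars, real inner product = Re).  If (ζ, 0) is not in its closure there are α, β in
    E^r with Re(⟪α, b ζ⟫ + ⟪β, b θ⟫) = 0 for all selfadjoint b in B and Re ⟪α, ζ⟫ ≠ 0 (orthogonal
    projection).  Put F(b) = ⟪α, bζ⟫ + ⟪β, bθ⟫ + ⟪ζ, bα⟫ + ⟪θ, bβ⟫, complex linear in b; for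
    selfadjoint b it is 2 Re(⟪α, bζ⟫ + ⟪β, bθ⟫) = 0, hence F = 0 on B.  In (E^r)^4 let
    x = (ζ, θ, α, β), y = (α, β, ζ, θ); F(b) = ⟪y, (amp b) x⟫.  Let e be the projection onto the
    closure of {(amp b) x : b in B}; it commutes with amp b for b in B (invariant subspace of a
    star algebra), e x = x, e y = 0.  The entries e_kl (k, l in Fin 4) lie in B'.
    Let p be the projection of E^r onto the closure of {S' ζ : S' in B'}: p commutes with B', hence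
    amp p (on (E^r)^4) commutes with e; p ζ = ζ, and p θ = 0 by hypothesis and (0).  So
     0 = ⟪e y, (amp p) x⟫ = ⟪y, (amp p) e x⟫ = ⟪y, (amp p) x⟫ = ⟪α, pζ⟫ + ⟪β, pθ⟫ + ⟪ζ, pα⟫ + ⟪θ, pβ⟫
       = ⟪α, ζ⟫ + 0 + ⟪ζ, α⟫ + 0 = 2 Re ⟪α, ζ⟫, a contradiction.
(2) X = f(b), f(t) = 2t/(1 + t^2) (cfc), |f| ≤ 1, X in B since B is closed (isClosed_matAlg,
    cfc_mem_elemental).  Write R1 = (1 + b^2)⁻¹, X = 2 b R1 = 2 R1 b.  With bζ = ζ + v, ‖v‖ ≤ ε':
    (1 + b^2) ζ = 2ζ + v + b v, so 2 R1 ζ = ζ - R1 (v + b v), X ζ = b(2 R1 ζ)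
    = bζ - b R1 (1 + b) v = ζ + v - b R1 (1 + b) v, ‖b R1 (1 + b)‖ ≤ 2 (|t/(1+t^2)| ≤ 1/2,
    t^2/(1+t^2) ≤ 1), so ‖Xζ - ζ‖ ≤ 3 ε'.  ‖X θ‖ = ‖2 R1 (b θ)‖ ≤ 2 ε'.
-/
import Pool.Agent.Helper93.SP.Mat

set_option autoImplicit false

open scoped InnerProductSpace ComplexConjugate ENNReal NNReal
open Filter Topology

namespace Pool.Agent.Helper93.SP



section abstract45

variable {K : Type*} [NormedAddCommGroup K] [InnerProductSpace ℂ K] [CompleteSpace K]

/-- The projection onto a subspace invariant under b and its adjoint commutes with b. -/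
private theorem proj_comm45 (V : Submodule ℂ K) [V.HasOrthogonalProjection] (b : K →L[ℂ] K)
    (h1 : ∀ v ∈ V, b v ∈ V) (h2 : ∀ v ∈ V, (star b) v ∈ V) :
    V.starProjection * b = b * V.starProjection := by
  ext x
  rw [ContinuousLinearMap.mul_apply, ContinuousLinearMap.mul_apply]
  refine Submodule.eq_starProjection_of_mem_of_inner_eq_zero
    (h1 _ (Submodule.starProjection_apply_mem V x)) fun w hw => ?_
  have h3 : b x - b (V.starProjection x) = b (x - V.starProjection x) := by rw [map_sub]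
  rw [h3, ← ContinuousLinearMap.adjoint_inner_right, ← ContinuousLinearMap.star_eq_adjoint]
  exact Submodule.starProjection_inner_eq_zero x _ (h2 w hw)

/-- The cyclic subspace of a star subalgebra. -/
private noncomputable def cyc45 (B : StarSubalgebra ℂ (K →L[ℂ] K)) (x : K) : Submodule ℂ K :=
  (B.toSubalgebra.toSubmodule.map
    ((ContinuousLinearMap.apply ℂ K x : (K →L[ℂ] K) →L[ℂ] K) : (K →L[ℂ] K) →ₗ[ℂ] K))

private theorem mem_cyc45 (B : StarSubalgebra ℂ (K →L[ℂ] K)) (x y : K) :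
    y ∈ cyc45 B x ↔ ∃ b ∈ B, b x = y := by
  simp only [cyc45, Submodule.mem_map]
  rfl

private theorem cyc_inv45 (B : StarSubalgebra ℂ (K →L[ℂ] K)) (x : K) (b : K →L[ℂ] K)
    (hb : b ∈ B) : ∀ v ∈ (cyc45 B x).topologicalClosure, b v ∈ (cyc45 B x).topologicalClosure := by
  intro v hv
  have hv' : v ∈ closure (cyc45 B x : Set K) := hv
  have h1 : b v ∈ closure (cyc45 B x : Set K) := by
    refine map_mem_closure b.continuous hv' fun w hw => ?_
    obtain ⟨c, hc, rfl⟩ := (mem_cyc45 B x w).1 hw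
    exact (mem_cyc45 B x _).2 ⟨b * c, mul_mem hb hc, rfl⟩
  exact h1

private theorem cyc_comm45 (B : StarSubalgebra ℂ (K →L[ℂ] K)) (x : K) (b : K →L[ℂ] K)
    (hb : b ∈ B) :
    (cyc45 B x).topologicalClosure.starProjection * b =
      b * (cyc45 B x).topologicalClosure.starProjection :=
  proj_comm45 _ b (cyc_inv45 B x b hb) (cyc_inv45 B x (star b) (star_mem hb))

private theorem cyc_self45 (B : StarSubalgebra ℂ (K →L[ℂ] K)) (x : K) :
    (cyc45 B x).topologicalClosure.starProjection x = x := by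
  rw [Submodule.starProjection_eq_self_iff]
  exact Submodule.le_topologicalClosure _ ((mem_cyc45 B x x).2 ⟨1, one_mem B, rfl⟩)

private theorem cyc_perp45 (B : StarSubalgebra ℂ (K →L[ℂ] K)) (x y : K)
    (h : ∀ b ∈ B, ⟪y, b x⟫_ℂ = 0) :
    (cyc45 B x).topologicalClosure.starProjection y = 0 := by
  rw [Submodule.starProjection_apply_eq_zero_iff]
  rw [Submodule.orthogonal_closure]
  intro w hw
  obtain ⟨b, hb, rfl⟩ := (mem_cyc45 B x w).1 hw
  rw [← inner_conj_symm, h b hb, map_zero]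

/-- The commutant. -/
private noncomputable def cmt45 (B : StarSubalgebra ℂ (K →L[ℂ] K)) :
    StarSubalgebra ℂ (K →L[ℂ] K) where
  carrier := {S | ∀ b ∈ B, S * b = b * S}
  mul_mem' := by
    intro S T hS hT b hb
    rw [mul_assoc, hT b hb, ← mul_assoc, hS b hb, mul_assoc]
  one_mem' := by
    intro b _
    rw [one_mul, mul_one]
  add_mem' := by
    intro S T hS hT b hb
    rw [add_mul, mul_add, hS b hb, hT b hb]
  zero_mem' := by
    intro b _
    rw [zero_mul, mul_zero]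
  algebraMap_mem' := by
    intro r b _
    exact Algebra.commutes r b
  star_mem' := by
    intro S hS b hb
    have h := hS (star b) (star_mem hb)
    have h2 := congrArg star h
    rw [star_mul, star_mul, star_star] at h2
    exact h2.symm

private theorem mem_cmt45 (B : StarSubalgebra ℂ (K →L[ℂ] K)) (S : K →L[ℂ] K) :
    S ∈ cmt45 B ↔ ∀ b ∈ B, S * b = b * S := Iff.rfl

/-- The amplified algebra. -/
private noncomputable def ampAlg45 (n : ℕ) (B : StarSubalgebra ℂ (K →L[ℂ] K)) :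
    StarSubalgebra ℂ (Pw (Fin n) K →L[ℂ] Pw (Fin n) K) where
  carrier := {X | ∃ b ∈ B, X = amp (Fin n) b}
  mul_mem' := by
    rintro _ _ ⟨b, hb, rfl⟩ ⟨c, hc, rfl⟩
    exact ⟨b * c, mul_mem hb hc, amp_mul b c⟩
  one_mem' := ⟨1, one_mem B, by
    ext x i
    rw [amp_apply]
    rfl⟩
  add_mem' := by
    rintro _ _ ⟨b, hb, rfl⟩ ⟨c, hc, rfl⟩
    refine ⟨b + c, add_mem hb hc, ?_⟩
    ext x i
    rw [amp_apply]
    simp [amp_apply]
  zero_mem' := ⟨0, zero_mem B, by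
    ext x i
    rw [amp_apply]
    rfl⟩
  algebraMap_mem' := by
    intro r
    refine ⟨algebraMap ℂ _ r, B.algebraMap_mem r, ?_⟩
    ext x i
    rw [amp_apply]
    simp [Algebra.algebraMap_eq_smul_one]
  star_mem' := by
    rintro _ ⟨b, hb, rfl⟩
    exact ⟨star b, star_mem hb, star_amp b⟩

private theorem mem_ampAlg45 (n : ℕ) (B : StarSubalgebra ℂ (K →L[ℂ] K))
    (X : Pw (Fin n) K →L[ℂ] Pw (Fin n) K) :
    X ∈ ampAlg45 n B ↔ ∃ b ∈ B, X = amp (Fin n) b := Iff.rfl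

private theorem entry_amp_mul45 (n : ℕ) (c : K →L[ℂ] K) (X : Pw (Fin n) K →L[ℂ] Pw (Fin n) K)
    (i j : Fin n) : entry (amp (Fin n) c * X) i j = c * entry X i j := by
  ext v
  rw [entry_apply, ContinuousLinearMap.mul_apply, amp_apply]
  rfl

private theorem entry_mul_amp45 (n : ℕ) (c : K →L[ℂ] K) (X : Pw (Fin n) K →L[ℂ] Pw (Fin n) K)
    (i j : Fin n) : entry (X * amp (Fin n) c) i j = entry X i j * c := by
  have h := entry_amp_mul45 n (star c) (star X) j i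
  have h2 := congrArg star h
  rw [← entry_star, star_mul, star_mul, star_star, star_amp, star_star, ← entry_star,
    star_star] at h2
  exact h2

/-- The separation argument. -/
private theorem sep45 (B : StarSubalgebra ℂ (K →L[ℂ] K)) (ζ θ α β : K)
    (h0 : ∀ S ∈ cmt45 B, ⟪θ, S ζ⟫_ℂ = 0)
    (hF : ∀ b ∈ B, ⟪α, b ζ⟫_ℂ + ⟪β, b θ⟫_ℂ + ⟪ζ, b α⟫_ℂ + ⟪θ, b β⟫_ℂ = 0) :
    ⟪α, ζ⟫_ℂ + ⟪ζ, α⟫_ℂ = 0 := by
  obtain ⟨x, hx⟩ : ∃ x : Pw (Fin 4) K, x = WithLp.toLp 2 ![ζ, θ, α, β] := ⟨_, rfl⟩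
  obtain ⟨y, hy⟩ : ∃ y : Pw (Fin 4) K, y = WithLp.toLp 2 ![α, β, ζ, θ] := ⟨_, rfl⟩
  have hin : ∀ T : K →L[ℂ] K, ⟪y, amp (Fin 4) T x⟫_ℂ =
      ⟪α, T ζ⟫_ℂ + ⟪β, T θ⟫_ℂ + ⟪ζ, T α⟫_ℂ + ⟪θ, T β⟫_ℂ := by
    intro T
    rw [PiLp.inner_apply, Fin.sum_univ_four]
    simp only [amp_apply]
    rw [hx, hy]
    rfl
  obtain ⟨e, he⟩ : ∃ e, e = (cyc45 (ampAlg45 4 B) x).topologicalClosure.starProjection := ⟨_, rfl⟩
  have hex : e x = x := by rw [he]; exact cyc_self45 _ x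
  have hey : e y = 0 := by
    rw [he]
    refine cyc_perp45 _ x y ?_
    rintro _ ⟨b, hb, rfl⟩
    rw [hin]
    exact hF b hb
  have hec : ∀ b ∈ B, e * amp (Fin 4) b = amp (Fin 4) b * e := by
    intro b hb
    rw [he]
    exact cyc_comm45 _ x _ ⟨b, hb, rfl⟩
  have hent : ∀ i j, entry e i j ∈ cmt45 B := by
    intro i j b hb
    have h := congrArg (fun X => entry X i j) (hec b hb)
    simp only [entry_mul_amp45, entry_amp_mul45] at h
    exact h
  obtain ⟨p, hp⟩ : ∃ p, p = (cyc45 (cmt45 B) ζ).topologicalClosure.starProjection := ⟨_, rfl⟩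
  have hpζ : p ζ = ζ := by rw [hp]; exact cyc_self45 _ ζ
  have hpθ : p θ = 0 := by rw [hp]; exact cyc_perp45 _ ζ θ h0
  have hpc : ∀ S ∈ cmt45 B, p * S = S * p := by
    intro S hS
    rw [hp]
    exact cyc_comm45 _ ζ S hS
  have hpe : amp (Fin 4) p * e = e * amp (Fin 4) p := by
    have h := amp_comm (ι := Fin 4) p (Matrix.of fun i j => entry e i j)
    rw [matOp_entry] at h
    have h2 : (Matrix.of fun i j => p * (Matrix.of fun i j => entry e i j) i j -
        (Matrix.of fun i j => entry e i j) i j * p : Matrix (Fin 4) (Fin 4) (K →L[ℂ] K)) = 0 := by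
      ext1 i j
      simp only [Matrix.of_apply, Matrix.zero_apply]
      rw [hpc _ (hent i j), sub_self]
    rw [h2] at h
    have h3 : matOp (0 : Matrix (Fin 4) (Fin 4) (K →L[ℂ] K)) = 0 := by
      ext v i
      rw [matOp_apply]
      simp
    rw [h3] at h
    exact sub_eq_zero.1 h
  have hpself : ∀ u v : K, ⟪u, p v⟫_ℂ = ⟪p u, v⟫_ℂ := by
    intro u v
    rw [hp]
    exact (Submodule.inner_starProjection_left_eq_right _ u v).symm
  have heself : ∀ u v, ⟪u, e v⟫_ℂ = ⟪e u, v⟫_ℂ := by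
    intro u v
    rw [he]
    exact (Submodule.inner_starProjection_left_eq_right _ u v).symm
  have h1 : ⟪y, amp (Fin 4) p x⟫_ℂ = 0 := by
    have h2 : amp (Fin 4) p x = e (amp (Fin 4) p x) := by
      have h3 := congrArg (fun X => X x) hpe
      simp only [ContinuousLinearMap.mul_apply] at h3
      rw [hex] at h3
      exact h3
    rw [h2, heself, hey, inner_zero_left]
  rw [hin, hpζ, hpθ, inner_zero_right, hpself ζ α, hpself θ β, hpζ, hpθ, inner_zero_left] at h1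
  simpa using h1

private theorem claim45 (B : StarSubalgebra ℂ (K →L[ℂ] K)) (ζ θ : K)
    (h0 : ∀ S ∈ cmt45 B, ⟪θ, S ζ⟫_ℂ = 0) (ε : ℝ) (hε : 0 < ε) :
    ∃ b ∈ B, IsSelfAdjoint b ∧ ‖b ζ - ζ‖ ≤ ε ∧ ‖b θ‖ ≤ ε := by
  by_contra hno
  push Not at hno
  obtain ⟨s, hs⟩ : ∃ s : Set (K × K), s = {z | ∃ b ∈ B, IsSelfAdjoint b ∧ z = (b ζ, b θ)} :=
    ⟨_, rfl⟩
  have hconv : Convex ℝ s := by
    rw [hs]
    rintro _ ⟨b, hb, hbs, rfl⟩ _ ⟨c, hc, hcs, rfl⟩ u v _ _ _
    refine ⟨(u : ℂ) • b + (v : ℂ) • c,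
      add_mem (SMulMemClass.smul_mem _ hb) (SMulMemClass.smul_mem _ hc), ?_, ?_⟩
    · refine IsSelfAdjoint.add ?_ ?_
      · rw [IsSelfAdjoint, star_smul, hbs.star_eq]
        simp
      · rw [IsSelfAdjoint, star_smul, hcs.star_eq]
        simp
    · ext
      · simp
      · simp
  have hnot : ((ζ, 0) : K × K) ∉ closure s := by
    intro hmem
    rw [Metric.mem_closure_iff] at hmem
    obtain ⟨z, hz, hd⟩ := hmem ε hε
    rw [hs] at hz
    obtain ⟨b, hb, hbs, rfl⟩ := hz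
    rw [Prod.dist_eq, max_lt_iff] at hd
    have h1 : ‖b ζ - ζ‖ ≤ ε := by
      rw [← dist_eq_norm, dist_comm]
      exact hd.1.le
    have h2 := hno b hb hbs h1
    have h3 : dist (0 : K) (b θ) < ε := hd.2
    rw [dist_zero_left] at h3
    exact absurd h3 (not_lt.2 h2.le)
  obtain ⟨f, u, hf1, hf2⟩ := RCLike.geometric_hahn_banach_closed_point (𝕜 := ℂ) hconv.closure
    isClosed_closure hnot
  obtain ⟨α, hα⟩ : ∃ α : K, ∀ x, ⟪α, x⟫_ℂ = f (x, 0) :=
    ⟨(InnerProductSpace.toDual ℂ K).symm (f.comp (ContinuousLinearMap.inl ℂ K K)), fun x => by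
      rw [InnerProductSpace.toDual_symm_apply]
      rfl⟩
  obtain ⟨β, hβ⟩ : ∃ β : K, ∀ x, ⟪β, x⟫_ℂ = f (0, x) :=
    ⟨(InnerProductSpace.toDual ℂ K).symm (f.comp (ContinuousLinearMap.inr ℂ K K)), fun x => by
      rw [InnerProductSpace.toDual_symm_apply]
      rfl⟩
  have hfe : ∀ x y : K, f (x, y) = ⟪α, x⟫_ℂ + ⟪β, y⟫_ℂ := by
    intro x y
    rw [hα, hβ, ← map_add]
    simp
  -- selfadjoint elements give zero
  have hlt : ∀ b ∈ B, IsSelfAdjoint b → (⟪α, b ζ⟫_ℂ + ⟪β, b θ⟫_ℂ).re < u := by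
    intro b hb hbs
    have := hf1 (b ζ, b θ) (subset_closure (by rw [hs]; exact ⟨b, hb, hbs, rfl⟩))
    rw [hfe] at this
    exact this
  have hzero : ∀ b ∈ B, IsSelfAdjoint b → (⟪α, b ζ⟫_ℂ + ⟪β, b θ⟫_ℂ).re = 0 := by
    intro b hb hbs
    have hsc : ∀ t : ℝ, t * (⟪α, b ζ⟫_ℂ + ⟪β, b θ⟫_ℂ).re < u := by
      intro t
      have h1 := hlt ((t : ℂ) • b) (SMulMemClass.smul_mem _ hb) (by
        rw [IsSelfAdjoint, star_smul, hbs.star_eq]
        simp)
      have h2 : ⟪α, ((t : ℂ) • b) ζ⟫_ℂ + ⟪β, ((t : ℂ) • b) θ⟫_ℂ =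
          (t : ℂ) * (⟪α, b ζ⟫_ℂ + ⟪β, b θ⟫_ℂ) := by
        simp only [ContinuousLinearMap.smul_apply, inner_smul_right]
        ring
      rw [h2, Complex.re_ofReal_mul] at h1
      exact h1
    by_contra hne
    have h1 := hsc ((|u| + 1) / (⟪α, b ζ⟫_ℂ + ⟪β, b θ⟫_ℂ).re)
    rw [div_mul_cancel₀ _ hne] at h1
    linarith [le_abs_self u]
  have hu : 0 < u := by
    have := hlt 0 (zero_mem B) (IsSelfAdjoint.zero _)
    simpa using this
  have hαζ : u < (⟪α, ζ⟫_ℂ).re := by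
    have h1 : u < RCLike.re (f (ζ, 0)) := hf2
    rw [hfe, inner_zero_right, add_zero] at h1
    exact h1
  -- F vanishes on selfadjoint elements
  have hFs : ∀ b ∈ B, IsSelfAdjoint b →
      ⟪α, b ζ⟫_ℂ + ⟪β, b θ⟫_ℂ + ⟪ζ, b α⟫_ℂ + ⟪θ, b β⟫_ℂ = 0 := by
    intro b hb hbs
    have hadj : ∀ v w : K, ⟪v, b w⟫_ℂ = conj ⟪w, b v⟫_ℂ := by
      intro v w
      rw [inner_conj_symm, ← ContinuousLinearMap.adjoint_inner_left,
        ← ContinuousLinearMap.star_eq_adjoint, hbs.star_eq]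
    have h1 := hzero b hb hbs
    rw [hadj ζ α, hadj θ β]
    have h2 : ⟪α, b ζ⟫_ℂ + ⟪β, b θ⟫_ℂ + conj ⟪α, b ζ⟫_ℂ + conj ⟪β, b θ⟫_ℂ =
        ((2 * (⟪α, b ζ⟫_ℂ + ⟪β, b θ⟫_ℂ).re : ℝ) : ℂ) := by
      rw [← Complex.add_conj, map_add]
      ring
    rw [h2, h1]
    simp
  have hF : ∀ b ∈ B, ⟪α, b ζ⟫_ℂ + ⟪β, b θ⟫_ℂ + ⟪ζ, b α⟫_ℂ + ⟪θ, b β⟫_ℂ = 0 := by
    intro b hb
    have hr := hFs ((1 / 2 : ℂ) • (b + star b))
      (SMulMemClass.smul_mem _ (add_mem hb (star_mem hb))) (by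
        rw [IsSelfAdjoint, star_smul, star_add, star_star, add_comm]
        simp)
    have hi := hFs ((-Complex.I / 2 : ℂ) • (b - star b))
      (SMulMemClass.smul_mem _ (sub_mem hb (star_mem hb))) (by
        rw [IsSelfAdjoint, star_smul, star_sub, star_star, ← neg_sub, smul_neg, ← neg_smul]
        congr 1
        simp [neg_div])
    have hb2 : b = (1 / 2 : ℂ) • (b + star b) + Complex.I • ((-Complex.I / 2 : ℂ) •
        (b - star b)) := by
      rw [smul_smul]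
      have : Complex.I * (-Complex.I / 2) = 1 / 2 := by
        linear_combination (-1 / 2 : ℂ) * Complex.I_mul_I
      rw [this, ← smul_add]
      rw [add_add_sub_cancel, ← two_smul ℂ b, smul_smul]
      norm_num
    obtain ⟨h, hh⟩ : ∃ h, h = (1 / 2 : ℂ) • (b + star b) := ⟨_, rfl⟩
    obtain ⟨k, hk⟩ : ∃ k, k = (-Complex.I / 2 : ℂ) • (b - star b) := ⟨_, rfl⟩
    rw [← hh] at hr hb2
    rw [← hk] at hi hb2
    rw [hb2]
    simp only [ContinuousLinearMap.add_apply, ContinuousLinearMap.smul_apply, inner_add_right,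
      inner_smul_right]
    linear_combination hr + Complex.I * hi
  have hfin := sep45 B ζ θ α β h0 hF
  have h5 := congrArg Complex.re hfin
  rw [← inner_conj_symm ζ α, Complex.add_re, Complex.conj_re, Complex.zero_re] at h5
  linarith

/-- Functional calculus: a selfadjoint contraction with the same properties. -/
private theorem contr45 (B : StarSubalgebra ℂ (K →L[ℂ] K)) (hB : IsClosed (B : Set (K →L[ℂ] K)))
    (b : K →L[ℂ] K) (hb : b ∈ B) (hbs : IsSelfAdjoint b) (ζ θ : K) (ε : ℝ)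
    (h1 : ‖b ζ - ζ‖ ≤ ε / 2) (h2 : ‖b θ‖ ≤ ε / 2) :
    ∃ X ∈ B, IsSelfAdjoint X ∧ ‖X‖ ≤ 1 ∧ ‖X ζ - ζ‖ ≤ ε ∧ ‖X θ‖ ≤ ε := by
  have hpos : ∀ t : ℝ, 0 < 1 + t ^ 2 := fun t => by positivity
  have hc1 : Continuous fun t : ℝ => 2 / (1 + t ^ 2) := by
    exact continuous_const.div (by fun_prop) fun t => (hpos t).ne'
  have hc2 : Continuous fun t : ℝ => (1 - t) / (1 + t ^ 2) := by
    exact (by fun_prop : Continuous fun t : ℝ => 1 - t).div (by fun_prop) fun t => (hpos t).ne'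
  have hX : cfc (fun t : ℝ => 2 * t / (1 + t ^ 2)) b = cfc (fun t : ℝ => 2 / (1 + t ^ 2)) b * b := by
    conv_rhs => rw [← cfc_id' ℝ b]
    rw [cfc_id' ℝ b]
    have h3 : cfc (fun t : ℝ => 2 / (1 + t ^ 2) * t) b =
        cfc (fun t : ℝ => 2 / (1 + t ^ 2)) b * cfc (fun t : ℝ => t) b :=
      cfc_mul (fun t : ℝ => 2 / (1 + t ^ 2)) (fun t : ℝ => t) b hc1.continuousOn
        continuous_id.continuousOn
    rw [cfc_id' ℝ b] at h3
    rw [← h3]
    congr 1
    ext t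
    ring
  have hY : cfc (fun t : ℝ => 2 * t / (1 + t ^ 2)) b - 1 =
      cfc (fun t : ℝ => (1 - t) / (1 + t ^ 2)) b * (b - 1) := by
    have h3 : cfc (fun t : ℝ => (1 - t) / (1 + t ^ 2) * (t - 1)) b =
        cfc (fun t : ℝ => (1 - t) / (1 + t ^ 2)) b * cfc (fun t : ℝ => t - 1) b :=
      cfc_mul (fun t : ℝ => (1 - t) / (1 + t ^ 2)) (fun t : ℝ => t - 1) b hc2.continuousOn
        (by fun_prop)
    have h4 : cfc (fun t : ℝ => t - 1) b = b - 1 := by
      rw [cfc_sub (fun t : ℝ => t) (fun _ => (1 : ℝ)) b continuous_id.continuousOn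
        continuous_const.continuousOn, cfc_id' ℝ b, cfc_const_one ℝ b]
    have h5 : cfc (fun t : ℝ => 2 * t / (1 + t ^ 2) - 1) b =
        cfc (fun t : ℝ => 2 * t / (1 + t ^ 2)) b - 1 := by
      rw [cfc_sub (fun t : ℝ => 2 * t / (1 + t ^ 2)) (fun _ => (1 : ℝ)) b
        (by
          exact ((by fun_prop : Continuous fun t : ℝ => 2 * t).div (by fun_prop)
            fun t => (hpos t).ne').continuousOn)
        continuous_const.continuousOn, cfc_const_one ℝ b]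
    rw [← h5, ← h4, ← h3]
    congr 1
    ext t
    have := (hpos t).ne'
    field_simp
    ring
  have : IsClosed (B : Set (K →L[ℂ] K)) := hB
  have hmem : cfc (fun t : ℝ => 2 * t / (1 + t ^ 2)) b ∈ B :=
    cfc_mem (𝕜 := ℝ) (𝕜' := ℂ) (s := B) _ hb
  have hsa : IsSelfAdjoint (cfc (fun t : ℝ => 2 * t / (1 + t ^ 2)) b) := cfc_predicate _ _
  have hn1 : ‖cfc (fun t : ℝ => 2 * t / (1 + t ^ 2)) b‖ ≤ 1 := by
    refine norm_cfc_le zero_le_one fun t _ => ?_
    rw [Real.norm_eq_abs, abs_le]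
    constructor
    · rw [le_div_iff₀ (hpos t)]
      nlinarith [sq_nonneg (t + 1)]
    · rw [div_le_iff₀ (hpos t)]
      nlinarith [sq_nonneg (t - 1)]
  have hn2 : ‖cfc (fun t : ℝ => 2 / (1 + t ^ 2)) b‖ ≤ 2 := by
    refine norm_cfc_le zero_le_two fun t _ => ?_
    rw [Real.norm_eq_abs, abs_of_pos (div_pos two_pos (hpos t)), div_le_iff₀ (hpos t)]
    nlinarith [sq_nonneg t]
  have hn3 : ‖cfc (fun t : ℝ => (1 - t) / (1 + t ^ 2)) b‖ ≤ 2 := by
    refine norm_cfc_le zero_le_two fun t _ => ?_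
    rw [Real.norm_eq_abs, abs_le]
    constructor
    · rw [le_div_iff₀ (hpos t)]
      nlinarith [sq_nonneg (t - 1), sq_nonneg t]
    · rw [div_le_iff₀ (hpos t)]
      nlinarith [sq_nonneg (t + 1), sq_nonneg t]
  refine ⟨_, hmem, hsa, hn1, ?_, ?_⟩
  · have h6 : cfc (fun t : ℝ => 2 * t / (1 + t ^ 2)) b ζ - ζ =
        cfc (fun t : ℝ => (1 - t) / (1 + t ^ 2)) b (b ζ - ζ) := by
      have h7 := congrArg (fun T : K →L[ℂ] K => T ζ) hY
      simpa using h7
    rw [h6]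
    calc _ ≤ ‖cfc (fun t : ℝ => (1 - t) / (1 + t ^ 2)) b‖ * ‖b ζ - ζ‖ :=
          ContinuousLinearMap.le_opNorm _ _
      _ ≤ 2 * (ε / 2) := by gcongr
      _ = ε := by ring
  · have h6 : cfc (fun t : ℝ => 2 * t / (1 + t ^ 2)) b θ =
        cfc (fun t : ℝ => 2 / (1 + t ^ 2)) b (b θ) := by
      have h7 := congrArg (fun T : K →L[ℂ] K => T θ) hX
      simpa using h7
    rw [h6]
    calc _ ≤ ‖cfc (fun t : ℝ => 2 / (1 + t ^ 2)) b‖ * ‖b θ‖ :=
          ContinuousLinearMap.le_opNorm _ _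
      _ ≤ 2 * (ε / 2) := by gcongr
      _ = ε := by ring

end abstract45

variable {E : Type*} [NormedAddCommGroup E] [InnerProductSpace ℂ E] [CompleteSpace E]

/-- Matrix units. -/
private noncomputable def mu45 (r : ℕ) (i j : Fin r) (a : E →L[ℂ] E) :
    Pw (Fin r) E →L[ℂ] Pw (Fin r) E :=
  matOp (Matrix.single i j a)

private theorem mu_mem45 (A : StarSubalgebra ℂ (E →L[ℂ] E)) (r : ℕ) (i j : Fin r)
    (a : E →L[ℂ] E) (ha : a ∈ A) : mu45 r i j a ∈ matAlg (Fin r) A := by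
  intro k l
  rw [mu45, entry_matOp, Matrix.single_apply]
  split_ifs
  · exact ha
  · exact zero_mem A

private theorem cmt_mat45 (A : StarSubalgebra ℂ (E →L[ℂ] E)) (r : ℕ) (ζ θ : Pw (Fin r) E)
    (h0 : ∀ S : E →L[ℂ] E, (∀ a ∈ A, S * a = a * S) → ⟪θ, amp (Fin r) S ζ⟫_ℂ = 0) :
    ∀ S ∈ cmt45 (matAlg (Fin r) A), ⟪θ, S ζ⟫_ℂ = 0 := by
  intro S hS
  rcases Nat.eq_zero_or_pos r with hr | hr
  · subst hr
    rw [PiLp.inner_apply]
    simp
  · have key : ∀ (a : E →L[ℂ] E), a ∈ A → ∀ i j k l : Fin r,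
        (if j = l then entry S k i * a else 0) = if k = i then a * entry S j l else 0 := by
      intro a ha i j k l
      have h := congrArg (fun X => entry X k l) (hS _ (mu_mem45 A r i j a ha))
      simp only [entry_mul, mu45, entry_matOp, Matrix.single_apply] at h
      have e1 : ∑ x : Fin r, entry S k x * (if i = x ∧ j = l then a else 0) =
          if j = l then entry S k i * a else 0 := by
        rw [Finset.sum_eq_single i]
        · by_cases hjl : j = l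
          · simp [hjl]
          · simp [hjl]
        · intro x _ hx
          rw [if_neg (fun hc => hx hc.1.symm), mul_zero]
        · intro hx
          exact absurd (Finset.mem_univ _) hx
      have e2 : ∑ x : Fin r, (if i = k ∧ j = x then a else 0) * entry S x l =
          if k = i then a * entry S j l else 0 := by
        rw [Finset.sum_eq_single j]
        · by_cases hki : k = i
          · simp [hki]
          · simp [hki, Ne.symm hki]
        · intro x _ hx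
          rw [if_neg (fun hc => hx hc.2.symm), zero_mul]
        · intro hx
          exact absurd (Finset.mem_univ _) hx
      rw [e1, e2] at h
      exact h
    have hone : (1 : E →L[ℂ] E) ∈ A := one_mem A
    obtain ⟨T, hT⟩ : ∃ T, T = entry S ⟨0, hr⟩ ⟨0, hr⟩ := ⟨_, rfl⟩
    have hdiag : ∀ i : Fin r, entry S i i = T := by
      intro i
      have h := key 1 hone i ⟨0, hr⟩ i ⟨0, hr⟩
      simp only [if_true, mul_one, one_mul] at h
      rw [h, hT]
    have hoff : ∀ k i : Fin r, k ≠ i → entry S k i = 0 := by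
      intro k i hki
      have h := key 1 hone i i k i
      simp only [if_true, mul_one, one_mul, if_neg hki] at h
      exact h
    have hTA : ∀ a ∈ A, T * a = a * T := by
      intro a ha
      have h := key a ha ⟨0, hr⟩ ⟨0, hr⟩ ⟨0, hr⟩ ⟨0, hr⟩
      simp only [if_true] at h
      rw [hT]
      exact h
    have hSe : S = amp (Fin r) T := by
      rw [amp, ← matOp_entry S]
      congr 1
      ext1 i j
      by_cases hij : i = j
      · subst hij
        rw [Matrix.of_apply, Matrix.diagonal_apply_eq, hdiag]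
      · rw [Matrix.of_apply, Matrix.diagonal_apply_ne _ hij, hoff i j hij]
    rw [hSe]
    exact h0 T hTA

theorem apx (A : StarSubalgebra ℂ (E →L[ℂ] E)) (hA : IsClosed (A : Set (E →L[ℂ] E)))
    (r : ℕ) (ζ θ : Pw (Fin r) E)
    (h0 : ∀ S : E →L[ℂ] E, (∀ a ∈ A, S * a = a * S) → ⟪θ, amp (Fin r) S ζ⟫_ℂ = 0)
    (ε : ℝ) (hε : 0 < ε) :
    ∃ X : Pw (Fin r) E →L[ℂ] Pw (Fin r) E, X ∈ matAlg (Fin r) A ∧ IsSelfAdjoint X ∧ ‖X‖ ≤ 1 ∧
      ‖X ζ - ζ‖ ≤ ε ∧ ‖X θ‖ ≤ ε := by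
  obtain ⟨b, hb, hbs, h1, h2⟩ := claim45 (matAlg (Fin r) A) ζ θ (cmt_mat45 A r ζ θ h0) (ε / 2)
    (half_pos hε)
  obtain ⟨X, hX, hXs, hn, h3, h4⟩ := contr45 (matAlg (Fin r) A) (isClosed_matAlg A hA) b hb hbs
    ζ θ ε h1 h2
  exact ⟨X, hX, hXs, hn, h3, h4⟩

end Pool.Agent.Helper93.SP
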