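/-
Block SP-WORD (about 120 lines).  First and last letters of reduced words in a free group.
`hd ω = ω.toWord.head?`, `lst ω = ω.toWord.getLast?` (classical decidable equality).

Hints: `FreeGroup.toWord_mul`, `FreeGroup.reduce.cons`, `FreeGroup.toWord_of`,
`FreeGroup.toWord_inv`, `FreeGroup.toWord_eq_nil_iff`, `FreeGroup.isReduced_toWord`,
`FreeGroup.reduce_toWord`, `FreeGroup.map.mk` / `FreeGroup.map_mk`.
* hd_of_mul: toWord (of x * ω) = reduce ((x,true) :: toWord ω); as toWord ω is reduced and its head
  is not (x,false), the cons is not cancelled, so the word is (x,true) :: toWord ω.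
* hd_shift: toWord of the image under an injective relabelling of the letters is the relabelled
  word (the relabelled word is again reduced).
-/
import Pool.Agent.Helper93.SP.Defs

set_option autoImplicit false

namespace Pool.Agent.Helper93.SP

section aux38

variable {α : Type*}

private theorem isReduced_cons38 {α : Type*} (a : α × Bool) (L : List (α × Bool))
    (hL : FreeGroup.IsReduced L) (h : L.head? ≠ some (a.1, !a.2)) :
    FreeGroup.IsReduced (a :: L) := by
  cases L with
  | nil => exact FreeGroup.IsReduced.singleton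
  | cons b L =>
    rw [FreeGroup.isReduced_cons_cons]
    refine ⟨fun hab => ?_, hL⟩
    by_contra hne
    apply h
    rw [List.head?_cons]
    congr 1
    apply Prod.ext
    · exact hab.symm
    · change b.2 = !a.2
      revert hne
      cases a.2 <;> cases b.2 <;> simp

open Classical in
private theorem toWord_cons38 (a : α × Bool) (ω : FreeGroup α)
    (h : hd ω ≠ some (a.1, !a.2)) :
    (FreeGroup.mk [a] * ω).toWord = a :: ω.toWord := by
  rw [FreeGroup.toWord_mul, FreeGroup.toWord_mk, FreeGroup.reduce_singleton, List.singleton_append]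
  exact (isReduced_cons38 a _ FreeGroup.isReduced_toWord h).reduce_eq

private theorem of_eq38 (x : α) : FreeGroup.of x = FreeGroup.mk [(x, true)] := rfl

private theorem of_inv_eq38 (x : α) : (FreeGroup.of x)⁻¹ = FreeGroup.mk [(x, false)] := rfl

private theorem getLast_cons38 {β : Type*} (a : β) {L : List β} (h : L ≠ []) :
    (a :: L).getLast? = L.getLast? := by
  cases L with
  | nil => exact absurd rfl h
  | cons b L => exact List.getLast?_cons_cons

private theorem toWord_shift38 {I Q : Type*} [Group Q] [DecidableEq (I × Q)] (c : Q) (ω : FreeGroup (I × Q)) :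
    (shift c ω).toWord = ω.toWord.map (fun p => ((p.1.1, c * p.1.2), p.2)) := by
  have h1 : shift c ω = FreeGroup.mk (ω.toWord.map (fun p => ((p.1.1, c * p.1.2), p.2))) := by
    conv_lhs => rw [← FreeGroup.mk_toWord (x := ω)]
    rfl
  rw [h1, FreeGroup.toWord_mk]
  apply FreeGroup.IsReduced.reduce_eq
  have h2 : FreeGroup.IsReduced ω.toWord := FreeGroup.isReduced_toWord
  unfold FreeGroup.IsReduced at h2 ⊢
  rw [List.isChain_map]
  refine h2.imp ?_
  rintro ⟨⟨i, d⟩, b⟩ ⟨⟨i', d'⟩, b'⟩ hab heq
  apply hab
  simp only [Prod.mk.injEq, mul_right_inj] at heq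
  simp only [Prod.mk.injEq]
  exact heq

end aux38

section

variable {α : Type*}

theorem hd_one : hd (1 : FreeGroup α) = none := by
  simp [hd]

theorem hd_eq_none_iff (ω : FreeGroup α) : hd ω = none ↔ ω = 1 := by
  classical
  rw [hd, List.head?_eq_none_iff]
  exact FreeGroup.toWord_eq_nil_iff

theorem lst_eq_none_iff (ω : FreeGroup α) : lst ω = none ↔ ω = 1 := by
  classical
  rw [lst, List.getLast?_eq_none_iff]
  exact FreeGroup.toWord_eq_nil_iff

theorem hd_of_mul (x : α) (ω : FreeGroup α) (h : hd ω ≠ some (x, false)) :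
    hd (FreeGroup.of x * ω) = some (x, true) := by
  rw [of_eq38, hd, toWord_cons38 _ _ h]
  rfl

theorem lst_of_mul (x : α) (ω : FreeGroup α) (h : hd ω ≠ some (x, false)) (h1 : ω ≠ 1) :
    lst (FreeGroup.of x * ω) = lst ω := by
  rw [of_eq38, lst, toWord_cons38 _ _ h, lst]
  exact getLast_cons38 _ (fun h2 => h1 (by
    classical
    exact FreeGroup.toWord_eq_nil_iff.1 h2))

theorem hd_inv_mul (x : α) (ω : FreeGroup α) (h : hd ω ≠ some (x, true)) :
    hd ((FreeGroup.of x)⁻¹ * ω) = some (x, false) := by
  rw [of_inv_eq38, hd, toWord_cons38 _ _ h]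
  rfl

theorem lst_inv_mul (x : α) (ω : FreeGroup α) (h : hd ω ≠ some (x, true)) (h1 : ω ≠ 1) :
    lst ((FreeGroup.of x)⁻¹ * ω) = lst ω := by
  rw [of_inv_eq38, lst, toWord_cons38 _ _ h, lst]
  exact getLast_cons38 _ (fun h2 => h1 (by
    classical
    exact FreeGroup.toWord_eq_nil_iff.1 h2))

theorem hd_of (x : α) : hd (FreeGroup.of x) = some (x, true) := by
  classical
  rw [hd, FreeGroup.toWord_of]
  rfl

theorem lst_of (x : α) : lst (FreeGroup.of x) = some (x, true) := by
  classical
  rw [lst, FreeGroup.toWord_of]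
  rfl

theorem hd_inv_of (x : α) : hd (FreeGroup.of x)⁻¹ = some (x, false) := by
  classical
  rw [hd, FreeGroup.toWord_inv, FreeGroup.toWord_of]
  rfl

theorem lst_inv_of (x : α) : lst (FreeGroup.of x)⁻¹ = some (x, false) := by
  classical
  rw [lst, FreeGroup.toWord_inv, FreeGroup.toWord_of]
  rfl

end

section

variable {I Q : Type*} [Group Q]

theorem shift_mul (c d : Q) (ω : FreeGroup (I × Q)) : shift (c * d) ω = shift c (shift d ω) := by
  have h : (shift (I := I) (c * d)).toMonoidHom
      = (shift c).toMonoidHom.comp (shift d).toMonoidHom := by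
    apply FreeGroup.ext_hom
    rintro ⟨i, e⟩
    simp only [MulEquiv.toMonoidHom_eq_coe, MonoidHom.coe_coe, MonoidHom.coe_comp,
      Function.comp_apply, shift_of, mul_assoc]
  exact DFunLike.congr_fun h ω

theorem shift_one (ω : FreeGroup (I × Q)) : shift (1 : Q) ω = ω := by
  have h : (shift (I := I) (1 : Q)).toMonoidHom = MonoidHom.id _ := by
    apply FreeGroup.ext_hom
    rintro ⟨i, e⟩
    simp only [MulEquiv.toMonoidHom_eq_coe, MonoidHom.coe_coe, shift_of, one_mul,
      MonoidHom.id_apply]
  exact DFunLike.congr_fun h ω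

theorem hd_shift (c : Q) (ω : FreeGroup (I × Q)) :
    hd (shift c ω) = (hd ω).map fun p => ((p.1.1, c * p.1.2), p.2) := by
  let _inst : DecidableEq (I × Q) := fun a b => Classical.propDecidable (a = b)
  rw [hd, hd, toWord_shift38, List.head?_map]

theorem lst_shift (c : Q) (ω : FreeGroup (I × Q)) :
    lst (shift c ω) = (lst ω).map fun p => ((p.1.1, c * p.1.2), p.2) := by
  let _inst : DecidableEq (I × Q) := fun a b => Classical.propDecidable (a = b)
  rw [lst, lst, toWord_shift38, List.getLast?_map]

end

end Pool.Agent.Helper93.SP
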