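/-
Block SP-ELL (about 150 lines).  Elementary facts on the operators Lop, Pop, cst, diagOp on
l2(F; H), F = FreeGroup (I × Q).  All proofs are coordinatewise (`ext`), using `permOp_apply`,
`cst_apply`, `diagOp_apply`, `reind_apply`, `pt_apply`.

* supp_of_mem_csG: if A ⊆ F is invariant under all shifts then every element of csG maps
  functions vanishing outside A to functions vanishing outside A: true for Pop g and its adjoint
  Pop g⁻¹ (`Pop_inv`), the property is stable under sums, products, scalars, and norm limits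
  (`StarAlgebra.adjoin_induction`, and the set of f with Supp A f is closed); for a statement
  stable under star prove it for a and star a together.
* comm_diag_of_mem_csG: a diagonal operator D with D (shift (q g) ω) π(g) = π(g) D ω commutes with
  all Pop g, hence with all elements of csG (for D with the same property for star D; the
  commutant of {D, star D} is a closed star subalgebra; `StarSubalgebra.centralizer`).
  Here we only ask it for vectors: D a f = a D f.
-/
import Pool.Agent.Helper93.SP.Defs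
import Pool.Agent.Helper93.SP.Word

set_option autoImplicit false

open scoped InnerProductSpace ComplexConjugate ENNReal NNReal
open Filter Topology

namespace Pool.Agent.Helper93.SP

section

variable {X : Type*} {H : Type*} [NormedAddCommGroup H] [InnerProductSpace ℂ H] [CompleteSpace H]

theorem norm_cst_le (T : H →L[ℂ] H) : ‖cst X T‖ ≤ ‖T‖ := by
  unfold cst diagOp
  exact (LinearMap.mkContinuous_norm_le _ (abs_nonneg _) _).trans_eq (abs_of_nonneg (norm_nonneg T))

theorem norm_diagOp_le (D : X → H →L[ℂ] H) (C : ℝ) (hD : ∀ x, ‖D x‖ ≤ C) (hC : 0 ≤ C) :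
    ‖diagOp D C hD‖ ≤ C := by
  exact (LinearMap.mkContinuous_norm_le _ (abs_nonneg _) _).trans_eq (abs_of_nonneg hC)

theorem norm_pt (x : X) (ζ : H) : ‖pt x ζ‖ = ‖ζ‖ := by
  classical
  have h : ‖(lp.single 2 x ζ : El X H)‖ = ‖ζ‖ := lp.norm_single (E := fun _ : X => H) (by norm_num) x ζ
  rw [← h]
  unfold pt
  congr!

theorem inner_pt_pt (x : X) (ζ θ : H) : ⟪(pt x θ : El X H), pt x ζ⟫_ℂ = ⟪θ, ζ⟫_ℂ := by
  classical
  have h := lp.inner_single_left (𝕜 := ℂ) (G := fun _ : X => H) x θ (pt x ζ)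
  rw [pt_apply, if_pos rfl] at h
  rw [← h]
  unfold pt
  congr!

theorem pt_add (x : X) (ζ θ : H) : pt x (ζ + θ) = (pt x ζ + pt x θ : El X H) := by
  ext y
  rw [lp.coeFn_add, Pi.add_apply, pt_apply, pt_apply, pt_apply]
  split_ifs
  · rfl
  · rw [add_zero]

theorem pt_smul (x : X) (c : ℂ) (ζ : H) : pt x (c • ζ) = c • (pt x ζ : El X H) := by
  ext y
  rw [lp.coeFn_smul, Pi.smul_apply, pt_apply, pt_apply]
  split_ifs
  · rfl
  · rw [smul_zero]

theorem cst_pt (T : H →L[ℂ] H) (x : X) (ζ : H) : cst X T (pt x ζ) = pt x (T ζ) := by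
  ext y
  rw [cst_apply, pt_apply, pt_apply]
  split_ifs
  · rfl
  · rw [map_zero]

theorem supp_pt (A : Set X) (x : X) (hx : x ∈ A) (ζ : H) : Supp A (pt x ζ : El X H) := by
  intro y hy
  rw [pt_apply, if_neg]
  rintro rfl
  exact hy hx

theorem isClosed_supp (A : Set X) : IsClosed {f : El X H | Supp A f} := by
  have h1 : {f : El X H | Supp A f} = ⋂ x ∈ Aᶜ, {f : El X H | f x = 0} := by
    ext f
    simp only [Supp, Set.mem_ofPred_eq, Set.mem_iInter, Set.mem_compl_iff]
  rw [h1]
  refine isClosed_biInter fun x _ => ?_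
  have h2 : Continuous fun f : El X H => f x := by
    have h3 := (lp.evalCLM ℂ (fun _ : X => H) 2 x).continuous
    exact h3
  exact isClosed_eq h2 continuous_const

theorem inner_eq_zero_of_supp (A B : Set X) (hAB : Disjoint A B) (f g : El X H)
    (hf : Supp A f) (hg : Supp B g) : ⟪f, g⟫_ℂ = 0 := by
  rw [lp.inner_eq_tsum]
  refine (tsum_congr fun x => ?_).trans tsum_zero
  by_cases hx : x ∈ A
  · have h1 : g x = 0 := hg x fun hB => Set.disjoint_left.1 hAB hx hB
    rw [h1, inner_zero_right]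
  · rw [hf x hx, inner_zero_left]

private theorem exists_cut67 (A : Set X) (f : El X H) : ∃ f1 : El X H, Supp A f1 ∧
    ∀ x ∈ A, f1 x = f x := by
  classical
  have hD : ∀ x, ‖(if x ∈ A then (1 : H →L[ℂ] H) else 0)‖ ≤ (1 : ℝ) := by
    intro x
    split_ifs
    · exact ContinuousLinearMap.norm_id_le
    · rw [norm_zero]
      exact zero_le_one
  refine ⟨diagOp (fun x => if x ∈ A then (1 : H →L[ℂ] H) else 0) 1 hD f, fun x hx => ?_, fun x hx => ?_⟩
  · rw [diagOp_apply, if_neg hx]
    rfl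
  · rw [diagOp_apply, if_pos hx]
    rfl

private theorem pyth67 (A : Set X) {f f1 : El X H} (h1 : Supp A f1) (h2 : Supp Aᶜ (f - f1)) :
    ‖f1‖ ^ 2 + ‖f - f1‖ ^ 2 = ‖f‖ ^ 2 := by
  have h3 := inner_eq_zero_of_supp A Aᶜ disjoint_compl_right f1 (f - f1) h1 h2
  have h4 := norm_add_sq_eq_norm_sq_add_norm_sq_of_inner_eq_zero f1 (f - f1) h3
  rw [add_sub_cancel] at h4
  rw [sq, sq, sq, h4]

/-- Vectors split along a set: f = f1 + f2, f1 supported on A, f2 on the complement of A, and the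
square norms add.  (f1 = the diagonal operator with entries 1 on A and 0 outside.) -/
theorem exists_split (A : Set X) (f : El X H) : ∃ f1 f2 : El X H, f = f1 + f2 ∧ Supp A f1 ∧
    Supp Aᶜ f2 ∧ ‖f1‖ ^ 2 + ‖f2‖ ^ 2 = ‖f‖ ^ 2 := by
  obtain ⟨f1, h1, h2⟩ := exists_cut67 A f
  have h3 : Supp Aᶜ (f - f1) := by
    intro x hx
    have hx' : x ∈ A := by
      by_contra h
      exact hx h
    rw [lp.coeFn_sub, Pi.sub_apply, h2 x hx', sub_self]
  refine ⟨f1, f - f1, by rw [add_sub_cancel], h1, h3, ?_⟩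
  exact pyth67 A h1 h3

/-- For pairwise disjoint sets A i (i in a finite type) the pieces of f on the A i have
square norms adding up to at most ‖f‖^2. -/
theorem exists_pieces {ι : Type*} [Fintype ι] (A : ι → Set X)
    (hA : ∀ i j, i ≠ j → Disjoint (A i) (A j)) (f : El X H) :
    ∃ p : ι → El X H, (∀ i, Supp (A i) (p i)) ∧ (∀ i, Supp (A i)ᶜ (f - p i)) ∧
      (∀ i, ‖f - p i‖ ≤ ‖f‖) ∧ ∑ i, ‖p i‖ ^ 2 ≤ ‖f‖ ^ 2 := by
  classical
  choose p hp1 hp2 using fun i => exists_cut67 (A i) f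
  have h3 : ∀ i, Supp (A i)ᶜ (f - p i) := by
    intro i x hx
    have hx' : x ∈ A i := by
      by_contra h
      exact hx h
    rw [lp.coeFn_sub, Pi.sub_apply, hp2 i x hx', sub_self]
  refine ⟨p, hp1, h3, fun i => ?_, ?_⟩
  · have h := pyth67 (A i) (hp1 i) (h3 i)
    have h0 : ‖f - p i‖ ^ 2 ≤ ‖f‖ ^ 2 := by
      have : 0 ≤ ‖p i‖ ^ 2 := sq_nonneg _
      linarith
    exact (sq_le_sq₀ (norm_nonneg _) (norm_nonneg _)).1 h0
  · have key : ∀ S : Finset ι, ∑ i ∈ S, ‖p i‖ ^ 2 + ‖f - ∑ i ∈ S, p i‖ ^ 2 = ‖f‖ ^ 2 := by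
      intro S
      induction S using Finset.induction_on with
      | empty => simp
      | insert j S hj ih =>
        rw [Finset.sum_insert hj, Finset.sum_insert hj]
        have e1 : f - (p j + ∑ i ∈ S, p i) = (f - ∑ i ∈ S, p i) - p j := by abel
        have e2 : Supp (A j)ᶜ ((f - ∑ i ∈ S, p i) - p j) := by
          intro x hx
          have hx' : x ∈ A j := by
            by_contra h
            exact hx h
          have e3 : (∑ i ∈ S, p i : El X H) x = 0 := by
            rw [lp.coeFn_sum, Finset.sum_apply]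
            refine Finset.sum_eq_zero fun i hi => hp1 i x fun hxi => ?_
            have hij : i ≠ j := fun h => hj (h ▸ hi)
            exact Set.disjoint_left.1 (hA i j hij) hxi hx'
          rw [lp.coeFn_sub, Pi.sub_apply, lp.coeFn_sub, Pi.sub_apply, e3, hp2 j x hx', sub_zero, sub_self]
        have e4 := pyth67 (A j) (hp1 j) e2
        rw [e1]
        linarith
    have := key Finset.univ
    have h0 : 0 ≤ ‖f - ∑ i, p i‖ ^ 2 := sq_nonneg _
    linarith

end

section

variable {I : Type*} {G Q : Type*} [Group G] [Group Q] {H : Type*} [NormedAddCommGroup H]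
  [InnerProductSpace ℂ H] [CompleteSpace H] (q : G →* Q) (π : G →* unitary (H →L[ℂ] H))

theorem Lop_apply (ν ω : FreeGroup (I × Q)) (f : El (FreeGroup (I × Q)) H) :
    (Lop I Q H ν : BEl I Q H) f ω =
      f (ν⁻¹ * ω) := by
  rfl

theorem Pop_apply (g : G) (ω : FreeGroup (I × Q)) (f : El (FreeGroup (I × Q)) H) :
    (Pop I q π g : BEl I Q H) f ω =
      (π g : H →L[ℂ] H) (f (shift (q g)⁻¹ ω)) := by
  have h : (shift (q g)).symm ω = shift (q g)⁻¹ ω := by
    rw [MulEquiv.symm_apply_eq, ← shift_mul, mul_inv_cancel, shift_one]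
  change (π g : H →L[ℂ] H) (f ((shift (q g)).symm ω)) = _
  rw [h]

theorem Lop_mul (ν μ : FreeGroup (I × Q)) : Lop I Q H (ν * μ) = Lop I Q H ν * Lop I Q H μ := by
  apply Subtype.ext
  ext f ω
  change (Lop I Q H (ν * μ) : BEl I Q H) f ω = (Lop I Q H ν : BEl I Q H) ((Lop I Q H μ : BEl I Q H) f) ω
  rw [Lop_apply, Lop_apply, Lop_apply, mul_inv_rev, mul_assoc]

theorem Lop_one : Lop I Q H (1 : FreeGroup (I × Q)) = 1 := by
  apply Subtype.ext
  ext f ω
  change (Lop I Q H 1 : BEl I Q H) f ω = f ω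
  rw [Lop_apply, inv_one, one_mul]

theorem star_Lop (ν : FreeGroup (I × Q)) :
    star (Lop I Q H ν : BEl I Q H) =
      (Lop I Q H ν⁻¹ : BEl I Q H) := by
  have h : Lop I Q H ν⁻¹ = (Lop I Q H ν)⁻¹ := by
    rw [eq_inv_iff_mul_eq_one, ← Lop_mul, inv_mul_cancel, Lop_one]
  rw [h]
  rfl

theorem Pop_mul (g h : G) : Pop I q π (g * h) = Pop I q π g * Pop I q π h := by
  apply Subtype.ext
  ext f ω
  change (Pop I q π (g * h) : BEl I Q H) f ω =
    (Pop I q π g : BEl I Q H) ((Pop I q π h : BEl I Q H) f) ω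
  rw [Pop_apply, Pop_apply, Pop_apply, ← shift_mul, map_mul, map_mul, mul_inv_rev]
  rfl

theorem star_Pop (g : G) :
    star (Pop I q π g : BEl I Q H) =
      (Pop I q π g⁻¹ : BEl I Q H) := by
  have h1 : Pop I q π 1 = 1 := by
    apply Subtype.ext
    ext f ω
    change (Pop I q π 1 : BEl I Q H) f ω = f ω
    rw [Pop_apply, map_one, map_one, inv_one, shift_one]
    rfl
  have h : Pop I q π g⁻¹ = (Pop I q π g)⁻¹ := by
    rw [eq_inv_iff_mul_eq_one, ← Pop_mul, inv_mul_cancel, h1]
  rw [h]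
  rfl

theorem Lop_pt (ν ω : FreeGroup (I × Q)) (ζ : H) :
    (Lop I Q H ν : BEl I Q H) (pt ω ζ) =
      pt (ν * ω) ζ := by
  ext y
  rw [Lop_apply, pt_apply, pt_apply]
  by_cases h : y = ν * ω
  · rw [if_pos h, if_pos (by rw [h, inv_mul_cancel_left])]
  · rw [if_neg h, if_neg (fun h' => h (by rw [← h', mul_inv_cancel_left]))]

theorem Pop_pt (g : G) (ω : FreeGroup (I × Q)) (ζ : H) :
    (Pop I q π g : BEl I Q H) (pt ω ζ) =
      pt (shift (q g) ω) ((π g : H →L[ℂ] H) ζ) := by
  ext y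
  rw [Pop_apply, pt_apply, pt_apply]
  by_cases h : y = shift (q g) ω
  · rw [if_pos h, if_pos (by rw [h, ← shift_mul, inv_mul_cancel, shift_one])]
  · rw [if_neg h, if_neg (fun h' => h (by rw [← h', ← shift_mul, mul_inv_cancel, shift_one])), map_zero]

theorem cst_comm_Lop (T : H →L[ℂ] H) (ν : FreeGroup (I × Q)) :
    cst (FreeGroup (I × Q)) T * (Lop I Q H ν : BEl I Q H) =
      (Lop I Q H ν : BEl I Q H) * cst (FreeGroup (I × Q)) T := by
  ext f ω
  rfl

theorem supp_Lop (A B : Set (FreeGroup (I × Q))) (ν : FreeGroup (I × Q))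
    (h : ∀ ω ∈ A, ν * ω ∈ B) (f : El (FreeGroup (I × Q)) H) (hf : Supp A f) :
    Supp B ((Lop I Q H ν : BEl I Q H) f) := by
  intro ω hω
  rw [Lop_apply]
  refine hf _ fun h1 => hω ?_
  have h2 := h _ h1
  rwa [mul_inv_cancel_left] at h2

theorem csG_le_csL : csG I q π ≤ csL I q π := by
  exact StarSubalgebra.topologicalClosure_mono (StarAlgebra.adjoin_mono Set.subset_union_right)

theorem Lop_mem_csL (ν : FreeGroup (I × Q)) :
    (Lop I Q H ν : BEl I Q H) ∈ csL I q π := by
  exact StarSubalgebra.le_topologicalClosure _ (StarAlgebra.subset_adjoin ℂ _ (Or.inl ⟨ν, rfl⟩))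

theorem supp_of_mem_csG (A : Set (FreeGroup (I × Q)))
    (hA : ∀ (c : Q) (ω : FreeGroup (I × Q)), ω ∈ A → shift c ω ∈ A)
    (a : BEl I Q H) (ha : a ∈ csG I q π)
    (f : El (FreeGroup (I × Q)) H) (hf : Supp A f) : Supp A (a f) := by
  have hP : ∀ g : G, ∀ f : El (FreeGroup (I × Q)) H, Supp A f → Supp A ((Pop I q π g : BEl I Q H) f) := by
    intro g f hf ω hω
    rw [Pop_apply]
    have h1 : f (shift (q g)⁻¹ ω) = 0 := by
      refine hf _ fun h2 => hω ?_
      have h3 := hA (q g) _ h2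
      rwa [← shift_mul, mul_inv_cancel, shift_one] at h3
    rw [h1, map_zero]
  have key : ∀ a ∈ StarAlgebra.adjoin ℂ (Set.range fun g => (Pop I q π g : BEl I Q H)),
      (∀ f : El (FreeGroup (I × Q)) H, Supp A f → Supp A (a f)) ∧
      (∀ f : El (FreeGroup (I × Q)) H, Supp A f → Supp A ((star a) f)) := by
    intro a ha
    induction ha using StarAlgebra.adjoin_induction with
    | mem x hx =>
      obtain ⟨g, rfl⟩ := hx
      refine ⟨hP g, ?_⟩
      intro f hf
      have h := hP g⁻¹ f hf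
      rw [← star_Pop] at h
      exact h
    | algebraMap r =>
      have h1 : ∀ c : ℂ, ∀ f : El (FreeGroup (I × Q)) H, Supp A f →
          Supp A ((algebraMap ℂ (BEl I Q H) c) f) := by
        intro c f hf ω hω
        have h2 : (algebraMap ℂ (BEl I Q H) c) f = c • f := by
          rw [Algebra.algebraMap_eq_smul_one]
          rfl
        rw [h2, lp.coeFn_smul, Pi.smul_apply, hf ω hω, smul_zero]
      refine ⟨h1 r, ?_⟩
      rw [← algebraMap_star_comm]
      exact h1 _
    | add x y hx hy ihx ihy =>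
      have h1 : ∀ x y : BEl I Q H, (∀ f : El (FreeGroup (I × Q)) H, Supp A f → Supp A (x f)) →
          (∀ f : El (FreeGroup (I × Q)) H, Supp A f → Supp A (y f)) →
          ∀ f : El (FreeGroup (I × Q)) H, Supp A f → Supp A ((x + y) f) := by
        intro x y h1 h2 f hf ω hω
        have h3 : (x + y) f = x f + y f := rfl
        rw [h3, lp.coeFn_add, Pi.add_apply, h1 f hf ω hω, h2 f hf ω hω, add_zero]
      refine ⟨h1 x y ihx.1 ihy.1, ?_⟩
      rw [star_add]
      exact h1 _ _ ihx.2 ihy.2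
    | mul x y hx hy ihx ihy =>
      refine ⟨fun f hf => ihx.1 _ (ihy.1 f hf), ?_⟩
      rw [star_mul]
      exact fun f hf => ihy.2 _ (ihx.2 f hf)
    | star x hx ih =>
      refine ⟨ih.2, ?_⟩
      rw [star_star]
      exact ih.1
  have hcl : IsClosed {a : BEl I Q H | Supp A (a f)} := by
    have h1 : Continuous fun a : BEl I Q H => a f := (ContinuousLinearMap.apply ℂ _ f).continuous
    exact (isClosed_supp A).preimage h1
  exact closure_minimal (fun a ha => (key a ha).1 f hf) hcl ha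

theorem comm_diag_of_mem_csG (D : FreeGroup (I × Q) → H →L[ℂ] H) (C : ℝ) (hD : ∀ x, ‖D x‖ ≤ C)
    (hcomm : ∀ g ω, D (shift (q g) ω) * (π g : H →L[ℂ] H) = (π g : H →L[ℂ] H) * D ω)
    (a : BEl I Q H) (ha : a ∈ csG I q π) :
    diagOp D C hD * a = a * diagOp D C hD := by
  have h1 : ∀ (D : FreeGroup (I × Q) → H →L[ℂ] H) (C : ℝ) (hD : ∀ x, ‖D x‖ ≤ C),
      (∀ g ω, D (shift (q g) ω) * (π g : H →L[ℂ] H) = (π g : H →L[ℂ] H) * D ω) →
      ∀ g, diagOp D C hD * (Pop I q π g : BEl I Q H) = (Pop I q π g : BEl I Q H) * diagOp D C hD := by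
    intro D C hD hc g
    ext f ω
    change diagOp D C hD ((Pop I q π g : BEl I Q H) f) ω = (Pop I q π g : BEl I Q H) (diagOp D C hD f) ω
    rw [diagOp_apply, Pop_apply, Pop_apply, diagOp_apply]
    have h2 := hc g (shift (q g)⁻¹ ω)
    rw [← shift_mul, mul_inv_cancel, shift_one] at h2
    exact congrArg (fun T : H →L[ℂ] H => T (f (shift (q g)⁻¹ ω))) h2
  have h2 : ∀ g, star (diagOp D C hD) * (Pop I q π g : BEl I Q H) =
      (Pop I q π g : BEl I Q H) * star (diagOp D C hD) := by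
    rw [star_diagOp]
    refine h1 _ _ _ fun g ω => ?_
    have h3 := congrArg star (hcomm g ω)
    rw [star_mul, star_mul] at h3
    have h4 : (π g : H →L[ℂ] H) * star (π g : H →L[ℂ] H) = 1 := Unitary.mul_star_self_of_mem (π g).2
    have h5 : star (π g : H →L[ℂ] H) * (π g : H →L[ℂ] H) = 1 := Unitary.star_mul_self_of_mem (π g).2
    calc star (D (shift (q g) ω)) * (π g : H →L[ℂ] H)
        = ((π g : H →L[ℂ] H) * star (π g : H →L[ℂ] H)) * star (D (shift (q g) ω)) *
          (π g : H →L[ℂ] H) := by rw [h4, one_mul]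
      _ = (π g : H →L[ℂ] H) * (star (π g : H →L[ℂ] H) * star (D (shift (q g) ω))) *
          (π g : H →L[ℂ] H) := by rw [mul_assoc (π g : H →L[ℂ] H)]
      _ = (π g : H →L[ℂ] H) * (star (D ω) * star (π g : H →L[ℂ] H)) * (π g : H →L[ℂ] H) := by rw [h3]
      _ = (π g : H →L[ℂ] H) * star (D ω) * (star (π g : H →L[ℂ] H) * (π g : H →L[ℂ] H)) := by
          simp only [mul_assoc]
      _ = (π g : H →L[ℂ] H) * star (D ω) := by rw [h5, mul_one]
  have h3 : StarAlgebra.adjoin ℂ (Set.range fun g => (Pop I q π g : BEl I Q H)) ≤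
      StarSubalgebra.centralizer ℂ {diagOp D C hD} := by
    refine StarAlgebra.adjoin_le ?_
    rintro _ ⟨g, rfl⟩
    rw [SetLike.mem_coe, StarSubalgebra.mem_centralizer_iff]
    intro T hT
    rw [Set.mem_singleton_iff] at hT
    rw [hT]
    exact ⟨h1 D C hD hcomm g, h2 g⟩
  have hcl : IsClosed {a : BEl I Q H | diagOp D C hD * a = a * diagOp D C hD} :=
    isClosed_eq (continuous_const.mul continuous_id) (continuous_id.mul continuous_const)
  refine closure_minimal (fun a ha => ?_) hcl ha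
  have h4 := h3 ha
  rw [StarSubalgebra.mem_centralizer_iff] at h4
  exact (h4 _ rfl).1

end

end Pool.Agent.Helper93.SP
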