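/-
Block SP-ASY (about 250 lines).  The asymptotic representation of l2(F; H) on H given by a net of
letters, F = FreeGroup (I × Q).

For a homomorphism ψ : F → G let Sj π ψ x = Σ_ω π(ψ(ω)) (x ω) for finitely supported x : F → H,
and emb x the same function as an element of l2(F; H).

* Sj_inner: ⟪Sj x, Sj y⟫ = Σ_{ω,ω'} ⟪π(ψ_j ω) (x ω), π(ψ_j ω') (y ω')⟫
    = Σ ⟪x ω, π(ψ_j(ω⁻¹ ω')) (y ω')⟫; the terms with ω = ω' are constant, the others tend to 0 by
  `LetterNet.weak` (bilinear induction on x and y with `Finsupp.induction_linear` is convenient).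
* Asym a b: the operator a on l2(F; H) preserves the finitely supported vectors, and for every
  finitely supported x, with a (emb x) = emb y one has b_j (Sj x) = Sj y for all large j.
  Stable under sums, products (compose), scalars.  Holds for
    (Lop ν, j ↦ π(ψ_j ν))   exactly, since Sj (delta_(νω) ⊗ ζ) = π(ψ_j ν) Sj (delta_ω ⊗ ζ);
    (Pop g, j ↦ π(g)): Sj (delta_(g ω) ⊗ π(g)ζ) = π(ψ_j(shift ω)) π(g) ζ
       = π(g ψ_j(ω) g⁻¹ g) ζ = π(g) Sj (delta_ω ⊗ ζ) for all large j by `LetterNet.equiv`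
       (finitely many ω in the support of x).
  Adjoints: star (Lop ν) = Lop ν⁻¹, star (Pop g) = Pop g⁻¹, star (π g) = π g⁻¹.
* asy_adjoin: the set of all a for which there is a bounded net b_j in grpAlg π with Asym a b and
  Asym (star a) (star b) is a star subalgebra which contains all Lop ν and Pop g
  (`StarAlgebra.adjoin_induction`).
* asy_const: the same with constant nets: for x in grpAlg π there is a in the star algebra
  generated by the Pop g with Asym a x, Asym (star a) (star x) and a(delta_1 ⊗ ζ) = delta_1 ⊗ xζ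
  (induction on x; shift c 1 = 1; carry the last property along for a and star a).
* norm_le_of_asym: ‖a (emb x)‖ = lim ‖Sj y‖ = lim ‖x0 (Sj x)‖ ≤ ‖x0‖ lim ‖Sj x‖ = ‖x0‖ ‖emb x‖ and
  emb has dense range.
-/
import Pool.Agent.Helper93.SP.Defs
import Pool.Agent.Helper93.SP.Ell

set_option autoImplicit false

open scoped InnerProductSpace ComplexConjugate ENNReal NNReal
open Filter Topology

namespace Pool.Agent.Helper93.SP

section

variable {X : Type*} {H : Type*} [NormedAddCommGroup H] [InnerProductSpace ℂ H] [CompleteSpace H]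

/-- Finitely supported functions as elements of l2(X; H). -/
noncomputable def emb (x : X →₀ H) : El X H := x.sum fun a ζ => pt a ζ

theorem emb_apply (x : X →₀ H) (a : X) : emb x a = x a := by
  classical
  have h : emb x = ∑ b ∈ x.support, pt b (x b) := rfl
  rw [h, lp.coeFn_sum, Finset.sum_apply]
  simp only [pt_apply]
  rw [Finset.sum_ite_eq]
  split_ifs with h1
  · rfl
  · rw [Finsupp.notMem_support_iff] at h1
    exact h1.symm

theorem emb_add (x y : X →₀ H) : emb (x + y) = emb x + emb y := by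
  apply lp.ext
  funext a
  rw [lp.coeFn_add, Pi.add_apply, emb_apply, emb_apply, emb_apply, Finsupp.add_apply]

theorem emb_smul (c : ℂ) (x : X →₀ H) : emb (c • x) = c • emb x := by
  apply lp.ext
  funext a
  rw [lp.coeFn_smul, Pi.smul_apply, emb_apply, emb_apply, Finsupp.smul_apply]

theorem emb_single (a : X) (ζ : H) : emb (Finsupp.single a ζ) = pt a ζ := by
  classical
  apply lp.ext
  funext b
  rw [emb_apply, pt_apply, Finsupp.single_apply]
  by_cases h : b = a
  · rw [if_pos h, if_pos h.symm]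
  · rw [if_neg h, if_neg (fun h' => h h'.symm)]

private theorem emb_zero_p : emb (0 : X →₀ H) = 0 := by
  apply lp.ext
  funext b
  rw [emb_apply]
  rfl

private theorem emb_sum_p (s : Finset X) (f : X → H) :
    emb (∑ i ∈ s, Finsupp.single i (f i)) = ∑ i ∈ s, pt i (f i) := by
  classical
  induction s using Finset.induction_on with
  | empty => rw [Finset.sum_empty, Finset.sum_empty, emb_zero_p]
  | insert a s ha ih =>
    rw [Finset.sum_insert ha, Finset.sum_insert ha, emb_add, ih, emb_single]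

theorem denseRange_emb : DenseRange (emb : (X →₀ H) → El X H) := by
  classical
  intro f
  have h := lp.hasSum_single (by norm_num : (2 : ℝ≥0∞) ≠ ⊤) f
  refine mem_closure_of_tendsto h (Eventually.of_forall fun s => ?_)
  refine ⟨∑ i ∈ s, Finsupp.single i (f i), ?_⟩
  rw [emb_sum_p]
  refine Finset.sum_congr rfl fun i _ => ?_
  rw [pt]

end

section

variable {I : Type*} {G Q : Type*} [Group G] [Group Q] {H : Type*} [NormedAddCommGroup H]
  [InnerProductSpace ℂ H] [CompleteSpace H] {K : Subgroup G} {q : G →* Q}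
  {π : G →* unitary (H →L[ℂ] H)} {J : Type*} {l : Filter J} {ψ : J → FreeGroup (I × Q) →* G}

/-- S x = sum over ω of π(ψ(ω)) (x ω). -/
noncomputable def Sj (π : G →* unitary (H →L[ℂ] H)) (ψ : FreeGroup (I × Q) →* G)
    (x : FreeGroup (I × Q) →₀ H) : H :=
  x.sum fun ω ζ => (π (ψ ω) : H →L[ℂ] H) ζ

theorem Sj_add (ψ : FreeGroup (I × Q) →* G) (x y : FreeGroup (I × Q) →₀ H) :
    Sj π ψ (x + y) = Sj π ψ x + Sj π ψ y := by
  classical
  unfold Sj
  exact Finsupp.sum_add_index' (fun a => map_zero _) (fun a b c => map_add _ b c)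

theorem Sj_smul (ψ : FreeGroup (I × Q) →* G) (c : ℂ) (x : FreeGroup (I × Q) →₀ H) :
    Sj π ψ (c • x) = c • Sj π ψ x := by
  classical
  unfold Sj
  rw [Finsupp.sum_smul_index' (fun a => map_zero _), Finsupp.smul_sum]
  refine Finsupp.sum_congr fun a _ => ?_
  rw [map_smul]

theorem Sj_single (ψ : FreeGroup (I × Q) →* G) (ω : FreeGroup (I × Q)) (ζ : H) :
    Sj π ψ (Finsupp.single ω ζ) = (π (ψ ω) : H →L[ℂ] H) ζ := by
  unfold Sj
  exact Finsupp.sum_single_index (map_zero _)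

private theorem Sj_zero_p (ψ : FreeGroup (I × Q) →* G) :
    Sj π ψ (0 : FreeGroup (I × Q) →₀ H) = 0 := by
  unfold Sj
  exact Finsupp.sum_zero_index

/-- An operator commuting with π(K) acts diagonally. -/
theorem Sj_cst (hL : LetterNet K q π I l ψ) (T : H →L[ℂ] H)
    (hT : ∀ k ∈ K, T * (π k : H →L[ℂ] H) = (π k : H →L[ℂ] H) * T) (j : J)
    (x : FreeGroup (I × Q) →₀ H) :
    T (Sj π (ψ j) x) = Sj π (ψ j) (x.mapRange T (map_zero T)) := by
  classical
  unfold Sj
  rw [Finsupp.sum_mapRange_index (fun a => map_zero _), map_finsuppSum]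
  refine Finsupp.sum_congr fun ω _ => ?_
  have h := hT (ψ j ω) (hL.mem j ω)
  exact DFunLike.congr_fun h (x ω)

theorem emb_cst (T : H →L[ℂ] H) (x : FreeGroup (I × Q) →₀ H) :
    cst (FreeGroup (I × Q)) T (emb x) = emb (x.mapRange T (map_zero T)) := by
  apply lp.ext
  funext ω
  rw [cst_apply, emb_apply, emb_apply, Finsupp.mapRange_apply]

private theorem inner_unitary_p (U V : unitary (H →L[ℂ] H)) (ζ θ : H) :
    ⟪(U : H →L[ℂ] H) ζ, (V : H →L[ℂ] H) θ⟫_ℂ = ⟪ζ, ((U⁻¹ * V : unitary (H →L[ℂ] H)) :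
      H →L[ℂ] H) θ⟫_ℂ := by
  have h : ((U⁻¹ * V : unitary (H →L[ℂ] H)) : H →L[ℂ] H) =
      star (U : H →L[ℂ] H) * (V : H →L[ℂ] H) := rfl
  rw [h, ContinuousLinearMap.star_eq_adjoint]
  exact (ContinuousLinearMap.adjoint_inner_right _ _ _).symm

theorem Sj_inner (hL : LetterNet K q π I l ψ) (x y : FreeGroup (I × Q) →₀ H) :
    Tendsto (fun j => ⟪Sj π (ψ j) x, Sj π (ψ j) y⟫_ℂ) l (𝓝 ⟪emb x, emb y⟫_ℂ) := by
  classical
  induction x using Finsupp.induction_linear with
  | zero =>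
    simp only [Sj_zero_p, emb_zero_p, inner_zero_left]
    exact tendsto_const_nhds
  | add x1 x2 h1 h2 =>
    simp only [Sj_add, emb_add, inner_add_left]
    exact h1.add h2
  | single ω ζ =>
    induction y using Finsupp.induction_linear with
    | zero =>
      simp only [Sj_zero_p, emb_zero_p, inner_zero_right]
      exact tendsto_const_nhds
    | add y1 y2 h1 h2 =>
      simp only [Sj_add, emb_add, inner_add_right]
      exact h1.add h2
    | single ω' θ =>
      have key : ∀ j, ⟪Sj π (ψ j) (Finsupp.single ω ζ), Sj π (ψ j) (Finsupp.single ω' θ)⟫_ℂ =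
          ⟪ζ, (π (ψ j (ω⁻¹ * ω')) : H →L[ℂ] H) θ⟫_ℂ := by
        intro j
        rw [Sj_single, Sj_single, inner_unitary_p, map_mul, map_mul, map_inv, map_inv]
      simp only [key, emb_single]
      by_cases h : ω = ω'
      · subst h
        rw [inner_pt_pt]
        simp only [inv_mul_cancel, map_one]
        exact tendsto_const_nhds
      · have h0 : ⟪(pt ω ζ : El (FreeGroup (I × Q)) H), pt ω' θ⟫_ℂ = 0 := by
          refine inner_eq_zero_of_supp {ω} {ω'} ?_ _ _
            (supp_pt _ _ (Set.mem_singleton _) _) (supp_pt _ _ (Set.mem_singleton _) _)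
          rw [Set.disjoint_singleton]
          exact h
        rw [h0]
        exact hL.weak _ (fun h1 => h (inv_mul_eq_one.1 h1)) θ ζ

theorem Sj_norm (hL : LetterNet K q π I l ψ) (x : FreeGroup (I × Q) →₀ H) :
    Tendsto (fun j => ‖Sj π (ψ j) x‖) l (𝓝 ‖emb x‖) := by
  have h := Sj_inner hL x x
  have h2 : Tendsto (fun j => RCLike.re ⟪Sj π (ψ j) x, Sj π (ψ j) x⟫_ℂ) l
      (𝓝 (RCLike.re ⟪emb x, emb x⟫_ℂ)) := (RCLike.continuous_re.tendsto _).comp h
  have h3 := (Real.continuous_sqrt.tendsto _).comp h2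
  rw [← norm_eq_sqrt_re_inner] at h3
  refine h3.congr fun j => ?_
  simp only [Function.comp]
  rw [← norm_eq_sqrt_re_inner]

/-- `b` is an asymptotic form of the operator `a`. -/
def Asym (π : G →* unitary (H →L[ℂ] H)) (l : Filter J) (ψ : J → FreeGroup (I × Q) →* G)
    (a : BEl I Q H) (b : J → H →L[ℂ] H) : Prop :=
  ∀ x : FreeGroup (I × Q) →₀ H, ∃ y : FreeGroup (I × Q) →₀ H, a (emb x) = emb y ∧
    ∀ᶠ j in l, b j (Sj π (ψ j) x) = Sj π (ψ j) y

private theorem Asym.mul_p {a a' : BEl I Q H} {b b' : J → H →L[ℂ] H}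
    (h : Asym π l ψ a b) (h' : Asym π l ψ a' b') :
    Asym π l ψ (a * a') (fun j => b j * b' j) := by
  intro x
  obtain ⟨y, hy, hy2⟩ := h' x
  obtain ⟨z, hz, hz2⟩ := h y
  refine ⟨z, ?_, ?_⟩
  · rw [ContinuousLinearMap.mul_apply, hy, hz]
  · filter_upwards [hy2, hz2] with j hj hj2
    rw [ContinuousLinearMap.mul_apply, hj, hj2]

theorem Asym.mul (hL : LetterNet K q π I l ψ) {a a' : BEl I Q H} {b b' : J → H →L[ℂ] H}
    (h : Asym π l ψ a b) (h' : Asym π l ψ a' b') :
    Asym π l ψ (a * a') (fun j => b j * b' j) := h.mul_p h'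

private theorem Asym.add_p {a a' : BEl I Q H} {b b' : J → H →L[ℂ] H}
    (h : Asym π l ψ a b) (h' : Asym π l ψ a' b') :
    Asym π l ψ (a + a') (fun j => b j + b' j) := by
  intro x
  obtain ⟨y, hy, hy2⟩ := h x
  obtain ⟨z, hz, hz2⟩ := h' x
  refine ⟨y + z, ?_, ?_⟩
  · rw [ContinuousLinearMap.add_apply, hy, hz, emb_add]
  · filter_upwards [hy2, hz2] with j hj hj2
    rw [ContinuousLinearMap.add_apply, hj, hj2, Sj_add]

private theorem Asym.algebraMap_p (r : ℂ) :
    Asym π l ψ (algebraMap ℂ (BEl I Q H) r) (fun _ => algebraMap ℂ (H →L[ℂ] H) r) := by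
  intro x
  refine ⟨r • x, ?_, Eventually.of_forall fun j => ?_⟩
  · rw [emb_smul, Algebra.algebraMap_eq_smul_one]
    rfl
  · rw [Sj_smul, Algebra.algebraMap_eq_smul_one]
    rfl

private theorem Asym.of_single_p {a : BEl I Q H} {b : J → H →L[ℂ] H}
    (h : ∀ ω ζ, ∃ y : FreeGroup (I × Q) →₀ H, a (pt ω ζ) = emb y ∧
      ∀ᶠ j in l, b j ((π (ψ j ω) : H →L[ℂ] H) ζ) = Sj π (ψ j) y) :
    Asym π l ψ a b := by
  classical
  intro x
  induction x using Finsupp.induction_linear with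
  | zero =>
    refine ⟨0, ?_, Eventually.of_forall fun j => ?_⟩
    · rw [emb_zero_p, map_zero]
    · rw [Sj_zero_p, map_zero]
  | add x1 x2 h1 h2 =>
    obtain ⟨y, hy, hy2⟩ := h1
    obtain ⟨z, hz, hz2⟩ := h2
    refine ⟨y + z, ?_, ?_⟩
    · rw [emb_add, map_add, hy, hz, emb_add]
    · filter_upwards [hy2, hz2] with j hj hj2
      rw [Sj_add, map_add, hj, hj2, Sj_add]
  | single ω ζ =>
    obtain ⟨y, hy, hy2⟩ := h ω ζ
    refine ⟨y, ?_, ?_⟩
    · rw [emb_single, hy]
    · filter_upwards [hy2] with j hj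
      rw [Sj_single, hj]

private theorem Asym.Lop_p (ν : FreeGroup (I × Q)) :
    Asym π l ψ (Lop I Q H ν : BEl I Q H) (fun j => (π (ψ j ν) : H →L[ℂ] H)) := by
  refine Asym.of_single_p fun ω ζ => ⟨Finsupp.single (ν * ω) ζ, ?_,
    Eventually.of_forall fun j => ?_⟩
  · rw [Lop_pt, emb_single]
  · rw [Sj_single, map_mul, map_mul]
    rfl

private theorem Asym.Pop_p (hL : LetterNet K q π I l ψ) (g : G) :
    Asym π l ψ (Pop I q π g : BEl I Q H) (fun _ => (π g : H →L[ℂ] H)) := by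
  refine Asym.of_single_p fun ω ζ => ⟨Finsupp.single (shift (q g) ω) ((π g : H →L[ℂ] H) ζ),
    ?_, ?_⟩
  · rw [Pop_pt, emb_single]
  · filter_upwards [hL.equiv g ω] with j hj
    rw [Sj_single, ← hj]
    have e1 : (π g : H →L[ℂ] H) ((π (ψ j ω) : H →L[ℂ] H) ζ) =
        (π (g * ψ j ω) : H →L[ℂ] H) ζ := by
      rw [map_mul]
      rfl
    have e2 : (π (g * ψ j ω * g⁻¹) : H →L[ℂ] H) ((π g : H →L[ℂ] H) ζ) =
        (π (g * ψ j ω * g⁻¹ * g) : H →L[ℂ] H) ζ := by
      rw [map_mul _ _ g]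
      rfl
    rw [e1, e2, inv_mul_cancel_right]

private theorem star_pi_p (g : G) : star (π g : H →L[ℂ] H) = (π g⁻¹ : H →L[ℂ] H) := by
  rw [map_inv]
  rfl

theorem Asym.pow (hL : LetterNet K q π I l ψ) {a : BEl I Q H} {b : J → H →L[ℂ] H}
    (h : Asym π l ψ a b) (n : ℕ) : Asym π l ψ (a ^ n) (fun j => b j ^ n) := by
  induction n with
  | zero =>
    intro x
    refine ⟨x, ?_, Eventually.of_forall fun j => ?_⟩
    · rw [pow_zero]
      rfl
    · show (b j ^ 0) (Sj π (ψ j) x) = Sj π (ψ j) x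
      rw [pow_zero]
      rfl
  | succ n ih =>
    simp only [pow_succ]
    exact ih.mul_p h

private theorem norm_unitary_p (U : unitary (H →L[ℂ] H)) : ‖(U : H →L[ℂ] H)‖ ≤ 1 := by
  refine ContinuousLinearMap.opNorm_le_bound _ zero_le_one fun x => ?_
  have h := inner_unitary_p U U x x
  rw [inv_mul_cancel] at h
  have h1 : ‖(U : H →L[ℂ] H) x‖ = ‖x‖ := by
    rw [norm_eq_sqrt_re_inner (𝕜 := ℂ), norm_eq_sqrt_re_inner (𝕜 := ℂ), h]
    rfl
  rw [h1, one_mul]

theorem asy_adjoin (hL : LetterNet K q π I l ψ) (a : BEl I Q H)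
    (ha : a ∈ StarAlgebra.adjoin ℂ ((Set.range fun ν => (Lop I Q H ν : BEl I Q H)) ∪
      (Set.range fun g => (Pop I q π g : BEl I Q H)))) :
    ∃ b : J → H →L[ℂ] H, (∀ j, b j ∈ grpAlg π) ∧ (∃ C, ∀ j, ‖b j‖ ≤ C) ∧
      Asym π l ψ a b ∧ Asym π l ψ (star a) (fun j => star (b j)) := by
  induction ha using StarAlgebra.adjoin_induction with
  | mem a ha =>
    rcases ha with ⟨ν, rfl⟩ | ⟨g, rfl⟩
    · refine ⟨fun j => (π (ψ j ν) : H →L[ℂ] H), fun j => mem_grpAlg π _, ⟨1, fun j => ?_⟩,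
        Asym.Lop_p ν, ?_⟩
      · exact norm_unitary_p _
      · simp only [star_Lop, star_pi_p, ← map_inv]
        exact Asym.Lop_p _
    · refine ⟨fun _ => (π g : H →L[ℂ] H), fun j => mem_grpAlg π _, ⟨1, fun j => ?_⟩,
        Asym.Pop_p hL g, ?_⟩
      · exact norm_unitary_p _
      · simp only [star_Pop, star_pi_p]
        exact Asym.Pop_p hL _
  | algebraMap r =>
    refine ⟨fun _ => algebraMap ℂ (H →L[ℂ] H) r, fun j => (grpAlg π).algebraMap_mem r,
      ⟨‖algebraMap ℂ (H →L[ℂ] H) r‖, fun j => le_rfl⟩, Asym.algebraMap_p r, ?_⟩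
    rw [← algebraMap_star_comm]
    simp only [← algebraMap_star_comm]
    exact Asym.algebraMap_p _
  | add a a' _ _ h h' =>
    obtain ⟨b, h1, ⟨C, hC⟩, h2, h3⟩ := h
    obtain ⟨b', h1', ⟨C', hC'⟩, h2', h3'⟩ := h'
    refine ⟨fun j => b j + b' j, fun j => add_mem (h1 j) (h1' j), ⟨C + C', fun j => ?_⟩,
      h2.add_p h2', ?_⟩
    · exact (norm_add_le _ _).trans (add_le_add (hC j) (hC' j))
    · simp only [star_add]
      exact h3.add_p h3'
  | mul a a' _ _ h h' =>
    obtain ⟨b, h1, ⟨C, hC⟩, h2, h3⟩ := h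
    obtain ⟨b', h1', ⟨C', hC'⟩, h2', h3'⟩ := h'
    refine ⟨fun j => b j * b' j, fun j => mul_mem (h1 j) (h1' j), ⟨C * C', fun j => ?_⟩,
      h2.mul_p h2', ?_⟩
    · exact (norm_mul_le _ _).trans (mul_le_mul (hC j) (hC' j) (norm_nonneg _)
        ((norm_nonneg _).trans (hC j)))
    · simp only [star_mul]
      exact h3'.mul_p h3
  | star a _ h =>
    obtain ⟨b, h1, ⟨C, hC⟩, h2, h3⟩ := h
    refine ⟨fun j => star (b j), fun j => star_mem (h1 j), ⟨C, fun j => ?_⟩, h3, ?_⟩
    · rw [norm_star]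
      exact hC j
    · simp only [star_star]
      exact h2

theorem asy_const (hL : LetterNet K q π I l ψ) (x : H →L[ℂ] H) (hx : x ∈ grpAlg π) :
    ∃ a ∈ StarAlgebra.adjoin ℂ (Set.range fun g => (Pop I q π g : BEl I Q H)),
      Asym π l ψ a (fun _ => x) ∧ Asym π l ψ (star a) (fun _ => star x) ∧
      ∀ ζ : H, a (pt 1 ζ) = pt 1 (x ζ) := by
  suffices hs : ∃ a ∈ StarAlgebra.adjoin ℂ (Set.range fun g => (Pop I q π g : BEl I Q H)),
      Asym π l ψ a (fun _ => x) ∧ Asym π l ψ (star a) (fun _ => star x) ∧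
      (∀ ζ : H, a (pt 1 ζ) = pt 1 (x ζ)) ∧ (∀ ζ : H, (star a) (pt 1 ζ) = pt 1 ((star x) ζ)) by
    obtain ⟨a, h1, h2, h3, h4, _⟩ := hs
    exact ⟨a, h1, h2, h3, h4⟩
  induction hx using StarAlgebra.adjoin_induction with
  | mem x hx =>
    obtain ⟨g, rfl⟩ := hx
    refine ⟨(Pop I q π g : BEl I Q H), StarAlgebra.subset_adjoin ℂ _ ⟨g, rfl⟩,
      Asym.Pop_p hL g, ?_, fun ζ => ?_, fun ζ => ?_⟩
    · simp only [star_Pop, star_pi_p]
      exact Asym.Pop_p hL _
    · rw [Pop_pt, map_one]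
    · simp only [star_Pop, star_pi_p]
      rw [Pop_pt, map_one]
  | algebraMap r =>
    refine ⟨algebraMap ℂ _ r, StarSubalgebra.algebraMap_mem _ r, Asym.algebraMap_p r, ?_,
      fun ζ => ?_, fun ζ => ?_⟩
    · rw [← algebraMap_star_comm]
      simp only [← algebraMap_star_comm]
      exact Asym.algebraMap_p _
    · rw [Algebra.algebraMap_eq_smul_one, Algebra.algebraMap_eq_smul_one]
      exact (pt_smul _ _ _).symm
    · rw [← algebraMap_star_comm, ← algebraMap_star_comm,
        Algebra.algebraMap_eq_smul_one, Algebra.algebraMap_eq_smul_one]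
      exact (pt_smul _ _ _).symm
  | add x x' _ _ h h' =>
    obtain ⟨a, h1, h2, h3, h4, h5⟩ := h
    obtain ⟨a', h1', h2', h3', h4', h5'⟩ := h'
    refine ⟨a + a', add_mem h1 h1', h2.add_p h2', ?_, fun ζ => ?_, fun ζ => ?_⟩
    · simp only [star_add]
      exact h3.add_p h3'
    · rw [ContinuousLinearMap.add_apply, h4, h4', ContinuousLinearMap.add_apply, pt_add]
    · rw [star_add, star_add, ContinuousLinearMap.add_apply, h5, h5',
        ContinuousLinearMap.add_apply, pt_add]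
  | mul x x' _ _ h h' =>
    obtain ⟨a, h1, h2, h3, h4, h5⟩ := h
    obtain ⟨a', h1', h2', h3', h4', h5'⟩ := h'
    refine ⟨a * a', mul_mem h1 h1', h2.mul_p h2', ?_, fun ζ => ?_, fun ζ => ?_⟩
    · simp only [star_mul]
      exact h3'.mul_p h3
    · rw [ContinuousLinearMap.mul_apply, h4', h4, ContinuousLinearMap.mul_apply]
    · rw [star_mul, star_mul, ContinuousLinearMap.mul_apply, h5, h5',
        ContinuousLinearMap.mul_apply]
  | star x _ h =>
    obtain ⟨a, h1, h2, h3, h4, h5⟩ := h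
    refine ⟨star a, star_mem h1, h3, ?_, h5, fun ζ => ?_⟩
    · simp only [star_star]
      exact h2
    · rw [star_star, star_star, h4]

theorem norm_le_of_asym [l.NeBot] (hL : LetterNet K q π I l ψ) (a : BEl I Q H)
    (x : H →L[ℂ] H) (h : Asym π l ψ a (fun _ => x)) : ‖a‖ ≤ ‖x‖ := by
  refine ContinuousLinearMap.opNorm_le_bound _ (norm_nonneg _) fun f => ?_
  refine denseRange_emb.induction_on
    (p := fun f : El (FreeGroup (I × Q)) H => ‖a f‖ ≤ ‖x‖ * ‖f‖) f ?_ ?_
  · exact isClosed_le (a.continuous.norm) (continuous_const.mul continuous_norm)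
  · intro x0
    obtain ⟨y, hy, hy2⟩ := h x0
    rw [hy]
    refine le_of_tendsto_of_tendsto (Sj_norm hL y) ((Sj_norm hL x0).const_mul ‖x‖) ?_
    filter_upwards [hy2] with j hj
    rw [← hj]
    exact x.le_opNorm _

end

end Pool.Agent.Helper93.SP
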