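/-
Block SP-AVG (about 100 lines).  Averaging over an amenable group.  μ an invariant mean on K.
For T in B(E) the sesquilinear form (θ, ζ) ↦ μ(k ↦ ⟪θ, ρ(k) T ρ(k)* ζ⟫) is bounded by ‖T‖, so it is
given by an operator T' (`LinearMap.mkContinuous₂`, `InnerProductSpace.toDual`, or
`InnerProductSpace.continuousLinearMapOfBilin`; note that it must be conjugate linear in θ: use
that μ(conj f) is not needed: define for fixed ζ the functional θ ↦ μ(k ↦ ⟪θ, ..ζ⟫) is conjugate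
linear in θ by additivity and homogeneity of μ).
* ρ(h) T' ρ(h)* = T': ⟪θ, ρ(h) T' ρ(h)* ζ⟫ = μ(k ↦ ⟪θ, ρ(hk) T ρ(hk)* ζ⟫) and `IsInvMean.inv`.
* ⟪θ, (T' x - y T') ζ⟫ = μ(k ↦ ⟪θ, (ρ(k) T ρ(k)* x - y ρ(k) T ρ(k)*) ζ⟫), bounded by C ‖θ‖ ‖ζ‖
  (`IsInvMean.le`).
* ⟪θ, (T - T') ζ⟫ = μ(k ↦ ⟪θ, (T - ρ(k) T ρ(k)*) ζ⟫) (μ of a constant c is c).
-/
import Pool.Agent.Helper93.SP.Defs

set_option autoImplicit false

open scoped InnerProductSpace ComplexConjugate ENNReal NNReal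
open Filter Topology

namespace Pool.Agent.Helper93.SP

variable {E : Type*} [NormedAddCommGroup E] [InnerProductSpace ℂ E] [CompleteSpace E]

omit [CompleteSpace E] in
private theorem norm_le_of_inner96 (R : E →L[ℂ] E) (C : ℝ) (hC : 0 ≤ C)
    (h : ∀ θ ζ, ‖⟪θ, R ζ⟫_ℂ‖ ≤ C * ‖θ‖ * ‖ζ‖) : ‖R‖ ≤ C := by
  refine R.opNorm_le_bound hC fun ζ => ?_
  have h1 := h (R ζ) ζ
  rw [inner_self_eq_norm_sq_to_K] at h1
  rw [norm_pow, RCLike.norm_ofReal, abs_norm] at h1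
  rcases eq_or_lt_of_le (norm_nonneg (R ζ)) with h0 | h0
  · rw [← h0]; positivity
  · by_contra hlt
    push Not at hlt
    nlinarith

omit [CompleteSpace E] in
private theorem bdd96 {K : Type*} {S : K → E →L[ℂ] E} {C : ℝ} (hS : ∀ k, ‖S k‖ ≤ C) (θ ζ : E) (k : K) :
    ‖⟪θ, S k ζ⟫_ℂ‖ ≤ C * ‖θ‖ * ‖ζ‖ := by
  calc ‖⟪θ, S k ζ⟫_ℂ‖ ≤ ‖θ‖ * ‖S k ζ‖ := norm_inner_le_norm _ _
    _ ≤ ‖θ‖ * (C * ‖ζ‖) := by
        gcongr
        exact ((S k).le_opNorm ζ).trans (mul_le_mul_of_nonneg_right (hS k) (norm_nonneg _))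
    _ = C * ‖θ‖ * ‖ζ‖ := by ring

private theorem exists_avg96 {K : Type*} [Group K] {μ : (K → ℂ) → ℂ} (hμ : IsInvMean μ)
    (S : K → E →L[ℂ] E) (C : ℝ) (hS : ∀ k, ‖S k‖ ≤ C) :
    ∃ T' : E →L[ℂ] E, ∀ θ ζ, ⟪θ, T' ζ⟫_ℂ = μ (fun k => ⟪θ, S k ζ⟫_ℂ) := by
  have hb : ∀ θ ζ : E, ∃ C', ∀ k, ‖⟪θ, S k ζ⟫_ℂ‖ ≤ C' := fun θ ζ => ⟨_, bdd96 hS θ ζ⟩
  let B : E →ₗ⋆[ℂ] E →ₗ[ℂ] ℂ := LinearMap.mk₂'ₛₗ (starRingEnd ℂ) (RingHom.id ℂ)
    (fun θ ζ => μ (fun k => ⟪θ, S k ζ⟫_ℂ))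
    (fun θ₁ θ₂ ζ => by
      rw [← hμ.add _ _ (hb θ₁ ζ) (hb θ₂ ζ)]
      simp only [inner_add_left])
    (fun c θ ζ => by
      rw [smul_eq_mul, ← hμ.smul _ _ (hb θ ζ)]
      simp only [inner_smul_left])
    (fun θ ζ₁ ζ₂ => by
      rw [← hμ.add _ _ (hb θ ζ₁) (hb θ ζ₂)]
      simp only [map_add, inner_add_right])
    (fun c θ ζ => by
      rw [RingHom.id_apply, smul_eq_mul, ← hμ.smul _ _ (hb θ ζ)]
      simp only [map_smul, inner_smul_right])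
  have hB : ∀ θ ζ, ‖B θ ζ‖ ≤ C * ‖θ‖ * ‖ζ‖ := fun θ ζ => hμ.le _ _ (bdd96 hS θ ζ)
  refine ⟨ContinuousLinearMap.adjoint
    (InnerProductSpace.continuousLinearMapOfBilin (B.mkContinuous₂ C hB)), fun θ ζ => ?_⟩
  rw [ContinuousLinearMap.adjoint_inner_right,
    InnerProductSpace.continuousLinearMapOfBilin_apply]
  rfl

theorem avg {K : Type*} [Group K] (hK : Amen K) (ρ : K →* unitary (E →L[ℂ] E)) (T : E →L[ℂ] E) :
    ∃ T' : E →L[ℂ] E,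
      (∀ k, T' * (ρ k : E →L[ℂ] E) = (ρ k : E →L[ℂ] E) * T') ∧
      (∀ (x y : E →L[ℂ] E) (C : ℝ),
        (∀ k, ‖((ρ k : E →L[ℂ] E) * T * star (ρ k : E →L[ℂ] E)) * x -
          y * ((ρ k : E →L[ℂ] E) * T * star (ρ k : E →L[ℂ] E))‖ ≤ C) → ‖T' * x - y * T'‖ ≤ C) ∧
      (∀ C : ℝ, (∀ k, ‖T - (ρ k : E →L[ℂ] E) * T * star (ρ k : E →L[ℂ] E)‖ ≤ C) →
        ‖T - T'‖ ≤ C) := by
  obtain ⟨μ, hμ⟩ := hK
  set S : K → E →L[ℂ] E := fun k => (ρ k : E →L[ℂ] E) * T * star (ρ k : E →L[ℂ] E) with hSdef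
  have hS : ∀ k, ‖S k‖ ≤ ‖T‖ := by
    intro k
    have h1 : S k = ((ρ k : unitary (E →L[ℂ] E)) : E →L[ℂ] E) * T *
        ((star (ρ k) : unitary (E →L[ℂ] E)) : E →L[ℂ] E) := rfl
    rw [h1, CStarRing.norm_mul_coe_unitary, CStarRing.norm_coe_unitary_mul]
  obtain ⟨T', hT'⟩ := exists_avg96 hμ S ‖T‖ hS
  have hb : ∀ θ ζ : E, ∃ C', ∀ k, ‖⟪θ, S k ζ⟫_ℂ‖ ≤ C' := fun θ ζ => ⟨_, bdd96 hS θ ζ⟩
  have hneg : ∀ f : K → ℂ, (∃ C', ∀ k, ‖f k‖ ≤ C') → μ (fun k => -f k) = -μ f := by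
    intro f hf
    have := hμ.smul (-1) f hf
    simpa using this
  have hsub : ∀ f g : K → ℂ, (∃ C', ∀ k, ‖f k‖ ≤ C') → (∃ C', ∀ k, ‖g k‖ ≤ C') →
      μ (fun k => f k - g k) = μ f - μ g := by
    intro f g hf hg
    obtain ⟨C', hC'⟩ := hg
    have := hμ.add f (fun k => -g k) hf ⟨C', fun k => by rw [norm_neg]; exact hC' k⟩
    rw [hneg g ⟨C', hC'⟩] at this
    simpa [sub_eq_add_neg] using this
  refine ⟨T', fun h => ?_, fun x y C hC => ?_, fun C hC => ?_⟩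
  · refine ContinuousLinearMap.ext fun ζ => ?_
    refine ext_inner_left ℂ fun θ => ?_
    have e1 : (T' * (ρ h : E →L[ℂ] E)) ζ = T' ((ρ h : E →L[ℂ] E) ζ) := rfl
    have e2 : ((ρ h : E →L[ℂ] E) * T') ζ = (ρ h : E →L[ℂ] E) (T' ζ) := rfl
    rw [e1, e2, hT', ← ContinuousLinearMap.adjoint_inner_left (ρ h : E →L[ℂ] E), hT',
      ← hμ.inv h _ (hb θ _)]
    congr 1
    funext k
    rw [ContinuousLinearMap.adjoint_inner_left]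
    congr 1
    have h2 : S (h * k) * (ρ h : E →L[ℂ] E) = (ρ h : E →L[ℂ] E) * S k := by
      simp only [hSdef, map_mul]
      have h3 : star (ρ h : E →L[ℂ] E) * (ρ h : E →L[ℂ] E) = 1 := Unitary.coe_star_mul_self _
      rw [Submonoid.coe_mul, star_mul]
      calc (ρ h : E →L[ℂ] E) * (ρ k : E →L[ℂ] E) * T *
            (star (ρ k : E →L[ℂ] E) * star (ρ h : E →L[ℂ] E)) * (ρ h : E →L[ℂ] E)
          = (ρ h : E →L[ℂ] E) * (ρ k : E →L[ℂ] E) * T * star (ρ k : E →L[ℂ] E) *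
            (star (ρ h : E →L[ℂ] E) * (ρ h : E →L[ℂ] E)) := by
              simp only [mul_assoc]
        _ = _ := by rw [h3, mul_one]; simp only [mul_assoc]
    have := congrArg (fun R : E →L[ℂ] E => R ζ) h2
    simpa using this
  · have hC0 : 0 ≤ C := (norm_nonneg _).trans (hC 1)
    refine norm_le_of_inner96 _ C hC0 fun θ ζ => ?_
    have ha : ⟪θ, T' (x ζ)⟫_ℂ = μ (fun k => ⟪θ, S k (x ζ)⟫_ℂ) := hT' _ _
    have hb' : ⟪θ, y (T' ζ)⟫_ℂ = μ (fun k => ⟪θ, y (S k ζ)⟫_ℂ) := by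
      rw [← ContinuousLinearMap.adjoint_inner_left y, hT']
      congr 1
      funext k
      rw [ContinuousLinearMap.adjoint_inner_left]
    have hby : ∃ C', ∀ k, ‖⟪θ, y (S k ζ)⟫_ℂ‖ ≤ C' := by
      obtain ⟨C', h'⟩ := hb (ContinuousLinearMap.adjoint y θ) ζ
      refine ⟨C', fun k => ?_⟩
      rw [← ContinuousLinearMap.adjoint_inner_left y]
      exact h' k
    have h1 : ⟪θ, (T' * x - y * T') ζ⟫_ℂ =
        μ (fun k => ⟪θ, (S k * x - y * S k) ζ⟫_ℂ) := by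
      have e1 : (T' * x - y * T') ζ = T' (x ζ) - y (T' ζ) := rfl
      have e2 : ∀ k, (S k * x - y * S k) ζ = S k (x ζ) - y (S k ζ) := fun k => rfl
      rw [e1, inner_sub_right, ha, hb', ← hsub _ _ (hb _ _) hby]
      congr 1
      funext k
      rw [e2, inner_sub_right]
    rw [h1]
    exact hμ.le _ _ (bdd96 hC θ ζ)
  · have hC0 : 0 ≤ C := (norm_nonneg _).trans (hC 1)
    refine norm_le_of_inner96 _ C hC0 fun θ ζ => ?_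
    have hc : μ (fun _ : K => ⟪θ, T ζ⟫_ℂ) = ⟪θ, T ζ⟫_ℂ := by
      have := hμ.smul (⟪θ, T ζ⟫_ℂ) (fun _ => 1) ⟨1, fun _ => by simp⟩
      simpa [hμ.one] using this
    have h1 : ⟪θ, (T - T') ζ⟫_ℂ = μ (fun k => ⟪θ, (T - S k) ζ⟫_ℂ) := by
      have e1 : (T - T') ζ = T ζ - T' ζ := rfl
      have e2 : ∀ k, (T - S k) ζ = T ζ - S k ζ := fun k => rfl
      rw [e1, inner_sub_right, hT', ← hc, ← hsub _ _ ⟨_, fun _ => le_rfl⟩ (hb _ _)]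
      congr 1
      funext k
      rw [e2, inner_sub_right]
    rw [h1]
    exact hμ.le _ _ (bdd96 (S := fun k => T - S k) hC θ ζ)

end Pool.Agent.Helper93.SP
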