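/-
Block SP-EXT (about 120 lines).  The star homomorphism Φ : C*(π(G)) → B(l2(F; H)) with
Φ(π(g)) = Pop g.

Proof.  Let R be the set of pairs (x, a), x in grpAlg π, a in the star algebra generated by the
Pop g, with Asym a (const x), Asym (star a) (const (star x)) and a(delta_1 ⊗ ζ) = delta_1 ⊗ x ζ
(asy_const: for every x there is such an a).  R is closed under differences and products, and
‖a‖ ≤ ‖x‖ (norm_le_of_asym), so a is determined by x: this gives a star homomorphism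
Φ0 : grpAlg π → B(l2(F; H)), contractive.  It extends to the closure grpCs π by continuity
(uniformly continuous extension, e.g. `ContinuousLinearMap.extend` /
`DenseInducing.extend`, or directly: for x in the closure choose a sequence; or take the closure
of the graph R in B(H) × B(l2(F; H)) which is a closed star subalgebra on which the first
projection is isometric, hence bijective onto grpCs π).  The last property and Φ a ∈ csG pass to
the limit.
-/
import Pool.Agent.Helper93.SP.Asy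

set_option autoImplicit false

open scoped InnerProductSpace ComplexConjugate ENNReal NNReal
open Filter Topology

namespace Pool.Agent.Helper93.SP

variable {I : Type*} {G Q : Type*} [Group G] [Group Q] {H : Type*} [NormedAddCommGroup H]
  [InnerProductSpace ℂ H] [CompleteSpace H] {K : Subgroup G} {q : G →* Q}
  {π : G →* unitary (H →L[ℂ] H)} {J : Type*} {l : Filter J} {ψ : J → FreeGroup (I × Q) →* G}

private theorem asym_add26 (π : G →* unitary (H →L[ℂ] H)) {a a' : BEl I Q H}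
    {b b' : J → H →L[ℂ] H} (h : Asym π l ψ a b) (h' : Asym π l ψ a' b') :
    Asym π l ψ (a + a') (fun j => b j + b' j) := by
  intro x
  obtain ⟨y, hy, hj⟩ := h x
  obtain ⟨y', hy', hj'⟩ := h' x
  refine ⟨y + y', ?_, ?_⟩
  · rw [add_apply, hy, hy', emb_add]
  · filter_upwards [hj, hj'] with j h1 h2
    rw [add_apply, h1, h2, Sj_add]

private theorem asym_smul26 (π : G →* unitary (H →L[ℂ] H)) (c : ℂ) {a : BEl I Q H}
    {b : J → H →L[ℂ] H} (h : Asym π l ψ a b) :
    Asym π l ψ (c • a) (fun j => c • b j) := by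
  intro x
  obtain ⟨y, hy, hj⟩ := h x
  refine ⟨c • y, ?_, ?_⟩
  · rw [smul_apply, hy, emb_smul]
  · filter_upwards [hj] with j h1
    rw [smul_apply, h1, Sj_smul]

private theorem asym_one26 (π : G →* unitary (H →L[ℂ] H)) :
    Asym π l ψ (1 : BEl I Q H) (fun _ => (1 : H →L[ℂ] H)) :=
  fun x => ⟨x, rfl, Eventually.of_forall fun _ => rfl⟩

/-- The graph on the algebraic level. -/
private noncomputable def graph26 (hL : LetterNet K q π I l ψ) :
    StarSubalgebra ℂ ((H →L[ℂ] H) × BEl I Q H) where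
  carrier := {p | p.1 ∈ grpAlg π ∧
    p.2 ∈ StarAlgebra.adjoin ℂ (Set.range fun g => (Pop I q π g : BEl I Q H)) ∧
    Asym π l ψ p.2 (fun _ => p.1) ∧ Asym π l ψ (star p.2) (fun _ => star p.1)}
  mul_mem' := by
    rintro p p' ⟨h1, h2, h3, h4⟩ ⟨h1', h2', h3', h4'⟩
    refine ⟨mul_mem h1 h1', mul_mem h2 h2', h3.mul hL h3', ?_⟩
    rw [Prod.snd_mul, Prod.fst_mul, star_mul, star_mul]
    exact h4'.mul hL h4
  add_mem' := by
    rintro p p' ⟨h1, h2, h3, h4⟩ ⟨h1', h2', h3', h4'⟩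
    refine ⟨add_mem h1 h1', add_mem h2 h2', asym_add26 π h3 h3', ?_⟩
    rw [Prod.snd_add, Prod.fst_add, star_add, star_add]
    exact asym_add26 π h4 h4'
  algebraMap_mem' := by
    intro c
    refine ⟨algebraMap_mem _ c, algebraMap_mem _ c, ?_, ?_⟩
    · have h := asym_smul26 (l := l) (ψ := ψ) π c (asym_one26 (I := I) (Q := Q) π)
      rw [Prod.algebraMap_apply, Algebra.algebraMap_eq_smul_one, Algebra.algebraMap_eq_smul_one]
      exact h
    · have h := asym_smul26 (l := l) (ψ := ψ) π (star c) (asym_one26 (I := I) (Q := Q) π)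
      rw [Prod.algebraMap_apply, Algebra.algebraMap_eq_smul_one, Algebra.algebraMap_eq_smul_one,
        star_smul, star_smul, star_one, star_one]
      exact h
  star_mem' := by
    rintro p ⟨h1, h2, h3, h4⟩
    refine ⟨star_mem h1, star_mem h2, h4, ?_⟩
    rw [Prod.snd_star, Prod.fst_star, star_star, star_star]
    exact h3

private theorem mem_graph26 (hL : LetterNet K q π I l ψ) {p : (H →L[ℂ] H) × BEl I Q H} :
    p ∈ graph26 hL ↔ p.1 ∈ grpAlg π ∧
      p.2 ∈ StarAlgebra.adjoin ℂ (Set.range fun g => (Pop I q π g : BEl I Q H)) ∧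
      Asym π l ψ p.2 (fun _ => p.1) ∧ Asym π l ψ (star p.2) (fun _ => star p.1) := Iff.rfl

private theorem graph_exists26 (hL : LetterNet K q π I l ψ) (x : H →L[ℂ] H) (hx : x ∈ grpAlg π) :
    ∃ a : BEl I Q H, (x, a) ∈ graph26 hL ∧ ∀ ζ : H, a (pt 1 ζ) = pt 1 (x ζ) := by
  obtain ⟨a, ha, h1, h2, h3⟩ := asy_const hL x hx
  exact ⟨a, (mem_graph26 hL).2 ⟨hx, ha, h1, h2⟩, h3⟩

private theorem norm_graph26 [l.NeBot] (hL : LetterNet K q π I l ψ)
    {p : (H →L[ℂ] H) × BEl I Q H} (hp : p ∈ graph26 hL) : ‖p.2‖ ≤ ‖p.1‖ :=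
  norm_le_of_asym hL p.2 p.1 ((mem_graph26 hL).1 hp).2.2.1

private theorem uniq_of_norm26 {A B : Type*} [NormedRing A] [NormedRing B] {S : Set (A × B)}
    (hS : ∀ p ∈ S, ∀ p' ∈ S, p - p' ∈ S) (hn : ∀ p ∈ S, ‖p.2‖ ≤ ‖p.1‖) {x : A} {a a' : B}
    (h : (x, a) ∈ S) (h' : (x, a') ∈ S) : a = a' := by
  have h1 := hn _ (hS _ h _ h')
  rw [Prod.mk_sub_mk, sub_self, norm_zero] at h1
  exact sub_eq_zero.1 (norm_le_zero_iff.1 h1)

private theorem graph_pt26 [l.NeBot] (hL : LetterNet K q π I l ψ)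
    {p : (H →L[ℂ] H) × BEl I Q H} (hp : p ∈ graph26 hL) (ζ : H) :
    p.2 (pt 1 ζ) = pt 1 (p.1 ζ) := by
  obtain ⟨a, ha, h⟩ := graph_exists26 hL p.1 ((mem_graph26 hL).1 hp).1
  have : p.2 = a := uniq_of_norm26 (S := (graph26 hL : Set _)) (fun p hp p' hp' => sub_mem hp hp')
    (fun p hp => norm_graph26 hL hp) (x := p.1) hp ha
  rw [this]
  exact h ζ

private theorem continuous_pt26 (X : Type*) (x : X) : Continuous fun ζ : H => (pt x ζ : El X H) := by
  classical
  have h : LipschitzWith 1 fun ζ : H => (pt x ζ : El X H) := by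
    apply LipschitzWith.of_dist_le_mul
    intro ζ θ
    rw [dist_eq_norm, dist_eq_norm]
    have : (pt x ζ : El X H) - pt x θ = pt x (ζ - θ) := by
      ext y
      rw [lp.coeFn_sub, Pi.sub_apply, pt_apply, pt_apply, pt_apply]
      by_cases hy : y = x
      · simp [hy]
      · simp [hy]
    rw [this, pt, lp.norm_single (by norm_num)]
    simp
  exact h.continuous

private theorem hom_of_graph26 {A B : Type*} [Ring A] [StarRing A] [Algebra ℂ A] [StarModule ℂ A]
    [Ring B] [StarRing B] [Algebra ℂ B] [StarModule ℂ B] (S : StarSubalgebra ℂ A)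
    (R : StarSubalgebra ℂ (A × B)) (hex : ∀ x ∈ S, ∃ a, (x, a) ∈ R)
    (hu : ∀ (x : A) (a a' : B), (x, a) ∈ R → (x, a') ∈ R → a = a') :
    ∃ Φ : S →⋆ₐ[ℂ] B, ∀ a : S, ((a : A), Φ a) ∈ R := by
  choose Φ hΦ using fun a : S => hex (a : A) a.2
  exact ⟨{ toFun := Φ
           map_one' := hu _ _ _ (hΦ 1) (one_mem R)
           map_mul' := fun a b => hu _ _ _ (hΦ (a * b)) (mul_mem (hΦ a) (hΦ b))
           map_zero' := hu _ _ _ (hΦ 0) (zero_mem R)
           map_add' := fun a b => hu _ _ _ (hΦ (a + b)) (add_mem (hΦ a) (hΦ b))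
           commutes' := fun c => hu _ _ _ (hΦ (algebraMap ℂ _ c)) (algebraMap_mem R c)
           map_star' := fun a => hu _ _ _ (hΦ (star a)) (star_mem (hΦ a)) }, hΦ⟩

private theorem mem_cl26 (hL : LetterNet K q π I l ψ)
    {p : (H →L[ℂ] H) × BEl I Q H} (hp : p ∈ (graph26 hL).topologicalClosure) :
    p ∈ closure (graph26 hL : Set ((H →L[ℂ] H) × BEl I Q H)) := hp

private theorem cauchy26 {A B : Type*} [NormedRing A] [NormedRing B] [CompleteSpace B]
    {S : Set (A × B)} (hS : ∀ p ∈ S, ∀ p' ∈ S, p - p' ∈ S) (hn : ∀ p ∈ S, ‖p.2‖ ≤ ‖p.1‖)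
    {x : A} {T : Set A} (hx : x ∈ closure T) (hT : ∀ t ∈ T, ∃ a, (t, a) ∈ S) :
    ∃ a, (x, a) ∈ closure S := by
  obtain ⟨u, hu, hlim⟩ := mem_closure_iff_seq_limit.1 hx
  choose a ha using fun n => hT (u n) (hu n)
  have hc : CauchySeq a := by
    rw [Metric.cauchySeq_iff]
    intro ε hε
    obtain ⟨N, hN⟩ := Metric.cauchySeq_iff.1 hlim.cauchySeq ε hε
    refine ⟨N, fun m hm n hm' => lt_of_le_of_lt ?_ (hN m hm n hm')⟩
    rw [dist_eq_norm, dist_eq_norm]
    exact hn (u m - u n, a m - a n) (hS _ (ha m) _ (ha n))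
  obtain ⟨b, hb⟩ := cauchySeq_tendsto_of_complete hc
  exact ⟨b, mem_closure_of_tendsto (hlim.prodMk_nhds hb) (Eventually.of_forall ha)⟩

private theorem closure_norm26 [l.NeBot] (hL : LetterNet K q π I l ψ)
    {p : (H →L[ℂ] H) × BEl I Q H} (hp : p ∈ (graph26 hL).topologicalClosure) : ‖p.2‖ ≤ ‖p.1‖ :=
  closure_minimal (s := (graph26 hL : Set _)) (t := {p : (H →L[ℂ] H) × BEl I Q H | ‖p.2‖ ≤ ‖p.1‖})
    (fun _ h => norm_graph26 hL h)
    (isClosed_le continuous_snd.norm continuous_fst.norm) (mem_cl26 hL hp)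

private theorem closure_pt26 [l.NeBot] (hL : LetterNet K q π I l ψ)
    {p : (H →L[ℂ] H) × BEl I Q H} (hp : p ∈ (graph26 hL).topologicalClosure) (ζ : H) :
    p.2 (pt 1 ζ) = pt 1 (p.1 ζ) :=
  closure_minimal (s := (graph26 hL : Set _)) (t := {p : (H →L[ℂ] H) × BEl I Q H | p.2 (pt 1 ζ) = pt 1 (p.1 ζ)})
    (fun _ h => graph_pt26 hL h ζ)
    (isClosed_eq (continuous_snd.clm_apply continuous_const)
      ((continuous_pt26 _ _).comp (continuous_fst.clm_apply continuous_const))) (mem_cl26 hL hp)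

private theorem closure_csG26 (hL : LetterNet K q π I l ψ)
    {p : (H →L[ℂ] H) × BEl I Q H} (hp : p ∈ (graph26 hL).topologicalClosure) :
    p.2 ∈ csG I q π :=
  closure_minimal (s := (graph26 hL : Set _)) (t := {p : (H →L[ℂ] H) × BEl I Q H | p.2 ∈ csG I q π})
    (fun _ h => (StarSubalgebra.le_topologicalClosure _) ((mem_graph26 hL).1 h).2.1)
    ((StarSubalgebra.isClosed_topologicalClosure (StarAlgebra.adjoin ℂ
      (Set.range fun g => (Pop I q π g : BEl I Q H)))).preimage continuous_snd) (mem_cl26 hL hp)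

private theorem closure_uniq26 [l.NeBot] (hL : LetterNet K q π I l ψ) {x : H →L[ℂ] H}
    {a a' : BEl I Q H} (h : (x, a) ∈ (graph26 hL).topologicalClosure)
    (h' : (x, a') ∈ (graph26 hL).topologicalClosure) : a = a' :=
  uniq_of_norm26 (S := ((graph26 hL).topologicalClosure : Set _))
    (fun _ hp _ hp' => sub_mem hp hp') (fun _ hp => closure_norm26 hL hp) h h'

private theorem closure_exists26 [l.NeBot] (hL : LetterNet K q π I l ψ) (x : H →L[ℂ] H)
    (hx : x ∈ grpCs π) : ∃ a : BEl I Q H, (x, a) ∈ (graph26 hL).topologicalClosure := by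
  have hx' : x ∈ closure (grpAlg π : Set (H →L[ℂ] H)) := hx
  obtain ⟨a, ha⟩ := cauchy26 (S := (graph26 hL : Set ((H →L[ℂ] H) × BEl I Q H)))
    (fun _ hp _ hp' => sub_mem hp hp') (fun _ hp => norm_graph26 hL hp) hx' (by
      intro t ht
      obtain ⟨a, ha, -⟩ := graph_exists26 hL t ht
      exact ⟨a, ha⟩)
  exact ⟨a, ha⟩

theorem exists_ext [l.NeBot] (hL : LetterNet K q π I l ψ) :
    ∃ Φ : grpCs π →⋆ₐ[ℂ] BEl I Q H, (∀ a, Φ a ∈ csG I q π) ∧
      ∀ (a : grpCs π) (ζ : H), Φ a (pt 1 ζ) = pt 1 ((a : H →L[ℂ] H) ζ) := by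
  obtain ⟨Φ, hΦ⟩ := hom_of_graph26 (grpCs π) (graph26 hL).topologicalClosure
    (closure_exists26 hL) (fun _ _ _ h h' => closure_uniq26 hL h h')
  exact ⟨Φ, fun a => closure_csG26 hL (hΦ a), fun a ζ => closure_pt26 hL (hΦ a) ζ⟩

end Pool.Agent.Helper93.SP
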