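/-
Block SP-NE (about 180 lines).  THE NORM ESTIMATE.  F = FG m Q, l2 = El F H, letters
w_k = of (inl k, 1), s_i = of (inr i, 1).  Y is a unitary matrix with entries in csG,
u = uop Y = W Y, W = diag(w_1, ..., w_m) (so u is unitary), |z| = 1,
g_z = sum over b < 2m of z^b u^b.  For ζ in l2 let v = matOp V (incl j ζ), i.e.
v_i = m^(-1/2) w^(ij) s_i ζ.  Claim: ‖g_z v‖ ≤ sqrt(2m) (1 + sqrt 2) ‖ζ‖.

Proof.  Let A0 = {ω : hd ω ≠ ((inl k, c), false) for all k, c} (words which do not start with an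
inverse w-letter), A+ = {ω : hd ω = ((inl k, c), true) for some k, c}, S+ = {ω : hd ω =
((inr i, c), true) for some i, c}.  A0, A+, S+ are invariant under shifts (hd_shift), A+ ⊆ A0,
S+ ⊆ A0, A+ and S+ are disjoint, and w_k A0 ⊆ A+ (hd_of_mul).
(1) Call η in Pw (Fin m) l2 supported on A if all coordinates are.  matOp Y preserves vectors
    supported on A0 (supp_of_mem_csG and matOp_apply), matOp W maps vectors supported on A0 to
    vectors supported on A+.  Hence for c ≥ 1 and η supported on A0, u^c η is supported on A+.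
(2) If η is supported on S+ then ⟪u^b η, u^b' η⟫ = 0 for b ≠ b' (u unitary: for b > b' it is
    ⟪u^(b-b') η, η⟫ and A+, S+ are disjoint; inner_eq_zero_of_supp), so
    ‖g_z η‖^2 = Σ_b ‖z^b u^b η‖^2 = 2m ‖η‖^2.
(3) For every i let p_i be the part of ζ on the set B_i of words with hd = ((inr i, 1), false)
    (pairwise disjoint sets: exists_pieces).  η_i = m^(-1/2) w^(ij) s_i (ζ - p_i) and
    η'_i = m^(-1/2) w^(ij) s_i p_i; v = η + η'.  η is supported on S+ (hd_of_mul: s_i ω starts with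
    s_i if hd ω ≠ (s_i, false)).  ‖η‖^2 ≤ (1/m) Σ_i ‖ζ - p_i‖^2 ≤ ‖ζ‖^2, so
    ‖g_z η‖ ≤ sqrt(2m) ‖ζ‖.  ‖η'‖^2 = (1/m) Σ_i ‖p_i‖^2 ≤ ‖ζ‖^2 / m and ‖g_z‖ ≤ 2m, so
    ‖g_z η'‖ ≤ 2m ‖ζ‖ / sqrt m = sqrt(2m) sqrt 2 ‖ζ‖.
(The modulus of exp(2 pi i/m)^(ij) is 1.)
-/
import Pool.Agent.Helper93.SP.Mat
import Pool.Agent.Helper93.SP.Ell
import Pool.Agent.Helper93.SP.Word

set_option autoImplicit false

open scoped InnerProductSpace ComplexConjugate ENNReal NNReal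
open Filter Topology

namespace Pool.Agent.Helper93.SP

variable {G Q : Type*} [Group G] [Group Q] {H : Type*} [NormedAddCommGroup H]
  [InnerProductSpace ℂ H] [CompleteSpace H] {q : G →* Q} {π : G →* unitary (H →L[ℂ] H)} {m : ℕ}

section aux

variable {E : Type*} [NormedAddCommGroup E] [InnerProductSpace ℂ E] [CompleteSpace E]

private theorem w_sum88 {n : ℕ} (hn : 0 < n) (i j : Fin n) :
    ∑ k : Fin n, Complex.exp (2 * Real.pi * Complex.I / n) ^ ((i : ℕ) * (k : ℕ)) *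
      conj (Complex.exp (2 * Real.pi * Complex.I / n) ^ ((j : ℕ) * (k : ℕ))) =
      if i = j then (n : ℂ) else 0 := by
  have hn0 : n ≠ 0 := hn.ne'
  have hp := Complex.isPrimitiveRoot_exp n hn0
  set w : ℂ := Complex.exp (2 * Real.pi * Complex.I / n) with hw
  have hw0 : w ≠ 0 := Complex.exp_ne_zero _
  have hnw : ‖w‖ = 1 := by
    have h1 : w ^ n = 1 := hp.pow_eq_one
    have h2 : ‖w‖ ^ n = 1 := by rw [← norm_pow, h1, norm_one]
    exact (pow_eq_one_iff_of_nonneg (norm_nonneg _) hn0).1 h2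
  have hcw : conj w = w⁻¹ := by
    apply eq_inv_of_mul_eq_one_left
    rw [mul_comm, Complex.mul_conj, Complex.normSq_eq_norm_sq, hnw]
    simp
  have hterm : ∀ k : Fin n, w ^ ((i : ℕ) * (k : ℕ)) * conj (w ^ ((j : ℕ) * (k : ℕ))) =
      (w ^ (i : ℕ) * (w⁻¹) ^ (j : ℕ)) ^ (k : ℕ) := by
    intro k
    rw [map_pow, hcw, pow_mul, pow_mul, mul_pow]
  simp only [hterm]
  rw [Fin.sum_univ_eq_sum_range (fun k => (w ^ (i : ℕ) * (w⁻¹) ^ (j : ℕ)) ^ k) n]
  by_cases hij : i = j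
  · subst hij
    have h1 : w ^ (i : ℕ) * (w⁻¹) ^ (i : ℕ) = 1 := by
      rw [← mul_pow, mul_inv_cancel₀ hw0, one_pow]
    simp only [h1, one_pow]
    simp
  · rw [if_neg hij]
    have hr : w ^ (i : ℕ) * (w⁻¹) ^ (j : ℕ) ≠ 1 := by
      intro h
      rw [inv_pow, mul_inv_eq_one₀ (pow_ne_zero _ hw0)] at h
      exact hij (Fin.ext (hp.pow_inj i.2 j.2 h))
    have hrn : (w ^ (i : ℕ) * (w⁻¹) ^ (j : ℕ)) ^ n = 1 := by
      rw [mul_pow, ← pow_mul, ← pow_mul, mul_comm (i : ℕ), mul_comm (j : ℕ), pow_mul, pow_mul,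
        inv_pow, hp.pow_eq_one]
      simp
    have hg := mul_geom_sum (w ^ (i : ℕ) * (w⁻¹) ^ (j : ℕ)) n
    rw [hrn, sub_self] at hg
    exact (mul_eq_zero.1 hg).resolve_left (sub_ne_zero.2 hr)

private theorem norm_sum_sq88 {κ : Type*} (s : Finset κ) (f : κ → E)
    (h : ∀ b ∈ s, ∀ c ∈ s, b ≠ c → ⟪f b, f c⟫_ℂ = 0) :
    ‖∑ b ∈ s, f b‖ ^ 2 = ∑ b ∈ s, ‖f b‖ ^ 2 := by
  classical
  induction s using Finset.induction_on with
  | empty => simp
  | insert a s ha ih =>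
    rw [Finset.sum_insert ha, Finset.sum_insert ha]
    have h0 : ⟪f a, ∑ b ∈ s, f b⟫_ℂ = 0 := by
      rw [inner_sum]
      refine Finset.sum_eq_zero fun b hb => ?_
      exact h a (Finset.mem_insert_self _ _) b (Finset.mem_insert_of_mem hb)
        (fun hab => ha (hab ▸ hb))
    have h1 := norm_add_sq_eq_norm_sq_add_norm_sq_of_inner_eq_zero (𝕜 := ℂ) _ _ h0
    rw [sq, h1, ← sq, ← sq, ih fun b hb c hc hbc =>
      h b (Finset.mem_insert_of_mem hb) c (Finset.mem_insert_of_mem hc) hbc]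

private theorem pow_unitary88 {u : E →L[ℂ] E} (hu : u ∈ unitary (E →L[ℂ] E)) (b : ℕ) :
    u ^ b ∈ unitary (E →L[ℂ] E) := pow_mem hu b

private theorem gz_apply88 (n : ℕ) (z : ℂ) (u : E →L[ℂ] E) (x : E) :
    gz n z u x = ∑ b ∈ Finset.range (2 * n), z ^ b • (u ^ b) x := by
  rw [gz, _root_.sum_apply]
  rfl

private theorem gz_le88 (n : ℕ) {z : ℂ} (hz : ‖z‖ = 1) {u : E →L[ℂ] E}
    (hu : u ∈ unitary (E →L[ℂ] E)) (x : E) : ‖gz n z u x‖ ≤ 2 * n * ‖x‖ := by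
  rw [gz_apply88]
  refine (norm_sum_le _ _).trans ?_
  have h1 : ∀ b ∈ Finset.range (2 * n), ‖z ^ b • (u ^ b) x‖ = ‖x‖ := by
    intro b _
    rw [norm_smul, norm_pow, hz, one_pow, one_mul,
      ContinuousLinearMap.norm_map_of_mem_unitary (pow_unitary88 hu b)]
  rw [Finset.sum_congr rfl h1]
  simp

private theorem gz_eq88 (n : ℕ) {z : ℂ} (hz : ‖z‖ = 1) {u : E →L[ℂ] E}
    (hu : u ∈ unitary (E →L[ℂ] E)) (x : E) (h : ∀ c : ℕ, 1 ≤ c → ⟪x, (u ^ c) x⟫_ℂ = 0) :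
    ‖gz n z u x‖ ^ 2 = 2 * n * ‖x‖ ^ 2 := by
  rw [gz_apply88, norm_sum_sq88]
  · have h1 : ∀ b ∈ Finset.range (2 * n), ‖z ^ b • (u ^ b) x‖ ^ 2 = ‖x‖ ^ 2 := by
      intro b _
      rw [norm_smul, norm_pow, hz, one_pow, one_mul,
        ContinuousLinearMap.norm_map_of_mem_unitary (pow_unitary88 hu b)]
    rw [Finset.sum_congr rfl h1]
    simp
  · have key : ∀ b c : ℕ, b < c → ⟪(u ^ b) x, (u ^ c) x⟫_ℂ = 0 := by
      intro b c hbc
      obtain ⟨d, rfl⟩ := Nat.exists_eq_add_of_lt hbc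
      have h2 : (u ^ (b + d + 1)) x = (u ^ b) ((u ^ (d + 1)) x) := by
        rw [add_assoc, pow_add]
        rfl
      rw [h2, ContinuousLinearMap.inner_map_map_of_mem_unitary (pow_unitary88 hu b)]
      exact h (d + 1) (by omega)
    intro b _ c _ hbc
    rw [inner_smul_left, inner_smul_right]
    rcases lt_or_gt_of_ne hbc with h3 | h3
    · rw [key b c h3]
      simp
    · rw [← inner_conj_symm, key c b h3]
      simp

end aux

private theorem Lop_star_mul88 (ν : FG m Q) :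
    star (Lop (Nm m) Q H ν : BEl (Nm m) Q H) * (Lop (Nm m) Q H ν : BEl (Nm m) Q H) = 1 :=
  Unitary.star_mul_self_of_mem (Lop (Nm m) Q H ν).2

private theorem Lop_mul_star88 (ν : FG m Q) :
    (Lop (Nm m) Q H ν : BEl (Nm m) Q H) * star (Lop (Nm m) Q H ν : BEl (Nm m) Q H) = 1 :=
  Unitary.mul_star_self_of_mem (Lop (Nm m) Q H ν).2

theorem Wm_unitary : matOp (Wm m Q H) ∈ unitary (Pw (Fin m) (El (FG m Q) H) →L[ℂ] _) := by
  rw [Unitary.mem_iff, matOp_star, ← matOp_mul, ← matOp_mul, ← matOp_one]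
  constructor
  · congr 1
    rw [Wm, Matrix.star_eq_conjTranspose, Matrix.diagonal_conjTranspose,
      Matrix.diagonal_mul_diagonal, ← Matrix.diagonal_one]
    congr 1
    funext k
    exact Lop_star_mul88 _
  · congr 1
    rw [Wm, Matrix.star_eq_conjTranspose, Matrix.diagonal_conjTranspose,
      Matrix.diagonal_mul_diagonal, ← Matrix.diagonal_one]
    congr 1
    funext k
    exact Lop_mul_star88 _

private theorem cc88 (hm : 0 < m) :
    (((Real.sqrt m)⁻¹ : ℝ) : ℂ) * (((Real.sqrt m)⁻¹ : ℝ) : ℂ) * (m : ℂ) = 1 := by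
  have h1 : (0 : ℝ) < m := by exact_mod_cast hm
  have h2 : ((Real.sqrt m)⁻¹ : ℝ) * (Real.sqrt m)⁻¹ * (m : ℝ) = 1 := by
    rw [← mul_inv, Real.mul_self_sqrt h1.le, inv_mul_cancel₀ h1.ne']
  exact_mod_cast h2

theorem Vm_unitary (hm : 0 < m) :
    matOp (Vm m Q H) ∈ unitary (Pw (Fin m) (El (FG m Q) H) →L[ℂ] _) := by
  rw [Unitary.mem_iff, matOp_star, ← matOp_mul, ← matOp_mul, ← matOp_one]
  constructor
  · congr 1
    ext1 i j
    rw [Matrix.mul_apply]
    have h1 : ∀ k : Fin m, star (Vm m Q H) i k * Vm m Q H k j =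
        ((((Real.sqrt m)⁻¹ : ℝ) : ℂ) * (((Real.sqrt m)⁻¹ : ℝ) : ℂ) *
          (Complex.exp (2 * Real.pi * Complex.I / m) ^ ((j : ℕ) * (k : ℕ)) *
            conj (Complex.exp (2 * Real.pi * Complex.I / m) ^ ((i : ℕ) * (k : ℕ))))) •
          (1 : BEl (Nm m) Q H) := by
      intro k
      rw [Matrix.star_apply, Vm, Matrix.of_apply, Matrix.of_apply, star_smul, smul_mul_smul_comm,
        Lop_star_mul88]
      congr 1
      rw [star_mul', Complex.star_def, Complex.conj_ofReal, mul_comm (k : ℕ) (i : ℕ),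
        mul_comm (k : ℕ) (j : ℕ)]
      ring
    rw [Finset.sum_congr rfl fun k _ => h1 k, ← Finset.sum_smul, ← Finset.mul_sum, w_sum88 hm]
    by_cases hij : i = j
    · subst hij
      rw [if_pos rfl, cc88 hm, one_smul, Matrix.one_apply_eq]
    · rw [if_neg (Ne.symm hij), mul_zero, zero_smul, Matrix.one_apply_ne hij]
  · congr 1
    ext1 i j
    rw [Matrix.mul_apply]
    have h1 : ∀ k : Fin m, Vm m Q H i k * star (Vm m Q H) k j =
        ((((Real.sqrt m)⁻¹ : ℝ) : ℂ) * (((Real.sqrt m)⁻¹ : ℝ) : ℂ) *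
          (Complex.exp (2 * Real.pi * Complex.I / m) ^ ((i : ℕ) * (k : ℕ)) *
            conj (Complex.exp (2 * Real.pi * Complex.I / m) ^ ((j : ℕ) * (k : ℕ))))) •
          ((Lop (Nm m) Q H (FreeGroup.of (Sum.inr i, 1)) : BEl (Nm m) Q H) *
            star (Lop (Nm m) Q H (FreeGroup.of (Sum.inr j, 1)) : BEl (Nm m) Q H)) := by
      intro k
      rw [Matrix.star_apply, Vm, Matrix.of_apply, Matrix.of_apply, star_smul, smul_mul_smul_comm]
      congr 1
      rw [star_mul', Complex.star_def, Complex.conj_ofReal]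
      ring
    rw [Finset.sum_congr rfl fun k _ => h1 k, ← Finset.sum_smul, ← Finset.mul_sum, w_sum88 hm]
    by_cases hij : i = j
    · subst hij
      rw [if_pos rfl, cc88 hm, one_smul, Matrix.one_apply_eq, Lop_mul_star88]
    · rw [if_neg hij, mul_zero, zero_smul, Matrix.one_apply_ne hij]

theorem uop_unitary (Y : Matrix (Fin m) (Fin m) (BEl (Nm m) Q H))
    (hY : matOp Y ∈ unitary (Pw (Fin m) (El (FG m Q) H) →L[ℂ] _)) :
    uop Y ∈ unitary (Pw (Fin m) (El (FG m Q) H) →L[ℂ] _) :=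
  mul_mem Wm_unitary hY

/-- Words which do not start with an inverse w-letter. -/
private def A0s (m : ℕ) (Q : Type*) : Set (FG m Q) :=
  {ω | ∀ (k : Fin m) (c : Q), hd ω ≠ some ((Sum.inl k, c), false)}

/-- Words which start with a w-letter. -/
private def Aps (m : ℕ) (Q : Type*) : Set (FG m Q) :=
  {ω | ∃ (k : Fin m) (c : Q), hd ω = some ((Sum.inl k, c), true)}

/-- Words which start with an s-letter. -/
private def Sps (m : ℕ) (Q : Type*) : Set (FG m Q) :=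
  {ω | ∃ (k : Fin m) (c : Q), hd ω = some ((Sum.inr k, c), true)}

private theorem Aps_sub88 : Aps m Q ⊆ A0s m Q := by
  rintro ω ⟨k, c, h⟩ k' c' h'
  rw [h] at h'
  simp at h'

private theorem Sps_sub88 : Sps m Q ⊆ A0s m Q := by
  rintro ω ⟨k, c, h⟩ k' c' h'
  rw [h] at h'
  simp at h'

private theorem disj88 : Disjoint (Sps m Q) (Aps m Q) := by
  rw [Set.disjoint_left]
  rintro ω ⟨k, c, h⟩ ⟨k', c', h'⟩
  rw [h] at h'
  simp at h'

private theorem A0s_shift88 (c : Q) (ω : FG m Q) (h : ω ∈ A0s m Q) : shift c ω ∈ A0s m Q := by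
  intro k d h'
  rw [hd_shift] at h'
  rcases hh : hd ω with _ | p
  · rw [hh] at h'
    simp at h'
  · rw [hh] at h'
    simp only [Option.map_some, Option.some.injEq, Prod.mk.injEq] at h'
    obtain ⟨⟨h1, h2⟩, h3⟩ := h'
    apply h k p.1.2
    rw [hh]
    congr 1
    exact Prod.ext (Prod.ext h1 rfl) h3

private theorem supp_add88 {X : Type*} {A : Set X} {f g : El X H} (hf : Supp A f)
    (hg : Supp A g) : Supp A (f + g) := by
  intro x hx
  have h1 := hf x hx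
  have h2 := hg x hx
  rw [lp.coeFn_add, Pi.add_apply, h1, h2, add_zero]

private theorem supp_zero88 {X : Type*} (A : Set X) : Supp A (0 : El X H) := fun _ _ => rfl

private theorem supp_sum88 {X κ : Type*} {A : Set X} (s : Finset κ) (f : κ → El X H)
    (hf : ∀ i ∈ s, Supp A (f i)) : Supp A (∑ i ∈ s, f i) := by
  classical
  induction s using Finset.induction_on with
  | empty => simpa using supp_zero88 A
  | insert a s ha ih =>
    rw [Finset.sum_insert ha]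
    exact supp_add88 (hf a (Finset.mem_insert_self _ _))
      (ih fun i hi => hf i (Finset.mem_insert_of_mem hi))

private theorem supp_smul88 {X : Type*} {A : Set X} {f : El X H} (c : ℂ) (hf : Supp A f) :
    Supp A (c • f) := by
  intro x hx
  rw [lp.coeFn_smul, Pi.smul_apply, hf x hx, smul_zero]

private theorem supp_mono88 {X : Type*} {A B : Set X} (h : A ⊆ B) {f : El X H}
    (hf : Supp A f) : Supp B f := fun x hx => hf x fun hxA => hx (h hxA)

private theorem Y_supp88 (Y : Matrix (Fin m) (Fin m) (BEl (Nm m) Q H))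
    (hYm : ∀ i j, Y i j ∈ csG (Nm m) q π) (x : Pw (Fin m) (El (FG m Q) H))
    (hx : ∀ i, Supp (A0s m Q) (x i)) (i : Fin m) : Supp (A0s m Q) (matOp Y x i) := by
  rw [matOp_apply]
  exact supp_sum88 _ _ fun j _ =>
    supp_of_mem_csG q π (A0s m Q) A0s_shift88 (Y i j) (hYm i j) (x j) (hx j)

private theorem W_supp88 (x : Pw (Fin m) (El (FG m Q) H))
    (hx : ∀ i, Supp (A0s m Q) (x i)) (i : Fin m) : Supp (Aps m Q) (matOp (Wm m Q H) x i) := by
  rw [matOp_apply]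
  refine supp_sum88 _ _ fun j _ => ?_
  by_cases hij : i = j
  · subst hij
    rw [Wm, Matrix.diagonal_apply_eq]
    refine supp_Lop (A0s m Q) (Aps m Q) _ ?_ _ (hx i)
    intro ω hω
    exact ⟨i, 1, hd_of_mul _ _ (hω i 1)⟩
  · rw [Wm, Matrix.diagonal_apply_ne _ hij]
    exact supp_zero88 _

private theorem u_supp88 (Y : Matrix (Fin m) (Fin m) (BEl (Nm m) Q H))
    (hYm : ∀ i j, Y i j ∈ csG (Nm m) q π) (x : Pw (Fin m) (El (FG m Q) H))
    (hx : ∀ i, Supp (A0s m Q) (x i)) (i : Fin m) : Supp (Aps m Q) (uop Y x i) :=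
  W_supp88 (matOp Y x) (Y_supp88 Y hYm x hx) i

private theorem upow_supp88 (Y : Matrix (Fin m) (Fin m) (BEl (Nm m) Q H))
    (hYm : ∀ i j, Y i j ∈ csG (Nm m) q π) (x : Pw (Fin m) (El (FG m Q) H))
    (hx : ∀ i, Supp (A0s m Q) (x i)) (c : ℕ) (hc : 1 ≤ c) :
    ∀ i, Supp (Aps m Q) ((uop Y ^ c) x i) := by
  induction c, hc using Nat.le_induction with
  | base =>
    intro i
    rw [pow_one]
    exact u_supp88 Y hYm x hx i
  | succ c hc ih =>
    intro i
    have h1 : (uop Y ^ (c + 1)) x = uop Y ((uop Y ^ c) x) := by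
      rw [pow_succ']
      rfl
    rw [h1]
    exact u_supp88 Y hYm _ (fun i => supp_mono88 Aps_sub88 (ih i)) i

theorem g_vec_bound (hm : 0 < m) (Y : Matrix (Fin m) (Fin m) (BEl (Nm m) Q H))
    (hYm : ∀ i j, Y i j ∈ csG (Nm m) q π)
    (hY : matOp Y ∈ unitary (Pw (Fin m) (El (FG m Q) H) →L[ℂ] _)) (z : ℂ) (hz : ‖z‖ = 1)
    (j : Fin m) (ζ : El (FG m Q) H) :
    ‖gz m z (uop Y) (matOp (Vm m Q H) (incl _ j ζ))‖ ≤
      Real.sqrt (2 * m) * (1 + Real.sqrt 2) * ‖ζ‖ := by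
  have hmR : (0 : ℝ) < m := by exact_mod_cast hm
  have hu := uop_unitary Y hY
  -- the coefficients
  set a : Fin m → ℂ := fun i => (((Real.sqrt m)⁻¹ : ℝ) : ℂ) *
      Complex.exp (2 * Real.pi * Complex.I / m) ^ ((i : ℕ) * (j : ℕ)) with ha
  have hnorm : ∀ i, ‖a i‖ ^ 2 = (m : ℝ)⁻¹ := by
    intro i
    have h1 : ‖Complex.exp (2 * Real.pi * Complex.I / m)‖ = 1 := by
      have h2 := (Complex.isPrimitiveRoot_exp m hm.ne').pow_eq_one
      have h3 : ‖Complex.exp (2 * Real.pi * Complex.I / m)‖ ^ m = 1 := by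
        rw [← norm_pow, h2, norm_one]
      exact (pow_eq_one_iff_of_nonneg (norm_nonneg _) hm.ne').1 h3
    simp only [ha]
    rw [norm_mul, norm_pow, h1, one_pow, mul_one, Complex.norm_real, Real.norm_eq_abs, sq_abs,
      inv_pow, Real.sq_sqrt hmR.le]
  -- the pieces
  obtain ⟨p, hp1, hp2, hp3, hp4⟩ := exists_pieces
    (fun i : Fin m => {ω : FG m Q | hd ω = some ((Sum.inr i, (1 : Q)), false)}) (by
      intro i i' hii'
      rw [Set.disjoint_left]
      intro ω h1 h2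
      simp only [Set.mem_ofPred_eq] at h1 h2
      rw [h1] at h2
      simp only [Option.some.injEq, Prod.mk.injEq, Sum.inr.injEq, and_true] at h2
      exact hii' h2) ζ
  let L : Fin m → BEl (Nm m) Q H := fun i => (Lop (Nm m) Q H (FreeGroup.of (Sum.inr i, 1)) :
    BEl (Nm m) Q H)
  have hL : ∀ i f, ‖L i f‖ = ‖f‖ := fun i f =>
    Unitary.norm_map (Lop (Nm m) Q H (FreeGroup.of (Sum.inr i, 1))) f
  let η : Pw (Fin m) (El (FG m Q) H) := WithLp.toLp 2 fun i => a i • L i (ζ - p i)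
  let η' : Pw (Fin m) (El (FG m Q) H) := WithLp.toLp 2 fun i => a i • L i (p i)
  have hη : ∀ i, η i = a i • L i (ζ - p i) := fun i => rfl
  have hη' : ∀ i, η' i = a i • L i (p i) := fun i => rfl
  have hv : matOp (Vm m Q H) (incl _ j ζ) = η + η' := by
    ext1 i
    rw [matOp_apply, Finset.sum_eq_single j]
    · rw [incl_apply, if_pos rfl, PiLp.add_apply, hη, hη', ← smul_add, ← map_add, sub_add_cancel]
      rfl
    · intro b _ hb
      rw [incl_apply, if_neg hb, map_zero]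
    · intro h
      exact absurd (Finset.mem_univ j) h
  have hηS : ∀ i, Supp (Sps m Q) (η i) := by
    intro i
    rw [hη]
    refine supp_smul88 _ (supp_Lop _ (Sps m Q) _ ?_ _ (hp2 i))
    intro ω hω
    exact ⟨i, 1, hd_of_mul _ _ hω⟩
  have horth : ∀ c : ℕ, 1 ≤ c → ⟪η, (uop Y ^ c) η⟫_ℂ = 0 := by
    intro c hc
    rw [PiLp.inner_apply]
    refine Finset.sum_eq_zero fun i _ => ?_
    exact inner_eq_zero_of_supp _ _ disj88 _ _ (hηS i)
      (upow_supp88 Y hYm η (fun i => supp_mono88 Sps_sub88 (hηS i)) c hc i)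
  have h1 : ‖η‖ ^ 2 ≤ ‖ζ‖ ^ 2 := by
    rw [PiLp.norm_sq_eq_of_L2]
    calc ∑ i, ‖η i‖ ^ 2 ≤ ∑ _i : Fin m, (m : ℝ)⁻¹ * ‖ζ‖ ^ 2 := by
          refine Finset.sum_le_sum fun i _ => ?_
          rw [hη, norm_smul, mul_pow, hnorm, hL]
          have := hp3 i
          gcongr
      _ = ‖ζ‖ ^ 2 := by
          rw [Finset.sum_const, Finset.card_univ, Fintype.card_fin, nsmul_eq_mul, ← mul_assoc,
            mul_inv_cancel₀ hmR.ne', one_mul]
  have h2 : ‖η'‖ ^ 2 ≤ (m : ℝ)⁻¹ * ‖ζ‖ ^ 2 := by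
    rw [PiLp.norm_sq_eq_of_L2]
    calc ∑ i, ‖η' i‖ ^ 2 = (m : ℝ)⁻¹ * ∑ i, ‖p i‖ ^ 2 := by
          rw [Finset.mul_sum]
          refine Finset.sum_congr rfl fun i _ => ?_
          rw [hη', norm_smul, mul_pow, hnorm, hL]
      _ ≤ (m : ℝ)⁻¹ * ‖ζ‖ ^ 2 := by gcongr
  have h3 : ‖gz m z (uop Y) η‖ ≤ Real.sqrt (2 * m) * ‖ζ‖ := by
    have h4 : ‖gz m z (uop Y) η‖ ^ 2 ≤ (Real.sqrt (2 * m) * ‖ζ‖) ^ 2 := by
      rw [gz_eq88 m hz hu η horth, mul_pow, Real.sq_sqrt (by positivity)]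
      gcongr
    exact (sq_le_sq₀ (norm_nonneg _) (by positivity)).1 h4
  have h5 : ‖gz m z (uop Y) η'‖ ≤ Real.sqrt (2 * m) * Real.sqrt 2 * ‖ζ‖ := by
    refine (gz_le88 m hz hu η').trans ?_
    have h6 : (2 * m * ‖η'‖) ^ 2 ≤ (Real.sqrt (2 * m) * Real.sqrt 2 * ‖ζ‖) ^ 2 := by
      rw [mul_pow, mul_pow (Real.sqrt (2 * m) * Real.sqrt 2), mul_pow (Real.sqrt (2 * m)),
        Real.sq_sqrt (by positivity), Real.sq_sqrt (by norm_num)]
      calc (2 * (m : ℝ)) ^ 2 * ‖η'‖ ^ 2 ≤ (2 * (m : ℝ)) ^ 2 * ((m : ℝ)⁻¹ * ‖ζ‖ ^ 2) := by gcongr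
        _ = 2 * m * 2 * ‖ζ‖ ^ 2 := by
          field_simp
    exact (sq_le_sq₀ (by positivity) (by positivity)).1 h6
  rw [hv, map_add]
  refine (norm_add_le _ _).trans ?_
  calc ‖gz m z (uop Y) η‖ + ‖gz m z (uop Y) η'‖
      ≤ Real.sqrt (2 * m) * ‖ζ‖ + Real.sqrt (2 * m) * Real.sqrt 2 * ‖ζ‖ := add_le_add h3 h5
    _ = Real.sqrt (2 * m) * (1 + Real.sqrt 2) * ‖ζ‖ := by ring

end Pool.Agent.Helper93.SP
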