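/-
Block SP-FB (about 150 lines).  From the norm estimate (g_vec_bound) and the level-one inequality
‖T^ a - a T^‖ ≤ δ ‖a‖ on csL (hypothesis hTL) to

   ‖ (T^ ⊗ 1) f_z - f_z (T^ ⊗ 1) ‖ ≤ (1 + sqrt 2)^2 δ m     (|z| = 1).

Proof.  Write f = fz m z (uop Y) = (1/2m) g* g, V = matOp (Vm m Q H) (unitary, Vm_unitary), and
a = V* f V.  Its entries a_ij (entry a i j) lie in csL: the entries of W, V are in csL
(Lop_mem_csL), those of Y in csG ≤ csL, matAlg csL is a star subalgebra (mem_matAlg, entry_matOp).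
‖a_ij‖ ≤ (1 + sqrt 2)^2: for ζ, θ in l2,
  ⟪θ, a_ij ζ⟫ = ⟪incl i θ, V* f V incl j ζ⟫ = (1/2m) ⟪g V incl i θ, g V incl j ζ⟫, and g_vec_bound.
Hence ‖T^ a_ij - a_ij T^‖ ≤ δ (1 + sqrt 2)^2 =: β.  amp T^ commutes with V (its entries are scalar
multiples of Lop's; amp_comm and cst_comm_Lop) and V*, so
  [amp T^, f] = [amp T^, V a V*] = V [amp T^, a] V*, ‖[amp T^, f]‖ ≤ ‖[amp T^, a]‖ ≤ m β
by amp_comm and norm_matOp_le (card (Fin m) = m).
-/
import Pool.Agent.Helper93.SP.Nest

set_option autoImplicit false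

open scoped InnerProductSpace ComplexConjugate ENNReal NNReal
open Filter Topology

namespace Pool.Agent.Helper93.SP

variable {G Q : Type*} [Group G] [Group Q] {H : Type*} [NormedAddCommGroup H]
  [InnerProductSpace ℂ H] [CompleteSpace H] {q : G →* Q} {π : G →* unitary (H →L[ℂ] H)} {m : ℕ}

private theorem inner_incl34 {ι : Type*} [Fintype ι] [DecidableEq ι] {E : Type*}
    [NormedAddCommGroup E] [InnerProductSpace ℂ E] [CompleteSpace E] (i : ι) (θ : E) (x : Pw ι E) :
    ⟪incl E i θ, x⟫_ℂ = ⟪θ, x i⟫_ℂ := by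
  rw [PiLp.inner_apply, Finset.sum_eq_single i]
  · rw [incl_apply, if_pos rfl]
  · intro b _ hb
    rw [incl_apply, if_neg hb, inner_zero_left]
  · intro h
    exact absurd (Finset.mem_univ i) h

private theorem mem_W34 (m : ℕ) (q : G →* Q) (π : G →* unitary (H →L[ℂ] H)) :
    matOp (Wm m Q H) ∈ matAlg (Fin m) (csL (Nm m) q π) := by
  rw [mem_matAlg]
  intro i j
  rw [entry_matOp, Wm]
  by_cases h : i = j
  · subst h
    rw [Matrix.diagonal_apply_eq]
    exact Lop_mem_csL q π _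
  · rw [Matrix.diagonal_apply_ne _ h]
    exact zero_mem _

private theorem mem_V34 (m : ℕ) (q : G →* Q) (π : G →* unitary (H →L[ℂ] H)) :
    matOp (Vm m Q H) ∈ matAlg (Fin m) (csL (Nm m) q π) := by
  rw [mem_matAlg]
  intro i j
  rw [entry_matOp, Vm, Matrix.of_apply]
  exact SMulMemClass.smul_mem _ (Lop_mem_csL q π _)

private theorem mem_fz34 {E : Type*} [NormedAddCommGroup E] [InnerProductSpace ℂ E]
    [CompleteSpace E] (A : StarSubalgebra ℂ (E →L[ℂ] E)) (z : ℂ) (u : E →L[ℂ] E) (hu : u ∈ A) :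
    fz m z u ∈ A := by
  have hg : gz m z u ∈ A := by
    rw [gz]
    exact sum_mem fun b _ => SMulMemClass.smul_mem _ (pow_mem hu b)
  rw [fz]
  exact SMulMemClass.smul_mem _ (mul_mem (star_mem hg) hg)

private theorem comm_V34 (T : H →L[ℂ] H) :
    amp (Fin m) (cst (FG m Q) T) * matOp (Vm m Q H) =
      matOp (Vm m Q H) * amp (Fin m) (cst (FG m Q) T) := by
  rw [← sub_eq_zero, amp_comm]
  have h : (Matrix.of fun i j => cst (FG m Q) T * Vm m Q H i j - Vm m Q H i j * cst (FG m Q) T) =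
      (0 : Matrix (Fin m) (Fin m) (BEl (Nm m) Q H)) := by
    ext1 i j
    rw [Matrix.of_apply, Vm, Matrix.of_apply, mul_smul_comm, smul_mul_assoc, cst_comm_Lop, sub_self]
    rfl
  rw [h]
  ext x i : 2
  rw [matOp_apply]
  simp

private theorem entry_bound34 (hm : 0 < m)
    (Y : Matrix (Fin m) (Fin m) (BEl (Nm m) Q H)) (hYm : ∀ i j, Y i j ∈ csG (Nm m) q π)
    (hY : matOp Y ∈ unitary (Pw (Fin m) (El (FG m Q) H) →L[ℂ] _)) (z : ℂ) (hz : ‖z‖ = 1)
    (i j : Fin m) :
    ‖entry (star (matOp (Vm m Q H)) * fz m z (uop Y) * matOp (Vm m Q H)) i j‖ ≤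
      (1 + Real.sqrt 2) ^ 2 := by
  refine ContinuousLinearMap.opNorm_le_bound _ (by positivity) fun v => ?_
  set x := entry (star (matOp (Vm m Q H)) * fz m z (uop Y) * matOp (Vm m Q H)) i j v with hx
  have hm' : (0 : ℝ) < 2 * m := by positivity
  have h1 : ∀ θ : El (FG m Q) H, ⟪θ, x⟫_ℂ = ((2 * m : ℂ)⁻¹) *
      ⟪gz m z (uop Y) (matOp (Vm m Q H) (incl _ i θ)),
        gz m z (uop Y) (matOp (Vm m Q H) (incl _ j v))⟫_ℂ := by
    intro θ
    rw [hx, entry_apply, ← inner_incl34, mul_apply_eq_comp,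
      mul_apply_eq_comp, ContinuousLinearMap.star_eq_adjoint,
      ContinuousLinearMap.adjoint_inner_right, fz, smul_apply,
      inner_smul_right, mul_apply_eq_comp, ContinuousLinearMap.star_eq_adjoint,
      ContinuousLinearMap.adjoint_inner_right]
  have h2 : ∀ θ : El (FG m Q) H, ‖⟪θ, x⟫_ℂ‖ ≤ (1 + Real.sqrt 2) ^ 2 * ‖v‖ * ‖θ‖ := by
    intro θ
    rw [h1, norm_mul]
    have h3 : ‖((2 * m : ℂ)⁻¹)‖ = (2 * m : ℝ)⁻¹ := by
      rw [norm_inv, norm_mul]
      simp
    have h4 := g_vec_bound hm Y hYm hY z hz i θ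
    have h5 := g_vec_bound hm Y hYm hY z hz j v
    have h6 := norm_inner_le_norm (𝕜 := ℂ) (gz m z (uop Y) (matOp (Vm m Q H) (incl _ i θ)))
      (gz m z (uop Y) (matOp (Vm m Q H) (incl _ j v)))
    rw [h3]
    have h7 : Real.sqrt (2 * m) * Real.sqrt (2 * m) = 2 * m := Real.mul_self_sqrt hm'.le
    calc (2 * m : ℝ)⁻¹ * ‖⟪gz m z (uop Y) (matOp (Vm m Q H) (incl _ i θ)),
          gz m z (uop Y) (matOp (Vm m Q H) (incl _ j v))⟫_ℂ‖
        ≤ (2 * m : ℝ)⁻¹ * ((Real.sqrt (2 * m) * (1 + Real.sqrt 2) * ‖θ‖) *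
          (Real.sqrt (2 * m) * (1 + Real.sqrt 2) * ‖v‖)) := by
          refine mul_le_mul_of_nonneg_left (h6.trans ?_) (by positivity)
          exact mul_le_mul h4 h5 (norm_nonneg _) (by positivity)
      _ = ((2 * m : ℝ)⁻¹ * (Real.sqrt (2 * m) * Real.sqrt (2 * m))) *
          ((1 + Real.sqrt 2) ^ 2 * ‖v‖ * ‖θ‖) := by ring
      _ = (1 + Real.sqrt 2) ^ 2 * ‖v‖ * ‖θ‖ := by
          rw [h7, inv_mul_cancel₀ hm'.ne', one_mul]
  have h8 := h2 x
  rw [inner_self_eq_norm_sq_to_K] at h8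
  have h9 : ‖x‖ * ‖x‖ ≤ (1 + Real.sqrt 2) ^ 2 * ‖v‖ * ‖x‖ := by
    refine le_trans (le_of_eq ?_) h8
    rw [norm_pow, ← sq]
    simp
  by_cases h0 : ‖x‖ = 0
  · rw [h0]
    positivity
  · exact le_of_mul_le_mul_right h9 (lt_of_le_of_ne (norm_nonneg _) (Ne.symm h0))

theorem f_bound (hm : 0 < m) (T : H →L[ℂ] H) (δ : ℝ) (hδ : 0 ≤ δ)
    (hTL : ∀ a ∈ csL (Nm m) q π, ‖cst (FG m Q) T * a - a * cst (FG m Q) T‖ ≤ δ * ‖a‖)
    (Y : Matrix (Fin m) (Fin m) (BEl (Nm m) Q H)) (hYm : ∀ i j, Y i j ∈ csG (Nm m) q π)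
    (hY : matOp Y ∈ unitary (Pw (Fin m) (El (FG m Q) H) →L[ℂ] _)) (z : ℂ) (hz : ‖z‖ = 1) :
    ‖amp (Fin m) (cst (FG m Q) T) * fz m z (uop Y) - fz m z (uop Y) * amp (Fin m) (cst (FG m Q) T)‖ ≤
      (1 + Real.sqrt 2) ^ 2 * δ * m := by
  have hVu := Vm_unitary (Q := Q) (H := H) hm
  have hcV := comm_V34 (m := m) (Q := Q) T
  have hYA : matOp Y ∈ matAlg (Fin m) (csL (Nm m) q π) := by
    rw [mem_matAlg]
    intro i j
    rw [entry_matOp]
    exact csG_le_csL q π (hYm i j)
  have hfA : fz m z (uop Y) ∈ matAlg (Fin m) (csL (Nm m) q π) :=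
    mem_fz34 _ z _ (mul_mem (mem_W34 m q π) hYA)
  have haA : star (matOp (Vm m Q H)) * fz m z (uop Y) * matOp (Vm m Q H) ∈
      matAlg (Fin m) (csL (Nm m) q π) :=
    mul_mem (mul_mem (star_mem (mem_V34 m q π)) hfA) (mem_V34 m q π)
  have hent := entry_bound34 hm Y hYm hY z hz
  set V := matOp (Vm m Q H) with hV
  set f := fz m z (uop Y) with hf
  set S := amp (Fin m) (cst (FG m Q) T) with hS
  have hV1 : V * star V = 1 := Unitary.mul_star_self_of_mem hVu
  have hV2 : star V * V = 1 := Unitary.star_mul_self_of_mem hVu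
  have hcV' : star V * S = S * star V := by
    calc star V * S = star V * (S * V) * star V := by
          rw [mul_assoc, mul_assoc, hV1, mul_one]
      _ = S * star V := by rw [hcV, ← mul_assoc, hV2, one_mul]
  have hmain : ‖S * (star V * f * V) - (star V * f * V) * S‖ ≤ (m : ℝ) * (δ * (1 + Real.sqrt 2) ^ 2) := by
    have h1 : S * (star V * f * V) - (star V * f * V) * S =
        matOp (Matrix.of fun i j => cst (FG m Q) T * entry (star V * f * V) i j -
          entry (star V * f * V) i j * cst (FG m Q) T) := by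
      have h2 := amp_comm (cst (FG m Q) T) (Matrix.of fun i j => entry (star V * f * V) i j)
      rw [matOp_entry] at h2
      exact h2
    rw [h1]
    have h3 := norm_matOp_le (Matrix.of fun i j : Fin m => cst (FG m Q) T * entry (star V * f * V) i j -
          entry (star V * f * V) i j * cst (FG m Q) T) (δ * (1 + Real.sqrt 2) ^ 2) (by positivity) ?_
    · rwa [Fintype.card_fin] at h3
    · intro i j
      rw [Matrix.of_apply]
      refine (hTL _ ((mem_matAlg _ _).1 haA i j)).trans ?_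
      exact mul_le_mul_of_nonneg_left (hent i j) hδ
  have hdec : S * f - f * S = V * (S * (star V * f * V) - (star V * f * V) * S) * star V := by
    have e1 : V * (S * (star V * f * V)) * star V = S * f := by
      calc V * (S * (star V * f * V)) * star V = (V * S) * (star V * f * V) * star V := by
            simp only [mul_assoc]
        _ = (S * V) * (star V * f * V) * star V := by rw [hcV]
        _ = S * (V * star V) * f * (V * star V) := by simp only [mul_assoc]
        _ = S * f := by rw [hV1, mul_one, mul_one]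
    have e2 : V * ((star V * f * V) * S) * star V = f * S := by
      calc V * ((star V * f * V) * S) * star V = (V * star V) * f * V * (S * star V) := by
            simp only [mul_assoc]
        _ = (V * star V) * f * V * (star V * S) := by rw [hcV']
        _ = (V * star V) * f * (V * star V) * S := by simp only [mul_assoc]
        _ = f * S := by rw [hV1, mul_one, one_mul]
    rw [mul_sub, sub_mul, e1, e2]
  rw [hdec, CStarRing.norm_mul_mem_unitary _ (Unitary.star_mem hVu),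
    CStarRing.norm_mem_unitary_mul _ hVu]
  refine hmain.trans (le_of_eq (by ring))

end Pool.Agent.Helper93.SP
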