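/-
Block SP-LL (about 200 lines).  LEMMA L.  q is surjective, T commutes with π(g) for q g = 1 and
‖T - π(g) T π(g)*‖ ≤ δ for all g; Y is a unitary matrix with entries in csG; u = uop Y = W Y;
T^ = amp (cst T).  For ζ, θ in H^m, ξ = e1 ζ, ξ' = e1 θ:
 (pos)  |⟪ξ', (T^ - u^b T^ u^(-b)) ξ⟫| ≤ δ ‖ζ‖ ‖θ‖;
 (neg)  |⟪ξ', (T^ - Z T^ Z*) ξ⟫| ≤ δ ‖ζ‖ ‖θ‖ for Z = Y u^(-a), a ≥ 1  (Z* = u^a Y*).

Proof.  For c in Q let τ_c = π(g) T π(g)* for any g with q g = c (well defined since T commutes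
with π(ker q)), so τ_1 = T, τ_(q(g) c) = π(g) τ_c π(g)*, ‖τ_c‖ ≤ ‖T‖, ‖T - τ_c‖ ≤ δ.  Let
Θ = diagOp (ω ↦ τ_(label of the last letter of ω), and T for ω = 1).
(1) D ω := the operator at ω satisfies D(shift (q g) ω) π(g) = π(g) D ω for ω ≠ 1 (lst_shift).
    To have it for ω = 1 too we cannot use T; so apply comm_diag_of_mem_csG to the operator which
    is D ω for ω ≠ 1 and 0 at ω = 1 (shift c 1 = 1): define Θ with value 0 at ω = 1.
    Then Θ commutes with every element of csG.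
(2) Let N- = {ω : hd ω = ((inl k, c), false) for some k, c}: shift invariant, 1 not in N-, and
    w_k⁻¹ N- ⊆ N-.  For f supported on N-: Θ w_k⁻¹ f = w_k⁻¹ Θ f (the last letter of w_k⁻¹ ω is
    that of ω: lst_inv_mul).  And for v in H: Θ w_k⁻¹ (delta_1 ⊗ v) = delta_(w_k⁻¹) ⊗ τ_1 v
    = w_k⁻¹ (delta_1 ⊗ T v).
(3) Hence, with all coordinates, for η = W* ξ: η is supported on N- and (amp Θ) W* e1(ζ) =
    W* e1(T ζ) = W* T^ e1 ζ; inductively for b ≥ 1 the vector (Y* W*)^b ξ is supported on N- and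
    (amp Θ) (Y* W*)^b ξ = (Y* W*)^b T^ ξ  (T^ ξ = e1 (amp T ζ) has the same form as ξ).
(4) (pos) for b ≥ 1: with Z* = u^(-b) = (Y* W*)^b (unitary):
    ⟪ξ', (T^ - Z T^ Z*) ξ⟫ = ⟪Z* ξ', Z* T^ ξ⟫ - ⟪Z* ξ', T^ Z* ξ⟫ = ⟪Z* ξ', (amp Θ - T^) Z* ξ⟫,
    and Z* ξ is supported on N-, where ‖(τ_c - T) v‖ ≤ δ ‖v‖ coordinatewise, so the norm is
    ≤ δ ‖Z* ξ‖ ‖Z* ξ'‖ = δ ‖ζ‖ ‖θ‖.  b = 0 is trivial (the operator is 0).
(5) (neg): Z* = u^a Y* = W (Y W)^(a-1) (Y Y* = 1); the same with N+ = {ω : hd ω = ((inl k, c), true)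
    for some k, c}: w_k N+ ⊆ N+ (lst_of_mul, hd_of_mul), W e1 ζ supported on N+,
    (amp Θ) W e1 ζ = W T^ e1 ζ, and Y, W preserve the property.
-/
import Pool.Agent.Helper93.SP.Nest

set_option autoImplicit false

open scoped InnerProductSpace ComplexConjugate ENNReal NNReal
open Filter Topology

namespace Pool.Agent.Helper93.SP

variable {G Q : Type*} [Group G] [Group Q] {H : Type*} [NormedAddCommGroup H]
  [InnerProductSpace ℂ H] [CompleteSpace H] {q : G →* Q} {π : G →* unitary (H →L[ℂ] H)} {m : ℕ}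

private noncomputable def llTau (π : G →* unitary (H →L[ℂ] H)) (hq : Function.Surjective q)
    (T : H →L[ℂ] H) (c : Q) : H →L[ℂ] H :=
  (π (Function.surjInv hq c) : H →L[ℂ] H) * T * star (π (Function.surjInv hq c) : H →L[ℂ] H)

private theorem ll_conj_eq (T : H →L[ℂ] H)
    (hker : ∀ g, q g = 1 → T * (π g : H →L[ℂ] H) = (π g : H →L[ℂ] H) * T) (g h : G)
    (hgh : q g = q h) :
    (π g : H →L[ℂ] H) * T * star (π g : H →L[ℂ] H) =
      (π h : H →L[ℂ] H) * T * star (π h : H →L[ℂ] H) := by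
  have h1 : q (h⁻¹ * g) = 1 := by rw [map_mul, map_inv, hgh, inv_mul_cancel]
  have h2 := hker _ h1
  have h3 : (π g : H →L[ℂ] H) = (π h : H →L[ℂ] H) * (π (h⁻¹ * g) : H →L[ℂ] H) := by
    rw [← Submonoid.coe_mul, ← map_mul, mul_inv_cancel_left]
  have h4 : (π (h⁻¹ * g) : H →L[ℂ] H) * star (π (h⁻¹ * g) : H →L[ℂ] H) = 1 :=
    Unitary.mul_star_self_of_mem (π (h⁻¹ * g)).2
  rw [h3, star_mul]
  calc (π h : H →L[ℂ] H) * (π (h⁻¹ * g) : H →L[ℂ] H) * T *
        (star (π (h⁻¹ * g) : H →L[ℂ] H) * star (π h : H →L[ℂ] H))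
      = (π h : H →L[ℂ] H) * ((π (h⁻¹ * g) : H →L[ℂ] H) * T) *
        (star (π (h⁻¹ * g) : H →L[ℂ] H) * star (π h : H →L[ℂ] H)) := by simp only [mul_assoc]
    _ = (π h : H →L[ℂ] H) * (T * (π (h⁻¹ * g) : H →L[ℂ] H)) *
        (star (π (h⁻¹ * g) : H →L[ℂ] H) * star (π h : H →L[ℂ] H)) := by rw [h2]
    _ = (π h : H →L[ℂ] H) * T * ((π (h⁻¹ * g) : H →L[ℂ] H) * star (π (h⁻¹ * g) : H →L[ℂ] H)) *
        star (π h : H →L[ℂ] H) := by simp only [mul_assoc]
    _ = (π h : H →L[ℂ] H) * T * star (π h : H →L[ℂ] H) := by rw [h4, mul_one]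

private theorem llTau_mul (hq : Function.Surjective q) (T : H →L[ℂ] H)
    (hker : ∀ g, q g = 1 → T * (π g : H →L[ℂ] H) = (π g : H →L[ℂ] H) * T) (g : G) (c : Q) :
    llTau π hq T (q g * c) * (π g : H →L[ℂ] H) = (π g : H →L[ℂ] H) * llTau π hq T c := by
  have h1 : q (Function.surjInv hq (q g * c)) = q (g * Function.surjInv hq c) := by
    rw [Function.surjInv_eq hq, map_mul, Function.surjInv_eq hq]
  have h2 := ll_conj_eq (π := π) T hker _ _ h1
  have h3 : star (π g : H →L[ℂ] H) * (π g : H →L[ℂ] H) = 1 :=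
    Unitary.star_mul_self_of_mem (π g).2
  rw [llTau, llTau, h2, map_mul, Submonoid.coe_mul, star_mul]
  simp only [mul_assoc]
  rw [h3, mul_one]

private theorem llTau_one (hq : Function.Surjective q) (T : H →L[ℂ] H)
    (hker : ∀ g, q g = 1 → T * (π g : H →L[ℂ] H) = (π g : H →L[ℂ] H) * T) :
    llTau π hq T 1 = T := by
  have h1 : q (Function.surjInv hq (1 : Q)) = q 1 := by
    rw [Function.surjInv_eq hq, map_one]
  have h2 := ll_conj_eq (π := π) T hker _ _ h1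
  rw [llTau, h2, map_one]
  simp

private theorem llTau_sub (hq : Function.Surjective q) (T : H →L[ℂ] H) (δ : ℝ)
    (hT : ∀ g, ‖T - (π g : H →L[ℂ] H) * T * star (π g : H →L[ℂ] H)‖ ≤ δ) (c : Q) :
    ‖llTau π hq T c - T‖ ≤ δ := by
  rw [norm_sub_rev]
  exact hT _

/-- The diagonal entries: τ of the label of the last letter. -/
private noncomputable def llD (π : G →* unitary (H →L[ℂ] H)) (hq : Function.Surjective q)
    (T : H →L[ℂ] H) (ω : FG m Q) : H →L[ℂ] H :=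
  (lst ω).elim 0 (fun p => llTau π hq T p.1.2)

private theorem llD_comm (hq : Function.Surjective q) (T : H →L[ℂ] H)
    (hker : ∀ g, q g = 1 → T * (π g : H →L[ℂ] H) = (π g : H →L[ℂ] H) * T) (g : G) (ω : FG m Q) :
    llD π hq T (shift (q g) ω) * (π g : H →L[ℂ] H) = (π g : H →L[ℂ] H) * llD π hq T ω := by
  rw [llD, llD, lst_shift]
  cases h : lst ω with
  | none => simp
  | some p =>
    simp only [Option.map_some, Option.elim_some]
    exact llTau_mul hq T hker g p.1.2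

private theorem llD_sub (hq : Function.Surjective q) (T : H →L[ℂ] H) (δ : ℝ)
    (hT : ∀ g, ‖T - (π g : H →L[ℂ] H) * T * star (π g : H →L[ℂ] H)‖ ≤ δ) (ω : FG m Q)
    (hω : ω ≠ 1) : ‖llD π hq T ω - T‖ ≤ δ := by
  rw [llD]
  cases h : lst ω with
  | none => exact absurd ((lst_eq_none_iff ω).1 h) hω
  | some p =>
    simp only [Option.elim_some]
    exact llTau_sub hq T δ hT _

private theorem ll_delta_nonneg (T : H →L[ℂ] H) (δ : ℝ)
    (hT : ∀ g, ‖T - (π g : H →L[ℂ] H) * T * star (π g : H →L[ℂ] H)‖ ≤ δ) : 0 ≤ δ :=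
  (norm_nonneg _).trans (hT 1)

private theorem llD_norm (hq : Function.Surjective q) (T : H →L[ℂ] H) (δ : ℝ)
    (hT : ∀ g, ‖T - (π g : H →L[ℂ] H) * T * star (π g : H →L[ℂ] H)‖ ≤ δ) (ω : FG m Q) :
    ‖llD π hq T ω‖ ≤ ‖T‖ + δ := by
  by_cases hω : ω = 1
  · subst hω
    have h : lst (1 : FG m Q) = none := (lst_eq_none_iff _).2 rfl
    rw [llD, h]
    simp only [Option.elim_none, norm_zero]
    exact add_nonneg (norm_nonneg _) (ll_delta_nonneg T δ hT)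
  · calc ‖llD π hq T ω‖ = ‖T + (llD π hq T ω - T)‖ := by rw [add_sub_cancel]
      _ ≤ ‖T‖ + ‖llD π hq T ω - T‖ := norm_add_le _ _
      _ ≤ ‖T‖ + δ := by
        have := llD_sub hq T δ hT ω hω
        linarith

private theorem ll_diagOp_pt {X : Type*} (D : X → H →L[ℂ] H) (C : ℝ) (hD : ∀ x, ‖D x‖ ≤ C) (x : X)
    (ζ : H) : diagOp D C hD (pt x ζ) = pt x (D x ζ) := by
  ext y
  rw [diagOp_apply, pt_apply, pt_apply]
  by_cases h : y = x
  · rw [if_pos h, if_pos h, h]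
  · rw [if_neg h, if_neg h, map_zero]

/-- The words which start with a w-letter (b = true) or an inverse w-letter (b = false). -/
private def llN (m : ℕ) (Q : Type*) [Group Q] (b : Bool) : Set (FG m Q) :=
  {ω | ∃ (k : Fin m) (c : Q), hd ω = some ((Sum.inl k, c), b)}

private theorem llN_ne_one {b : Bool} {ω : FG m Q} (h : ω ∈ llN m Q b) : ω ≠ 1 := by
  obtain ⟨k, c, h⟩ := h
  intro h1
  rw [(hd_eq_none_iff ω).2 h1] at h
  exact absurd h (by simp)

private theorem llN_shift {b : Bool} (c : Q) (ω : FG m Q) (h : ω ∈ llN m Q b) :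
    shift c ω ∈ llN m Q b := by
  obtain ⟨k, d, h⟩ := h
  refine ⟨k, c * d, ?_⟩
  rw [hd_shift, h]
  rfl

/-- The letters used: w_i for b = true, its inverse for b = false. -/
private noncomputable def llNu (m : ℕ) (Q : Type*) [Group Q] (b : Bool) (i : Fin m) : FG m Q :=
  if b then FreeGroup.of (Sum.inl i, 1) else (FreeGroup.of (Sum.inl i, 1))⁻¹

private theorem llNu_mem (b : Bool) (i : Fin m) : llNu m Q b i ∈ llN m Q b := by
  cases b with
  | false =>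
    refine ⟨i, 1, ?_⟩
    simp only [llNu, Bool.false_eq_true, if_false]
    exact hd_inv_of _
  | true =>
    refine ⟨i, 1, ?_⟩
    simp only [llNu, if_true]
    exact hd_of _

private theorem llNu_lst (b : Bool) (i : Fin m) :
    lst (llNu m Q b i) = some ((Sum.inl i, 1), b) := by
  cases b with
  | false =>
    simp only [llNu, Bool.false_eq_true, if_false]
    exact lst_inv_of _
  | true =>
    simp only [llNu, if_true]
    exact lst_of _

private theorem llNu_mul (b : Bool) (i : Fin m) (ω : FG m Q) (h : ω ∈ llN m Q b) :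
    llNu m Q b i * ω ∈ llN m Q b ∧ lst (llNu m Q b i * ω) = lst ω := by
  have h1 := llN_ne_one h
  obtain ⟨k, c, h⟩ := h
  cases b with
  | false =>
    have h2 : hd ω ≠ some (((Sum.inl i, 1) : Nm m × Q), true) := by
      rw [h]
      intro h3
      simp at h3
    simp only [llNu, Bool.false_eq_true, if_false]
    exact ⟨⟨i, 1, hd_inv_mul _ _ h2⟩, lst_inv_mul _ _ h2 h1⟩
  | true =>
    have h2 : hd ω ≠ some (((Sum.inl i, 1) : Nm m × Q), false) := by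
      rw [h]
      intro h3
      simp at h3
    simp only [llNu, if_true]
    exact ⟨⟨i, 1, hd_of_mul _ _ h2⟩, lst_of_mul _ _ h2 h1⟩

/-- The operator W (b = true) or W* (b = false). -/
private noncomputable def llW (m : ℕ) (Q H : Type*) [Group Q] [NormedAddCommGroup H]
    [InnerProductSpace ℂ H] [CompleteSpace H] (b : Bool) :
    Pw (Fin m) (El (FG m Q) H) →L[ℂ] Pw (Fin m) (El (FG m Q) H) :=
  matOp (Matrix.diagonal fun k => (Lop (Nm m) Q H (llNu m Q b k) : BEl (Nm m) Q H))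

private theorem llW_apply (b : Bool) (η : Pw (Fin m) (El (FG m Q) H)) (i : Fin m) :
    llW m Q H b η i = (Lop (Nm m) Q H (llNu m Q b i) : BEl (Nm m) Q H) (η i) := by
  rw [llW, matOp_apply, Finset.sum_eq_single i]
  · simp
  · intro j _ hj
    simp [Matrix.diagonal_apply_ne' _ hj]
  · intro h
    exact absurd (Finset.mem_univ i) h

private theorem llW_true : llW m Q H true = matOp (Wm m Q H) := by
  rw [llW, Wm]
  simp only [llNu, if_true]

private theorem llW_false : llW m Q H false = star (matOp (Wm m Q H)) := by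
  rw [llW, Wm, matOp_star, Matrix.star_eq_conjTranspose, Matrix.diagonal_conjTranspose]
  congr 1
  congr 1
  ext1 k
  rw [Pi.star_apply, star_Lop]
  simp only [llNu, Bool.false_eq_true, if_false]

/-- The property of the operators Z: Z e1 ζ is supported on N, and Θ Z e1 ζ = Z e1 (T ζ). -/
private def llP (b : Bool) (T : H →L[ℂ] H) (Θ : BEl (Nm m) Q H)
    (Z : Pw (Fin m) (El (FG m Q) H) →L[ℂ] Pw (Fin m) (El (FG m Q) H)) : Prop :=
  ∀ ζ : Pw (Fin m) H, (∀ i, Supp (llN m Q b) (Z (e1 Q ζ) i)) ∧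
    amp (Fin m) Θ (Z (e1 Q ζ)) = Z (e1 Q (amp (Fin m) T ζ))

private theorem llP_base (b : Bool) (hq : Function.Surjective q) (T : H →L[ℂ] H) (δ : ℝ)
    (hker : ∀ g, q g = 1 → T * (π g : H →L[ℂ] H) = (π g : H →L[ℂ] H) * T)
    (hT : ∀ g, ‖T - (π g : H →L[ℂ] H) * T * star (π g : H →L[ℂ] H)‖ ≤ δ) :
    llP b T (diagOp (llD (m := m) π hq T) (‖T‖ + δ) (llD_norm hq T δ hT)) (llW m Q H b) := by
  intro ζ
  constructor
  · intro i
    rw [llW_apply, e1_apply, Lop_pt, mul_one]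
    exact supp_pt _ _ (llNu_mem b i) _
  · ext i : 1
    rw [amp_apply, llW_apply, llW_apply, e1_apply, e1_apply, Lop_pt, Lop_pt, mul_one,
      ll_diagOp_pt, amp_apply, llD, llNu_lst]
    simp only [Option.elim_some]
    rw [llTau_one hq T hker]

private theorem llP_W (b : Bool) (hq : Function.Surjective q) (T : H →L[ℂ] H) (δ : ℝ)
    (hT : ∀ g, ‖T - (π g : H →L[ℂ] H) * T * star (π g : H →L[ℂ] H)‖ ≤ δ)
    (Z : Pw (Fin m) (El (FG m Q) H) →L[ℂ] Pw (Fin m) (El (FG m Q) H))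
    (hZ : llP b T (diagOp (llD (m := m) π hq T) (‖T‖ + δ) (llD_norm hq T δ hT)) Z) :
    llP b T (diagOp (llD (m := m) π hq T) (‖T‖ + δ) (llD_norm hq T δ hT))
      (llW m Q H b * Z) := by
  intro ζ
  obtain ⟨h1, h2⟩ := hZ ζ
  constructor
  · intro i
    rw [ContinuousLinearMap.mul_apply, llW_apply]
    exact supp_Lop _ _ _ (fun ω hω => (llNu_mul b i ω hω).1) _ (h1 i)
  · rw [ContinuousLinearMap.mul_apply, ContinuousLinearMap.mul_apply, ← h2]
    ext i : 1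
    rw [amp_apply, llW_apply, llW_apply, amp_apply]
    ext ω
    rw [diagOp_apply, Lop_apply, Lop_apply, diagOp_apply]
    by_cases hω : (llNu m Q b i)⁻¹ * ω ∈ llN m Q b
    · have h3 := (llNu_mul b i _ hω).2
      rw [mul_inv_cancel_left] at h3
      rw [llD, llD, h3]
    · rw [h1 i _ hω, map_zero, map_zero]

private theorem ll_comm_Y (hq : Function.Surjective q) (T : H →L[ℂ] H) (δ : ℝ)
    (hker : ∀ g, q g = 1 → T * (π g : H →L[ℂ] H) = (π g : H →L[ℂ] H) * T)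
    (hT : ∀ g, ‖T - (π g : H →L[ℂ] H) * T * star (π g : H →L[ℂ] H)‖ ≤ δ)
    (Y : Matrix (Fin m) (Fin m) (BEl (Nm m) Q H)) (hYm : ∀ i j, Y i j ∈ csG (Nm m) q π) :
    amp (Fin m) (diagOp (llD (m := m) π hq T) (‖T‖ + δ) (llD_norm hq T δ hT)) * matOp Y =
      matOp Y * amp (Fin m) (diagOp (llD (m := m) π hq T) (‖T‖ + δ) (llD_norm hq T δ hT)) := by
  have h1 := amp_comm (diagOp (llD (m := m) π hq T) (‖T‖ + δ) (llD_norm hq T δ hT)) Y
  have h2 : (Matrix.of fun i j =>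
      diagOp (llD (m := m) π hq T) (‖T‖ + δ) (llD_norm hq T δ hT) * Y i j -
      Y i j * diagOp (llD (m := m) π hq T) (‖T‖ + δ) (llD_norm hq T δ hT)) =
      (0 : Matrix (Fin m) (Fin m) (BEl (Nm m) Q H)) := by
    ext1 i j
    rw [Matrix.of_apply, comm_diag_of_mem_csG q π _ _ _ (llD_comm hq T hker) _ (hYm i j),
      sub_self]
    rfl
  have h3 : matOp (0 : Matrix (Fin m) (Fin m) (BEl (Nm m) Q H)) = 0 := by
    ext x i
    simp [matOp_apply]
  rw [h2, h3] at h1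
  exact sub_eq_zero.1 h1

private theorem ll_supp_sum {X : Type*} (A : Set X) {ι : Type*} (s : Finset ι)
    (f : ι → El X H) (hf : ∀ i ∈ s, Supp A (f i)) : Supp A (∑ i ∈ s, f i) := by
  classical
  induction s using Finset.induction_on with
  | empty =>
    intro x _
    simp
  | insert a s ha ih =>
    intro x hx
    rw [Finset.sum_insert ha]
    have h1 := hf a (Finset.mem_insert_self a s) x hx
    have h2 := ih (fun i hi => hf i (Finset.mem_insert_of_mem hi)) x hx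
    rw [lp.coeFn_add, Pi.add_apply, h1, h2, add_zero]

private theorem llP_Y (b : Bool) (hq : Function.Surjective q) (T : H →L[ℂ] H) (δ : ℝ)
    (hker : ∀ g, q g = 1 → T * (π g : H →L[ℂ] H) = (π g : H →L[ℂ] H) * T)
    (hT : ∀ g, ‖T - (π g : H →L[ℂ] H) * T * star (π g : H →L[ℂ] H)‖ ≤ δ)
    (Y : Matrix (Fin m) (Fin m) (BEl (Nm m) Q H)) (hYm : ∀ i j, Y i j ∈ csG (Nm m) q π)
    (Z : Pw (Fin m) (El (FG m Q) H) →L[ℂ] Pw (Fin m) (El (FG m Q) H))
    (hZ : llP b T (diagOp (llD (m := m) π hq T) (‖T‖ + δ) (llD_norm hq T δ hT)) Z) :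
    llP b T (diagOp (llD (m := m) π hq T) (‖T‖ + δ) (llD_norm hq T δ hT)) (matOp Y * Z) := by
  intro ζ
  obtain ⟨h1, h2⟩ := hZ ζ
  constructor
  · intro i
    rw [ContinuousLinearMap.mul_apply, matOp_apply]
    refine ll_supp_sum _ _ _ fun j _ => ?_
    exact supp_of_mem_csG q π _ (fun c ω h => llN_shift c ω h) _ (hYm i j) _ (h1 j)
  · rw [ContinuousLinearMap.mul_apply, ContinuousLinearMap.mul_apply, ← h2]
    have h3 := ll_comm_Y hq T δ hker hT Y hYm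
    have h4 := DFunLike.congr_fun h3 (Z (e1 Q ζ))
    exact h4

private theorem ll_norm_sub (b : Bool) (hq : Function.Surjective q) (T : H →L[ℂ] H) (δ : ℝ)
    (hT : ∀ g, ‖T - (π g : H →L[ℂ] H) * T * star (π g : H →L[ℂ] H)‖ ≤ δ)
    (f : El (FG m Q) H) (hf : Supp (llN m Q b) f) :
    ‖diagOp (llD (m := m) π hq T) (‖T‖ + δ) (llD_norm hq T δ hT) f - cst (FG m Q) T f‖ ≤
      δ * ‖f‖ := by
  classical
  have h0 : 0 ≤ δ := ll_delta_nonneg T δ hT
  have hD : ∀ ω : FG m Q, ‖(if ω = 1 then (0 : H →L[ℂ] H) else llD π hq T ω - T)‖ ≤ δ := by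
    intro ω
    by_cases hω : ω = 1
    · rw [if_pos hω, norm_zero]
      exact h0
    · rw [if_neg hω]
      exact llD_sub hq T δ hT ω hω
  have h1 : diagOp (llD (m := m) π hq T) (‖T‖ + δ) (llD_norm hq T δ hT) f - cst (FG m Q) T f =
      diagOp (fun ω : FG m Q => if ω = 1 then (0 : H →L[ℂ] H) else llD π hq T ω - T) δ hD f := by
    ext ω
    rw [lp.coeFn_sub, Pi.sub_apply, diagOp_apply, diagOp_apply, cst_apply]
    by_cases hω : ω = 1
    · have h2 : f ω = 0 := hf ω (fun h => llN_ne_one h hω)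
      rw [h2, map_zero, map_zero, map_zero, sub_zero]
    · rw [if_neg hω]
      rfl
  rw [h1]
  exact (ContinuousLinearMap.le_opNorm _ _).trans
    (mul_le_mul_of_nonneg_right (norm_diagOp_le _ _ _ h0) (norm_nonneg _))

theorem norm_e1 (ζ : Pw (Fin m) H) : ‖e1 Q ζ‖ = ‖ζ‖ := by
  have h : ‖e1 Q ζ‖ ^ 2 = ‖ζ‖ ^ 2 := by
    rw [PiLp.norm_sq_eq_of_L2, PiLp.norm_sq_eq_of_L2]
    refine Finset.sum_congr rfl fun i _ => ?_
    rw [e1_apply, norm_pt]
  exact (sq_eq_sq₀ (norm_nonneg _) (norm_nonneg _)).1 h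

theorem amp_e1 (T : H →L[ℂ] H) (ζ : Pw (Fin m) H) :
    amp (Fin m) (cst (FG m Q) T) (e1 Q ζ) = e1 Q (amp (Fin m) T ζ) := by
  ext i : 1
  rw [amp_apply, e1_apply, e1_apply, cst_pt, amp_apply]

theorem inner_e1 (ζ θ : Pw (Fin m) H) : ⟪e1 Q θ, e1 Q ζ⟫_ℂ = ⟪θ, ζ⟫_ℂ := by
  rw [PiLp.inner_apply, PiLp.inner_apply]
  refine Finset.sum_congr rfl fun i _ => ?_
  rw [e1_apply, e1_apply, inner_pt_pt]

private theorem ll_inner_unitary {E : Type*} [NormedAddCommGroup E] [InnerProductSpace ℂ E]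
    [CompleteSpace E] (Z : E →L[ℂ] E) (hZ : Z ∈ unitary (E →L[ℂ] E)) (x y : E) :
    ⟪Z x, Z y⟫_ℂ = ⟪x, y⟫_ℂ := by
  have h1 : star Z * Z = 1 := Unitary.star_mul_self_of_mem hZ
  calc ⟪Z x, Z y⟫_ℂ = ⟪x, (star Z * Z) y⟫_ℂ := by
        rw [ContinuousLinearMap.mul_apply, ContinuousLinearMap.star_eq_adjoint,
          ContinuousLinearMap.adjoint_inner_right]
    _ = ⟪x, y⟫_ℂ := by rw [h1, ContinuousLinearMap.one_apply]

private theorem ll_norm_unitary {E : Type*} [NormedAddCommGroup E] [InnerProductSpace ℂ E]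
    [CompleteSpace E] (Z : E →L[ℂ] E) (hZ : Z ∈ unitary (E →L[ℂ] E)) (x : E) :
    ‖Z x‖ = ‖x‖ := by
  rw [@norm_eq_sqrt_re_inner ℂ, @norm_eq_sqrt_re_inner ℂ, ll_inner_unitary Z hZ]

private theorem ll_main (b : Bool) (hq : Function.Surjective q) (T : H →L[ℂ] H) (δ : ℝ)
    (hT : ∀ g, ‖T - (π g : H →L[ℂ] H) * T * star (π g : H →L[ℂ] H)‖ ≤ δ)
    (Z : Pw (Fin m) (El (FG m Q) H) →L[ℂ] Pw (Fin m) (El (FG m Q) H))
    (hZ : llP b T (diagOp (llD (m := m) π hq T) (‖T‖ + δ) (llD_norm hq T δ hT)) Z)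
    (hU : Z ∈ unitary (Pw (Fin m) (El (FG m Q) H) →L[ℂ] Pw (Fin m) (El (FG m Q) H)))
    (ζ θ : Pw (Fin m) H) :
    ‖⟪e1 Q θ, (amp (Fin m) (cst (FG m Q) T) -
      star Z * amp (Fin m) (cst (FG m Q) T) * Z) (e1 Q ζ)⟫_ℂ‖ ≤ δ * ‖ζ‖ * ‖θ‖ := by
  have h0 : 0 ≤ δ := ll_delta_nonneg T δ hT
  obtain ⟨h1, h2⟩ := hZ ζ
  set Θ := diagOp (llD (m := m) π hq T) (‖T‖ + δ) (llD_norm hq T δ hT) with hΘ
  have h3 : ⟪e1 Q θ, (amp (Fin m) (cst (FG m Q) T) -
      star Z * amp (Fin m) (cst (FG m Q) T) * Z) (e1 Q ζ)⟫_ℂ =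
      ⟪Z (e1 Q θ), amp (Fin m) Θ (Z (e1 Q ζ)) -
        amp (Fin m) (cst (FG m Q) T) (Z (e1 Q ζ))⟫_ℂ := by
    rw [ContinuousLinearMap.sub_apply, inner_sub_right, inner_sub_right, h2,
      ll_inner_unitary Z hU, amp_e1, ContinuousLinearMap.mul_apply, ContinuousLinearMap.mul_apply,
      ContinuousLinearMap.star_eq_adjoint, ContinuousLinearMap.adjoint_inner_right]
  have h4 : ‖amp (Fin m) Θ (Z (e1 Q ζ)) - amp (Fin m) (cst (FG m Q) T) (Z (e1 Q ζ))‖ ≤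
      δ * ‖Z (e1 Q ζ)‖ := by
    have h5 : ‖amp (Fin m) Θ (Z (e1 Q ζ)) - amp (Fin m) (cst (FG m Q) T) (Z (e1 Q ζ))‖ ^ 2 ≤
        (δ * ‖Z (e1 Q ζ)‖) ^ 2 := by
      rw [PiLp.norm_sq_eq_of_L2, mul_pow, PiLp.norm_sq_eq_of_L2, Finset.mul_sum]
      refine Finset.sum_le_sum fun i _ => ?_
      rw [PiLp.sub_apply, amp_apply, amp_apply, ← mul_pow]
      exact pow_le_pow_left₀ (norm_nonneg _) (ll_norm_sub b hq T δ hT _ (h1 i)) 2
    exact (sq_le_sq₀ (norm_nonneg _) (mul_nonneg h0 (norm_nonneg _))).1 h5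
  rw [h3]
  calc ‖⟪Z (e1 Q θ), amp (Fin m) Θ (Z (e1 Q ζ)) -
        amp (Fin m) (cst (FG m Q) T) (Z (e1 Q ζ))⟫_ℂ‖
      ≤ ‖Z (e1 Q θ)‖ * ‖amp (Fin m) Θ (Z (e1 Q ζ)) -
        amp (Fin m) (cst (FG m Q) T) (Z (e1 Q ζ))‖ := norm_inner_le_norm _ _
    _ ≤ ‖Z (e1 Q θ)‖ * (δ * ‖Z (e1 Q ζ)‖) := mul_le_mul_of_nonneg_left h4 (norm_nonneg _)
    _ = δ * ‖ζ‖ * ‖θ‖ := by
      rw [ll_norm_unitary Z hU, ll_norm_unitary Z hU, norm_e1, norm_e1]
      ring

theorem lemL_pos (hq : Function.Surjective q) (T : H →L[ℂ] H) (δ : ℝ)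
    (hker : ∀ g, q g = 1 → T * (π g : H →L[ℂ] H) = (π g : H →L[ℂ] H) * T)
    (hT : ∀ g, ‖T - (π g : H →L[ℂ] H) * T * star (π g : H →L[ℂ] H)‖ ≤ δ)
    (Y : Matrix (Fin m) (Fin m) (BEl (Nm m) Q H)) (hYm : ∀ i j, Y i j ∈ csG (Nm m) q π)
    (hY : matOp Y ∈ unitary (Pw (Fin m) (El (FG m Q) H) →L[ℂ] _)) (b : ℕ) (ζ θ : Pw (Fin m) H) :
    ‖⟪e1 Q θ, (amp (Fin m) (cst (FG m Q) T) -
      uop Y ^ b * amp (Fin m) (cst (FG m Q) T) * (star (uop Y)) ^ b) (e1 Q ζ)⟫_ℂ‖ ≤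
      δ * ‖ζ‖ * ‖θ‖ := by
  have h0 : 0 ≤ δ := ll_delta_nonneg T δ hT
  have hstar : ∀ i j, (star Y) i j ∈ csG (Nm m) q π := fun i j => by
    rw [Matrix.star_apply]
    exact star_mem (hYm j i)
  have hu : star (uop Y) = matOp (star Y) * llW m Q H false := by
    rw [uop, star_mul, matOp_star, llW_false]
  have hP : ∀ n : ℕ, llP false T (diagOp (llD (m := m) π hq T) (‖T‖ + δ) (llD_norm hq T δ hT))
      ((star (uop Y)) ^ (n + 1)) := by
    intro n
    induction n with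
    | zero =>
      rw [zero_add, pow_one, hu]
      exact llP_Y false hq T δ hker hT _ hstar _ (llP_base false hq T δ hker hT)
    | succ n ih =>
      rw [pow_succ', hu, mul_assoc, ← hu]
      exact llP_Y false hq T δ hker hT _ hstar _ (llP_W false hq T δ hT _ ih)
  cases b with
  | zero =>
    rw [pow_zero, pow_zero, one_mul, mul_one, sub_self, ContinuousLinearMap.zero_apply,
      inner_zero_right, norm_zero]
    exact mul_nonneg (mul_nonneg h0 (norm_nonneg _)) (norm_nonneg _)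
  | succ n =>
    have hU : (star (uop Y)) ^ (n + 1) ∈
        unitary (Pw (Fin m) (El (FG m Q) H) →L[ℂ] Pw (Fin m) (El (FG m Q) H)) :=
      pow_mem (Unitary.star_mem (uop_unitary Y hY)) _
    have h := ll_main false hq T δ hT _ (hP n) hU ζ θ
    rw [star_pow, star_star] at h
    exact h

theorem lemL_neg (hq : Function.Surjective q) (T : H →L[ℂ] H) (δ : ℝ)
    (hker : ∀ g, q g = 1 → T * (π g : H →L[ℂ] H) = (π g : H →L[ℂ] H) * T)
    (hT : ∀ g, ‖T - (π g : H →L[ℂ] H) * T * star (π g : H →L[ℂ] H)‖ ≤ δ)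
    (Y : Matrix (Fin m) (Fin m) (BEl (Nm m) Q H)) (hYm : ∀ i j, Y i j ∈ csG (Nm m) q π)
    (hY : matOp Y ∈ unitary (Pw (Fin m) (El (FG m Q) H) →L[ℂ] _)) (a : ℕ) (ha : 1 ≤ a)
    (ζ θ : Pw (Fin m) H) :
    ‖⟪e1 Q θ, (amp (Fin m) (cst (FG m Q) T) -
      (matOp Y * (star (uop Y)) ^ a) * amp (Fin m) (cst (FG m Q) T) *
        ((uop Y) ^ a * star (matOp Y))) (e1 Q ζ)⟫_ℂ‖ ≤
      δ * ‖ζ‖ * ‖θ‖ := by
  have hu : uop Y = llW m Q H true * matOp Y := by
    rw [uop, llW_true]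
  have hYY : matOp Y * star (matOp Y) = 1 := Unitary.mul_star_self_of_mem hY
  have hP : ∀ n : ℕ, llP true T (diagOp (llD (m := m) π hq T) (‖T‖ + δ) (llD_norm hq T δ hT))
      ((uop Y) ^ (n + 1) * star (matOp Y)) := by
    intro n
    induction n with
    | zero =>
      rw [zero_add, pow_one, hu, mul_assoc, hYY, mul_one]
      exact llP_base true hq T δ hker hT
    | succ n ih =>
      rw [pow_succ', hu, mul_assoc, mul_assoc, ← hu]
      exact llP_W true hq T δ hT _ (llP_Y true hq T δ hker hT _ hYm _ ih)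
  obtain ⟨n, rfl⟩ : ∃ n, a = n + 1 := ⟨a - 1, by omega⟩
  have hU : (uop Y) ^ (n + 1) * star (matOp Y) ∈
      unitary (Pw (Fin m) (El (FG m Q) H) →L[ℂ] Pw (Fin m) (El (FG m Q) H)) :=
    mul_mem (pow_mem (uop_unitary Y hY) _) (Unitary.star_mem hY)
  have h := ll_main true hq T δ hT _ (hP n) hU ζ θ
  rw [star_mul, star_star, star_pow] at h
  exact h

end Pool.Agent.Helper93.SP
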