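/-
Block SP-TL (about 200 lines).  THE TRANSFER LEMMA.  T in B(H) commutes with π(K) and
‖T x - x T‖ ≤ δ ‖x‖ for x in grpAlg π.  Then ‖T^ a - a T^‖ ≤ δ ‖a‖ for every a in csL, T^ = cst T.

Proof.  Both sides are continuous in a, so a is in the algebraic span; take the bounded net b_j of
`asy_adjoin`.  Let C > ‖a‖ and h(t) = 1 for t ≤ C^2, h(t) = C / sqrt t for t > C^2 (continuous on
[0, oo), 0 ≤ h ≤ 1, t h(t)^2 ≤ C^2, and for every N ≥ 1: t (1 - h t)^2 ≤ t^N / C^(2(N-1)), since the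
left side is 0 for t ≤ C^2 and ≤ t ≤ t (t/C^2)^(N-1) for t > C^2).
Let P_j = b_j* b_j, q_j = h(P_j) (continuous functional calculus `cfc`), e_j = b_j q_j.  Then
‖e_j‖^2 = ‖q_j P_j q_j‖ ≤ C^2; e_j is in grpCs π (closed star subalgebra; `cfc_mem_elemental`
puts q_j in the closed star algebra generated by P_j), so by continuity ‖T e_j - e_j T‖ ≤ δ C.
For finitely supported x put x_j = Sj x.  Then
 ‖b_j x_j - e_j x_j‖^2 = ⟪x_j, P_j (1 - h(P_j))^2 x_j⟫ ≤ C^(-2(N-1)) ⟪x_j, P_j^N x_j⟫,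
and ⟪x_j, P_j^N x_j⟫ → ⟪emb x, (a* a)^N emb x⟫ ≤ ‖a‖^(2N) ‖emb x‖^2 (Asym.pow, Asym.mul, Sj_inner).
So limsup_j ‖b_j x_j - e_j x_j‖^2 ≤ C^2 (‖a‖/C)^(2N) ‖emb x‖^2 for every N, i.e. the limit is 0.
Let a (emb x) = emb x', a (emb Tx) = emb x'' (Tx = x.mapRange T).  Then for finitely supported y:
 ⟪y_j, (T e_j - e_j T) x_j⟫ = ⟪T* y_j, e_j x_j⟫ - ⟪y_j, e_j T x_j⟫
   → ⟪emb(T* y), a emb x⟫ - ⟪emb y, a emb(T x)⟫ = ⟪emb y, (T^ a - a T^) emb x⟫
(Sj_cst for T and T*; e_j x_j can be replaced by b_j x_j = Sj x' up to o(1); y_j bounded).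
The left side is ≤ δ C ‖x_j‖ ‖y_j‖ → δ C ‖emb x‖ ‖emb y‖.  By density ‖T^ a - a T^‖ ≤ δ C for every
C > ‖a‖.
Variant used below: h is replaced by a real polynomial p close to t ↦ C / max C (sqrt t), C = ‖a‖,
on [0, M]; then e_j = b_j p(b_j* b_j) lies in grpAlg π, has norm ≤ C + ε sqrt M and is an asymptotic
form of e = a p(a* a), and ‖e - a‖ ≤ ε sqrt M; no estimate of b_j x_j - e_j x_j is needed.
-/
import Pool.Agent.Helper93.SP.Asy

set_option autoImplicit false

open scoped InnerProductSpace ComplexConjugate ENNReal NNReal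
open Filter Topology

namespace Pool.Agent.Helper93.SP

section trunc

variable {A : Type*} [CStarAlgebra A]

/-- Norm of a real polynomial in `star b * b`. -/
private theorem norm_aeval_le (b : A) (p : Polynomial ℝ) (M c : ℝ) (hM : ‖b‖ ^ 2 ≤ M) (hc : 0 ≤ c)
    (h : ∀ t, 0 ≤ t → t ≤ M → |p.eval t| ≤ c) :
    ‖Polynomial.aeval (star b * b) p‖ ≤ c := by
  rw [← cfc_polynomial (R := ℝ) p (star b * b) (IsSelfAdjoint.star_mul_self b)]
  refine norm_cfc_le hc fun t ht => ?_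
  have h0 : 0 ≤ t := spectrum_star_mul_self_nonneg t ht
  have h1 : t ≤ M := by
    rcases subsingleton_or_nontrivial A with hA | hA
    · rw [spectrum.of_subsingleton] at ht
      exact absurd ht (Set.notMem_empty _)
    have := spectrum.norm_le_norm_of_mem (𝕜 := ℝ) ht
    rw [CStarRing.norm_star_mul_self, Real.norm_of_nonneg h0] at this
    nlinarith
  rw [Real.norm_eq_abs]
  exact h t h0 h1

private theorem star_aeval (b : A) (p : Polynomial ℝ) :
    star (Polynomial.aeval (star b * b) p) = Polynomial.aeval (star b * b) p := by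
  rw [← cfc_polynomial (R := ℝ) p (star b * b) (IsSelfAdjoint.star_mul_self b)]
  exact (cfc_predicate (R := ℝ) (p := IsSelfAdjoint) p.eval (star b * b)).star_eq

private theorem norm_mul_aeval_le (b : A) (p : Polynomial ℝ) (M c : ℝ) (hM : ‖b‖ ^ 2 ≤ M)
    (hc : 0 ≤ c) (h : ∀ t, 0 ≤ t → t ≤ M → Real.sqrt t * |p.eval t| ≤ c) :
    ‖b * Polynomial.aeval (star b * b) p‖ ≤ c := by
  have h1 : star (b * Polynomial.aeval (star b * b) p) * (b * Polynomial.aeval (star b * b) p) =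
      Polynomial.aeval (star b * b) (p * Polynomial.X * p) := by
    rw [star_mul, star_aeval]
    simp only [map_mul, Polynomial.aeval_X]
    noncomm_ring
  have h2 : ‖b * Polynomial.aeval (star b * b) p‖ ^ 2 ≤ c ^ 2 := by
    rw [sq, ← CStarRing.norm_star_mul_self, h1]
    refine norm_aeval_le b _ M (c ^ 2) hM (by positivity) fun t h0 h1 => ?_
    have h3 := h t h0 h1
    rw [Polynomial.eval_mul, Polynomial.eval_mul, Polynomial.eval_X, abs_mul, abs_mul,
      abs_of_nonneg h0]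
    calc |p.eval t| * t * |p.eval t| = (Real.sqrt t * |p.eval t|) ^ 2 := by
          rw [mul_pow, Real.sq_sqrt h0]; ring
      _ ≤ c ^ 2 := by gcongr
  exact (sq_le_sq₀ (norm_nonneg _) hc).1 h2

end trunc


section trunc2

variable {I : Type*} {G Q : Type*} [Group G] [Group Q] {H : Type*} [NormedAddCommGroup H]
  [InnerProductSpace ℂ H] [CompleteSpace H] {K : Subgroup G} {q : G →* Q}
  {π : G →* unitary (H →L[ℂ] H)} {J : Type*} {l : Filter J} {ψ : J → FreeGroup (I × Q) →* G}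

private theorem asym_add {a a' : BEl I Q H} {b b' : J → H →L[ℂ] H}
    (h : Asym π l ψ a b) (h' : Asym π l ψ a' b') :
    Asym π l ψ (a + a') (fun j => b j + b' j) := by
  intro x
  obtain ⟨y, hy, hy2⟩ := h x
  obtain ⟨y', hy', hy2'⟩ := h' x
  refine ⟨y + y', ?_, ?_⟩
  · rw [add_apply, hy, hy', emb_add]
  · filter_upwards [hy2, hy2'] with j h1 h2
    rw [add_apply, h1, h2, Sj_add]

private theorem asym_const (c : ℂ) :
    Asym π l ψ (algebraMap ℂ (BEl I Q H) c) (fun _ => algebraMap ℂ (H →L[ℂ] H) c) := by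
  intro x
  refine ⟨c • x, ?_, ?_⟩
  · rw [emb_smul, Algebra.algebraMap_eq_smul_one]
    rfl
  · refine Eventually.of_forall fun j => ?_
    rw [Sj_smul, Algebra.algebraMap_eq_smul_one]
    rfl

private theorem asym_aeval (hL : LetterNet K q π I l ψ) {a : BEl I Q H} {b : J → H →L[ℂ] H}
    (h : Asym π l ψ a b) (p : Polynomial ℝ) :
    Asym π l ψ (Polynomial.aeval a p) (fun j => Polynomial.aeval (b j) p) := by
  induction p using Polynomial.induction_on with
  | C r =>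
    simp only [Polynomial.aeval_C]
    have := asym_const (π := π) (l := l) (ψ := ψ) (H := H) (r : ℂ)
    rw [IsScalarTower.algebraMap_apply ℝ ℂ (BEl I Q H), IsScalarTower.algebraMap_apply ℝ ℂ (H →L[ℂ] H)]
    exact this
  | add p₁ p₂ h1 h2 =>
    simp only [map_add]
    exact asym_add h1 h2
  | monomial n r _ =>
    simp only [map_mul, Polynomial.aeval_C, map_pow, Polynomial.aeval_X]
    refine Asym.mul hL ?_ (Asym.pow hL h (n + 1))
    have := asym_const (π := π) (l := l) (ψ := ψ) (H := H) (r : ℂ)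
    rw [IsScalarTower.algebraMap_apply ℝ ℂ (BEl I Q H), IsScalarTower.algebraMap_apply ℝ ℂ (H →L[ℂ] H)]
    exact this

private theorem aeval_mem_star {A : Type*} [CStarAlgebra A] (S : StarSubalgebra ℂ A) {b : A}
    (hb : b ∈ S) (p : Polynomial ℝ) : Polynomial.aeval b p ∈ S := by
  have hc : ∀ r : ℝ, algebraMap ℝ A r ∈ S := fun r => by
    rw [IsScalarTower.algebraMap_apply ℝ ℂ A]
    exact S.algebraMap_mem _
  induction p using Polynomial.induction_on with
  | C r => simpa only [Polynomial.aeval_C] using hc r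
  | add p₁ p₂ h1 h2 =>
    rw [map_add]
    exact add_mem h1 h2
  | monomial n r _ =>
    simp only [map_mul, Polynomial.aeval_C, map_pow, Polynomial.aeval_X]
    exact mul_mem (hc r) (pow_mem hb _)

/-- An operator norm bound from a bound of matrix coefficients on finitely supported vectors. -/
private theorem opNorm_le_of_emb {X : Type*} (D : El X H →L[ℂ] El X H) (C : ℝ) (hC : 0 ≤ C)
    (h : ∀ x y : X →₀ H, ‖⟪emb y, D (emb x)⟫_ℂ‖ ≤ C * ‖emb x‖ * ‖emb y‖) : ‖D‖ ≤ C := by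
  have h1 : ∀ (x : X →₀ H) (g : El X H), ‖⟪g, D (emb x)⟫_ℂ‖ ≤ C * ‖emb x‖ * ‖g‖ := by
    intro x g
    refine denseRange_emb.induction_on (p := fun g => ‖⟪g, D (emb x)⟫_ℂ‖ ≤ C * ‖emb x‖ * ‖g‖) g ?_
      (fun y => h x y)
    exact isClosed_le (by fun_prop) (by fun_prop)
  have h2 : ∀ (f g : El X H), ‖⟪g, D f⟫_ℂ‖ ≤ C * ‖f‖ * ‖g‖ := by
    intro f g
    refine denseRange_emb.induction_on (p := fun f => ‖⟪g, D f⟫_ℂ‖ ≤ C * ‖f‖ * ‖g‖) f ?_
      (fun x => h1 x g)
    exact isClosed_le (by fun_prop) (by fun_prop)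
  refine ContinuousLinearMap.opNorm_le_bound _ hC fun f => ?_
  have h3 := h2 f (D f)
  rw [inner_self_eq_norm_sq_to_K] at h3
  simp only [Complex.coe_algebraMap, norm_pow, Complex.norm_real, norm_norm] at h3
  rcases eq_or_lt_of_le (norm_nonneg (D f)) with h4 | h4
  · rw [← h4]; positivity
  · nlinarith

end trunc2

section main

variable {I : Type*} {G Q : Type*} [Group G] [Group Q] {H : Type*} [NormedAddCommGroup H]
  [InnerProductSpace ℂ H] [CompleteSpace H] {K : Subgroup G} {q : G →* Q}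
  {π : G →* unitary (H →L[ℂ] H)} {J : Type*} {l : Filter J} {ψ : J → FreeGroup (I × Q) →* G}

/-- The limit estimate. -/
private theorem transfer_lim [l.NeBot] (hL : LetterNet K q π I l ψ) (T : H →L[ℂ] H) (δ : ℝ)
    (hT : ∀ k ∈ K, T * (π k : H →L[ℂ] H) = (π k : H →L[ℂ] H) * T) (hδ0 : 0 ≤ δ)
    (hδ : ∀ x ∈ grpAlg π, ‖T * x - x * T‖ ≤ δ * ‖x‖) (e : BEl I Q H) (c : ℝ) (hc : 0 ≤ c)
    (ej : J → H →L[ℂ] H) (hmem : ∀ j, ej j ∈ grpAlg π) (hn : ∀ j, ‖ej j‖ ≤ c)
    (hA : Asym π l ψ e ej) :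
    ‖cst (FreeGroup (I × Q)) T * e - e * cst (FreeGroup (I × Q)) T‖ ≤ δ * c := by
  have hT' : ∀ k ∈ K, star T * (π k : H →L[ℂ] H) = (π k : H →L[ℂ] H) * star T := by
    intro k hk
    have h1 := hT k⁻¹ (K.inv_mem hk)
    have h2 : ((π k⁻¹ : unitary (H →L[ℂ] H)) : H →L[ℂ] H) = star ((π k : H →L[ℂ] H)) := by
      rw [map_inv]; rfl
    rw [h2] at h1
    have h3 := congrArg star h1
    rw [star_mul, star_mul, star_star] at h3
    exact h3.symm
  refine opNorm_le_of_emb _ _ (mul_nonneg hδ0 hc) fun x y => ?_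
  obtain ⟨x', hx1, hx2⟩ := hA x
  obtain ⟨x'', hx3, hx4⟩ := hA (x.mapRange T (map_zero T))
  have key : ⟪emb y, (cst (FreeGroup (I × Q)) T * e - e * cst (FreeGroup (I × Q)) T) (emb x)⟫_ℂ =
      ⟪emb (y.mapRange (star T : H →L[ℂ] H) (map_zero (star T : H →L[ℂ] H))), emb x'⟫_ℂ - ⟪emb y, emb x''⟫_ℂ := by
    rw [sub_apply, inner_sub_right, ← hx1, ← hx3, ← emb_cst, ← emb_cst, ← star_cst,
      ContinuousLinearMap.star_eq_adjoint, ContinuousLinearMap.adjoint_inner_left]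
    rfl
  rw [key]
  have hlim : Tendsto (fun j => ⟪Sj π (ψ j) (y.mapRange (star T : H →L[ℂ] H) (map_zero (star T : H →L[ℂ] H))),
      Sj π (ψ j) x'⟫_ℂ - ⟪Sj π (ψ j) y, Sj π (ψ j) x''⟫_ℂ) l
      (𝓝 (⟪emb (y.mapRange (star T : H →L[ℂ] H) (map_zero (star T : H →L[ℂ] H))), emb x'⟫_ℂ - ⟪emb y, emb x''⟫_ℂ)) :=
    (Sj_inner hL _ _).sub (Sj_inner hL _ _)
  have hlim2 : Tendsto (fun j => δ * c * ‖Sj π (ψ j) x‖ * ‖Sj π (ψ j) y‖) l
      (𝓝 (δ * c * ‖emb x‖ * ‖emb y‖)) :=
    ((Sj_norm hL x).const_mul _).mul (Sj_norm hL y)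
  refine le_of_tendsto_of_tendsto hlim.norm hlim2 ?_
  filter_upwards [hx2, hx4] with j h1 h2
  rw [← h1, ← h2, ← Sj_cst hL T hT, ← Sj_cst hL (star T) hT',
    ContinuousLinearMap.star_eq_adjoint, ContinuousLinearMap.adjoint_inner_left, ← inner_sub_right]
  have h3 : T (ej j (Sj π (ψ j) x)) - ej j (T (Sj π (ψ j) x)) =
      (T * ej j - ej j * T) (Sj π (ψ j) x) := rfl
  rw [h3]
  calc ‖⟪Sj π (ψ j) y, (T * ej j - ej j * T) (Sj π (ψ j) x)⟫_ℂ‖
      ≤ ‖Sj π (ψ j) y‖ * ‖(T * ej j - ej j * T) (Sj π (ψ j) x)‖ := norm_inner_le_norm _ _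
    _ ≤ ‖Sj π (ψ j) y‖ * (‖T * ej j - ej j * T‖ * ‖Sj π (ψ j) x‖) := by
        gcongr
        exact ContinuousLinearMap.le_opNorm _ _
    _ ≤ ‖Sj π (ψ j) y‖ * ((δ * c) * ‖Sj π (ψ j) x‖) := by
        gcongr
        exact (hδ _ (hmem j)).trans (mul_le_mul_of_nonneg_left (hn j) hδ0)
    _ = δ * c * ‖Sj π (ψ j) x‖ * ‖Sj π (ψ j) y‖ := by ring

/-- The transfer inequality on the algebraic span. -/
private theorem transfer_alg [l.NeBot] (hL : LetterNet K q π I l ψ) (T : H →L[ℂ] H) (δ : ℝ)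
    (hT : ∀ k ∈ K, T * (π k : H →L[ℂ] H) = (π k : H →L[ℂ] H) * T) (hδ0 : 0 ≤ δ)
    (hδ : ∀ x ∈ grpAlg π, ‖T * x - x * T‖ ≤ δ * ‖x‖) (a : BEl I Q H)
    (ha : a ∈ StarAlgebra.adjoin ℂ ((Set.range fun ν => (Lop I Q H ν : BEl I Q H)) ∪
      (Set.range fun g => (Pop I q π g : BEl I Q H)))) :
    ‖cst (FreeGroup (I × Q)) T * a - a * cst (FreeGroup (I × Q)) T‖ ≤ δ * ‖a‖ := by
  obtain ⟨b, hb1, ⟨B, hB⟩, hab, hab'⟩ := asy_adjoin (K := K) hL a ha
  rcases eq_or_lt_of_le (norm_nonneg a) with ha0 | ha0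
  · have : a = 0 := norm_eq_zero.1 ha0.symm
    subst this
    simp
  set N : ℝ := ‖cst (FreeGroup (I × Q)) T‖ with hN
  set M : ℝ := max (B ^ 2) (‖a‖ ^ 2) with hM
  have hM0 : 0 ≤ M := (sq_nonneg B).trans (le_max_left _ _)
  set C : ℝ := ‖a‖ with hC
  -- it is enough to prove the inequality up to small errors
  have hsmall : ∀ ε : ℝ, 0 < ε →
      ‖cst (FreeGroup (I × Q)) T * a - a * cst (FreeGroup (I × Q)) T‖ ≤
        δ * (C + Real.sqrt M * ε) + 2 * N * (Real.sqrt M * ε) := by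
    intro ε hε
    have hcont : ContinuousOn (fun t : ℝ => C / max C (Real.sqrt t)) (Set.Icc 0 M) := by
      refine Continuous.continuousOn ?_
      refine Continuous.div continuous_const (by fun_prop) fun t => ?_
      exact (lt_max_of_lt_left ha0).ne'
    obtain ⟨p, hp⟩ := exists_polynomial_near_of_continuousOn 0 M _ hcont ε hε
    have hB2 : ∀ j, ‖b j‖ ^ 2 ≤ M := fun j => by
      have : ‖b j‖ ^ 2 ≤ B ^ 2 := by
        have h1 := hB j
        have h2 := norm_nonneg (b j)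
        gcongr
      exact this.trans (le_max_left _ _)
    have hp1 : ∀ t, 0 ≤ t → t ≤ M → Real.sqrt t * |p.eval t| ≤ C + Real.sqrt M * ε := by
      intro t h0 h1
      have h2 := hp t ⟨h0, h1⟩
      have h3 : |p.eval t| ≤ C / max C (Real.sqrt t) + ε := by
        have h4 : 0 ≤ C / max C (Real.sqrt t) := by positivity
        have h5 := abs_sub_abs_le_abs_sub (p.eval t) (C / max C (Real.sqrt t))
        rw [abs_of_nonneg h4] at h5
        linarith
      have h6 : Real.sqrt t * (C / max C (Real.sqrt t)) ≤ C := by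
        rw [mul_div_assoc', div_le_iff₀ (lt_max_of_lt_left ha0)]
        have := le_max_right C (Real.sqrt t)
        nlinarith
      have h7 : Real.sqrt t ≤ Real.sqrt M := Real.sqrt_le_sqrt h1
      calc Real.sqrt t * |p.eval t| ≤ Real.sqrt t * (C / max C (Real.sqrt t) + ε) := by
            gcongr
        _ = Real.sqrt t * (C / max C (Real.sqrt t)) + Real.sqrt t * ε := by ring
        _ ≤ C + Real.sqrt M * ε := by gcongr
    have hp2 : ∀ t, 0 ≤ t → t ≤ C ^ 2 →
        Real.sqrt t * |(p - 1 : Polynomial ℝ).eval t| ≤ Real.sqrt M * ε := by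
      intro t h0 h1
      have h1' : t ≤ M := h1.trans (le_max_right _ _)
      have h2 := hp t ⟨h0, h1'⟩
      have h3 : max C (Real.sqrt t) = C := by
        refine max_eq_left ?_
        rw [Real.sqrt_le_left ha0.le]
        exact h1
      simp only [h3, div_self ha0.ne'] at h2
      rw [Polynomial.eval_sub, Polynomial.eval_one]
      have h7 : Real.sqrt t ≤ Real.sqrt M := Real.sqrt_le_sqrt h1'
      gcongr
    -- the truncated elements
    have hmem : ∀ j, b j * Polynomial.aeval (star (b j) * b j) p ∈ grpAlg π := fun j =>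
      mul_mem (hb1 j) (aeval_mem_star _ (mul_mem (star_mem (hb1 j)) (hb1 j)) p)
    have hnorm : ∀ j, ‖b j * Polynomial.aeval (star (b j) * b j) p‖ ≤ C + Real.sqrt M * ε :=
      fun j => norm_mul_aeval_le (b j) p M _ (hB2 j) (by positivity) hp1
    have hasy : Asym π l ψ (a * Polynomial.aeval (star a * a) p)
        (fun j => b j * Polynomial.aeval (star (b j) * b j) p) :=
      Asym.mul hL hab (asym_aeval hL (Asym.mul hL hab' hab) p)
    have h1 := transfer_lim hL T δ hT hδ0 hδ _ _ (by positivity) _ hmem hnorm hasy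
    have h2 : ‖a * Polynomial.aeval (star a * a) p - a‖ ≤ Real.sqrt M * ε := by
      have h3 : a * Polynomial.aeval (star a * a) p - a =
          a * Polynomial.aeval (star a * a) (p - 1) := by
        rw [map_sub, map_one, mul_sub, mul_one]
      rw [h3]
      exact norm_mul_aeval_le a (p - 1) (C ^ 2) _ le_rfl (by positivity) hp2
    set e : BEl I Q H := a * Polynomial.aeval (star a * a) p with he
    have h3 : cst (FreeGroup (I × Q)) T * a - a * cst (FreeGroup (I × Q)) T =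
        (cst (FreeGroup (I × Q)) T * e - e * cst (FreeGroup (I × Q)) T) -
          (cst (FreeGroup (I × Q)) T * (e - a) - (e - a) * cst (FreeGroup (I × Q)) T) := by
      noncomm_ring
    rw [h3]
    refine (norm_sub_le _ _).trans (add_le_add h1 ?_)
    calc ‖cst (FreeGroup (I × Q)) T * (e - a) - (e - a) * cst (FreeGroup (I × Q)) T‖
        ≤ ‖cst (FreeGroup (I × Q)) T * (e - a)‖ + ‖(e - a) * cst (FreeGroup (I × Q)) T‖ :=
          norm_sub_le _ _
      _ ≤ N * ‖e - a‖ + ‖e - a‖ * N := add_le_add (norm_mul_le _ _) (norm_mul_le _ _)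
      _ = 2 * N * ‖e - a‖ := by ring
      _ ≤ 2 * N * (Real.sqrt M * ε) := by
          have : 0 ≤ N := norm_nonneg _
          gcongr
  -- let ε tend to zero
  have hlim : Tendsto (fun ε : ℝ => δ * (C + Real.sqrt M * ε) + 2 * N * (Real.sqrt M * ε))
      (𝓝[>] 0) (𝓝 (δ * (C + Real.sqrt M * 0) + 2 * N * (Real.sqrt M * 0))) := by
    refine Tendsto.mono_left ?_ nhdsWithin_le_nhds
    exact Continuous.tendsto (by fun_prop) 0
  have h4 := ge_of_tendsto hlim (eventually_nhdsWithin_of_forall fun ε hε => hsmall ε hε)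
  simpa using h4

theorem transfer [l.NeBot] (hL : LetterNet K q π I l ψ) (T : H →L[ℂ] H) (δ : ℝ)
    (hT : ∀ k ∈ K, T * (π k : H →L[ℂ] H) = (π k : H →L[ℂ] H) * T)
    (hδ : ∀ x ∈ grpAlg π, ‖T * x - x * T‖ ≤ δ * ‖x‖) (a : BEl I Q H) (ha : a ∈ csL I q π) :
    ‖cst (FreeGroup (I × Q)) T * a - a * cst (FreeGroup (I × Q)) T‖ ≤ δ * ‖a‖ := by
  rcases lt_or_ge δ 0 with hneg | hδ0
  · -- then H is trivial
    have h1 := hδ 1 (one_mem _)
    have h2 : ‖(1 : H →L[ℂ] H)‖ ≤ 0 := by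
      have h3 := norm_nonneg (T * 1 - 1 * T)
      nlinarith
    have h4 : (1 : H →L[ℂ] H) = 0 := norm_eq_zero.1 (le_antisymm h2 (norm_nonneg _))
    have h5 : ∀ v : H, v = 0 := fun v => by
      have := congrArg (fun f : H →L[ℂ] H => f v) h4
      simpa using this
    have h6 : a = 0 := by
      ext f x
      exact (h5 _).trans (h5 _).symm
    subst h6
    simp
  · have hclosed : IsClosed {a : BEl I Q H |
        ‖cst (FreeGroup (I × Q)) T * a - a * cst (FreeGroup (I × Q)) T‖ ≤ δ * ‖a‖} :=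
      isClosed_le (by fun_prop) (by fun_prop)
    have hsub : ((StarAlgebra.adjoin ℂ ((Set.range fun ν => (Lop I Q H ν : BEl I Q H)) ∪
        (Set.range fun g => (Pop I q π g : BEl I Q H))) : StarSubalgebra ℂ (BEl I Q H)) :
          Set (BEl I Q H)) ⊆ {a : BEl I Q H |
        ‖cst (FreeGroup (I × Q)) T * a - a * cst (FreeGroup (I × Q)) T‖ ≤ δ * ‖a‖} :=
      fun a ha => transfer_alg hL T δ hT hδ0 hδ a ha
    have h7 := closure_minimal hsub hclosed
    exact h7 ha

end main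

end Pool.Agent.Helper93.SP
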