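/-
Block SP-CORE (about 200 lines).  Assembly: ‖[T ⊗ 1, Y]‖ ≤ 26 δ for unitary Y in M_m(C*(π(G))).

(core_hat), m ≥ 2.  Let T^ = amp (cst T), u = uop Y, c(U) = T^ - U T^ U*.  ξ = e1 ζ, ξ' = e1 θ.
root_avg with C = (1 + sqrt 2)^2 δ m (f_bound):
 | Σ_{a,b<m} φ(a,b) (⟪ξ', u^(-a) T^ u^a ξ⟫ - ⟪ξ', u^b T^ u^(-b) ξ⟫) | ≤ (1 + sqrt 2)^2 δ m^2 ‖ζ‖ ‖θ‖,
φ(a,b) = 1 - (a+b)/2m ≥ 0.  Here u^b T^ u^(-b) = T^ - c(u^b), and for a ≥ 1, with Z_a = Y u^(-a)
(so u^(-a) = Y* Z_a):  u^(-a) T^ u^a = Y* Z_a T^ Z_a* Y = Y* (T^ - c(Z_a)) Y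
   = T^ - (T^ - Y* T^ Y) - Y* c(Z_a) Y;  for a = 0 it is T^.
So with A = ⟪ξ', (T^ - Y* T^ Y) ξ⟫ the sum is
   - Σ_{a ≥ 1, b} φ(a,b) A - Σ_{a ≥ 1, b} φ(a,b) ⟪Y ξ', c(Z_a) Y ξ⟫ + Σ_{a,b} φ(a,b) ⟪ξ', c(u^b) ξ⟫.
By lemL_neg (Y ξ = e1 ζ', ‖ζ'‖ ≤ ‖ζ‖ by hypothesis hY1) and lemL_pos the last two sums are bounded
by δ S ‖ζ‖ ‖θ‖ each, where S = Σ_{a ≥ 1, b < m} φ(a,b) (for c(u^b): the terms b = 0 vanish and the
remaining sum is the same number S by symmetry).  S = (m-1)(2m+1)/4 ≥ m^2/4 for m ≥ 2.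
Hence |A| S ≤ ((1 + sqrt 2)^2 m^2 + 2 S) δ ‖ζ‖ ‖θ‖ and |A| ≤ (4 (1 + sqrt 2)^2 + 2) δ ‖ζ‖ ‖θ‖
 ≤ 26 δ ‖ζ‖ ‖θ‖   (4 (3 + 2 sqrt 2) + 2 = 14 + 8 sqrt 2 < 25.4).

(core).  Y a matrix over grpCs π, unitary.  m = 0: trivial (the space is a single point: norms
are 0).  m = 1: ‖T y - y T‖ ≤ δ ‖y‖ for y = Y 0 0 by continuity, ‖y‖ ≤ 1 (norm_entry_le);
amp_comm and norm_matOp_le.  m ≥ 2: let Φ be the map of exists_ext, Y^ i j = Φ(Y i j): entries in
csG, matOp Y^ unitary (Φ is a unital star homomorphism: Y* Y = 1 entrywise (matOp_injective,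
matOp_mul, matOp_star, matOp_one) gives the same for Y^), matOp Y^ (e1 ζ) = e1 (matOp Y ζ).
hTL = transfer; ‖T - π(g) T π(g)*‖ ≤ δ since ‖T π(g) - π(g) T‖ ≤ δ ‖π(g)‖ ≤ δ; T commutes with
π(ker q) as ker q ≤ K.  core_hat gives |⟪θ, (T⊗1 - Y* (T⊗1) Y) ζ⟫| ≤ 26 δ ‖ζ‖ ‖θ‖ for all ζ, θ in
H^m, so ‖T⊗1 - Y* (T⊗1) Y‖ ≤ 26 δ, and Y (T⊗1) - (T⊗1) Y = Y (T⊗1 - Y* (T⊗1) Y).
-/
import Pool.Agent.Helper93.SP.Fbd
import Pool.Agent.Helper93.SP.LemL
import Pool.Agent.Helper93.SP.Root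
import Pool.Agent.Helper93.SP.Ext
import Pool.Agent.Helper93.SP.Trunc

set_option autoImplicit false

open scoped InnerProductSpace ComplexConjugate ENNReal NNReal
open Filter Topology

namespace Pool.Agent.Helper93.SP

variable {G Q : Type*} [Group G] [Group Q] {H : Type*} [NormedAddCommGroup H]
  [InnerProductSpace ℂ H] [CompleteSpace H] {q : G →* Q} {π : G →* unitary (H →L[ℂ] H)} {m : ℕ}

private theorem row_sum (a : ℝ) (c : ℝ) (k : ℕ) :
    ∑ b ∈ Finset.range k, (1 - (a + (b : ℝ)) / c) = k - a * k / c - (k * (k - 1) / 2) / c := by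
  induction k with
  | zero => simp
  | succ k ih =>
    rw [Finset.sum_range_succ, ih]
    push_cast
    ring

private theorem dbl_sum (c : ℝ) (n k : ℕ) :
    ∑ a ∈ Finset.range n, ∑ b ∈ Finset.range k, (1 - (((a : ℝ) + 1) + (b : ℝ)) / c) =
      n * k - (n * (n + 1) / 2) * k / c - n * (k * (k - 1) / 2) / c := by
  induction n with
  | zero => simp
  | succ n ih =>
    rw [Finset.sum_range_succ, ih, row_sum]
    push_cast
    ring

private noncomputable def ind (a : ℕ) : ℝ := if a = 0 then 0 else 1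

private theorem ind_nonneg (a : ℕ) : 0 ≤ ind a := by
  unfold ind
  split <;> norm_num

private theorem sum_ind (m : ℕ) (hm : 2 ≤ m) :
    (m : ℝ) ^ 2 / 4 ≤ ∑ a ∈ Finset.range m, ∑ b ∈ Finset.range m,
      (1 - ((a : ℝ) + (b : ℝ)) / (2 * m)) * ind a := by
  obtain ⟨k, rfl⟩ : ∃ k, m = k + 1 := ⟨m - 1, by omega⟩
  rw [Finset.sum_range_succ' _ k]
  have h0 : ∑ b ∈ Finset.range (k + 1),
      (1 - (((0 : ℕ) : ℝ) + (b : ℝ)) / (2 * ((k + 1 : ℕ) : ℝ))) * ind 0 = 0 := by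
    simp [ind]
  rw [h0, add_zero]
  have h1 : ∀ a ∈ Finset.range k, ∑ b ∈ Finset.range (k + 1),
      (1 - (((a + 1 : ℕ) : ℝ) + (b : ℝ)) / (2 * ((k + 1 : ℕ) : ℝ))) * ind (a + 1) =
      ∑ b ∈ Finset.range (k + 1), (1 - (((a : ℝ) + 1) + (b : ℝ)) / (2 * ((k + 1 : ℕ) : ℝ))) := by
    intro a _
    refine Finset.sum_congr rfl fun b _ => ?_
    simp [ind]
  rw [Finset.sum_congr rfl h1, dbl_sum]
  have hk : (1 : ℝ) ≤ k := by
    have : 1 ≤ k := by omega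
    exact_mod_cast this
  push_cast
  have hk1 : (0 : ℝ) < (k : ℝ) + 1 := by linarith
  have e : (k : ℝ) * (k + 1) - (k : ℝ) * (k + 1) / 2 * (k + 1) / (2 * (k + 1)) -
      (k : ℝ) * ((k + 1) * (k + 1 - 1) / 2) / (2 * (k + 1)) = (k : ℝ) * (2 * k + 3) / 4 := by
    field_simp
    ring
  rw [e]
  nlinarith

section absCore

variable {E : Type*} [NormedAddCommGroup E] [InnerProductSpace ℂ E] [CompleteSpace E]

private theorem alg1 {R : Type*} [Ring R] (Y Y' S v w : R) (h : Y' * Y = 1) :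
    Y' * (S - (Y * v) * S * (w * Y')) * Y = Y' * S * Y - v * S * w := by
  rw [mul_sub, sub_mul]
  congr 1
  calc Y' * (Y * v * S * (w * Y')) * Y = (Y' * Y) * (v * S * w) * (Y' * Y) := by
        simp only [mul_assoc]
    _ = _ := by rw [h, one_mul, mul_one]

private theorem neg_id (Y S v w : E →L[ℂ] E) (h : star Y * Y = 1) (x y : E) :
    ⟪Y y, (S - (Y * v) * S * (w * star Y)) (Y x)⟫_ℂ =
      ⟪y, (star Y * S * Y) x⟫_ℂ - ⟪y, (v * S * w) x⟫_ℂ := by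
  have e1' : ∀ v w : E, ⟪Y v, w⟫_ℂ = ⟪v, (star Y) w⟫_ℂ := by
    intro v w
    rw [ContinuousLinearMap.star_eq_adjoint, ContinuousLinearMap.adjoint_inner_right]
  have e3 := alg1 Y (star Y) S v w h
  rw [e1', ← inner_sub_right, ← sub_apply, ← e3]
  rfl

private theorem core_abs {m : ℕ} (hm : 2 ≤ m) (Y u S : E →L[ℂ] E) (hY : star Y * Y = 1) (x y : E)
    (D : ℝ) (hD0 : 0 ≤ D)
    (hroot : ‖∑ a ∈ Finset.range m, ∑ b ∈ Finset.range m, ((1 - ((a : ℂ) + (b : ℂ)) / (2 * m)) *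
      (⟪y, ((star u) ^ a * S * u ^ a) x⟫_ℂ - ⟪y, (u ^ b * S * (star u) ^ b) x⟫_ℂ))‖ ≤
      (1 + Real.sqrt 2) ^ 2 * m ^ 2 * D)
    (hLp : ∀ b : ℕ, ‖⟪y, (S - u ^ b * S * (star u) ^ b) x⟫_ℂ‖ ≤ D)
    (hLn : ∀ a : ℕ, 1 ≤ a →
      ‖⟪Y y, (S - (Y * (star u) ^ a) * S * (u ^ a * star Y)) (Y x)⟫_ℂ‖ ≤ D) :
    ‖⟪y, (S - star Y * S * Y) x⟫_ℂ‖ ≤ 26 * D := by
  set B : ℂ := ⟪y, S x⟫_ℂ with hB
  set A : ℂ := ⟪y, (S - star Y * S * Y) x⟫_ℂ with hA
  have hP : ∀ b : ℕ, ∃ P : ℂ, ⟪y, (u ^ b * S * (star u) ^ b) x⟫_ℂ = B - P ∧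
      ‖P‖ ≤ ind b * D := by
    intro b
    refine ⟨⟪y, (S - u ^ b * S * (star u) ^ b) x⟫_ℂ, ?_, ?_⟩
    · rw [sub_apply, inner_sub_right]
      ring
    · by_cases hb : b = 0
      · subst hb
        simp [ind]
      · rw [ind, if_neg hb, one_mul]
        exact hLp b
  have hN : ∀ a : ℕ, ∃ N : ℂ, ⟪y, ((star u) ^ a * S * u ^ a) x⟫_ℂ =
      B - (ind a : ℂ) * A - N ∧ ‖N‖ ≤ ind a * D := by
    intro a
    by_cases ha : a = 0
    · subst ha
      refine ⟨0, ?_, ?_⟩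
      · simp [ind, hB]
      · simp [ind]
    · refine ⟨⟪Y y, (S - (Y * (star u) ^ a) * S * (u ^ a * star Y)) (Y x)⟫_ℂ, ?_, ?_⟩
      · rw [neg_id Y S _ _ hY, hA, hB, ind, if_neg ha, sub_apply, inner_sub_right]
        push_cast
        ring
      · rw [ind, if_neg ha, one_mul]
        exact hLn a (Nat.one_le_iff_ne_zero.2 ha)
  choose P hP1 hP2 using hP
  choose N hN1 hN2 using hN
  set φ : ℕ → ℕ → ℝ := fun a b => 1 - ((a : ℝ) + (b : ℝ)) / (2 * m) with hφ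
  have hφ0 : ∀ a ∈ Finset.range m, ∀ b ∈ Finset.range m, 0 ≤ φ a b := by
    intro a ha b hb
    rw [Finset.mem_range] at ha hb
    have ha' : (a : ℝ) ≤ m := by exact_mod_cast ha.le
    have hb' : (b : ℝ) ≤ m := by exact_mod_cast hb.le
    have hm' : (0 : ℝ) < 2 * m := by
      have : (0 : ℝ) < m := by exact_mod_cast (by omega : 0 < m)
      positivity
    rw [hφ]
    simp only [sub_nonneg]
    rw [div_le_one hm']
    linarith
  have hsum : (∑ a ∈ Finset.range m, ∑ b ∈ Finset.range m,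
      ((1 - ((a : ℂ) + (b : ℂ)) / (2 * m)) *
      (⟪y, ((star u) ^ a * S * u ^ a) x⟫_ℂ - ⟪y, (u ^ b * S * (star u) ^ b) x⟫_ℂ))) =
      (∑ a ∈ Finset.range m, ∑ b ∈ Finset.range m, (φ a b : ℂ) * P b) -
      (∑ a ∈ Finset.range m, ∑ b ∈ Finset.range m, (φ a b : ℂ) * N a) -
      ((∑ a ∈ Finset.range m, ∑ b ∈ Finset.range m, φ a b * ind a : ℝ) : ℂ) * A := by
    simp only [hP1, hN1]
    push_cast
    rw [Finset.sum_mul, ← Finset.sum_sub_distrib, ← Finset.sum_sub_distrib]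
    refine Finset.sum_congr rfl fun a _ => ?_
    rw [Finset.sum_mul, ← Finset.sum_sub_distrib, ← Finset.sum_sub_distrib]
    refine Finset.sum_congr rfl fun b _ => ?_
    rw [hφ]
    push_cast
    ring
  rw [hsum] at hroot
  set S1 : ℝ := ∑ a ∈ Finset.range m, ∑ b ∈ Finset.range m, φ a b * ind a with hS1
  have hS1' : ∑ a ∈ Finset.range m, ∑ b ∈ Finset.range m, φ a b * ind b = S1 := by
    rw [Finset.sum_comm, hS1]
    refine Finset.sum_congr rfl fun a _ => Finset.sum_congr rfl fun b _ => ?_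
    rw [hφ]
    simp only [add_comm]
  have hbP : ‖∑ a ∈ Finset.range m, ∑ b ∈ Finset.range m, (φ a b : ℂ) * P b‖ ≤ S1 * D := by
    rw [← hS1', Finset.sum_mul]
    refine (norm_sum_le _ _).trans (Finset.sum_le_sum fun a ha => ?_)
    rw [Finset.sum_mul]
    refine (norm_sum_le _ _).trans (Finset.sum_le_sum fun b hb => ?_)
    rw [norm_mul, Complex.norm_real, Real.norm_of_nonneg (hφ0 a ha b hb), mul_assoc]
    exact mul_le_mul_of_nonneg_left (hP2 b) (hφ0 a ha b hb)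
  have hbN : ‖∑ a ∈ Finset.range m, ∑ b ∈ Finset.range m, (φ a b : ℂ) * N a‖ ≤ S1 * D := by
    rw [hS1, Finset.sum_mul]
    refine (norm_sum_le _ _).trans (Finset.sum_le_sum fun a ha => ?_)
    rw [Finset.sum_mul]
    refine (norm_sum_le _ _).trans (Finset.sum_le_sum fun b hb => ?_)
    rw [norm_mul, Complex.norm_real, Real.norm_of_nonneg (hφ0 a ha b hb), mul_assoc]
    exact mul_le_mul_of_nonneg_left (hN2 a) (hφ0 a ha b hb)
  have hSlow : (m : ℝ) ^ 2 / 4 ≤ S1 := sum_ind m hm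
  have hmpos : (0 : ℝ) < m := by exact_mod_cast (by omega : 0 < m)
  have hSpos : 0 < S1 := lt_of_lt_of_le (by positivity) hSlow
  have hAS : ‖A‖ * S1 ≤ (1 + Real.sqrt 2) ^ 2 * m ^ 2 * D + 2 * S1 * D := by
    have h1 : ((S1 : ℝ) : ℂ) * A = (∑ a ∈ Finset.range m, ∑ b ∈ Finset.range m, (φ a b : ℂ) * P b) -
        (∑ a ∈ Finset.range m, ∑ b ∈ Finset.range m, (φ a b : ℂ) * N a) -
        ((∑ a ∈ Finset.range m, ∑ b ∈ Finset.range m, (φ a b : ℂ) * P b) -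
        (∑ a ∈ Finset.range m, ∑ b ∈ Finset.range m, (φ a b : ℂ) * N a) - ((S1 : ℝ) : ℂ) * A) := by
      ring
    have h2 : ‖A‖ * S1 = ‖((S1 : ℝ) : ℂ) * A‖ := by
      rw [norm_mul, Complex.norm_real, Real.norm_of_nonneg hSpos.le, mul_comm]
    rw [h2, h1]
    refine (norm_sub_le _ _).trans ?_
    have h3 := (norm_sub_le (∑ a ∈ Finset.range m, ∑ b ∈ Finset.range m, (φ a b : ℂ) * P b)
      (∑ a ∈ Finset.range m, ∑ b ∈ Finset.range m, (φ a b : ℂ) * N a))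
    linarith
  have hsq : Real.sqrt 2 ≤ 3 / 2 := by
    rw [Real.sqrt_le_left (by norm_num)]
    norm_num
  have hsq2 : Real.sqrt 2 ^ 2 = 2 := Real.sq_sqrt (by norm_num)
  have h5 : (m : ℝ) ^ 2 ≤ 4 * S1 := by linarith
  have h6 : (1 + Real.sqrt 2) ^ 2 ≤ 6 := by nlinarith
  have h7 : (1 + Real.sqrt 2) ^ 2 * m ^ 2 * D ≤ 6 * (4 * S1) * D := by
    gcongr
  have h8 : ‖A‖ * S1 ≤ (26 * D) * S1 := by nlinarith
  exact le_of_mul_le_mul_right h8 hSpos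

end absCore

theorem core_hat (hm : 2 ≤ m) (hq : Function.Surjective q) (T : H →L[ℂ] H) (δ : ℝ) (hδ : 0 ≤ δ)
    (hTL : ∀ a ∈ csL (Nm m) q π, ‖cst (FG m Q) T * a - a * cst (FG m Q) T‖ ≤ δ * ‖a‖)
    (hker : ∀ g, q g = 1 → T * (π g : H →L[ℂ] H) = (π g : H →L[ℂ] H) * T)
    (hT : ∀ g, ‖T - (π g : H →L[ℂ] H) * T * star (π g : H →L[ℂ] H)‖ ≤ δ)
    (Y : Matrix (Fin m) (Fin m) (BEl (Nm m) Q H)) (hYm : ∀ i j, Y i j ∈ csG (Nm m) q π)
    (hY : matOp Y ∈ unitary (Pw (Fin m) (El (FG m Q) H) →L[ℂ] _))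
    (hY1 : ∀ ζ : Pw (Fin m) H, ∃ ζ' : Pw (Fin m) H, matOp Y (e1 Q ζ) = e1 Q ζ' ∧ ‖ζ'‖ ≤ ‖ζ‖)
    (ζ θ : Pw (Fin m) H) :
    ‖⟪e1 Q θ, (amp (Fin m) (cst (FG m Q) T) -
      star (matOp Y) * amp (Fin m) (cst (FG m Q) T) * matOp Y) (e1 Q ζ)⟫_ℂ‖ ≤
      26 * δ * ‖ζ‖ * ‖θ‖ := by
  have hm0 : 0 < m := by omega
  have hroot := root_avg m hm0 (uop Y) (uop_unitary Y hY) (amp (Fin m) (cst (FG m Q) T))
    ((1 + Real.sqrt 2) ^ 2 * δ * m) (fun z hz => f_bound hm0 T δ hδ hTL Y hYm hY z hz)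
    (e1 Q ζ) (e1 Q θ)
  rw [norm_e1, norm_e1] at hroot
  obtain ⟨ζ', hζ', hζn⟩ := hY1 ζ
  obtain ⟨θ', hθ', hθn⟩ := hY1 θ
  have hYs : star (matOp Y) * matOp Y = 1 := Unitary.star_mul_self_of_mem hY
  have key := core_abs hm (matOp Y) (uop Y) (amp (Fin m) (cst (FG m Q) T)) hYs (e1 Q ζ) (e1 Q θ)
    (δ * ‖ζ‖ * ‖θ‖) (by positivity)
    (hroot.trans (le_of_eq (by ring)))
    (fun b => lemL_pos hq T δ hker hT Y hYm hY b ζ θ)
    (fun a ha => by
      rw [hζ', hθ']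
      refine (lemL_neg hq T δ hker hT Y hYm hY a ha ζ' θ').trans ?_
      gcongr)
  exact key.trans (le_of_eq (by ring))

private theorem norm_unitary_le {E : Type*} [NormedAddCommGroup E] [InnerProductSpace ℂ E]
    [CompleteSpace E] (U : E →L[ℂ] E) (hU : U ∈ unitary (E →L[ℂ] E)) : ‖U‖ ≤ 1 := by
  have h := CStarRing.norm_mem_unitary_mul (1 : E →L[ℂ] E) hU
  rw [mul_one] at h
  rw [h]
  exact ContinuousLinearMap.norm_id_le

private theorem comm_closure (π : G →* unitary (H →L[ℂ] H)) (T : H →L[ℂ] H) (δ : ℝ)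
    (hTx : ∀ x ∈ grpAlg π, ‖T * x - x * T‖ ≤ δ * ‖x‖) (x : H →L[ℂ] H) (hx : x ∈ grpCs π) :
    ‖T * x - x * T‖ ≤ δ * ‖x‖ := by
  have hcl : IsClosed {x : H →L[ℂ] H | ‖T * x - x * T‖ ≤ δ * ‖x‖} :=
    isClosed_le (by fun_prop) (by fun_prop)
  have h1 : (grpCs π : Set (H →L[ℂ] H)) ⊆ {x : H →L[ℂ] H | ‖T * x - x * T‖ ≤ δ * ‖x‖} := by
    rw [grpCs, StarSubalgebra.topologicalClosure_coe]
    exact closure_minimal hTx hcl
  exact h1 hx

private theorem norm_conj_le (π : G →* unitary (H →L[ℂ] H)) (T : H →L[ℂ] H) (δ : ℝ) (hδ : 0 ≤ δ)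
    (hTx : ∀ x ∈ grpAlg π, ‖T * x - x * T‖ ≤ δ * ‖x‖) (g : G) :
    ‖T - (π g : H →L[ℂ] H) * T * star (π g : H →L[ℂ] H)‖ ≤ δ := by
  have hu : (π g : H →L[ℂ] H) * star (π g : H →L[ℂ] H) = 1 :=
    Unitary.mul_star_self_of_mem (π g).2
  have h1 : T - (π g : H →L[ℂ] H) * T * star (π g : H →L[ℂ] H) =
      (T * (π g : H →L[ℂ] H) - (π g : H →L[ℂ] H) * T) * star (π g : H →L[ℂ] H) := by
    rw [sub_mul, mul_assoc T, hu, mul_one]
  rw [h1]
  have h2 : ‖star (π g : H →L[ℂ] H)‖ ≤ 1 := by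
    rw [norm_star]
    exact norm_unitary_le _ (π g).2
  have h3 : ‖(π g : H →L[ℂ] H)‖ ≤ 1 := norm_unitary_le _ (π g).2
  have h4 := hTx _ (mem_grpAlg π g)
  calc ‖(T * (π g : H →L[ℂ] H) - (π g : H →L[ℂ] H) * T) * star (π g : H →L[ℂ] H)‖
      ≤ ‖T * (π g : H →L[ℂ] H) - (π g : H →L[ℂ] H) * T‖ * ‖star (π g : H →L[ℂ] H)‖ :=
        norm_mul_le _ _
    _ ≤ (δ * ‖(π g : H →L[ℂ] H)‖) * 1 := by gcongr
    _ ≤ (δ * 1) * 1 := by gcongr
    _ = δ := by ring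

private theorem norm_le_of_inner {E : Type*} [NormedAddCommGroup E] [InnerProductSpace ℂ E]
    [CompleteSpace E] (X : E →L[ℂ] E) (C : ℝ) (hC : 0 ≤ C)
    (h : ∀ x y : E, ‖⟪y, X x⟫_ℂ‖ ≤ C * ‖x‖ * ‖y‖) : ‖X‖ ≤ C := by
  refine ContinuousLinearMap.opNorm_le_bound _ hC fun x => ?_
  have h1 := h x (X x)
  rw [inner_self_eq_norm_sq_to_K] at h1
  have h2 : ‖((‖X x‖ : ℂ)) ^ 2‖ = ‖X x‖ * ‖X x‖ := by
    rw [norm_pow, Complex.norm_real, norm_norm, sq]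
  by_cases h0 : ‖X x‖ = 0
  · rw [h0]
    positivity
  · have hpos : 0 < ‖X x‖ := lt_of_le_of_ne (norm_nonneg _) (Ne.symm h0)
    refine le_of_mul_le_mul_right ?_ hpos
    rw [← h2]
    exact h1

/-- The map on matrices over the closed star algebra generated by a representation. -/
private theorem hat_unitary {A : StarSubalgebra ℂ (H →L[ℂ] H)} {E : Type*} [NormedAddCommGroup E]
    [InnerProductSpace ℂ E] [CompleteSpace E] (Φ : A →⋆ₐ[ℂ] (E →L[ℂ] E))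
    (Y : Matrix (Fin m) (Fin m) (H →L[ℂ] H)) (hYm : ∀ i j, Y i j ∈ A)
    (hY : matOp Y ∈ unitary (Pw (Fin m) H →L[ℂ] _)) :
    matOp (Matrix.of fun i j => Φ ⟨Y i j, hYm i j⟩) ∈ unitary (Pw (Fin m) E →L[ℂ] _) := by
  have h1 : star Y * Y = 1 := by
    apply matOp_injective
    rw [matOp_mul, ← matOp_star, matOp_one]
    exact Unitary.star_mul_self_of_mem hY
  have h2 : Y * star Y = 1 := by
    apply matOp_injective
    rw [matOp_mul, ← matOp_star, matOp_one]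
    exact Unitary.mul_star_self_of_mem hY
  rw [Unitary.mem_iff, matOp_star, ← matOp_mul, ← matOp_mul, ← matOp_one]
  constructor
  · congr 1
    ext1 i j
    have h3 : ∑ k, star (⟨Y k i, hYm k i⟩ : A) * ⟨Y k j, hYm k j⟩ = if i = j then 1 else 0 := by
      have h4 := congrFun (congrFun h1 i) j
      rw [Matrix.mul_apply, Matrix.one_apply] at h4
      simp only [Matrix.star_apply] at h4
      apply Subtype.ext
      rw [AddSubmonoidClass.coe_finsetSum]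
      simp only [MulMemClass.coe_mul, StarMemClass.coe_star]
      rw [h4]
      split <;> simp
    rw [Matrix.mul_apply, Matrix.one_apply]
    simp only [Matrix.star_apply, Matrix.of_apply]
    have h5 := congrArg Φ h3
    rw [map_sum] at h5
    simp only [map_mul, map_star] at h5
    rw [h5]
    split <;> simp
  · congr 1
    ext1 i j
    have h3 : ∑ k, (⟨Y i k, hYm i k⟩ : A) * star ⟨Y j k, hYm j k⟩ = if i = j then 1 else 0 := by
      have h4 := congrFun (congrFun h2 i) j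
      rw [Matrix.mul_apply, Matrix.one_apply] at h4
      simp only [Matrix.star_apply] at h4
      apply Subtype.ext
      rw [AddSubmonoidClass.coe_finsetSum]
      simp only [MulMemClass.coe_mul, StarMemClass.coe_star]
      rw [h4]
      split <;> simp
    rw [Matrix.mul_apply, Matrix.one_apply]
    simp only [Matrix.star_apply, Matrix.of_apply]
    have h5 := congrArg Φ h3
    rw [map_sum] at h5
    simp only [map_mul, map_star] at h5
    rw [h5]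
    split <;> simp

theorem core {K : Subgroup G} {J : Type*} {l : Filter J} [l.NeBot] {ψ : J → FG m Q →* G}
    (hq : Function.Surjective q) (hqK : ∀ g, q g = 1 → g ∈ K)
    (hL : LetterNet K q π (Nm m) l ψ) (T : H →L[ℂ] H) (δ : ℝ) (hδ : 0 ≤ δ)
    (hT : ∀ k ∈ K, T * (π k : H →L[ℂ] H) = (π k : H →L[ℂ] H) * T)
    (hTx : ∀ x ∈ grpAlg π, ‖T * x - x * T‖ ≤ δ * ‖x‖)
    (Y : Matrix (Fin m) (Fin m) (H →L[ℂ] H)) (hYm : ∀ i j, Y i j ∈ grpCs π)
    (hY : matOp Y ∈ unitary (Pw (Fin m) H →L[ℂ] _)) :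
    ‖amp (Fin m) T * matOp Y - matOp Y * amp (Fin m) T‖ ≤ 26 * δ := by
  have hYn : ‖matOp Y‖ ≤ 1 := norm_unitary_le _ hY
  rcases Nat.lt_or_ge m 2 with hm | hm
  · have h1 : amp (Fin m) T * matOp Y - matOp Y * amp (Fin m) T =
        matOp (Matrix.of fun i j => T * Y i j - Y i j * T) := by
      rw [amp, ← matOp_mul, ← matOp_mul, ← matOp_sub]
      congr 1
      ext1 i j
      rw [Matrix.sub_apply, Matrix.diagonal_mul, Matrix.mul_diagonal, Matrix.of_apply]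
    rw [h1]
    have h2 : ∀ i j, ‖(Matrix.of fun i j => T * Y i j - Y i j * T) i j‖ ≤ δ := by
      intro i j
      rw [Matrix.of_apply]
      refine (comm_closure π T δ hTx _ (hYm i j)).trans ?_
      have h3 : ‖Y i j‖ ≤ 1 := by
        rw [← entry_matOp Y i j]
        exact (norm_entry_le _ i j).trans hYn
      calc δ * ‖Y i j‖ ≤ δ * 1 := by gcongr
        _ = δ := mul_one δ
    refine (norm_matOp_le _ δ hδ h2).trans ?_
    rw [Fintype.card_fin]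
    have hm1 : (m : ℝ) ≤ 1 := by
      have : m ≤ 1 := by omega
      exact_mod_cast this
    nlinarith
  · obtain ⟨Φ, hΦ1, hΦ2⟩ := exists_ext hL
    set Yh : Matrix (Fin m) (Fin m) (BEl (Nm m) Q H) :=
      Matrix.of fun i j => Φ ⟨Y i j, hYm i j⟩ with hYh
    have hYhm : ∀ i j, Yh i j ∈ csG (Nm m) q π := fun i j => hΦ1 _
    have hYhu : matOp Yh ∈ unitary (Pw (Fin m) (El (FG m Q) H) →L[ℂ] _) :=
      hat_unitary Φ Y hYm hY
    have hYe : ∀ ζ : Pw (Fin m) H, matOp Yh (e1 Q ζ) = e1 Q (matOp Y ζ) := by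
      intro ζ
      ext1 i
      rw [matOp_apply, e1_apply, matOp_apply]
      have h1 : ∀ v : Fin m → H, pt (1 : FG m Q) (∑ j, v j) = ∑ j, pt (1 : FG m Q) (v j) := by
        intro v
        let f : H →+ El (FG m Q) H :=
          { toFun := fun z => pt (1 : FG m Q) z
            map_zero' := by
              have := pt_smul (H := H) (1 : FG m Q) (0 : ℂ) 0
              rwa [zero_smul, zero_smul] at this
            map_add' := fun a b => pt_add _ a b }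
        exact map_sum f v Finset.univ
      rw [h1]
      refine Finset.sum_congr rfl fun j _ => ?_
      rw [e1_apply, hYh, Matrix.of_apply]
      exact hΦ2 _ _
    have hTL : ∀ a ∈ csL (Nm m) q π, ‖cst (FG m Q) T * a - a * cst (FG m Q) T‖ ≤ δ * ‖a‖ :=
      fun a ha => transfer hL T δ hT hTx a ha
    have hker : ∀ g, q g = 1 → T * (π g : H →L[ℂ] H) = (π g : H →L[ℂ] H) * T :=
      fun g hg => hT g (hqK g hg)
    have hTg := norm_conj_le π T δ hδ hTx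
    have key := fun ζ θ => core_hat hm hq T δ hδ hTL hker hTg Yh hYhm hYhu
      (fun ζ => ⟨matOp Y ζ, hYe ζ, by
        have := (matOp Y).le_opNorm ζ
        nlinarith [norm_nonneg ζ]⟩) ζ θ
    have hin : ∀ ζ θ : Pw (Fin m) H, ⟪e1 Q θ, (amp (Fin m) (cst (FG m Q) T) -
        star (matOp Yh) * amp (Fin m) (cst (FG m Q) T) * matOp Yh) (e1 Q ζ)⟫_ℂ =
        ⟪θ, (amp (Fin m) T - star (matOp Y) * amp (Fin m) T * matOp Y) ζ⟫_ℂ := by
      intro ζ θ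
      rw [sub_apply, sub_apply, inner_sub_right, inner_sub_right, amp_e1, inner_e1]
      congr 1
      have h3 : (star (matOp Yh) * amp (Fin m) (cst (FG m Q) T) * matOp Yh) (e1 Q ζ) =
          star (matOp Yh) (amp (Fin m) (cst (FG m Q) T) (matOp Yh (e1 Q ζ))) := rfl
      have h4 : (star (matOp Y) * amp (Fin m) T * matOp Y) ζ =
          star (matOp Y) (amp (Fin m) T (matOp Y ζ)) := rfl
      rw [h3, h4, hYe, amp_e1, ContinuousLinearMap.star_eq_adjoint,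
        ContinuousLinearMap.star_eq_adjoint, ContinuousLinearMap.adjoint_inner_right,
        ContinuousLinearMap.adjoint_inner_right, hYe, inner_e1]
    have hD : ‖amp (Fin m) T - star (matOp Y) * amp (Fin m) T * matOp Y‖ ≤ 26 * δ := by
      refine norm_le_of_inner _ _ (by positivity) fun ζ θ => ?_
      rw [← hin ζ θ]
      exact key ζ θ
    have h5 : amp (Fin m) T * matOp Y - matOp Y * amp (Fin m) T =
        -(matOp Y * (amp (Fin m) T - star (matOp Y) * amp (Fin m) T * matOp Y)) := by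
      rw [mul_sub, ← mul_assoc, ← mul_assoc, Unitary.mul_star_self_of_mem hY, one_mul, neg_sub]
    rw [h5, norm_neg]
    exact (CStarRing.norm_mem_unitary_mul _ hY).le.trans hD

end Pool.Agent.Helper93.SP
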