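/-
Block SP-DIL (about 80 lines).  From unitaries to selfadjoint contractions.

Let X be a selfadjoint contraction in matAlg (Fin r) A (A closed).  S = sqrt(1 - X^2) (`CFC.sqrt` or
`cfc`) lies in the closed star algebra matAlg (isClosed_matAlg; `cfc_mem_elemental`: the function
t ↦ sqrt(1 - t^2) applied to X), is selfadjoint and commutes with X, X^2 + S^2 = 1.
u = X + i S is unitary with adjoint X - i S, its entries are in A, X = (u + u*)/2 and
‖[T, u*]‖ ≤ c as well.  (u = cfc (fun t => t + i sqrt(1 - t^2)) X is also convenient.)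
Use matOp_entry to pass from operators to matrices.
-/
import Pool.Agent.Helper93.SP.Mat

set_option autoImplicit false

open scoped InnerProductSpace ComplexConjugate ENNReal NNReal
open Filter Topology

namespace Pool.Agent.Helper93.SP

variable {E : Type*} [NormedAddCommGroup E] [InnerProductSpace ℂ E] [CompleteSpace E]

private theorem dil_aux {B : Type*} [Ring B] [StarRing B] [Algebra ℂ B] [StarModule ℂ B]
    (X S u : B) (hX : IsSelfAdjoint X) (hS : IsSelfAdjoint S) (hc : S * X = X * S)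
    (hsq : X * X + S * S = 1) (hu : u = X + Complex.I • S) :
    star u = X - Complex.I • S ∧ star u * u = 1 ∧ u * star u = 1 ∧
      X = (2 : ℂ)⁻¹ • (u + star u) := by
  have hsu : star u = X - Complex.I • S := by
    rw [hu, star_add, star_smul, hX.star_eq, hS.star_eq]
    simp [sub_eq_add_neg]
  have hP : (Complex.I • S) * (Complex.I • S) = -(S * S) := by
    rw [smul_mul_assoc, mul_smul_comm, smul_smul, Complex.I_mul_I, neg_smul, one_smul]
  have hPX : (Complex.I • S) * X = X * (Complex.I • S) := by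
    rw [smul_mul_assoc, mul_smul_comm, hc]
  refine ⟨hsu, ?_, ?_, ?_⟩
  · rw [hsu, hu, ← hsq, sub_mul, mul_add, mul_add, hP, hPX]
    abel
  · rw [hsu, hu, ← hsq, add_mul, mul_sub, mul_sub, hP, hPX]
    abel
  · rw [hsu, hu]
    rw [show X + Complex.I • S + (X - Complex.I • S) = (2 : ℂ) • X by rw [two_smul]; abel]
    rw [smul_smul]
    norm_num

private theorem dil_aux2 {B : Type*} [Ring B] [Algebra ℂ B] (D X u v : B)
    (h : X = (2 : ℂ)⁻¹ • (u + v)) :
    D * X - X * D = (2 : ℂ)⁻¹ • ((D * u - u * D) + (D * v - v * D)) := by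
  rw [h, mul_smul_comm, smul_mul_assoc, ← smul_sub, mul_add, add_mul]
  congr 1
  abel

theorem dil (A : StarSubalgebra ℂ (E →L[ℂ] E)) (hA : IsClosed (A : Set (E →L[ℂ] E)))
    (T : E →L[ℂ] E) (c : ℝ)
    (h : ∀ (m : ℕ) (Y : Matrix (Fin m) (Fin m) (E →L[ℂ] E)), (∀ i j, Y i j ∈ A) →
      matOp Y ∈ unitary (Pw (Fin m) E →L[ℂ] _) →
      ‖amp (Fin m) T * matOp Y - matOp Y * amp (Fin m) T‖ ≤ c)
    (r : ℕ) (X : Pw (Fin r) E →L[ℂ] Pw (Fin r) E) (hX : X ∈ matAlg (Fin r) A)
    (hsa : IsSelfAdjoint X) (h1 : ‖X‖ ≤ 1) :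
    ‖amp (Fin r) T * X - X * amp (Fin r) T‖ ≤ c := by
  classical
  have hB : IsClosed (matAlg (Fin r) A : Set (Pw (Fin r) E →L[ℂ] Pw (Fin r) E)) :=
    isClosed_matAlg A hA
  have hf : Continuous fun t : ℝ => Real.sqrt (1 - t * t) := by fun_prop
  obtain ⟨S, hS⟩ : ∃ S, S = cfc (fun t : ℝ => Real.sqrt (1 - t * t)) X := ⟨_, rfl⟩
  have hSB : S ∈ matAlg (Fin r) A := by
    rw [hS]
    have := hB
    exact cfc_mem (𝕜' := ℂ) (s := matAlg (Fin r) A) _ hX
  have hSsa : IsSelfAdjoint S := by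
    rw [hS]
    exact cfc_predicate _ X
  have hcomm : S * X = X * S := by
    have h2 : S * X = cfc (fun t : ℝ => Real.sqrt (1 - t * t) * t) X := by
      rw [cfc_mul (fun t : ℝ => Real.sqrt (1 - t * t)) (fun t : ℝ => t) X, cfc_id' ℝ X, hS]
    have h3 : X * S = cfc (fun t : ℝ => t * Real.sqrt (1 - t * t)) X := by
      rw [cfc_mul (fun t : ℝ => t) (fun t : ℝ => Real.sqrt (1 - t * t)) X, cfc_id' ℝ X, hS]
    rw [h2, h3]
    refine cfc_congr fun t _ => ?_
    exact mul_comm _ _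
  have hsq : X * X + S * S = 1 := by
    have h2 : X * X + S * S = cfc (fun t : ℝ => t * t +
        Real.sqrt (1 - t * t) * Real.sqrt (1 - t * t)) X := by
      rw [cfc_add (a := X) (fun t : ℝ => t * t)
          (fun t : ℝ => Real.sqrt (1 - t * t) * Real.sqrt (1 - t * t)),
        cfc_mul (fun t : ℝ => t) (fun t : ℝ => t) X,
        cfc_mul (fun t : ℝ => Real.sqrt (1 - t * t)) (fun t : ℝ => Real.sqrt (1 - t * t)) X,
        cfc_id' ℝ X, hS]
    rw [h2, ← cfc_one ℝ X]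
    refine cfc_congr fun t ht => ?_
    have h4 : ‖t‖ ≤ ‖X‖ * ‖(1 : Pw (Fin r) E →L[ℂ] Pw (Fin r) E)‖ :=
      spectrum.norm_le_norm_mul_of_mem ht
    have h5 : ‖(1 : Pw (Fin r) E →L[ℂ] Pw (Fin r) E)‖ ≤ 1 := ContinuousLinearMap.norm_id_le
    have h6 : |t| ≤ 1 := by
      rw [← Real.norm_eq_abs]
      calc ‖t‖ ≤ ‖X‖ * ‖(1 : Pw (Fin r) E →L[ℂ] Pw (Fin r) E)‖ := h4
        _ ≤ 1 * 1 := mul_le_mul h1 h5 (norm_nonneg _) zero_le_one
        _ = 1 := one_mul 1
    have h7 : 0 ≤ 1 - t * t := by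
      have := abs_le.1 h6
      nlinarith
    simp only [Pi.one_apply]
    rw [Real.mul_self_sqrt h7]
    ring
  obtain ⟨u, hu⟩ : ∃ u, u = X + Complex.I • S := ⟨_, rfl⟩
  obtain ⟨hsu, hu1, hu2, hX2⟩ := dil_aux X S u hsa hSsa hcomm hsq hu
  have huB : u ∈ matAlg (Fin r) A := by
    rw [hu]
    exact add_mem hX (SMulMemClass.smul_mem Complex.I hSB)
  have huu : u ∈ unitary (Pw (Fin r) E →L[ℂ] Pw (Fin r) E) := ⟨hu1, hu2⟩
  have key : ∀ v ∈ matAlg (Fin r) A, v ∈ unitary (Pw (Fin r) E →L[ℂ] Pw (Fin r) E) →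
      ‖amp (Fin r) T * v - v * amp (Fin r) T‖ ≤ c := by
    intro v hv hvu
    have := h r (Matrix.of fun i j => entry v i j) (fun i j => hv i j)
      (by rw [matOp_entry]; exact hvu)
    rwa [matOp_entry] at this
  have k1 := key u huB huu
  have k2 := key (star u) (star_mem huB) (Unitary.star_mem huu)
  have hc2 : amp (Fin r) T * X - X * amp (Fin r) T = (2 : ℂ)⁻¹ •
      ((amp (Fin r) T * u - u * amp (Fin r) T) +
        (amp (Fin r) T * star u - star u * amp (Fin r) T)) :=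
    dil_aux2 (amp (Fin r) T) X u (star u) hX2
  rw [hc2, norm_smul]
  have hn : ‖(2 : ℂ)⁻¹‖ = 1 / 2 := by norm_num
  rw [hn]
  have := norm_add_le (amp (Fin r) T * u - u * amp (Fin r) T)
    (amp (Fin r) T * star u - star u * amp (Fin r) T)
  linarith

end Pool.Agent.Helper93.SP
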