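/-
Block SP-DIST (about 200 lines).  Distance to the commutant.  If ‖[T ⊗ 1, X]‖ ≤ c for all
selfadjoint contractions X in all matAlg (Fin r) A then T is within c of the commutant A'.

Proof.
(1) dist_pre: if ⟪θ, amp S ζ⟫ = 0 for all S in A' then |⟪θ, amp T ζ⟫| ≤ c ‖ζ‖ ‖θ‖: with X from `apx`,
    ⟪θ, (amp T X - X amp T) ζ⟫ = ⟪θ, amp T (X ζ)⟫ - ⟪X θ, amp T ζ⟫ → ⟪θ, amp T ζ⟫ as ε → 0.
(2) Let V be the space of linear functionals on B(E) spanned by R ↦ ⟪θ, R ζ⟫ (θ, ζ in E); every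
    element is of the form ω_{ζ,θ} : R ↦ ⟪θ, amp R ζ⟫ with ζ, θ in E^r for some r (concatenate).
    p(ω) = inf of c (‖ζ‖^2 + ‖θ‖^2)/2 over all such representations is a seminorm on V
    (concatenation gives the triangle inequality; for scalars use the scaling of ζ by the scalar
    and then of (ζ, θ) by (t, 1/t); by the arithmetic-geometric mean inequality p(ω) is also the
    infimum of c ‖ζ‖ ‖θ‖).  On the subspace V0 of functionals vanishing on A' the evaluation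
    ω ↦ ω(T) satisfies |ω(T)| ≤ p(ω) by (1).  By Hahn-Banach
    (`Module.Dual.exists_extension_of_le_seminorm`) it extends to Λ on V with |Λ| ≤ p.
    (θ, ζ) ↦ Λ(R ↦ ⟪θ, R ζ⟫) is sesquilinear, bounded by c ‖ζ‖ ‖θ‖, hence = ⟪θ, R0 ζ⟫ with ‖R0‖ ≤ c,
    and Λ(ω) = ω(R0) for all ω in V.  S = T - R0 satisfies ω(S) = 0 for ω in V0; for a in A and
    ζ, θ in E the functional R ↦ ⟪θ, R a ζ⟫ - ⟪a* θ, R ζ⟫ = ⟪θ, (R a - a R) ζ⟫ lies in V0.  So
    S commutes with a.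
(One may replace V by the algebraic tensor product or by finitely supported functions on E × E;
choose what is convenient.)
-/
import Pool.Agent.Helper93.SP.Apx

set_option autoImplicit false

open scoped InnerProductSpace ComplexConjugate ENNReal NNReal
open Filter Topology

namespace Pool.Agent.Helper93.SP

variable {E : Type*} [NormedAddCommGroup E] [InnerProductSpace ℂ E] [CompleteSpace E]

theorem dist_pre (A : StarSubalgebra ℂ (E →L[ℂ] E)) (hA : IsClosed (A : Set (E →L[ℂ] E)))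
    (T : E →L[ℂ] E) (c : ℝ)
    (h : ∀ (r : ℕ) (X : Pw (Fin r) E →L[ℂ] Pw (Fin r) E), X ∈ matAlg (Fin r) A →
      IsSelfAdjoint X → ‖X‖ ≤ 1 → ‖amp (Fin r) T * X - X * amp (Fin r) T‖ ≤ c)
    (r : ℕ) (ζ θ : Pw (Fin r) E)
    (h0 : ∀ S : E →L[ℂ] E, (∀ a ∈ A, S * a = a * S) → ⟪θ, amp (Fin r) S ζ⟫_ℂ = 0) :
    ‖⟪θ, amp (Fin r) T ζ⟫_ℂ‖ ≤ c * ‖ζ‖ * ‖θ‖ := by
  apply le_of_forall_pos_le_add
  intro ε hε
  set M : ℝ := ‖amp (Fin r) T‖ * (‖ζ‖ + ‖θ‖) + 1 with hM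
  have hMpos : 0 < M := by positivity
  obtain ⟨X, hX, hsa, hX1, h1, h2⟩ := apx A hA r ζ θ h0 (ε / M) (by positivity)
  have hc := h r X hX hsa hX1
  have hadj : ∀ u v : Pw (Fin r) E, ⟪u, X v⟫_ℂ = ⟪X u, v⟫_ℂ := by
    intro u v
    have hs : star X = X := hsa
    rw [ContinuousLinearMap.star_eq_adjoint] at hs
    calc ⟪u, X v⟫_ℂ = ⟪u, (ContinuousLinearMap.adjoint X) v⟫_ℂ := by rw [hs]
      _ = ⟪X u, v⟫_ℂ := ContinuousLinearMap.adjoint_inner_right X u v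
  have key : ⟪θ, amp (Fin r) T ζ⟫_ℂ =
      ⟪θ, (amp (Fin r) T * X - X * amp (Fin r) T) ζ⟫_ℂ -
        ⟪θ, amp (Fin r) T (X ζ - ζ)⟫_ℂ + ⟪X θ, amp (Fin r) T ζ⟫_ℂ := by
    rw [ContinuousLinearMap.sub_apply, ContinuousLinearMap.mul_apply,
      ContinuousLinearMap.mul_apply, inner_sub_right, hadj, map_sub, inner_sub_right]
    ring
  have e1 : ‖⟪θ, (amp (Fin r) T * X - X * amp (Fin r) T) ζ⟫_ℂ‖ ≤ c * ‖ζ‖ * ‖θ‖ := by
    calc ‖⟪θ, (amp (Fin r) T * X - X * amp (Fin r) T) ζ⟫_ℂ‖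
        ≤ ‖θ‖ * ‖(amp (Fin r) T * X - X * amp (Fin r) T) ζ‖ := norm_inner_le_norm _ _
      _ ≤ ‖θ‖ * (c * ‖ζ‖) := by
          refine mul_le_mul_of_nonneg_left ?_ (norm_nonneg _)
          exact ((amp (Fin r) T * X - X * amp (Fin r) T).le_opNorm ζ).trans
            (mul_le_mul_of_nonneg_right hc (norm_nonneg _))
      _ = c * ‖ζ‖ * ‖θ‖ := by ring
  have e2 : ‖⟪θ, amp (Fin r) T (X ζ - ζ)⟫_ℂ‖ ≤ ‖θ‖ * (‖amp (Fin r) T‖ * (ε / M)) := by
    refine (norm_inner_le_norm _ _).trans ?_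
    refine mul_le_mul_of_nonneg_left ?_ (norm_nonneg _)
    exact ((amp (Fin r) T).le_opNorm _).trans (mul_le_mul_of_nonneg_left h1 (norm_nonneg _))
  have e3 : ‖⟪X θ, amp (Fin r) T ζ⟫_ℂ‖ ≤ (ε / M) * (‖amp (Fin r) T‖ * ‖ζ‖) := by
    refine (norm_inner_le_norm _ _).trans ?_
    exact mul_le_mul h2 ((amp (Fin r) T).le_opNorm _) (norm_nonneg _) (by positivity)
  have e4 : ‖⟪θ, amp (Fin r) T ζ⟫_ℂ‖ ≤ ‖⟪θ, (amp (Fin r) T * X - X * amp (Fin r) T) ζ⟫_ℂ‖ +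
      ‖⟪θ, amp (Fin r) T (X ζ - ζ)⟫_ℂ‖ + ‖⟪X θ, amp (Fin r) T ζ⟫_ℂ‖ := by
    calc ‖⟪θ, amp (Fin r) T ζ⟫_ℂ‖ = ‖⟪θ, (amp (Fin r) T * X - X * amp (Fin r) T) ζ⟫_ℂ -
        ⟪θ, amp (Fin r) T (X ζ - ζ)⟫_ℂ + ⟪X θ, amp (Fin r) T ζ⟫_ℂ‖ := by rw [← key]
      _ ≤ _ := (norm_add_le _ _).trans (add_le_add (norm_sub_le _ _) le_rfl)
  have e5 : ‖θ‖ * (‖amp (Fin r) T‖ * (ε / M)) + (ε / M) * (‖amp (Fin r) T‖ * ‖ζ‖) ≤ ε := by
    have : ‖θ‖ * (‖amp (Fin r) T‖ * (ε / M)) + (ε / M) * (‖amp (Fin r) T‖ * ‖ζ‖) =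
        (ε / M) * (M - 1) := by rw [hM]; ring
    rw [this]
    calc (ε / M) * (M - 1) ≤ (ε / M) * M :=
          mul_le_mul_of_nonneg_left (by linarith) (by positivity)
      _ = ε := by field_simp
  linarith

section hb57

/-- The functional of a finitely supported function on pairs of vectors. -/
private noncomputable def om57 (v : (E × E) →₀ ℂ) (R : E →L[ℂ] E) : ℂ :=
  v.sum fun p a => a * ⟪p.1, R p.2⟫_ℂ

private theorem om57_add (v w : (E × E) →₀ ℂ) (R : E →L[ℂ] E) :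
    om57 (v + w) R = om57 v R + om57 w R := by
  unfold om57
  exact Finsupp.sum_add_index' (fun _ => by simp) (fun _ _ _ => by ring)

private theorem om57_smul (c : ℂ) (v : (E × E) →₀ ℂ) (R : E →L[ℂ] E) :
    om57 (c • v) R = c * om57 v R := by
  unfold om57
  rw [Finsupp.sum_smul_index' (fun _ => by simp), Finsupp.mul_sum]
  refine Finsupp.sum_congr fun p _ => ?_
  simp only [smul_eq_mul]
  ring

private theorem om57_single (θ ζ : E) (a : ℂ) (R : E →L[ℂ] E) :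
    om57 (Finsupp.single (θ, ζ) a) R = a * ⟪θ, R ζ⟫_ℂ := by
  unfold om57
  rw [Finsupp.sum_single_index (by simp)]

/-- Evaluation at a fixed operator as a linear map. -/
private noncomputable def ev57 (R : E →L[ℂ] E) : ((E × E) →₀ ℂ) →ₗ[ℂ] ℂ where
  toFun v := om57 v R
  map_add' v w := om57_add v w R
  map_smul' c v := by simpa using om57_smul c v R

private theorem ev57_apply (R : E →L[ℂ] E) (v : (E × E) →₀ ℂ) : ev57 R v = om57 v R := rfl

/-- `v` is represented by a pair of vectors of an l2-sum, with weight `s`. -/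
private def Rep57 (c : ℝ) (v : (E × E) →₀ ℂ) (s : ℝ) : Prop :=
  ∃ (r : ℕ) (ζ θ : Pw (Fin r) E), (∀ R : E →L[ℂ] E, om57 v R = ⟪θ, amp (Fin r) R ζ⟫_ℂ) ∧
    s = c * (‖ζ‖ ^ 2 + ‖θ‖ ^ 2) / 2

private theorem rep57_add {c : ℝ} {v w : (E × E) →₀ ℂ} {s t : ℝ} (hv : Rep57 c v s)
    (hw : Rep57 c w t) : Rep57 c (v + w) (s + t) := by
  obtain ⟨r, ζ, θ, h1, rfl⟩ := hv
  obtain ⟨r', ζ', θ', h2, rfl⟩ := hw
  refine ⟨r + r', WithLp.toLp 2 (Fin.append (fun i => ζ i) (fun i => ζ' i)),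
    WithLp.toLp 2 (Fin.append (fun i => θ i) (fun i => θ' i)), fun R => ?_, ?_⟩
  · rw [om57_add, h1, h2, PiLp.inner_apply, PiLp.inner_apply, PiLp.inner_apply,
      Fin.sum_univ_add]
    simp only [amp_apply, Fin.append_left, Fin.append_right]
  · rw [PiLp.norm_sq_eq_of_L2, PiLp.norm_sq_eq_of_L2, PiLp.norm_sq_eq_of_L2,
      PiLp.norm_sq_eq_of_L2, PiLp.norm_sq_eq_of_L2, PiLp.norm_sq_eq_of_L2,
      Fin.sum_univ_add, Fin.sum_univ_add]
    simp only [Fin.append_left, Fin.append_right]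
    ring

private theorem rep57_zero (c : ℝ) {v : (E × E) →₀ ℂ} (hv : ∀ R, om57 v R = 0) :
    Rep57 c v 0 := by
  refine ⟨0, 0, 0, fun R => ?_, by simp⟩
  rw [hv R]
  simp

private theorem rep57_single (c : ℝ) (θ ζ : E) :
    Rep57 c (Finsupp.single (θ, ζ) 1) (c * (‖ζ‖ ^ 2 + ‖θ‖ ^ 2) / 2) := by
  refine ⟨1, WithLp.toLp 2 (fun _ => ζ), WithLp.toLp 2 (fun _ => θ), fun R => ?_, ?_⟩
  · rw [om57_single, PiLp.inner_apply]
    simp [amp_apply]
  · rw [PiLp.norm_sq_eq_of_L2, PiLp.norm_sq_eq_of_L2]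
    simp

private theorem rep57_smul {c : ℝ} {v : (E × E) →₀ ℂ} {s : ℝ} (a : ℂ) (hv : Rep57 c v s) :
    Rep57 c (a • v) (‖a‖ * s) := by
  obtain ⟨r, ζ, θ, h1, rfl⟩ := hv
  by_cases ha : a = 0
  · subst ha
    simp only [norm_zero, zero_mul]
    exact rep57_zero c (fun R => by rw [om57_smul, zero_mul])
  have hpos : 0 < ‖a‖ := norm_pos_iff.2 ha
  have hsq : (Real.sqrt ‖a‖) ^ 2 = ‖a‖ := Real.sq_sqrt hpos.le
  have hsq0 : (Real.sqrt ‖a‖) ≠ 0 := (Real.sqrt_pos.2 hpos).ne'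
  refine ⟨r, (a / (Real.sqrt ‖a‖ : ℝ)) • ζ, ((Real.sqrt ‖a‖ : ℝ) : ℂ) • θ, fun R => ?_, ?_⟩
  · rw [om57_smul, h1, map_smul, inner_smul_left, inner_smul_right, Complex.conj_ofReal]
    have : ((Real.sqrt ‖a‖ : ℝ) : ℂ) ≠ 0 := by exact_mod_cast hsq0
    field_simp
  · rw [norm_smul, norm_smul, norm_div, Complex.norm_real, Real.norm_eq_abs,
      abs_of_nonneg (Real.sqrt_nonneg _), mul_pow, mul_pow, div_pow, hsq]
    field_simp

private theorem rep57_exists (c : ℝ) (v : (E × E) →₀ ℂ) : ∃ s, Rep57 c v s := by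
  induction v using Finsupp.induction_linear with
  | zero => exact ⟨0, rep57_zero c (fun R => by simp [om57])⟩
  | add v w hv hw =>
    obtain ⟨s, hs⟩ := hv
    obtain ⟨t, ht⟩ := hw
    exact ⟨_, rep57_add hs ht⟩
  | single p a =>
    obtain ⟨θ, ζ⟩ := p
    refine ⟨‖a‖ * (c * (‖ζ‖ ^ 2 + ‖θ‖ ^ 2) / 2), ?_⟩
    have := rep57_smul a (rep57_single c θ ζ)
    rwa [Finsupp.smul_single, smul_eq_mul, mul_one] at this

private theorem rep57_nonneg {c : ℝ} (hc : 0 ≤ c) {v : (E × E) →₀ ℂ} {s : ℝ}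
    (h : Rep57 c v s) : 0 ≤ s := by
  obtain ⟨r, ζ, θ, -, rfl⟩ := h
  positivity

/-- The seminorm: infimum of the weights. -/
private noncomputable def p57 (c : ℝ) (hc : 0 ≤ c) : Seminorm ℂ ((E × E) →₀ ℂ) :=
  Seminorm.ofSMulLE (fun v => sInf {s | Rep57 c v s})
    (by
      apply le_antisymm
      · exact csInf_le ⟨0, fun s hs => rep57_nonneg hc hs⟩
          (rep57_zero c (fun R => by simp [om57]))
      · exact le_csInf (rep57_exists c 0) (fun s hs => rep57_nonneg hc hs))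
    (by
      intro v w
      apply le_of_forall_pos_le_add
      intro ε hε
      obtain ⟨s, hs, hs'⟩ := exists_lt_of_csInf_lt (rep57_exists c v)
        (lt_add_of_pos_right (sInf {s | Rep57 c v s}) (half_pos hε))
      obtain ⟨t, ht, ht'⟩ := exists_lt_of_csInf_lt (rep57_exists c w)
        (lt_add_of_pos_right (sInf {s | Rep57 c w s}) (half_pos hε))
      have := csInf_le (s := {s | Rep57 c (v + w) s}) ⟨0, fun s hs => rep57_nonneg hc hs⟩
        (rep57_add hs ht)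
      linarith)
    (by
      intro a v
      by_cases ha : a = 0
      · subst ha
        rw [norm_zero, zero_mul]
        exact csInf_le ⟨0, fun s hs => rep57_nonneg hc hs⟩
          (rep57_zero c (fun R => by rw [om57_smul, zero_mul]))
      have hpos : 0 < ‖a‖ := norm_pos_iff.2 ha
      rw [← div_le_iff₀' hpos]
      refine le_csInf (rep57_exists c v) (fun s hs => ?_)
      rw [div_le_iff₀' hpos]
      exact csInf_le ⟨0, fun s hs => rep57_nonneg hc hs⟩ (rep57_smul a hs))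

private theorem p57_le {c : ℝ} (hc : 0 ≤ c) {v : (E × E) →₀ ℂ} {s : ℝ} (h : Rep57 c v s) :
    p57 c hc v ≤ s :=
  csInf_le (s := {s | Rep57 c v s}) ⟨0, fun s hs => rep57_nonneg hc hs⟩ h

private theorem le_p57 {c : ℝ} (hc : 0 ≤ c) {v : (E × E) →₀ ℂ} {x : ℝ}
    (h : ∀ s, Rep57 c v s → x ≤ s) : x ≤ p57 c hc v :=
  le_csInf (s := {s | Rep57 c v s}) (rep57_exists c v) h

private theorem amgm57 {c x y : ℝ} (hc : 0 ≤ c) : c * x * y ≤ c * (x ^ 2 + y ^ 2) / 2 := by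
  nlinarith [mul_nonneg hc (sq_nonneg (x - y))]

private theorem single57 {c : ℝ} (hc : 0 ≤ c) (θ ζ : E) :
    p57 c hc (Finsupp.single (θ, ζ) 1) ≤ c * ‖ζ‖ * ‖θ‖ := by
  by_cases h1 : ζ = 0
  · subst h1
    refine (p57_le hc (rep57_zero c (fun R => by rw [om57_single]; simp))).trans ?_
    simp
  by_cases h2 : θ = 0
  · subst h2
    refine (p57_le hc (rep57_zero c (fun R => by rw [om57_single]; simp))).trans ?_
    simp
  have hz : 0 < ‖ζ‖ := norm_pos_iff.2 h1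
  have ht : 0 < ‖θ‖ := norm_pos_iff.2 h2
  set t : ℝ := Real.sqrt (‖θ‖ / ‖ζ‖) with htdef
  have htp : 0 < t := Real.sqrt_pos.2 (div_pos ht hz)
  have ht2 : t ^ 2 = ‖θ‖ / ‖ζ‖ := Real.sq_sqrt (div_pos ht hz).le
  have hrep : Rep57 c (Finsupp.single (θ, ζ) 1) (c * ‖ζ‖ * ‖θ‖) := by
    refine ⟨1, WithLp.toLp 2 (fun _ => (t : ℂ) • ζ), WithLp.toLp 2 (fun _ => ((t⁻¹ : ℝ) : ℂ) • θ),
      fun R => ?_, ?_⟩
    · rw [om57_single, PiLp.inner_apply]
      simp only [amp_apply, Finset.univ_unique, Finset.sum_const, Finset.card_singleton, one_smul,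
        map_smul, inner_smul_left, inner_smul_right, Complex.conj_ofReal]
      have : (t : ℂ) ≠ 0 := by exact_mod_cast htp.ne'
      push_cast
      field_simp
    · rw [PiLp.norm_sq_eq_of_L2, PiLp.norm_sq_eq_of_L2]
      simp only [Finset.univ_unique, Finset.sum_const, Finset.card_singleton, one_smul,
        norm_smul, Complex.norm_real, Real.norm_eq_abs, abs_of_pos htp, abs_of_pos (inv_pos.2 htp),
        mul_pow, inv_pow, ht2]
      field_simp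
      ring
  exact p57_le hc hrep

end hb57

theorem dist_hb (A : StarSubalgebra ℂ (E →L[ℂ] E)) (T : E →L[ℂ] E) (c : ℝ) (hc : 0 ≤ c)
    (h : ∀ (r : ℕ) (ζ θ : Pw (Fin r) E),
      (∀ S : E →L[ℂ] E, (∀ a ∈ A, S * a = a * S) → ⟪θ, amp (Fin r) S ζ⟫_ℂ = 0) →
      ‖⟪θ, amp (Fin r) T ζ⟫_ℂ‖ ≤ c * ‖ζ‖ * ‖θ‖) :
    ∃ S : E →L[ℂ] E, (∀ a ∈ A, S * a = a * S) ∧ ‖T - S‖ ≤ c := by
  -- the subspace of functionals vanishing on the commutant
  let V0 : Submodule ℂ ((E × E) →₀ ℂ) :=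
    { carrier := {v | ∀ S : E →L[ℂ] E, (∀ a ∈ A, S * a = a * S) → om57 v S = 0}
      add_mem' := by
        intro v w hv hw S hS
        rw [om57_add, hv S hS, hw S hS, add_zero]
      zero_mem' := by
        intro S hS
        simp [om57]
      smul_mem' := by
        intro a v hv S hS
        rw [om57_smul, hv S hS, mul_zero] }
  obtain ⟨Λ, hΛ, hΛp⟩ := Module.Dual.exists_extension_of_le_seminorm V0
    ((ev57 T).comp V0.subtype) (p := p57 c hc) (by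
      intro x
      refine le_p57 hc (fun s hs => ?_)
      obtain ⟨r, ζ, θ, h1, rfl⟩ := hs
      have h2 : ((ev57 T).comp V0.subtype) x = ⟪θ, amp (Fin r) T ζ⟫_ℂ := h1 T
      rw [h2]
      refine (h r ζ θ (fun S hS => ?_)).trans (amgm57 hc)
      rw [← h1 S]
      exact x.2 S hS)
  -- Λ vanishes on functionals which vanish
  have hzero : ∀ v : (E × E) →₀ ℂ, (∀ R, om57 v R = 0) → Λ v = 0 := by
    intro v hv
    have h1 := (hΛp v).trans (p57_le hc (rep57_zero c hv))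
    exact norm_le_zero_iff.1 h1
  have heq : ∀ v w : (E × E) →₀ ℂ, (∀ R, om57 v R = om57 w R) → Λ v = Λ w := by
    intro v w hvw
    have h1 := hzero (v + (-1 : ℂ) • w) (fun R => by
      rw [om57_add, om57_smul, hvw R]; ring)
    rw [map_add, map_smul, smul_eq_mul] at h1
    linear_combination h1
  -- the sesquilinear form
  let B0 : E →ₗ⋆[ℂ] E →ₗ[ℂ] ℂ := LinearMap.mk₂'ₛₗ (starRingEnd ℂ) (RingHom.id ℂ)
    (fun θ ζ => Λ (Finsupp.single (θ, ζ) 1))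
    (by
      intro θ1 θ2 ζ
      rw [← map_add]
      apply heq
      intro R
      rw [om57_add, om57_single, om57_single, om57_single, inner_add_left]
      ring)
    (by
      intro a θ ζ
      rw [smul_eq_mul, ← smul_eq_mul, ← map_smul]
      apply heq
      intro R
      rw [om57_smul, om57_single, om57_single, inner_smul_left]
      ring)
    (by
      intro θ ζ1 ζ2
      rw [← map_add]
      apply heq
      intro R
      rw [om57_add, om57_single, om57_single, om57_single, map_add, inner_add_right]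
      ring)
    (by
      intro a θ ζ
      rw [← map_smul]
      apply heq
      intro R
      rw [RingHom.id_apply, om57_smul, om57_single, om57_single, map_smul, inner_smul_right]
      ring)
  have hB0 : ∀ θ ζ, B0 θ ζ = Λ (Finsupp.single (θ, ζ) 1) := fun θ ζ => rfl
  have hB0n : ∀ θ ζ, ‖B0 θ ζ‖ ≤ c * ‖θ‖ * ‖ζ‖ := by
    intro θ ζ
    rw [hB0]
    refine (hΛp _).trans ((single57 hc θ ζ).trans (le_of_eq ?_))
    ring
  let B : E →L⋆[ℂ] E →L[ℂ] ℂ := B0.mkContinuous₂ c hB0n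
  have hB : ∀ θ ζ, B θ ζ = Λ (Finsupp.single (θ, ζ) 1) := fun θ ζ => rfl
  let R1 : E →L[ℂ] E := InnerProductSpace.continuousLinearMapOfBilin B
  have hR1 : ∀ θ ζ, ⟪R1 θ, ζ⟫_ℂ = Λ (Finsupp.single (θ, ζ) 1) := by
    intro θ ζ
    rw [← hB]
    exact InnerProductSpace.continuousLinearMapOfBilin_apply B θ ζ
  let R0 : E →L[ℂ] E := ContinuousLinearMap.adjoint R1
  have hR0 : ∀ θ ζ, ⟪θ, R0 ζ⟫_ℂ = Λ (Finsupp.single (θ, ζ) 1) := by
    intro θ ζ
    rw [← hR1]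
    exact ContinuousLinearMap.adjoint_inner_right R1 θ ζ
  have hR0n : ‖R0‖ ≤ c := by
    refine ContinuousLinearMap.opNorm_le_bound _ hc (fun ζ => ?_)
    by_cases h0 : R0 ζ = 0
    · rw [h0, norm_zero]
      positivity
    have hp : 0 < ‖R0 ζ‖ := norm_pos_iff.2 h0
    have h1 : ‖⟪R0 ζ, R0 ζ⟫_ℂ‖ ≤ c * ‖R0 ζ‖ * ‖ζ‖ := by
      rw [hR0, ← hB0]
      exact hB0n _ _
    have h2 : ‖⟪R0 ζ, R0 ζ⟫_ℂ‖ = ‖R0 ζ‖ * ‖R0 ζ‖ := by
      rw [inner_self_eq_norm_sq_to_K, norm_pow]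
      simp [sq]
    rw [h2] at h1
    have h3 : ‖R0 ζ‖ * ‖R0 ζ‖ ≤ ‖R0 ζ‖ * (c * ‖ζ‖) := by
      refine h1.trans (le_of_eq ?_)
      ring
    exact le_of_mul_le_mul_left h3 hp
  refine ⟨T - R0, fun a ha => ?_, by rwa [sub_sub_cancel]⟩
  ext ζ
  apply ext_inner_left ℂ
  intro θ
  -- the functional R ↦ ⟪θ, R a ζ⟫ - ⟪star a θ, R ζ⟫
  set v : (E × E) →₀ ℂ := Finsupp.single (θ, a ζ) 1 +
    (-1 : ℂ) • Finsupp.single (star a θ, ζ) 1 with hv
  have hom : ∀ R : E →L[ℂ] E, om57 v R = ⟪θ, R (a ζ)⟫_ℂ - ⟪θ, a (R ζ)⟫_ℂ := by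
    intro R
    rw [hv, om57_add, om57_smul, om57_single, om57_single, ContinuousLinearMap.star_eq_adjoint,
      ContinuousLinearMap.adjoint_inner_left]
    ring
  have hvV : v ∈ V0 := by
    intro S hS
    rw [hom S]
    have h1 : (S * a) ζ = (a * S) ζ := by rw [hS a ha]
    rw [ContinuousLinearMap.mul_apply, ContinuousLinearMap.mul_apply] at h1
    rw [h1, sub_self]
  have h1 : Λ v = om57 v T := hΛ ⟨v, hvV⟩
  have h2 : Λ v = ⟪θ, R0 (a ζ)⟫_ℂ - ⟪θ, a (R0 ζ)⟫_ℂ := by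
    rw [hv, map_add, map_smul, ← hR0, ← hR0, ContinuousLinearMap.star_eq_adjoint,
      ContinuousLinearMap.adjoint_inner_left, smul_eq_mul]
    ring
  rw [hom T, h2] at h1
  rw [ContinuousLinearMap.mul_apply, ContinuousLinearMap.mul_apply,
    ContinuousLinearMap.sub_apply, ContinuousLinearMap.sub_apply, map_sub, inner_sub_right,
    inner_sub_right]
  linear_combination -h1

theorem dist_formula (A : StarSubalgebra ℂ (E →L[ℂ] E)) (hA : IsClosed (A : Set (E →L[ℂ] E)))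
    (T : E →L[ℂ] E) (c : ℝ) (hc : 0 ≤ c)
    (h : ∀ (r : ℕ) (X : Pw (Fin r) E →L[ℂ] Pw (Fin r) E), X ∈ matAlg (Fin r) A →
      IsSelfAdjoint X → ‖X‖ ≤ 1 → ‖amp (Fin r) T * X - X * amp (Fin r) T‖ ≤ c) :
    ∃ S : E →L[ℂ] E, (∀ a ∈ A, S * a = a * S) ∧ ‖T - S‖ ≤ c :=
  dist_hb A T c hc fun r ζ θ h0 => dist_pre A hA T c h r ζ θ h0

end Pool.Agent.Helper93.SP
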