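/-
Block SP-NET (about 150 lines).  From free letters (group theory) and mixing to a LetterNet.

J = Finset G × Finset (FreeGroup (Fin (m+m) × G ⧸ L)) × Finset G with l = atTop.  For j = (E, F, D)
apply HasFreeLetters with m + m letters, the sets E ∩ L, F minus {1}, D: x_j.  ψ_j = letterHom L x_j
composed with the relabelling Nm m × Q → Fin (m+m) × Q (`finSumFinEquiv`), Q = G ⧸ L.
* mem: ψ_j ω in K: K is normal and contains the x i (`FreeGroup.induction_on`).
* equiv: for a letter (i, c): with e = r(gc)⁻¹ g r(c) in L (r = Quotient.out, `QuotientGroup`;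
  q g * c = class of g * r(c) = class of r(q g * c)), g r(c) x_i r(c)⁻¹ g⁻¹ =
  r(gc) e x_i e⁻¹ r(gc)⁻¹ = r(gc) x_i r(gc)⁻¹ as soon as e is in E (all large j).  For general ω:
  `FreeGroup.induction_on` (products and inverses of letters).
* weak: for ω ≠ 1 and ε > 0 let D0 = {g : ε ≤ |⟪θ, π g ζ⟫|}, finite by Mixing; for j with ω in F
  (after relabelling) and D0 in D we have ψ_j ω not in D0.
-/
import Pool.Agent.Helper93.SP.Defs

set_option autoImplicit false

open scoped InnerProductSpace ComplexConjugate ENNReal NNReal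
open Filter Topology

namespace Pool.Agent.Helper93.SP

universe u

private theorem letterHom_mem {G : Type u} [Group G] (K L : Subgroup G) [K.Normal] {m : ℕ}
    (x : Fin m → G) (hx : ∀ i, x i ∈ K) (ω : FreeGroup (Fin m × (G ⧸ L))) :
    letterHom L x ω ∈ K := by
  induction ω using FreeGroup.induction_on with
  | C1 => rw [map_one]; exact K.one_mem
  | of p =>
    rw [letterHom, FreeGroup.lift_apply_of]
    exact Subgroup.Normal.conj_mem inferInstance _ (hx _) _
  | inv_of p h => rw [map_inv]; exact K.inv_mem h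
  | mul a b ha hb => rw [map_mul]; exact K.mul_mem ha hb

/-- The relabelling of the letters. -/
private noncomputable def relab (m : ℕ) (Q : Type u) :
    FreeGroup (Nm m × Q) ≃* FreeGroup (Fin (m + m) × Q) :=
  FreeGroup.freeGroupCongr (Equiv.prodCongr finSumFinEquiv (Equiv.refl Q))

private theorem relab_of (m : ℕ) (Q : Type u) (i : Nm m) (c : Q) :
    relab m Q (FreeGroup.of (i, c)) = FreeGroup.of (finSumFinEquiv i, c) := by
  simp [relab]

theorem exists_net {G : Type u} [Group G] {H : Type*} [NormedAddCommGroup H]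
    [InnerProductSpace ℂ H] [CompleteSpace H] (K L : Subgroup G) [K.Normal] [L.Normal]
    (hFL : HasFreeLetters K L) (π : G →* unitary (H →L[ℂ] H)) (hπ : Mixing π) (m : ℕ) :
    ∃ (J : Type u) (l : Filter J) (ψ : J → FG m (G ⧸ L) →* G),
      l.NeBot ∧ LetterNet K (QuotientGroup.mk' L) π (Nm m) l ψ := by
  classical
  have hx : ∀ j : Finset G × Finset (FreeGroup (Fin (m + m) × (G ⧸ L))) × Finset G,
      ∃ x : Fin (m + m) → G, (∀ i, x i ∈ K) ∧
        (∀ i, ∀ e ∈ (j.1 : Set G) ∩ (L : Set G), e * x i = x i * e) ∧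
        ∀ ω ∈ (j.2.1 : Set (FreeGroup (Fin (m + m) × (G ⧸ L)))) \ {1},
          letterHom L x ω ∉ (j.2.2 : Set G) := fun j =>
    hFL (m + m) ((j.1 : Set G) ∩ (L : Set G))
      ((j.2.1 : Set (FreeGroup (Fin (m + m) × (G ⧸ L)))) \ {1}) (j.2.2 : Set G)
      (j.1.finite_toSet.inter_of_left _) (j.2.1.finite_toSet.sdiff) j.2.2.finite_toSet
      Set.inter_subset_right (by simp)
  choose x hxK hxE hxF using hx
  refine ⟨Finset G × Finset (FreeGroup (Fin (m + m) × (G ⧸ L))) × Finset G, atTop,
    fun j => (letterHom L (x j)).comp (relab m (G ⧸ L)).toMonoidHom, inferInstance, ?_, ?_, ?_⟩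
  · intro j ω
    exact letterHom_mem K L (x j) (hxK j) _
  · intro g ω
    have key : ∀ (i : Nm m) (c : G ⧸ L), ∀ᶠ j in atTop,
        g * ((letterHom L (x j)).comp (relab m (G ⧸ L)).toMonoidHom) (FreeGroup.of (i, c)) * g⁻¹ =
          ((letterHom L (x j)).comp (relab m (G ⧸ L)).toMonoidHom)
            (shift (QuotientGroup.mk' L g) (FreeGroup.of (i, c))) := by
      intro i c
      set d : G ⧸ L := QuotientGroup.mk' L g * c with hd
      have hc : ((c.out : G) : G ⧸ L) = c := QuotientGroup.out_eq' c
      have hd' : ((d.out : G) : G ⧸ L) = d := QuotientGroup.out_eq' d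
      have he : d.out⁻¹ * (g * c.out) ∈ L := by
        rw [← QuotientGroup.eq, hd', QuotientGroup.mk_mul, hc, hd]
        rfl
      filter_upwards [eventually_ge_atTop
        (({d.out⁻¹ * (g * c.out)}, ∅, ∅) :
          Finset G × Finset (FreeGroup (Fin (m + m) × (G ⧸ L))) × Finset G)] with j hj
      have hmem : d.out⁻¹ * (g * c.out) ∈ (j.1 : Set G) ∩ (L : Set G) :=
        ⟨hj.1 (Finset.mem_singleton_self _), he⟩
      have hcomm := hxE j (finSumFinEquiv i) _ hmem
      rw [shift_of, MonoidHom.comp_apply, MonoidHom.comp_apply, MulEquiv.toMonoidHom_eq_coe,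
        MonoidHom.coe_coe, relab_of, relab_of, letterHom, FreeGroup.lift_apply_of,
        FreeGroup.lift_apply_of]
      show g * (c.out * x j (finSumFinEquiv i) * c.out⁻¹) * g⁻¹ =
        d.out * x j (finSumFinEquiv i) * d.out⁻¹
      have h1 : g * c.out = d.out * (d.out⁻¹ * (g * c.out)) := by group
      calc g * (c.out * x j (finSumFinEquiv i) * c.out⁻¹) * g⁻¹
          = (g * c.out) * x j (finSumFinEquiv i) * (g * c.out)⁻¹ := by group
        _ = (d.out * (d.out⁻¹ * (g * c.out))) * x j (finSumFinEquiv i) * (g * c.out)⁻¹ := by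
            rw [← h1]
        _ = d.out * ((d.out⁻¹ * (g * c.out)) * x j (finSumFinEquiv i)) * (g * c.out)⁻¹ := by
            group
        _ = d.out * (x j (finSumFinEquiv i) * (d.out⁻¹ * (g * c.out))) * (g * c.out)⁻¹ := by
            rw [hcomm]
        _ = d.out * x j (finSumFinEquiv i) * d.out⁻¹ := by group
    induction ω using FreeGroup.induction_on with
    | C1 => exact Eventually.of_forall fun j => by simp
    | of p => exact key p.1 p.2
    | inv_of p h =>
      filter_upwards [key p.1 p.2] with j hj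
      rw [map_inv, map_inv, map_inv]
      have h2 := congrArg (fun y => y⁻¹) hj
      simp only [mul_inv_rev, inv_inv] at h2
      rw [← h2, mul_assoc]
    | mul a b ha hb =>
      filter_upwards [ha, hb] with j h1 h2
      rw [map_mul, map_mul, map_mul, ← h1, ← h2]
      group
  · intro ω hω ζ θ
    rw [NormedAddGroup.tendsto_nhds_zero]
    intro ε hε
    have hfin := hπ ζ θ ε hε
    have hne : relab m (G ⧸ L) ω ≠ 1 := fun h => hω ((MulEquiv.map_eq_one_iff _).1 h)
    filter_upwards [eventually_ge_atTop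
      ((∅, {relab m (G ⧸ L) ω}, hfin.toFinset) :
        Finset G × Finset (FreeGroup (Fin (m + m) × (G ⧸ L))) × Finset G)] with j hj
    have h1 : relab m (G ⧸ L) ω ∈
        (j.2.1 : Set (FreeGroup (Fin (m + m) × (G ⧸ L)))) \ {1} :=
      ⟨hj.2.1 (Finset.mem_singleton_self _), hne⟩
    have h2 := hxF j _ h1
    by_contra h3
    rw [not_lt] at h3
    apply h2
    apply hj.2.2
    rw [Set.Finite.mem_toFinset]
    exact h3

end Pool.Agent.Helper93.SP
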