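/-
Block SP-DK (about 80 lines).  Property D_27 for mixing representations.

Proof.  T' = average of T over π(K) (`avg` with ρ = π restricted to K, K.subtype).
‖T - T'‖ ≤ δ (‖T - π(k) T π(k)*‖ = ‖T π(k) - π(k) T‖ ≤ δ).  T' commutes with π(K).  For x in grpAlg:
π(k) T π(k)* x - x π(k) T π(k)* = π(k) (T x' - x' T) π(k)*, x' = π(k)* x π(k) in grpAlg, so
‖T' x - x T'‖ ≤ δ ‖x‖.  `core` (with the net of `exists_net`, q = mk' L surjective, ker q = L ≤ K)
gives ‖[T' ⊗ 1, Y]‖ ≤ 26 δ for unitary matrices Y over grpCs π; `dil` and `dist_formula` with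
A = grpCs π (closed: `StarSubalgebra.isClosed_topologicalClosure`) give S commuting with grpCs π and
‖T' - S‖ ≤ 26 δ.
-/
import Pool.Agent.Helper93.SP.Core
import Pool.Agent.Helper93.SP.Dil
import Pool.Agent.Helper93.SP.Dist
import Pool.Agent.Helper93.SP.Avg
import Pool.Agent.Helper93.SP.Net

set_option autoImplicit false

open scoped InnerProductSpace ComplexConjugate ENNReal NNReal
open Filter Topology

namespace Pool.Agent.Helper93.SP

theorem Dk27 {G : Type*} [Group G] {H : Type*} [NormedAddCommGroup H]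
    [InnerProductSpace ℂ H] [CompleteSpace H] (K L : Subgroup G) [K.Normal] [L.Normal]
    (hLK : L ≤ K) (hFL : HasFreeLetters K L) (hK : Amen K) (π : G →* unitary (H →L[ℂ] H))
    (hπ : Mixing π) (T : H →L[ℂ] H) (δ : ℝ) (hδ : 0 ≤ δ)
    (hT : ∀ x ∈ grpAlg π, ‖T * x - x * T‖ ≤ δ * ‖x‖) :
    ∃ S : H →L[ℂ] H, (∀ g, S * (π g : H →L[ℂ] H) = (π g : H →L[ℂ] H) * S) ∧ ‖T - S‖ ≤ 27 * δ := by
  obtain ⟨T', h1, h2, h3⟩ := avg hK (π.comp K.subtype) T
  -- norms
  have hone : ∀ g, ‖(π g : H →L[ℂ] H)‖ ≤ 1 := by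
    intro g
    refine ContinuousLinearMap.opNorm_le_bound _ zero_le_one fun x => ?_
    rw [one_mul]
    have h4 : ‖(π g : H →L[ℂ] H) x‖ ^ 2 = ‖x‖ ^ 2 := by
      have h5 : (star (π g : H →L[ℂ] H) * (π g : H →L[ℂ] H)) x = x := by
        rw [Unitary.star_mul_self_of_mem (π g).2]
        rfl
      have h6 : ⟪(π g : H →L[ℂ] H) x, (π g : H →L[ℂ] H) x⟫_ℂ = ⟪x, x⟫_ℂ := by
        rw [← ContinuousLinearMap.adjoint_inner_right, ← ContinuousLinearMap.star_eq_adjoint,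
          ← mul_apply_eq_comp, h5]
      rw [inner_self_eq_norm_sq_to_K, inner_self_eq_norm_sq_to_K] at h6
      exact_mod_cast h6
    exact le_of_eq ((sq_eq_sq₀ (norm_nonneg _) (norm_nonneg _)).1 h4)
  -- (1) distance of T and T'
  have hTT' : ‖T - T'‖ ≤ δ := by
    apply h3
    intro k
    have h4 : T - ((π.comp K.subtype) k : H →L[ℂ] H) * T *
        star ((π.comp K.subtype) k : H →L[ℂ] H) =
        (T * (π k : H →L[ℂ] H) - (π k : H →L[ℂ] H) * T) *
          ((star (π k) : unitary (H →L[ℂ] H)) : H →L[ℂ] H) := by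
      have h5 : (π k : H →L[ℂ] H) * ((star (π k) : unitary (H →L[ℂ] H)) : H →L[ℂ] H) = 1 :=
        Unitary.mul_star_self_of_mem (π k).2
      rw [sub_mul, mul_assoc T, h5, mul_one]
      rfl
    rw [h4, CStarRing.norm_mul_coe_unitary]
    refine (hT _ (mem_grpAlg π _)).trans ?_
    calc δ * ‖(π k : H →L[ℂ] H)‖ ≤ δ * 1 := mul_le_mul_of_nonneg_left (hone _) hδ
      _ = δ := mul_one δ
  -- (2) commutators of T'
  have hT'x : ∀ x ∈ grpAlg π, ‖T' * x - x * T'‖ ≤ δ * ‖x‖ := by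
    intro x hx
    apply h2
    intro k
    set U : unitary (H →L[ℂ] H) := π k with hU
    have hxU : ((star U : unitary (H →L[ℂ] H)) : H →L[ℂ] H) * x * (U : H →L[ℂ] H) ∈ grpAlg π := by
      refine mul_mem (mul_mem ?_ hx) (mem_grpAlg π _)
      rw [Unitary.coe_star]
      exact star_mem (mem_grpAlg π _)
    have h5 : (U : H →L[ℂ] H) * star (U : H →L[ℂ] H) = 1 := Unitary.mul_star_self_of_mem U.2
    have h4 : ((π.comp K.subtype) k : H →L[ℂ] H) * T * star ((π.comp K.subtype) k : H →L[ℂ] H) * x -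
        x * (((π.comp K.subtype) k : H →L[ℂ] H) * T * star ((π.comp K.subtype) k : H →L[ℂ] H)) =
        (U : H →L[ℂ] H) * (T * (((star U : unitary (H →L[ℂ] H)) : H →L[ℂ] H) * x * (U : H →L[ℂ] H)) -
          (((star U : unitary (H →L[ℂ] H)) : H →L[ℂ] H) * x * (U : H →L[ℂ] H)) * T) *
          ((star U : unitary (H →L[ℂ] H)) : H →L[ℂ] H) := by
      change (U : H →L[ℂ] H) * T * star (U : H →L[ℂ] H) * x -
        x * ((U : H →L[ℂ] H) * T * star (U : H →L[ℂ] H)) =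
        (U : H →L[ℂ] H) * (T * (star (U : H →L[ℂ] H) * x * (U : H →L[ℂ] H)) -
          (star (U : H →L[ℂ] H) * x * (U : H →L[ℂ] H)) * T) * star (U : H →L[ℂ] H)
      have e1 : (U : H →L[ℂ] H) * (T * (star (U : H →L[ℂ] H) * x * (U : H →L[ℂ] H))) *
          star (U : H →L[ℂ] H) = (U : H →L[ℂ] H) * T * star (U : H →L[ℂ] H) * x := by
        calc (U : H →L[ℂ] H) * (T * (star (U : H →L[ℂ] H) * x * (U : H →L[ℂ] H))) *
          star (U : H →L[ℂ] H) = (U : H →L[ℂ] H) * T * star (U : H →L[ℂ] H) * x *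
            ((U : H →L[ℂ] H) * star (U : H →L[ℂ] H)) := by simp only [mul_assoc]
          _ = _ := by rw [h5, mul_one]
      have e2 : (U : H →L[ℂ] H) * ((star (U : H →L[ℂ] H) * x * (U : H →L[ℂ] H)) * T) *
          star (U : H →L[ℂ] H) = x * ((U : H →L[ℂ] H) * T * star (U : H →L[ℂ] H)) := by
        calc (U : H →L[ℂ] H) * ((star (U : H →L[ℂ] H) * x * (U : H →L[ℂ] H)) * T) *
          star (U : H →L[ℂ] H) = ((U : H →L[ℂ] H) * star (U : H →L[ℂ] H)) *
            (x * ((U : H →L[ℂ] H) * T * star (U : H →L[ℂ] H))) := by simp only [mul_assoc]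
          _ = _ := by rw [h5, one_mul]
      rw [mul_sub, sub_mul, e1, e2]
    rw [h4, CStarRing.norm_mul_coe_unitary, CStarRing.norm_coe_unitary_mul]
    refine (hT _ hxU).trans (le_of_eq ?_)
    rw [CStarRing.norm_mul_coe_unitary, CStarRing.norm_coe_unitary_mul]
  have hT'K : ∀ k ∈ K, T' * (π k : H →L[ℂ] H) = (π k : H →L[ℂ] H) * T' := fun k hk => h1 ⟨k, hk⟩
  have hcl : IsClosed (grpCs π : Set (H →L[ℂ] H)) := StarSubalgebra.isClosed_topologicalClosure _
  -- (3) core estimate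
  have hcore : ∀ (m : ℕ) (Y : Matrix (Fin m) (Fin m) (H →L[ℂ] H)), (∀ i j, Y i j ∈ grpCs π) →
      matOp Y ∈ unitary (Pw (Fin m) H →L[ℂ] _) →
      ‖amp (Fin m) T' * matOp Y - matOp Y * amp (Fin m) T'‖ ≤ 26 * δ := by
    intro m Y hYm hY
    obtain ⟨J, l, ψ, hl, hN⟩ := exists_net K L hFL π hπ m
    have := hl
    refine core (q := QuotientGroup.mk' L) (QuotientGroup.mk'_surjective L) ?_ hN T' δ hδ hT'K
      hT'x Y hYm hY
    intro g hg
    apply hLK
    rwa [← MonoidHom.mem_ker, QuotientGroup.ker_mk'] at hg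
  obtain ⟨S, hS1, hS2⟩ := dist_formula (grpCs π) hcl T' (26 * δ) (by positivity)
    (fun r X hX hsa hX1 => dil (grpCs π) hcl T' (26 * δ) hcore r X hX hsa hX1)
  refine ⟨S, fun g => hS1 _ (mem_grpCs π g), ?_⟩
  calc ‖T - S‖ = ‖(T - T') + (T' - S)‖ := by rw [sub_add_sub_cancel]
    _ ≤ ‖T - T'‖ + ‖T' - S‖ := norm_add_le _ _
    _ ≤ δ + 26 * δ := add_le_add hTT' hS2
    _ = 27 * δ := by ring

end Pool.Agent.Helper93.SP
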