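/-
Project SP (helper93, MP_41729c_an): definitions used in the final statement.
-/
import Pool.Agent.Helper93.SP.Defs

set_option autoImplicit false

open scoped InnerProductSpace ComplexConjugate ENNReal NNReal
open Filter Topology

namespace Pool.Agent.Helper93.SP

variable {H : Type*} [NormedAddCommGroup H] [InnerProductSpace ℂ H] [CompleteSpace H]

/-- `τ` is (on M) a faithful normal tracial state of the von Neumann algebra M in B(H).
Normality: τ(x) = sum over i of ⟨a_i, x a_i⟩ with sum of ‖a_i‖^2 finite. -/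
structure IsTrace (M : VonNeumannAlgebra H) (τ : (H →L[ℂ] H) → ℂ) : Prop where
  normal : ∃ a : ℕ → H, (Summable fun i => ‖a i‖ ^ 2) ∧
    ∀ x ∈ M, τ x = ∑' i, ⟪a i, x (a i)⟫_ℂ
  one : τ 1 = 1
  tracial : ∀ x ∈ M, ∀ y ∈ M, τ (x * y) = τ (y * x)
  faithful : ∀ x ∈ M, τ (star x * x) = 0 → x = 0

/-- `M` is a factor of type II_1: trivial centre, a faithful normal tracial state, infinite
dimension. -/
structure IsIIOneFactor (M : VonNeumannAlgebra H) : Prop where
  factor : ∀ x ∈ M, (∀ y ∈ M, x * y = y * x) → ∃ c : ℂ, x = c • (1 : H →L[ℂ] H)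
  trace : ∃ τ : (H →L[ℂ] H) → ℂ, IsTrace M τ
  infinite : ¬ FiniteDimensional ℂ M.toStarSubalgebra

/-- The Murray-von Neumann dimension (coupling constant) of H as a left M-module, M a II_1 factor
with trace τ: the supremum of the sums of ‖ξ_i‖^2 over all finite families of vectors ξ_i for which
there are projections p_i in M with ⟨ξ_i, x ξ_i⟩ = τ(x p_i) and M ξ_i orthogonal to ξ_j for i ≠ j
(so that the closure of M ξ_i is isomorphic to L^2(M) p_i, of dimension τ(p_i) = ‖ξ_i‖^2, and these
submodules are pairwise orthogonal). -/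
noncomputable def vnDim (M : VonNeumannAlgebra H) (τ : (H →L[ℂ] H) → ℂ) : ℝ≥0∞ :=
  ⨆ (n : ℕ) (ξ : Fin n → H) (p : Fin n → H →L[ℂ] H)
    (_ : ∀ i, p i ∈ M ∧ IsStarProjection (p i))
    (_ : ∀ i j, ∀ x ∈ M, ⟪ξ i, x (ξ j)⟫_ℂ = if i = j then τ (x * p j) else 0),
    ∑ i, ENNReal.ofReal (‖ξ i‖ ^ 2)

/-- A function on M of the form x ↦ sum over i of ⟨a_i, x b_i⟩ with square summable sequences of
vectors, i.e. a normal (sigma-weakly continuous) functional. -/
def IsNormalFun (M : VonNeumannAlgebra H) (φ : M.toStarSubalgebra → ℂ) : Prop :=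
  ∃ a b : ℕ → H, (Summable fun i => ‖a i‖ ^ 2) ∧ (Summable fun i => ‖b i‖ ^ 2) ∧
    ∀ x : M.toStarSubalgebra, φ x = ∑' i, ⟪a i, (x : H →L[ℂ] H) (b i)⟫_ℂ

/-- A star isomorphism θ : M → N is normal: composed with vector functionals it is normal. -/
def IsNormalIso {M N : VonNeumannAlgebra H} (θ : M.toStarSubalgebra ≃⋆ₐ[ℂ] N.toStarSubalgebra) :
    Prop :=
  ∀ ξ η : H, IsNormalFun M fun x => ⟪ξ, ((θ x : N.toStarSubalgebra) : H →L[ℂ] H) η⟫_ℂ

/-- M is the group von Neumann algebra of G, in the normal representation on H given by the unitary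
representation π: π(G) generates M (M is contained in the bicommutant of π(G)) and the trace of
M vanishes on π(g) for g ≠ 1. -/
structure IsGroupVN {G : Type*} [Group G] (M : VonNeumannAlgebra H)
    (π : G →* unitary (H →L[ℂ] H)) : Prop where
  mem : ∀ g, (π g : H →L[ℂ] H) ∈ M
  gen : ∀ x ∈ M, ∀ T : H →L[ℂ] H,
    (∀ g, T * (π g : H →L[ℂ] H) = (π g : H →L[ℂ] H) * T) → T * x = x * T
  trace : ∃ τ : (H →L[ℂ] H) → ℂ, IsTrace M τ ∧ ∀ g, g ≠ 1 → τ (π g : H →L[ℂ] H) = 0

section wreath

/-- The permutation σ of ℕ moves only finitely many points. -/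
def Finitary (σ : Equiv.Perm ℕ) : Prop := {n : ℕ | σ n ≠ n}.Finite

/-- The restricted wreath product of the group of finitary permutations of ℕ with Γ, as a subgroup
of the (unrestricted) regular wreath product of the full permutation group of ℕ with Γ: finitely
supported functions Γ → finitary permutations, and elements of Γ. -/
def SWr (Γ : Type*) [Group Γ] : Subgroup (RegularWreathProduct (Equiv.Perm ℕ) Γ) where
  carrier := {a | {x | a.left x ≠ 1}.Finite ∧ ∀ x, Finitary (a.left x)}
  mul_mem' := by
    rintro a b ⟨ha1, ha2⟩ ⟨hb1, hb2⟩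
    have hb1' : {x | b.left (a.right⁻¹ * x) ≠ 1}.Finite :=
      hb1.preimage (f := fun x => a.right⁻¹ * x) (fun x _ y _ h => mul_left_cancel h)
    constructor
    · refine (ha1.union hb1').subset fun x hx => ?_
      simp only [Set.mem_setOf_eq, RegularWreathProduct.mul_left, Pi.mul_apply] at hx
      simp only [Set.mem_union, Set.mem_setOf_eq]
      by_contra hcon
      push Not at hcon
      exact hx (by rw [hcon.1, hcon.2, one_mul])
    · intro x
      refine ((ha2 x).union (hb2 (a.right⁻¹ * x))).subset fun n hn => ?_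
      simp only [Set.mem_setOf_eq, RegularWreathProduct.mul_left, Pi.mul_apply,
        Equiv.Perm.mul_apply] at hn
      simp only [Set.mem_union, Set.mem_setOf_eq]
      by_contra hcon
      push Not at hcon
      exact hn (by rw [hcon.2, hcon.1])
  one_mem' := by
    constructor
    · simp
    · intro x
      simp [Finitary]
  inv_mem' := by
    rintro a ⟨ha1, ha2⟩
    constructor
    · refine (ha1.preimage (f := fun x => a.right * x)
        (fun x _ y _ h => mul_left_cancel h)).subset fun x hx => ?_
      simp only [Set.mem_setOf_eq, RegularWreathProduct.inv_left] at hx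
      simp only [Set.mem_preimage, Set.mem_setOf_eq]
      intro h
      apply hx
      simp [h]
    · intro x
      refine (ha2 (a.right * x)).subset fun n hn => ?_
      simp only [Set.mem_setOf_eq, RegularWreathProduct.inv_left] at hn
      simp only [Set.mem_setOf_eq]
      intro h
      apply hn
      have := congrArg (⇑(a.left (a.right * x))⁻¹) h
      simpa using this.symm

/-- The base group of the restricted wreath product. -/
def SBase (Γ : Type*) [Group Γ] : Subgroup (SWr Γ) :=
  (RegularWreathProduct.rightHom.comp (SWr Γ).subtype).ker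

end wreath

end Pool.Agent.Helper93.SP
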