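/-
Block SP-NRM (about 180 lines).  Normal functionals x ↦ Σ_i ⟪a_i, x b_i⟫, (a_i), (b_i) square
summable families of vectors of H (index type ι arbitrary).

(normal_zero)  If the functional vanishes on π(G) then on M = π(G)''.
  A = (a_i), B = (b_i) are vectors of El ι H = l2(ι; H) and the functional is ⟪A, cst x B⟫
  (`lp.inner_eq_tsum`).  V = closure of the span of {cst (π g) B : g in G}, e the projection onto V.
  V is invariant under all cst (π h), so e commutes with all cst (π h) (π h⁻¹ = adjoint).  For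
  i, j in ι the entry e_ij = (coordinate i) ∘ e ∘ (inclusion j) commutes with all π h, hence with
  every x in M (hypothesis hgen).  So e commutes with cst x on the vectors with one nonzero
  coordinate, and by density (they span a dense subspace) e commutes with cst x.  B is in V, so
  cst x B = cst x e B = e cst x B is in V, and A is orthogonal to V, so ⟪A, cst x B⟫ = 0.
(normal_mixing)  For a mixing representation π the set {g : ε ≤ |Σ_i ⟪a_i, π(g) b_i⟫|} is finite: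
  choose a finite set s of indices with Σ_{i not in s} ‖a_i‖ ‖b_i‖ < ε/2; for each i in s the set
  {g : ε/(2 (card s + 1)) ≤ |⟪a_i, π(g) b_i⟫|} is finite; outside of the union the sum is < ε.
-/
import Pool.Agent.Helper93.SP.Stmt

set_option autoImplicit false

open scoped InnerProductSpace ComplexConjugate ENNReal NNReal
open Filter Topology

namespace Pool.Agent.Helper93.SP

variable {H : Type*} [NormedAddCommGroup H] [InnerProductSpace ℂ H] [CompleteSpace H]

private theorem two_memlp86 {ι : Type*} (a : ι → H) (ha : Summable fun i => ‖a i‖ ^ 2) :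
    Memℓp (fun i : ι => a i) 2 := by
  rw [memℓp_gen_iff (by norm_num)]
  simpa using ha

/-- An operator on l2(ι; H) which commutes with all `cst (π g)` commutes with all `cst x`. -/
private theorem comm_cst86 {ι : Type*} {G : Type*} [Group G] (M : VonNeumannAlgebra H)
    (π : G →* unitary (H →L[ℂ] H))
    (hgen : ∀ x ∈ M, ∀ T : H →L[ℂ] H,
      (∀ g, T * (π g : H →L[ℂ] H) = (π g : H →L[ℂ] H) * T) → T * x = x * T)
    (T : El ι H →L[ℂ] El ι H)
    (hT : ∀ g f, T (cst ι (π g : H →L[ℂ] H) f) = cst ι (π g : H →L[ℂ] H) (T f))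
    (x : H →L[ℂ] H) (hx : x ∈ M) (f : El ι H) : T (cst ι x f) = cst ι x (T f) := by
  classical
  have hsing : ∀ (y : H →L[ℂ] H) (j : ι) (ξ : H),
      cst ι y (lp.single 2 j ξ : El ι H) = lp.single 2 j (y ξ) := by
    intro y j ξ
    ext i
    rw [cst_apply, lp.single_apply, lp.single_apply]
    by_cases hij : i = j
    · subst hij
      simp
    · simp [hij]
  have key : ∀ (j : ι) (ξ : H), T (cst ι x (lp.single 2 j ξ : El ι H)) =
      cst ι x (T (lp.single 2 j ξ)) := by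
    intro j ξ
    rw [hsing]
    ext i
    rw [cst_apply]
    let S : H →L[ℂ] H := (lp.evalCLM ℂ (fun _ : ι => H) 2 i) ∘L T ∘L
      (lp.singleContinuousLinearMap ℂ (fun _ : ι => H) 2 j)
    have hS : ∀ ζ : H, S ζ = T (lp.single 2 j ζ) i := fun ζ => rfl
    have hSg : ∀ g, S * (π g : H →L[ℂ] H) = (π g : H →L[ℂ] H) * S := by
      intro g
      ext ζ
      rw [ContinuousLinearMap.mul_apply, ContinuousLinearMap.mul_apply, hS, hS, ← hsing, hT,
        cst_apply]
    have := congrArg (fun R : H →L[ℂ] H => R ξ) (hgen x hx S hSg)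
    simp only [ContinuousLinearMap.mul_apply, hS] at this
    exact this
  have h1 : HasSum (fun j => (lp.single 2 j (f j) : El ι H)) f :=
    lp.hasSum_single (by norm_num) f
  have h2 := h1.mapL (T ∘L cst ι x)
  have h3 := h1.mapL (cst ι x ∘L T)
  have h4 : (fun j => (T ∘L cst ι x) (lp.single 2 j (f j) : El ι H)) =
      fun j => (cst ι x ∘L T) (lp.single 2 j (f j) : El ι H) := by
    funext j
    exact key j (f j)
  rw [h4] at h2
  exact h2.unique h3


theorem normal_zero {ι : Type*} {G : Type*} [Group G] (M : VonNeumannAlgebra H)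
    (π : G →* unitary (H →L[ℂ] H))
    (hgen : ∀ x ∈ M, ∀ T : H →L[ℂ] H,
      (∀ g, T * (π g : H →L[ℂ] H) = (π g : H →L[ℂ] H) * T) → T * x = x * T)
    (a b : ι → H) (ha : Summable fun i => ‖a i‖ ^ 2) (hb : Summable fun i => ‖b i‖ ^ 2)
    (h : ∀ g, ∑' i, ⟪a i, (π g : H →L[ℂ] H) (b i)⟫_ℂ = 0) (x : H →L[ℂ] H) (hx : x ∈ M) :
    ∑' i, ⟪a i, x (b i)⟫_ℂ = 0 := by
  classical
  let A : El ι H := ⟨fun i => a i, two_memlp86 a ha⟩
  let B : El ι H := ⟨fun i => b i, two_memlp86 b hb⟩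
  have hAB : ∀ y : H →L[ℂ] H, ∑' i, ⟪a i, y (b i)⟫_ℂ = ⟪A, cst ι y B⟫_ℂ := by
    intro y
    rw [lp.inner_eq_tsum]
    rfl
  rw [hAB]
  have h0 : ∀ g, ⟪A, cst ι (π g : H →L[ℂ] H) B⟫_ℂ = 0 := fun g => by rw [← hAB]; exact h g
  let V0 : Submodule ℂ (El ι H) := Submodule.span ℂ (Set.range fun g => cst ι (π g : H →L[ℂ] H) B)
  let V : Submodule ℂ (El ι H) := V0.topologicalClosure
  haveI : CompleteSpace V := V0.isClosed_topologicalClosure.completeSpace_coe
  have hmul : ∀ (g k : G) (f : El ι H), cst ι (π g : H →L[ℂ] H) (cst ι (π k : H →L[ℂ] H) f) =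
      cst ι (π (g * k) : H →L[ℂ] H) f := by
    intro g k f
    rw [← ContinuousLinearMap.mul_apply, cst_mul, map_mul]
    rfl
  have hone : ∀ f : El ι H, cst ι (π (1 : G) : H →L[ℂ] H) f = f := by
    intro f
    ext i
    rw [cst_apply, map_one]
    rfl
  have hVinv : ∀ (g : G) (f : El ι H), f ∈ V → cst ι (π g : H →L[ℂ] H) f ∈ V := by
    intro g f hf
    have hsub : V0 ≤ V.comap (cst ι (π g : H →L[ℂ] H)).toLinearMap := by
      refine Submodule.span_le.2 ?_
      rintro _ ⟨k, rfl⟩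
      refine V0.le_topologicalClosure (Submodule.subset_span ⟨g * k, ?_⟩)
      exact (hmul g k B).symm
    have hcl : IsClosed ((V.comap (cst ι (π g : H →L[ℂ] H)).toLinearMap : Submodule ℂ (El ι H)) :
        Set (El ι H)) :=
      V0.isClosed_topologicalClosure.preimage (cst ι (π g : H →L[ℂ] H)).continuous
    exact V0.topologicalClosure_minimal hsub hcl hf
  have hadj : ∀ (g : G) (f k : El ι H), ⟪cst ι (π g : H →L[ℂ] H) f, k⟫_ℂ =
      ⟪f, cst ι (π g⁻¹ : H →L[ℂ] H) k⟫_ℂ := by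
    intro g f k
    rw [← ContinuousLinearMap.adjoint_inner_right, ← ContinuousLinearMap.star_eq_adjoint, star_cst,
      map_inv]
    rfl
  have hVorth : ∀ (g : G) (f : El ι H), f ∈ Vᗮ → cst ι (π g : H →L[ℂ] H) f ∈ Vᗮ := by
    intro g f hf
    rw [Submodule.mem_orthogonal'] at hf ⊢
    intro u hu
    rw [hadj]
    exact hf _ (hVinv g⁻¹ u hu)
  have hT : ∀ g f, V.starProjection (cst ι (π g : H →L[ℂ] H) f) =
      cst ι (π g : H →L[ℂ] H) (V.starProjection f) := by
    intro g f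
    refine Submodule.eq_starProjection_of_mem_orthogonal ?_ ?_
    · exact hVinv g _ (V.starProjection_apply_mem f)
    · rw [← map_sub]
      exact hVorth g _ (V.sub_starProjection_mem_orthogonal f)
  have hBV : B ∈ V := by
    refine V0.le_topologicalClosure (Submodule.subset_span ⟨1, ?_⟩)
    exact hone B
  have hxB : cst ι x B ∈ V := by
    have h1 := comm_cst86 M π hgen V.starProjection hT x hx B
    rw [Submodule.starProjection_eq_self_iff.2 hBV] at h1
    rw [← h1]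
    exact V.starProjection_apply_mem _
  have hA : A ∈ Vᗮ := by
    have hcl : IsClosed ((Submodule.span ℂ {A})ᗮ : Set (El ι H)) :=
      Submodule.isClosed_orthogonal _
    have hsub : V0 ≤ (Submodule.span ℂ {A})ᗮ := by
      refine Submodule.span_le.2 ?_
      rintro _ ⟨g, rfl⟩
      refine (Submodule.mem_orthogonal_singleton_iff_inner_right).2 ?_
      exact h0 g
    have := V0.topologicalClosure_minimal hsub hcl
    rw [Submodule.mem_orthogonal']
    intro u hu
    exact (Submodule.mem_orthogonal_singleton_iff_inner_right).1 (this hu)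
  exact (Submodule.mem_orthogonal' _ _).1 hA _ hxB

theorem normal_mixing {ι : Type*} {G : Type*} [Group G] (π : G →* unitary (H →L[ℂ] H))
    (hπ : Mixing π) (a b : ι → H) (ha : Summable fun i => ‖a i‖ ^ 2)
    (hb : Summable fun i => ‖b i‖ ^ 2) (ε : ℝ) (hε : 0 < ε) :
    {g : G | ε ≤ ‖∑' i, ⟪a i, (π g : H →L[ℂ] H) (b i)⟫_ℂ‖}.Finite := by
  classical
  have hs : Summable fun i => ‖a i‖ * ‖b i‖ := by
    refine Summable.of_nonneg_of_le (fun i => by positivity) (fun i => ?_) (ha.add hb)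
    nlinarith [sq_nonneg (‖a i‖ - ‖b i‖), sq_nonneg (‖a i‖), sq_nonneg (‖b i‖)]
  have hnorm : ∀ (g : G) (v : H), ‖(π g : H →L[ℂ] H) v‖ ≤ ‖v‖ := by
    intro g v
    exact (ContinuousLinearMap.norm_map_of_mem_unitary (π g).2 v).le
  have hb1 : ∀ (g : G) (i : ι), ‖⟪a i, (π g : H →L[ℂ] H) (b i)⟫_ℂ‖ ≤ ‖a i‖ * ‖b i‖ := by
    intro g i
    exact (norm_inner_le_norm _ _).trans (by gcongr; exact hnorm g _)
  have hsg : ∀ g : G, Summable fun i => ⟪a i, (π g : H →L[ℂ] H) (b i)⟫_ℂ := fun g =>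
    Summable.of_norm_bounded hs (hb1 g)
  obtain ⟨s, hs1⟩ : ∃ s : Finset ι, ∑' i : {i // i ∉ s}, ‖a i‖ * ‖b i‖ < ε / 2 := by
    have ht := tendsto_tsum_compl_atTop_zero (fun i => ‖a i‖ * ‖b i‖)
    exact (ht.eventually (gt_mem_nhds (by linarith : (0 : ℝ) < ε / 2))).exists
  have hfin : (⋃ i ∈ s, {g : G | ε / (2 * (s.card + 1)) ≤
      ‖⟪a i, (π g : H →L[ℂ] H) (b i)⟫_ℂ‖}).Finite := by
    refine Set.Finite.biUnion s.finite_toSet (fun i _ => ?_)
    exact hπ (b i) (a i) _ (by positivity)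
  refine hfin.subset (fun g hg => ?_)
  by_contra hcon
  simp only [Set.mem_iUnion, Set.mem_setOf_eq, not_exists, not_le] at hcon
  simp only [Set.mem_setOf_eq] at hg
  have hsplit := (hsg g).sum_add_tsum_subtype_compl s
  have h1 : ‖∑ i ∈ s, ⟪a i, (π g : H →L[ℂ] H) (b i)⟫_ℂ‖ ≤ ε / 2 := by
    refine (norm_sum_le _ _).trans ?_
    refine (Finset.sum_le_sum fun i hi => (hcon i hi).le).trans ?_
    rw [Finset.sum_const, nsmul_eq_mul]
    rw [mul_div_assoc', div_le_div_iff₀ (by positivity) (by norm_num)]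
    nlinarith [hε]
  have h2 : ‖∑' i : {i // i ∉ s}, ⟪a i, (π g : H →L[ℂ] H) (b i)⟫_ℂ‖ < ε / 2 := by
    refine lt_of_le_of_lt ?_ hs1
    exact tsum_of_norm_bounded (hs.subtype _).hasSum (fun i => hb1 g i)
  rw [← hsplit] at hg
  have h3 := norm_add_le (∑ i ∈ s, ⟪a i, (π g : H →L[ℂ] H) (b i)⟫_ℂ)
    (∑' i : {i // i ∉ s}, ⟪a i, (π g : H →L[ℂ] H) (b i)⟫_ℂ)
  linarith

/-- Two normal functionals on M which agree on π(G) are equal. -/
theorem normal_ext {G : Type*} [Group G] (M : VonNeumannAlgebra H)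
    (π : G →* unitary (H →L[ℂ] H)) (hmem : ∀ g, (π g : H →L[ℂ] H) ∈ M)
    (hgen : ∀ x ∈ M, ∀ T : H →L[ℂ] H,
      (∀ g, T * (π g : H →L[ℂ] H) = (π g : H →L[ℂ] H) * T) → T * x = x * T)
    (φ ψ : M.toStarSubalgebra → ℂ) (hφ : IsNormalFun M φ) (hψ : IsNormalFun M ψ)
    (h : ∀ g, φ ⟨π g, hmem g⟩ = ψ ⟨π g, hmem g⟩) : φ = ψ := by
  obtain ⟨a, b, ha, hb, hφ⟩ := hφ
  obtain ⟨a', b', ha', hb', hψ⟩ := hψ
  have hsum : ∀ (u v : ℕ → H) (hu : Summable fun i => ‖u i‖ ^ 2)
      (hv : Summable fun i => ‖v i‖ ^ 2) (y : H →L[ℂ] H),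
      Summable fun i => ⟪u i, y (v i)⟫_ℂ := by
    intro u v hu hv y
    let U : El ℕ H := ⟨fun i => u i, two_memlp86 u hu⟩
    let W : El ℕ H := ⟨fun i => v i, two_memlp86 v hv⟩
    exact lp.summable_inner U (cst ℕ y W)
  let A : ℕ ⊕ ℕ → H := Sum.elim a (fun i => - a' i)
  let B : ℕ ⊕ ℕ → H := Sum.elim b b'
  have hA : Summable fun i => ‖A i‖ ^ 2 := by
    refine Summable.sum _ ?_ ?_
    · exact ha
    · have : ((fun i => ‖A i‖ ^ 2) ∘ Sum.inr : ℕ → ℝ) = fun i => ‖a' i‖ ^ 2 := by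
        funext i
        simp [A]
      rw [this]
      exact ha'
  have hB : Summable fun i => ‖B i‖ ^ 2 := Summable.sum _ hb hb'
  have hcomb : ∀ y : H →L[ℂ] H, ∑' i, ⟪A i, y (B i)⟫_ℂ =
      (∑' i, ⟪a i, y (b i)⟫_ℂ) - ∑' i, ⟪a' i, y (b' i)⟫_ℂ := by
    intro y
    have h1 := hsum a b ha hb y
    have h2 := hsum a' b' ha' hb' y
    have h3 : ((fun i => ⟪A i, y (B i)⟫_ℂ) ∘ Sum.inr : ℕ → ℂ) = fun i => - ⟪a' i, y (b' i)⟫_ℂ := by
      funext i
      simp [A, B]
    have h4 : HasSum ((fun i => ⟪A i, y (B i)⟫_ℂ) ∘ Sum.inl : ℕ → ℂ)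
        (∑' i, ⟪a i, y (b i)⟫_ℂ) := h1.hasSum
    have h5 : HasSum ((fun i => ⟪A i, y (B i)⟫_ℂ) ∘ Sum.inr : ℕ → ℂ)
        (- ∑' i, ⟪a' i, y (b' i)⟫_ℂ) := by
      rw [h3]
      exact h2.hasSum.neg
    rw [(h4.sum h5).tsum_eq, sub_eq_add_neg]
  funext x
  have hz := normal_zero M π hgen A B hA hB (fun g => by
    rw [hcomb]
    have := h g
    rw [hφ, hψ] at this
    exact sub_eq_zero.2 this) (x : H →L[ℂ] H) x.2
  rw [hcomb] at hz
  rw [hφ, hψ]
  exact sub_eq_zero.1 hz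

end Pool.Agent.Helper93.SP
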