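/-
Block SP-TR (about 180 lines).  The trace gives mixing.

(strong_zero)  x_n in M bounded by C, τ(x_n* x_n) → 0.  Then x_n ζ → 0 for all ζ in H.
  τ(x) = Σ_i ⟪a_i, x a_i⟫.  ‖x_n a_i‖^2 ≤ τ(x_n* x_n) → 0.  For y in M:
  ‖x_n y a_i‖^2 ≤ τ(y* x_n* x_n y) = τ(x_n y y* x_n*) ≤ ‖y‖^2 τ(x_n x_n*) = ‖y‖^2 τ(x_n* x_n) → 0
  (τ(x_n y y* x_n*) = Σ ‖y* x_n* a_i‖^2 ≤ ‖y‖^2 Σ ‖x_n* a_i‖^2).  For y' in M' : x_n y' y a_i =
  y' x_n y a_i → 0.  So x_n ζ → 0 for ζ in the span V of all y' y a_i (y in M, y' in M'), and in its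
  closure V^- (x_n bounded).  The projection e onto V^- commutes with M and M' (V is invariant
  under M and M', both star closed): so e in M'' = M (`VonNeumannAlgebra.commutant_commutant`,
  `mem_commutant_iff`), and (1-e) a_i = 0 for all i, so τ((1-e)* (1-e)) = 0, e = 1 by faithfulness.
(mixing_of_trace)  Suppose {g : ε ≤ |⟪θ, π(g) ζ⟫|} is infinite; take an injective sequence g_j in it,
  unimodular c_j with c_j ⟪θ, π(g_j) ζ⟫ ≥ ε (real), and x_n = (1/n) Σ_{j<n} c_j π(g_j) (n ≥ 1) in M,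
  ‖x_n‖ ≤ 1, τ(x_n* x_n) = (1/n^2) Σ_{j,k} conj c_j c_k τ(π(g_j⁻¹ g_k)) = 1/n → 0
  (linearity of τ on M follows from the formula for τ: all series are absolutely summable).
  So x_n ζ → 0, but Re ⟪θ, x_n ζ⟫ ≥ ε: contradiction.
-/
import Pool.Agent.Helper93.SP.Stmt

set_option autoImplicit false

open scoped InnerProductSpace ComplexConjugate ENNReal NNReal
open Filter Topology

namespace Pool.Agent.Helper93.SP

variable {H : Type*} [NormedAddCommGroup H] [InnerProductSpace ℂ H] [CompleteSpace H]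

omit [CompleteSpace H] in
private theorem summ34 {a : ℕ → H} (ha : Summable fun i => ‖a i‖ ^ 2) (T : H →L[ℂ] H) :
    Summable fun i => ⟪a i, T (a i)⟫_ℂ := by
  refine Summable.of_norm_bounded (g := fun i => ‖T‖ * ‖a i‖ ^ 2) (ha.mul_left _) fun i => ?_
  calc ‖⟪a i, T (a i)⟫_ℂ‖ ≤ ‖a i‖ * ‖T (a i)‖ := norm_inner_le_norm _ _
    _ ≤ ‖a i‖ * (‖T‖ * ‖a i‖) := by gcongr; exact T.le_opNorm _
    _ = ‖T‖ * ‖a i‖ ^ 2 := by ring

omit [CompleteSpace H] in
private theorem summsq34 {a : ℕ → H} (ha : Summable fun i => ‖a i‖ ^ 2) (T : H →L[ℂ] H) :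
    Summable fun i => ‖T (a i)‖ ^ 2 := by
  refine Summable.of_nonneg_of_le (fun i => by positivity) (fun i => ?_) (ha.mul_left (‖T‖ ^ 2))
  rw [← mul_pow]
  exact pow_le_pow_left₀ (norm_nonneg _) (T.le_opNorm _) 2

private theorem smul_mem34 {M : VonNeumannAlgebra H} {x : H →L[ℂ] H} (c : ℂ) (hx : x ∈ M) :
    c • x ∈ M :=
  M.toStarSubalgebra.toSubalgebra.smul_mem hx c

theorem trace_add {M : VonNeumannAlgebra H} {τ : (H →L[ℂ] H) → ℂ} (hτ : IsTrace M τ)
    (x y : H →L[ℂ] H) (hx : x ∈ M) (hy : y ∈ M) : τ (x + y) = τ x + τ y := by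
  obtain ⟨a, ha, hf⟩ := hτ.normal
  rw [hf _ (add_mem hx hy), hf _ hx, hf _ hy, ← (summ34 ha x).tsum_add (summ34 ha y)]
  refine tsum_congr fun i => ?_
  rw [add_apply, inner_add_right]

theorem trace_smul {M : VonNeumannAlgebra H} {τ : (H →L[ℂ] H) → ℂ} (hτ : IsTrace M τ)
    (c : ℂ) (x : H →L[ℂ] H) (hx : x ∈ M) : τ (c • x) = c * τ x := by
  obtain ⟨a, ha, hf⟩ := hτ.normal
  rw [hf _ (smul_mem34 c hx), hf _ hx, ← tsum_mul_left]
  refine tsum_congr fun i => ?_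
  rw [smul_apply, inner_smul_right]

/-- τ(T* T) is the sum of the squares of the norms of the T a_i. -/
private theorem tr_sq34 {M : VonNeumannAlgebra H} {τ : (H →L[ℂ] H) → ℂ} {a : ℕ → H}
    (hf : ∀ x ∈ M, τ x = ∑' i, ⟪a i, x (a i)⟫_ℂ) {T : H →L[ℂ] H} (hT : T ∈ M) :
    τ (star T * T) = ((∑' i, ‖T (a i)‖ ^ 2 : ℝ) : ℂ) := by
  rw [hf _ (mul_mem (star_mem hT) hT), Complex.ofReal_tsum]
  refine tsum_congr fun i => ?_
  rw [mul_apply_eq_comp, ContinuousLinearMap.star_eq_adjoint,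
    ContinuousLinearMap.adjoint_inner_right, inner_self_eq_norm_sq_to_K]
  simp

private theorem sq_star34 {M : VonNeumannAlgebra H} {τ : (H →L[ℂ] H) → ℂ} (hτ : IsTrace M τ)
    {a : ℕ → H} (hf : ∀ x ∈ M, τ x = ∑' i, ⟪a i, x (a i)⟫_ℂ) {T : H →L[ℂ] H} (hT : T ∈ M) :
    ∑' i, ‖T (a i)‖ ^ 2 = ∑' i, ‖(star T) (a i)‖ ^ 2 := by
  have h1 := tr_sq34 hf hT
  have h2 := tr_sq34 hf (star_mem hT)
  rw [star_star] at h2
  have h3 := hτ.tracial _ (star_mem hT) _ hT
  rw [h1, h2] at h3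
  exact_mod_cast h3

private theorem sq_mul34 {M : VonNeumannAlgebra H} {τ : (H →L[ℂ] H) → ℂ} (hτ : IsTrace M τ)
    {a : ℕ → H} (ha : Summable fun i => ‖a i‖ ^ 2)
    (hf : ∀ x ∈ M, τ x = ∑' i, ⟪a i, x (a i)⟫_ℂ) {T y : H →L[ℂ] H} (hT : T ∈ M) (hy : y ∈ M) :
    ∑' i, ‖(T * y) (a i)‖ ^ 2 ≤ ‖y‖ ^ 2 * ∑' i, ‖T (a i)‖ ^ 2 := by
  rw [sq_star34 hτ hf (mul_mem hT hy), sq_star34 hτ hf hT, ← tsum_mul_left]
  refine Summable.tsum_le_tsum (fun i => ?_) (summsq34 ha _) ((summsq34 ha _).mul_left _)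
  rw [star_mul, mul_apply_eq_comp, ← mul_pow]
  refine pow_le_pow_left₀ (norm_nonneg _) ?_ 2
  have h := (star y).le_opNorm ((star T) (a i))
  rwa [norm_star] at h

theorem strong_zero {M : VonNeumannAlgebra H} {τ : (H →L[ℂ] H) → ℂ} (hτ : IsTrace M τ)
    (x : ℕ → H →L[ℂ] H) (hx : ∀ n, x n ∈ M) (C : ℝ) (hC : ∀ n, ‖x n‖ ≤ C)
    (h : Tendsto (fun n => τ (star (x n) * x n)) atTop (𝓝 0)) (ζ : H) :
    Tendsto (fun n => x n ζ) atTop (𝓝 0) := by
  obtain ⟨a, ha, hf⟩ := hτ.normal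
  have hS : Tendsto (fun n => ∑' i, ‖x n (a i)‖ ^ 2) atTop (𝓝 0) := by
    have h1 : (fun n => τ (star (x n) * x n)) = fun n => ((∑' i, ‖x n (a i)‖ ^ 2 : ℝ) : ℂ) :=
      funext fun n => tr_sq34 hf (hx n)
    rw [h1] at h
    simpa [Function.comp_def] using (Complex.continuous_re.tendsto 0).comp h
  -- convergence on y (a i)
  have hy0 : ∀ y ∈ M, ∀ i, Tendsto (fun n => x n (y (a i))) atTop (𝓝 0) := by
    intro y hy i
    have h1 : Tendsto (fun n => ‖y‖ ^ 2 * ∑' i, ‖x n (a i)‖ ^ 2) atTop (𝓝 0) := by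
      simpa using hS.const_mul (‖y‖ ^ 2)
    have h2 : Tendsto (fun n => ‖x n (y (a i))‖ ^ 2) atTop (𝓝 0) := by
      refine squeeze_zero (fun n => by positivity) (fun n => ?_) h1
      have h3 := (summsq34 ha (x n * y)).le_tsum i (fun j _ => by positivity)
      exact h3.trans (sq_mul34 hτ ha hf (hx n) hy)
    have h4 : Tendsto (fun n => Real.sqrt (‖x n (y (a i))‖ ^ 2)) atTop (𝓝 (Real.sqrt 0)) :=
      (Real.continuous_sqrt.tendsto 0).comp h2
    simp only [Real.sqrt_sq (norm_nonneg _), Real.sqrt_zero] at h4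
    exact tendsto_zero_iff_norm_tendsto_zero.2 h4
  have hyy : ∀ y' ∈ M.commutant, ∀ y ∈ M, ∀ i,
      Tendsto (fun n => x n (y' (y (a i)))) atTop (𝓝 0) := by
    intro y' hy' y hy i
    have h1 : ∀ n, x n (y' (y (a i))) = y' (x n (y (a i))) := by
      intro n
      have h2 := VonNeumannAlgebra.mem_commutant_iff.1 hy' (x n) (hx n)
      exact congrArg (fun T : H →L[ℂ] H => T (y (a i))) h2
    simp only [h1]
    simpa [Function.comp_def] using (y'.continuous.tendsto 0).comp (hy0 y hy i)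
  -- the span
  set s : Set H := {v | ∃ y' ∈ M.commutant, ∃ y ∈ M, ∃ i, v = y' (y (a i))} with hs
  set V : Submodule ℂ H := Submodule.span ℂ s with hV
  have hVx : ∀ v ∈ V, Tendsto (fun n => x n v) atTop (𝓝 0) := by
    intro v hv
    induction hv using Submodule.span_induction with
    | mem v hv =>
      obtain ⟨y', hy', y, hy, i, rfl⟩ := hv
      exact hyy y' hy' y hy i
    | zero => simp
    | add u v _ _ hu hv => simpa using hu.add hv
    | smul c v _ hv => simpa using hv.const_smul c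
  have hVinv : ∀ y' ∈ M.commutant, ∀ v ∈ V, y' v ∈ V := by
    intro y' hy' v hv
    induction hv using Submodule.span_induction with
    | mem v hv =>
      obtain ⟨z', hz', y, hy, i, rfl⟩ := hv
      refine Submodule.subset_span ⟨y' * z', mul_mem hy' hz', y, hy, i, rfl⟩
    | zero => simp
    | add u v _ _ hu hv => simpa using add_mem hu hv
    | smul c v _ hv => simpa using V.smul_mem c hv
  have hKinv : ∀ y' ∈ M.commutant, ∀ v ∈ Vᗮ, y' v ∈ Vᗮ := by
    intro y' hy' v hv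
    rw [Submodule.mem_orthogonal] at hv ⊢
    intro u hu
    rw [← ContinuousLinearMap.adjoint_inner_left, ← ContinuousLinearMap.star_eq_adjoint]
    exact hv _ (hVinv _ (star_mem hy') u hu)
  have heM : Vᗮ.starProjection ∈ M := by
    rw [VonNeumannAlgebra.IsStarProjection.mem_iff isStarProjection_starProjection]
    intro y hy
    rw [Submodule.range_starProjection, Module.End.mem_invtSubmodule_iff_forall_mem_of_mem]
    exact hKinv y hy
  have hea : ∀ i, Vᗮ.starProjection (a i) = 0 := by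
    intro i
    rw [Submodule.starProjection_apply_eq_zero_iff]
    refine Submodule.le_orthogonal_orthogonal V (Submodule.subset_span ?_)
    exact ⟨1, one_mem _, 1, one_mem _, i, rfl⟩
  have he0 : Vᗮ.starProjection = 0 := by
    refine hτ.faithful _ heM ?_
    rw [tr_sq34 hf heM]
    simp [hea]
  have hVbot : Vᗮ = ⊥ := by
    rw [Submodule.eq_bot_iff]
    intro v hv
    rw [← Submodule.starProjection_eq_self_iff.2 hv, he0]
    rfl
  have hVtop : V.topologicalClosure = ⊤ := Submodule.topologicalClosure_eq_top_iff.2 hVbot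
  -- density argument
  have hC0 : 0 ≤ C := (norm_nonneg _).trans (hC 0)
  rw [Metric.tendsto_atTop]
  intro ε hε
  have hζ : ζ ∈ V.topologicalClosure := by rw [hVtop]; trivial
  have hζ' : ζ ∈ closure (V : Set H) := hζ
  obtain ⟨v, hv, hvd⟩ := Metric.mem_closure_iff.1 hζ' (ε / (2 * (C + 1))) (by positivity)
  obtain ⟨N, hN⟩ := (Metric.tendsto_atTop.1 (hVx v hv)) (ε / 2) (by positivity)
  refine ⟨N, fun n hn => ?_⟩
  have h1 := hN n hn
  rw [dist_zero_right] at h1 ⊢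
  rw [dist_eq_norm] at hvd
  calc ‖x n ζ‖ = ‖x n (ζ - v) + x n v‖ := by rw [map_sub, sub_add_cancel]
    _ ≤ ‖x n (ζ - v)‖ + ‖x n v‖ := norm_add_le _ _
    _ ≤ C * ‖ζ - v‖ + ‖x n v‖ := by
        gcongr
        exact (x n).le_of_opNorm_le (hC n) _
    _ ≤ (C + 1) * (ε / (2 * (C + 1))) + ‖x n v‖ := by
        have h2 : C * ‖ζ - v‖ ≤ (C + 1) * (ε / (2 * (C + 1))) :=
          mul_le_mul (by linarith) hvd.le (norm_nonneg _) (by linarith)
        linarith
    _ = ε / 2 + ‖x n v‖ := by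
        field_simp
    _ < ε := by linarith

private theorem tr_sum34 {M : VonNeumannAlgebra H} {τ : (H →L[ℂ] H) → ℂ} (hτ : IsTrace M τ)
    {ι : Type*} (s : Finset ι) (f : ι → H →L[ℂ] H) (hfm : ∀ i, f i ∈ M) :
    τ (∑ i ∈ s, f i) = ∑ i ∈ s, τ (f i) := by
  classical
  induction s using Finset.induction_on with
  | empty =>
    have h := trace_smul hτ 0 (0 : H →L[ℂ] H) (zero_mem M)
    rw [zero_mul, smul_zero] at h
    simpa using h
  | insert i s hi ih =>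
    rw [Finset.sum_insert hi, Finset.sum_insert hi,
      trace_add hτ _ _ (hfm i) (sum_mem fun j _ => hfm j), ih]

private theorem norm_pi34 (U : unitary (H →L[ℂ] H)) : ‖(U : H →L[ℂ] H)‖ ≤ 1 := by
  rcases subsingleton_or_nontrivial (H →L[ℂ] H) with h | h
  · rw [Subsingleton.elim (U : H →L[ℂ] H) 0, norm_zero]
    exact zero_le_one
  · exact (CStarRing.norm_coe_unitary U).le

private theorem tr_sq_sum34 {G : Type*} [Group G] {M : VonNeumannAlgebra H}
    {τ : (H →L[ℂ] H) → ℂ} (hτ : IsTrace M τ) (π : G →* unitary (H →L[ℂ] H))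
    (hmem : ∀ g, (π g : H →L[ℂ] H) ∈ M) (h0 : ∀ g, g ≠ 1 → τ (π g : H →L[ℂ] H) = 0)
    (g : ℕ → G) (hg : Function.Injective g) (c : ℕ → ℂ) (hc : ∀ j, ‖c j‖ = 1) (N : ℕ) :
    τ (star (∑ j ∈ Finset.range N, c j • (π (g j) : H →L[ℂ] H)) *
      (∑ j ∈ Finset.range N, c j • (π (g j) : H →L[ℂ] H))) = N := by
  have h1 : star (∑ j ∈ Finset.range N, c j • (π (g j) : H →L[ℂ] H)) *
      (∑ j ∈ Finset.range N, c j • (π (g j) : H →L[ℂ] H)) =
      ∑ j ∈ Finset.range N, ∑ k ∈ Finset.range N,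
        (conj (c j) * c k) • (π ((g j)⁻¹ * g k) : H →L[ℂ] H) := by
    rw [star_sum, Finset.sum_mul_sum]
    refine Finset.sum_congr rfl fun j _ => Finset.sum_congr rfl fun k _ => ?_
    rw [star_smul, smul_mul_smul_comm, map_mul, map_inv]
    rfl
  rw [h1, tr_sum34 hτ _ _ (fun j => sum_mem fun k _ => smul_mem34 _ (hmem _))]
  have h2 : ∀ j ∈ Finset.range N, τ (∑ k ∈ Finset.range N,
        (conj (c j) * c k) • (π ((g j)⁻¹ * g k) : H →L[ℂ] H)) = 1 := by
    intro j hj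
    rw [tr_sum34 hτ _ _ (fun k => smul_mem34 _ (hmem _)), Finset.sum_eq_single j]
    · rw [trace_smul hτ _ _ (hmem _), inv_mul_cancel, map_one]
      have h3 : ((1 : unitary (H →L[ℂ] H)) : H →L[ℂ] H) = 1 := rfl
      rw [h3, hτ.one, mul_one, ← Complex.normSq_eq_conj_mul_self, Complex.normSq_eq_norm_sq, hc j]
      norm_num
    · intro k _ hk
      rw [trace_smul hτ _ _ (hmem _), h0, mul_zero]
      intro h4
      rw [inv_mul_eq_one] at h4
      exact hk (hg h4).symm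
    · intro h5
      exact absurd hj h5
  rw [Finset.sum_congr rfl h2]
  simp

theorem mixing_of_trace {G : Type*} [Group G] {M : VonNeumannAlgebra H}
    {τ : (H →L[ℂ] H) → ℂ} (hτ : IsTrace M τ) (π : G →* unitary (H →L[ℂ] H))
    (hmem : ∀ g, (π g : H →L[ℂ] H) ∈ M) (h0 : ∀ g, g ≠ 1 → τ (π g : H →L[ℂ] H) = 0) :
    Mixing π := by
  intro ζ θ ε hε
  by_contra hinf
  have hinf' : {g : G | ε ≤ ‖⟪θ, (π g : H →L[ℂ] H) ζ⟫_ℂ‖}.Infinite := hinf
  set e := hinf'.natEmbedding with he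
  set g : ℕ → G := fun j => (e j : G) with hgdef
  have hginj : Function.Injective g := fun i j hij => e.injective (Subtype.ext hij)
  have hge : ∀ j, ε ≤ ‖⟪θ, (π (g j) : H →L[ℂ] H) ζ⟫_ℂ‖ := fun j => (e j).2
  set w : ℕ → ℂ := fun j => ⟪θ, (π (g j) : H →L[ℂ] H) ζ⟫_ℂ with hw
  have hwpos : ∀ j, 0 < ‖w j‖ := fun j => hε.trans_le (hge j)
  set c : ℕ → ℂ := fun j => conj (w j) / ‖w j‖ with hcdef
  have hc1 : ∀ j, ‖c j‖ = 1 := by
    intro j
    rw [hcdef]
    simp only [norm_div, Complex.norm_conj, Complex.norm_real, norm_norm]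
    exact div_self (hwpos j).ne'
  have hcw : ∀ j, c j * w j = (‖w j‖ : ℂ) := by
    intro j
    have h1 : (‖w j‖ : ℂ) ≠ 0 := by exact_mod_cast (hwpos j).ne'
    rw [hcdef]
    simp only
    rw [div_mul_eq_mul_div, ← Complex.normSq_eq_conj_mul_self, Complex.normSq_eq_norm_sq]
    field_simp
    push_cast
    rfl
  set y : ℕ → H →L[ℂ] H := fun n => ∑ j ∈ Finset.range n, c j • (π (g j) : H →L[ℂ] H) with hy
  set x : ℕ → H →L[ℂ] H := fun n => ((n + 1 : ℝ) : ℂ)⁻¹ • y (n + 1) with hx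
  have hym : ∀ n, y n ∈ M := fun n => sum_mem fun j _ => smul_mem34 _ (hmem _)
  have hxm : ∀ n, x n ∈ M := fun n => smul_mem34 _ (hym _)
  have hynorm : ∀ n, ‖y n‖ ≤ n := by
    intro n
    refine (norm_sum_le _ _).trans ?_
    calc ∑ j ∈ Finset.range n, ‖c j • (π (g j) : H →L[ℂ] H)‖
        ≤ ∑ _j ∈ Finset.range n, (1 : ℝ) := by
          refine Finset.sum_le_sum fun j _ => ?_
          rw [norm_smul, hc1, one_mul]
          exact norm_pi34 _
      _ = n := by simp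
  have hxC : ∀ n, ‖x n‖ ≤ 1 := by
    intro n
    have h1 : ‖(((n + 1 : ℝ) : ℂ))⁻¹‖ = ((n : ℝ) + 1)⁻¹ := by
      rw [norm_inv, Complex.norm_real, Real.norm_of_nonneg (by positivity)]
    rw [hx]
    simp only
    rw [norm_smul, h1]
    have h2 := hynorm (n + 1)
    push_cast at h2
    calc ((n : ℝ) + 1)⁻¹ * ‖y (n + 1)‖ ≤ ((n : ℝ) + 1)⁻¹ * ((n : ℝ) + 1) := by gcongr
      _ = 1 := inv_mul_cancel₀ (by positivity)
  have hxt : ∀ n, τ (star (x n) * x n) = (((n : ℝ) + 1)⁻¹ : ℝ) := by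
    intro n
    have h1 : star (x n) * x n = ((((n + 1 : ℝ) : ℂ)⁻¹) * (((n + 1 : ℝ) : ℂ)⁻¹)) •
        (star (y (n + 1)) * y (n + 1)) := by
      rw [hx]
      simp only
      rw [star_smul, smul_mul_smul_comm]
      congr 2
      rw [star_inv₀]
      congr 1
      exact Complex.conj_ofReal _
    rw [h1, trace_smul hτ _ _ (mul_mem (star_mem (hym _)) (hym _)),
      tr_sq_sum34 hτ π hmem h0 g hginj c hc1 (n + 1)]
    have h3 : ((n : ℂ) + 1) ≠ 0 := by exact_mod_cast (Nat.succ_ne_zero n)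
    push_cast
    field_simp
  have hlim : Tendsto (fun n => τ (star (x n) * x n)) atTop (𝓝 0) := by
    simp only [hxt]
    have h1 : Tendsto (fun n : ℕ => ((n : ℝ) + 1)⁻¹) atTop (𝓝 0) := by
      simpa [one_div] using tendsto_one_div_add_atTop_nhds_zero_nat (𝕜 := ℝ)
    exact_mod_cast (Complex.continuous_ofReal.tendsto 0).comp h1
  have h2 := strong_zero hτ x hxm 1 hxC hlim ζ
  have h3 : Tendsto (fun n => (⟪θ, x n ζ⟫_ℂ).re) atTop (𝓝 0) := by
    have h4 : Tendsto (fun n => ⟪θ, x n ζ⟫_ℂ) atTop (𝓝 ⟪θ, (0 : H)⟫_ℂ) :=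
      tendsto_const_nhds.inner h2
    rw [inner_zero_right] at h4
    simpa [Function.comp_def] using (Complex.continuous_re.tendsto 0).comp h4
  have h5 : ∀ n, ε ≤ (⟪θ, x n ζ⟫_ℂ).re := by
    intro n
    have h6 : ⟪θ, x n ζ⟫_ℂ = ((((n : ℝ) + 1)⁻¹ * ∑ j ∈ Finset.range (n + 1), ‖w j‖ : ℝ) : ℂ) := by
      rw [hx]
      simp only
      rw [smul_apply, inner_smul_right, hy]
      simp only
      rw [sum_apply, inner_sum]
      push_cast
      congr 1
      refine Finset.sum_congr rfl fun j _ => ?_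
      rw [Pi.smul_apply, inner_smul_right]
      exact hcw j
    rw [h6, Complex.ofReal_re]
    have h7 : ((n : ℝ) + 1) * ε ≤ ∑ j ∈ Finset.range (n + 1), ‖w j‖ := by
      have h8 : ∑ _j ∈ Finset.range (n + 1), ε ≤ ∑ j ∈ Finset.range (n + 1), ‖w j‖ :=
        Finset.sum_le_sum fun j _ => hge j
      simpa using h8
    calc ε = ((n : ℝ) + 1)⁻¹ * (((n : ℝ) + 1) * ε) := by
          field_simp
      _ ≤ ((n : ℝ) + 1)⁻¹ * ∑ j ∈ Finset.range (n + 1), ‖w j‖ := by gcongr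
  have h9 := ge_of_tendsto' h3 h5
  linarith

end Pool.Agent.Helper93.SP
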