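/-
Block SP-TRC (about 180 lines).  Uniqueness of the trace, invariance of the dimension.

(icc)  M a factor, π(G) ⊆ M, τ a trace with τ(π g) = 0 for g ≠ 1: every g ≠ 1 has an infinite
  conjugacy class.  Otherwise z = Σ_{c in the class of g} π(c) commutes with π(G), hence with M
  (hypothesis gen of IsGroupVN), z in M, so z = λ 1; τ(z π(g⁻¹)) = Σ_c τ(π(c g⁻¹)) = 1 (only c = g
  contributes), but τ(λ π(g⁻¹)) = 0.
(trace_unique)  Let τ' be any IsTrace of M.  τ'(π(h g h⁻¹)) = τ'(π g) and τ' is a normal functional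
  (a = b in normal_mixing); for g ≠ 1 infinitely many conjugates, so |τ'(π g)| < ε for all ε:
  τ'(π g) = 0 = τ(π g), τ'(1) = 1 = τ(1); normal_ext gives τ' = τ on M.
(vnDim_spatial)  V unitary, N = V M V*, τN(V x V*) = τM(x) on M: vnDim M τM = vnDim N τN: the
  family (ξ_i, p_i) goes to (V ξ_i, V p_i V*), and back; two inequalities of suprema (iSup_le,
  le_iSup_of_le ...).
-/
import Pool.Agent.Helper93.SP.Tr
import Pool.Agent.Helper93.SP.Nrm

set_option autoImplicit false

open scoped InnerProductSpace ComplexConjugate ENNReal NNReal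
open Filter Topology

namespace Pool.Agent.Helper93.SP

variable {H : Type*} [NormedAddCommGroup H] [InnerProductSpace ℂ H] [CompleteSpace H]

private theorem tr_sum26 {M : VonNeumannAlgebra H} {τ : (H →L[ℂ] H) → ℂ} (hτ : IsTrace M τ)
    {ι : Type*} (s : Finset ι) (f : ι → H →L[ℂ] H) (hfm : ∀ i, f i ∈ M) :
    τ (∑ i ∈ s, f i) = ∑ i ∈ s, τ (f i) := by
  classical
  induction s using Finset.induction_on with
  | empty =>
    have h := trace_smul hτ 0 (0 : H →L[ℂ] H) (zero_mem M)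
    rw [zero_mul, smul_zero] at h
    simpa using h
  | insert i s hi ih =>
    rw [Finset.sum_insert hi, Finset.sum_insert hi,
      trace_add hτ _ _ (hfm i) (sum_mem fun j _ => hfm j), ih]

private theorem pi_mul26 {G : Type*} [Group G] (π : G →* unitary (H →L[ℂ] H)) (g h : G) :
    (π g : H →L[ℂ] H) * (π h : H →L[ℂ] H) = (π (g * h) : H →L[ℂ] H) := by
  rw [map_mul]
  rfl

private theorem pi_one26 {G : Type*} [Group G] (π : G →* unitary (H →L[ℂ] H)) :
    (π 1 : H →L[ℂ] H) = 1 := by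
  rw [map_one]
  rfl

theorem icc {G : Type*} [Group G] {M : VonNeumannAlgebra H} {π : G →* unitary (H →L[ℂ] H)}
    (hM : IsIIOneFactor M) (hG : IsGroupVN M π) (g : G) (hg : g ≠ 1) :
    (Set.range fun h : G => h * g * h⁻¹).Infinite := by
  classical
  intro hfin
  obtain ⟨τ, hτ, h0⟩ := hG.trace
  set S : Finset G := hfin.toFinset with hS
  have hSm : ∀ c, c ∈ S ↔ ∃ h : G, h * g * h⁻¹ = c := by
    intro c
    rw [hS, Set.Finite.mem_toFinset]
    exact Iff.rfl
  set z : H →L[ℂ] H := ∑ c ∈ S, (π c : H →L[ℂ] H) with hz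
  have hzM : z ∈ M := sum_mem fun c _ => hG.mem c
  have hconj : ∀ k : G, z * (π k : H →L[ℂ] H) = (π k : H →L[ℂ] H) * z := by
    intro k
    rw [hz, Finset.sum_mul, Finset.mul_sum]
    refine Finset.sum_nbij' (fun c => k⁻¹ * c * k) (fun c => k * c * k⁻¹) ?_ ?_ ?_ ?_ ?_
    · intro c hc
      obtain ⟨h, rfl⟩ := (hSm c).1 hc
      refine (hSm _).2 ⟨k⁻¹ * h, ?_⟩
      group
    · intro c hc
      obtain ⟨h, rfl⟩ := (hSm c).1 hc
      refine (hSm _).2 ⟨k * h, ?_⟩
      group
    · intro c _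
      group
    · intro c _
      group
    · intro c _
      rw [pi_mul26, pi_mul26]
      congr 2
      group
  have hzc : ∀ y ∈ M, z * y = y * z := fun y hy => hG.gen y hy z hconj
  obtain ⟨c, hc⟩ := hM.factor z hzM hzc
  have h1 : τ (z * (π g⁻¹ : H →L[ℂ] H)) = 1 := by
    rw [hz, Finset.sum_mul]
    have h2 : ∀ d ∈ S, (π d : H →L[ℂ] H) * (π g⁻¹ : H →L[ℂ] H) = (π (d * g⁻¹) : H →L[ℂ] H) :=
      fun d _ => pi_mul26 π d g⁻¹
    rw [Finset.sum_congr rfl h2, tr_sum26 hτ S _ (fun d => hG.mem _), Finset.sum_eq_single g]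
    · rw [mul_inv_cancel, pi_one26, hτ.one]
    · intro d _ hd
      apply h0
      intro h3
      exact hd (mul_inv_eq_one.1 h3)
    · intro h3
      exact absurd ((hSm g).2 ⟨1, by group⟩) h3
  rw [hc, smul_mul_assoc, one_mul, trace_smul hτ _ _ (hG.mem _),
    h0 _ (fun h => hg (inv_eq_one.1 h)), mul_zero] at h1
  exact zero_ne_one h1

private theorem tr_pi26 {G : Type*} [Group G] {M : VonNeumannAlgebra H}
    {π : G →* unitary (H →L[ℂ] H)} (hM : IsIIOneFactor M) (hG : IsGroupVN M π)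
    (τ : (H →L[ℂ] H) → ℂ) (hτ : IsTrace M τ) (g : G) (hg : g ≠ 1) :
    τ (π g : H →L[ℂ] H) = 0 := by
  obtain ⟨τ0, hτ0, h0⟩ := hG.trace
  have hmix := mixing_of_trace hτ0 π hG.mem h0
  obtain ⟨a, ha, hf⟩ := hτ.normal
  by_contra hne
  have hε : 0 < ‖τ (π g : H →L[ℂ] H)‖ := norm_pos_iff.2 hne
  have hfin := normal_mixing π hmix a a ha ha _ hε
  refine icc hM hG g hg (hfin.subset ?_)
  rintro _ ⟨h, rfl⟩
  rw [Set.mem_setOf_eq, ← hf _ (hG.mem _)]
  have h1 : τ (π (h * g * h⁻¹) : H →L[ℂ] H) = τ (π g : H →L[ℂ] H) := by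
    rw [← pi_mul26, hτ.tracial _ (hG.mem _) _ (hG.mem _), pi_mul26]
    congr 3
    group
  simp only
  rw [h1]

theorem trace_unique {G : Type*} [Group G] {M : VonNeumannAlgebra H}
    {π : G →* unitary (H →L[ℂ] H)} (hM : IsIIOneFactor M) (hG : IsGroupVN M π)
    (τ τ' : (H →L[ℂ] H) → ℂ) (hτ : IsTrace M τ) (hτ' : IsTrace M τ') (x : H →L[ℂ] H)
    (hx : x ∈ M) : τ' x = τ x := by
  obtain ⟨a, ha, hf⟩ := hτ.normal
  obtain ⟨a', ha', hf'⟩ := hτ'.normal
  have h1 := normal_ext M π hG.mem hG.gen (fun y => τ' (y : H →L[ℂ] H))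
    (fun y => τ (y : H →L[ℂ] H)) ⟨a', a', ha', ha', fun y => hf' _ y.2⟩
    ⟨a, a, ha, ha, fun y => hf _ y.2⟩ (fun g => ?_)
  · exact congrFun h1 ⟨x, hx⟩
  · show τ' (π g : H →L[ℂ] H) = τ (π g : H →L[ℂ] H)
    by_cases hg : g = 1
    · rw [hg, pi_one26, hτ.one, hτ'.one]
    · rw [tr_pi26 hM hG τ' hτ' g hg, tr_pi26 hM hG τ hτ g hg]

private theorem vnDim_le26 (M N : VonNeumannAlgebra H) (V : H →L[ℂ] H)
    (hV : V ∈ unitary (H →L[ℂ] H)) (hMN : ∀ x, x ∈ M ↔ V * x * star V ∈ N)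
    (τM τN : (H →L[ℂ] H) → ℂ) (hτ : ∀ x ∈ M, τN (V * x * star V) = τM x) :
    vnDim M τM ≤ vnDim N τN := by
  have hVV : star V * V = 1 := Unitary.star_mul_self_of_mem hV
  have hVV' : V * star V = 1 := Unitary.mul_star_self_of_mem hV
  have hback : ∀ x ∈ N, star V * x * V ∈ M := by
    intro x hx
    rw [hMN]
    have h1 : V * (star V * x * V) * star V = (V * star V) * x * (V * star V) := by noncomm_ring
    rw [h1, hVV', one_mul, mul_one]
    exact hx
  unfold vnDim
  refine iSup_le fun n => iSup_le fun ξ => iSup_le fun p => iSup_le fun hp => iSup_le fun h => ?_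
  have hp' : ∀ i, V * p i * star V ∈ N ∧ IsStarProjection (V * p i * star V) := by
    intro i
    refine ⟨(hMN _).1 (hp i).1, ?_, ?_⟩
    · show V * p i * star V * (V * p i * star V) = V * p i * star V
      have h1 : V * p i * star V * (V * p i * star V) = V * (p i * (star V * V) * p i) * star V := by
        noncomm_ring
      rw [h1, hVV, mul_one, (hp i).2.isIdempotentElem.eq]
    · show star (V * p i * star V) = V * p i * star V
      rw [star_mul, star_mul, star_star, (hp i).2.isSelfAdjoint.star_eq, mul_assoc]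
  have h' : ∀ i j, ∀ x ∈ N, ⟪V (ξ i), x (V (ξ j))⟫_ℂ =
      if i = j then τN (x * (V * p j * star V)) else 0 := by
    intro i j x hx
    have h1 : ⟪V (ξ i), x (V (ξ j))⟫_ℂ = ⟪ξ i, (star V * x * V) (ξ j)⟫_ℂ := by
      rw [ContinuousLinearMap.star_eq_adjoint]
      exact (ContinuousLinearMap.adjoint_inner_right V (ξ i) (x (V (ξ j)))).symm
    rw [h1, h i j _ (hback x hx)]
    by_cases hij : i = j
    · rw [if_pos hij, if_pos hij, ← hτ _ (mul_mem (hback x hx) (hp j).1)]
      congr 1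
      have h2 : V * (star V * x * V * p j) * star V = (V * star V) * x * (V * p j * star V) := by
        noncomm_ring
      rw [h2, hVV', one_mul]
    · rw [if_neg hij, if_neg hij]
  refine le_iSup_of_le n (le_iSup_of_le (fun i => V (ξ i)) (le_iSup_of_le
    (fun i => V * p i * star V) (le_iSup_of_le hp' (le_iSup_of_le h' (le_of_eq ?_)))))
  refine Finset.sum_congr rfl fun i _ => ?_
  rw [ContinuousLinearMap.norm_map_of_mem_unitary hV]

theorem vnDim_spatial (M N : VonNeumannAlgebra H) (V : H →L[ℂ] H)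
    (hV : V ∈ unitary (H →L[ℂ] H)) (hMN : ∀ x, x ∈ M ↔ V * x * star V ∈ N)
    (τM τN : (H →L[ℂ] H) → ℂ) (hτ : ∀ x ∈ M, τN (V * x * star V) = τM x) :
    vnDim M τM = vnDim N τN := by
  have hVV : star V * V = 1 := Unitary.star_mul_self_of_mem hV
  have hVV' : V * star V = 1 := Unitary.mul_star_self_of_mem hV
  have hc : ∀ y : H →L[ℂ] H, V * (star V * y * star (star V)) * star V = y := by
    intro y
    rw [star_star]
    have h1 : V * (star V * y * V) * star V = (V * star V) * y * (V * star V) := by noncomm_ring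
    rw [h1, hVV', one_mul, mul_one]
  have hMN' : ∀ y, y ∈ N ↔ star V * y * star (star V) ∈ M := by
    intro y
    rw [hMN, hc]
  refine le_antisymm (vnDim_le26 M N V hV hMN τM τN hτ) ?_
  refine vnDim_le26 N M (star V) (Unitary.star_mem hV) hMN' τN τM fun y hy => ?_
  rw [← hτ _ ((hMN' y).1 hy), hc]

end Pool.Agent.Helper93.SP
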