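/-
Block SP-TWO (about 200 lines).  Two close mixing representations are unitarily equivalent.

sumRep π0 π1 (g) = matOp (diagonal ![π0 g, π1 g]) on H^2 (Pw (Fin 2) H).  It is mixing.
T = matOp with the single nonzero entry T 1 0 = 1.  Every x in grpAlg (sumRep) is
matOp (diagonal ![x0, x1]) with x0 = Σ c_g π0(g), x1 = Σ c_g π1(g) for one finitely supported
c : G →₀ ℂ (adjoin induction; products: convolution, or prove that the set of such x is a star
subalgebra with `Finsupp` / `MonoidAlgebra.lift`).  T x - x T has the single nonzero entry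
x0 - x1 at (1,0), so its norm is ‖x0 - x1‖ ≤ δ ‖x0‖ ≤ δ ‖x‖.
Dk27: S commuting with sumRep, ‖T - S‖ ≤ 27 δ < 1.  R = entry S 1 0 satisfies ‖1 - R‖ < 1, so R is
invertible, and R π0(g) = π1(g) R (entry (1,0) of S sumRep(g) = sumRep(g) S).
Polar decomposition: P = R* R is positive invertible and commutes with π0(g) (R* π1(g) = π0(g) R*);
D = P^(-1/2) (cfc; commutes with everything which commutes with P) and V = R D is unitary:
V* V = D P D = 1, V invertible.  V π0(g) = R π0(g) D = π1(g) V.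
-/
import Pool.Agent.Helper93.SP.Dk

set_option autoImplicit false

open scoped InnerProductSpace ComplexConjugate ENNReal NNReal
open Filter Topology

namespace Pool.Agent.Helper93.SP

variable {G : Type*} [Group G] {H : Type*} [NormedAddCommGroup H]
  [InnerProductSpace ℂ H] [CompleteSpace H]

private theorem diag_mul24 (a b c d : H →L[ℂ] H) :
    matOp (Matrix.diagonal ![a, b]) * matOp (Matrix.diagonal ![c, d]) =
      matOp (Matrix.diagonal ![a * c, b * d]) := by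
  rw [← matOp_mul, Matrix.diagonal_mul_diagonal]
  congr 2
  funext i
  fin_cases i <;> rfl

private theorem diag_one24 :
    matOp (Matrix.diagonal ![(1 : H →L[ℂ] H), (1 : H →L[ℂ] H)]) = 1 := by
  rw [← matOp_one (ι := Fin 2) (E := H)]
  congr 1
  ext i j
  fin_cases i <;> fin_cases j <;> simp [Matrix.diagonal]

private theorem diag_star24 (a b : H →L[ℂ] H) :
    star (matOp (Matrix.diagonal ![a, b])) = matOp (Matrix.diagonal ![star a, star b]) := by
  rw [matOp_star]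
  congr 1
  ext i j
  fin_cases i <;> fin_cases j <;> simp [Matrix.star_apply, Matrix.diagonal]

theorem diag_unitary (a b : unitary (H →L[ℂ] H)) :
    matOp (Matrix.diagonal ![(a : H →L[ℂ] H), (b : H →L[ℂ] H)]) ∈
      unitary (Pw (Fin 2) H →L[ℂ] Pw (Fin 2) H) := by
  rw [Unitary.mem_iff, diag_star24, diag_mul24, diag_mul24, Unitary.star_mul_self_of_mem a.2,
    Unitary.star_mul_self_of_mem b.2, Unitary.mul_star_self_of_mem a.2,
    Unitary.mul_star_self_of_mem b.2, diag_one24]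
  exact ⟨rfl, rfl⟩

theorem diag_mul (a b c d : H →L[ℂ] H) :
    matOp (Matrix.diagonal ![a, b]) * matOp (Matrix.diagonal ![c, d]) =
      matOp (Matrix.diagonal ![a * c, b * d]) :=
  diag_mul24 a b c d

theorem diag_one :
    matOp (Matrix.diagonal ![(1 : H →L[ℂ] H), (1 : H →L[ℂ] H)]) = 1 :=
  diag_one24

/-- The direct sum of two representations. -/
noncomputable def sumRep (π0 π1 : G →* unitary (H →L[ℂ] H)) :
    G →* unitary (Pw (Fin 2) H →L[ℂ] Pw (Fin 2) H) where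
  toFun g := ⟨matOp (Matrix.diagonal ![(π0 g : H →L[ℂ] H), (π1 g : H →L[ℂ] H)]),
    diag_unitary (π0 g) (π1 g)⟩
  map_one' := by
    apply Subtype.ext
    simpa using diag_one
  map_mul' g h := by
    apply Subtype.ext
    simpa using (diag_mul (π0 g : H →L[ℂ] H) (π1 g) (π0 h) (π1 h)).symm

private theorem diag_apply24 (a b : H →L[ℂ] H) (x : Pw (Fin 2) H) (i : Fin 2) :
    matOp (Matrix.diagonal ![a, b]) x i = (![a, b] i) (x i) := by
  rw [matOp_apply, Finset.sum_eq_single i]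
  · rw [Matrix.diagonal_apply_eq]
  · intro j _ hj
    rw [Matrix.diagonal_apply_ne' _ hj]
    rfl
  · intro h
    exact absurd (Finset.mem_univ i) h

theorem mixing_sumRep (π0 π1 : G →* unitary (H →L[ℂ] H)) (h0 : Mixing π0) (h1 : Mixing π1) :
    Mixing (sumRep π0 π1) := by
  intro ζ θ ε hε
  refine ((h0 (ζ 0) (θ 0) (ε / 2) (by positivity)).union
    (h1 (ζ 1) (θ 1) (ε / 2) (by positivity))).subset ?_
  intro g hg
  have hg' : ε ≤ ‖⟪θ, (sumRep π0 π1 g : Pw (Fin 2) H →L[ℂ] Pw (Fin 2) H) ζ⟫_ℂ‖ := hg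
  have e : ⟪θ, (sumRep π0 π1 g : Pw (Fin 2) H →L[ℂ] Pw (Fin 2) H) ζ⟫_ℂ =
      ⟪θ 0, (π0 g : H →L[ℂ] H) (ζ 0)⟫_ℂ + ⟪θ 1, (π1 g : H →L[ℂ] H) (ζ 1)⟫_ℂ := by
    rw [PiLp.inner_apply, Fin.sum_univ_two]
    change ⟪θ 0, matOp (Matrix.diagonal ![(π0 g : H →L[ℂ] H), (π1 g : H →L[ℂ] H)]) ζ 0⟫_ℂ +
      ⟪θ 1, matOp (Matrix.diagonal ![(π0 g : H →L[ℂ] H), (π1 g : H →L[ℂ] H)]) ζ 1⟫_ℂ = _
    rw [diag_apply24, diag_apply24]
    rfl
  rw [e] at hg'
  by_contra hcon
  rw [Set.mem_union, not_or] at hcon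
  have a1 : ‖⟪θ 0, (π0 g : H →L[ℂ] H) (ζ 0)⟫_ℂ‖ < ε / 2 := not_le.1 hcon.1
  have a2 : ‖⟪θ 1, (π1 g : H →L[ℂ] H) (ζ 1)⟫_ℂ‖ < ε / 2 := not_le.1 hcon.2
  have a3 := norm_add_le ⟪θ 0, (π0 g : H →L[ℂ] H) (ζ 0)⟫_ℂ ⟪θ 1, (π1 g : H →L[ℂ] H) (ζ 1)⟫_ℂ
  linarith

/-- An invertible intertwiner gives a unitary intertwiner. -/
theorem exists_unitary (π0 π1 : G →* unitary (H →L[ℂ] H)) (R : H →L[ℂ] H) (hR : ‖1 - R‖ < 1)
    (h : ∀ g, R * (π0 g : H →L[ℂ] H) = (π1 g : H →L[ℂ] H) * R) :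
    ∃ V ∈ unitary (H →L[ℂ] H), ∀ g, V * (π0 g : H →L[ℂ] H) = (π1 g : H →L[ℂ] H) * V := by
  have hRu : IsUnit R := by
    have := isUnit_one_sub_of_norm_lt_one hR
    rwa [sub_sub_cancel] at this
  have hRs : IsUnit (star R) := hRu.star
  set P : H →L[ℂ] H := star R * R with hP
  have hPpos : IsStrictlyPositive P :=
    IsStrictlyPositive.iff_of_unital.mpr ⟨star_mul_self_nonneg R, hRs.mul hRu⟩
  set D : H →L[ℂ] H := P ^ (-(1 / 2) : ℝ) with hD
  have hDsa : star D = D := (CFC.rpow_nonneg (a := P) (y := -(1 / 2))).isSelfAdjoint.star_eq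
  have hDu : IsUnit D := hPpos.isUnit.cfcRpow _ hPpos.nonneg
  have hDPD : D * P * D = 1 := by
    have h1 : D * P = P ^ ((1 / 2) : ℝ) := by
      have h2 : P = P ^ (1 : ℝ) := (CFC.rpow_one P hPpos.nonneg).symm
      calc D * P = P ^ (-(1 / 2) : ℝ) * P ^ (1 : ℝ) := by rw [← h2]
        _ = P ^ ((-(1 / 2) : ℝ) + 1) := (CFC.rpow_add hPpos.isUnit).symm
        _ = P ^ ((1 / 2) : ℝ) := by norm_num
    rw [h1]
    exact CFC.rpow_mul_rpow_neg (1 / 2) hPpos
  have hstar : ∀ (π : G →* unitary (H →L[ℂ] H)) (g : G),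
      star ((π g⁻¹ : unitary (H →L[ℂ] H)) : H →L[ℂ] H) = (π g : H →L[ℂ] H) := by
    intro π g
    rw [map_inv]
    change star (star (π g : H →L[ℂ] H)) = _
    rw [star_star]
  have hVV : star (R * D) * (R * D) = 1 := by
    rw [star_mul, hDsa, mul_assoc, ← mul_assoc (star R), ← hP, ← mul_assoc, hDPD]
  refine ⟨R * D, ?_, ?_⟩
  · rw [Unitary.mem_iff]
    refine ⟨hVV, ?_⟩
    obtain ⟨u, hu⟩ := hRu.mul hDu
    rw [← hu] at hVV ⊢
    have h1 : star (u : H →L[ℂ] H) = ((u⁻¹ : (H →L[ℂ] H)ˣ) : H →L[ℂ] H) := by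
      calc star (u : H →L[ℂ] H) = star (u : H →L[ℂ] H) * (u * ((u⁻¹ : (H →L[ℂ] H)ˣ) : H →L[ℂ] H)) := by
            rw [Units.mul_inv, mul_one]
        _ = _ := by rw [← mul_assoc, hVV, one_mul]
    rw [h1, Units.mul_inv]
  · intro g
    have h1 : (π0 g : H →L[ℂ] H) * star R = star R * (π1 g : H →L[ℂ] H) := by
      have h2 := congrArg star (h g⁻¹)
      rw [star_mul, star_mul, hstar, hstar] at h2
      exact h2
    have h3 : Commute P (π0 g : H →L[ℂ] H) := by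
      change P * (π0 g : H →L[ℂ] H) = (π0 g : H →L[ℂ] H) * P
      rw [hP, mul_assoc, h g, ← mul_assoc, ← h1, mul_assoc]
    have h4 : Commute D (π0 g : H →L[ℂ] H) := h3.cfc_nnreal _
    rw [mul_assoc, h4.eq, ← mul_assoc, h g, mul_assoc]

/-- Elements of the group algebra of the direct sum. -/
private theorem mem_span24 (π : G →* unitary (H →L[ℂ] H)) {x : H →L[ℂ] H} (hx : x ∈ grpAlg π) :
    ∃ c : G →₀ ℂ, (c.sum fun g a => a • (π g : H →L[ℂ] H)) = x := by
  rw [← Finsupp.mem_span_range_iff_exists_finsupp]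
  have h1 : x ∈ Subalgebra.toSubmodule (grpAlg π).toSubalgebra := hx
  rw [grpAlg, StarAlgebra.adjoin_eq_span] at h1
  refine Submodule.span_mono ?_ h1
  have h2 : (Set.range fun g => (π g : H →L[ℂ] H)) ∪
      star (Set.range fun g => (π g : H →L[ℂ] H)) ⊆ (Set.range fun g => (π g : H →L[ℂ] H)) := by
    rintro y (hy | hy)
    · exact hy
    · obtain ⟨g, hg⟩ := hy
      refine ⟨g⁻¹, ?_⟩
      have hg' : (π g : H →L[ℂ] H) = star y := hg
      have h3 : (π g⁻¹ : H →L[ℂ] H) = star (π g : H →L[ℂ] H) := by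
        rw [map_inv]
        rfl
      change (π g⁻¹ : H →L[ℂ] H) = y
      rw [h3, hg', star_star]
  intro y hy
  let S : Submonoid (H →L[ℂ] H) :=
    { carrier := Set.range fun g => (π g : H →L[ℂ] H)
      mul_mem' := by
        rintro _ _ ⟨a, rfl⟩ ⟨b, rfl⟩
        exact ⟨a * b, by simp⟩
      one_mem' := ⟨1, by simp⟩ }
  have h4 : Submonoid.closure ((Set.range fun g => (π g : H →L[ℂ] H)) ∪
      star (Set.range fun g => (π g : H →L[ℂ] H))) ≤ S := Submonoid.closure_le.2 h2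
  exact h4 hy

private theorem sum_diag24 (π0 π1 : G →* unitary (H →L[ℂ] H)) (c : G →₀ ℂ) :
    (c.sum fun g a => a • (sumRep π0 π1 g : Pw (Fin 2) H →L[ℂ] Pw (Fin 2) H)) =
      matOp (Matrix.diagonal ![c.sum fun g a => a • (π0 g : H →L[ℂ] H),
        c.sum fun g a => a • (π1 g : H →L[ℂ] H)]) := by
  ext x i
  rw [diag_apply24]
  have h1 : ∀ g, (sumRep π0 π1 g : Pw (Fin 2) H →L[ℂ] Pw (Fin 2) H) x i =
      (![(π0 g : H →L[ℂ] H), (π1 g : H →L[ℂ] H)] i) (x i) := fun g =>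
    diag_apply24 (π0 g : H →L[ℂ] H) (π1 g : H →L[ℂ] H) x i
  have h2 : (c.sum fun g a => a • (sumRep π0 π1 g : Pw (Fin 2) H →L[ℂ] Pw (Fin 2) H)) x i =
      c.sum fun g a => a • (sumRep π0 π1 g : Pw (Fin 2) H →L[ℂ] Pw (Fin 2) H) x i := by
    simp only [Finsupp.sum, ContinuousLinearMap.sum_apply, WithLp.ofLp_sum, Finset.sum_apply]
    rfl
  rw [h2]
  simp only [h1]
  fin_cases i
  · simp [Finsupp.sum, ContinuousLinearMap.sum_apply]
  · simp [Finsupp.sum, ContinuousLinearMap.sum_apply]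

private theorem norm_low24 (z : H →L[ℂ] H) :
    ‖matOp (Matrix.of ![![(0 : H →L[ℂ] H), 0], ![z, 0]])‖ ≤ ‖z‖ := by
  refine ContinuousLinearMap.opNorm_le_bound _ (norm_nonneg _) fun x => ?_
  have h0 : ‖x 0‖ ≤ ‖x‖ := PiLp.norm_apply_le x 0
  rw [PiLp.norm_eq_of_L2, Fin.sum_univ_two, matOp_apply, matOp_apply]
  simp only [Fin.sum_univ_two, Matrix.of_apply, Matrix.cons_val_zero, Matrix.cons_val_one,
    ContinuousLinearMap.zero_apply, add_zero, norm_zero]
  have h1 : ((0 : ℝ) ^ 2 + ‖z (x 0)‖ ^ 2).sqrt = ‖z (x 0)‖ := by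
    rw [zero_pow two_ne_zero, zero_add, Real.sqrt_sq (norm_nonneg _)]
  rw [h1]
  exact (z.le_opNorm _).trans (mul_le_mul_of_nonneg_left h0 (norm_nonneg _))

theorem two_reps (K L : Subgroup G) [K.Normal] [L.Normal]
    (hLK : L ≤ K) (hFL : HasFreeLetters K L) (hK : Amen K) (π0 π1 : G →* unitary (H →L[ℂ] H))
    (h0 : Mixing π0) (h1 : Mixing π1) (δ : ℝ) (hδ : 0 ≤ δ) (h27 : 27 * δ < 1)
    (hclose : ∀ c : G →₀ ℂ, ‖(c.sum fun g a => a • (π0 g : H →L[ℂ] H)) -
      (c.sum fun g a => a • (π1 g : H →L[ℂ] H))‖ ≤ δ * ‖c.sum fun g a => a • (π0 g : H →L[ℂ] H)‖) :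
    ∃ V ∈ unitary (H →L[ℂ] H), ∀ g, V * (π0 g : H →L[ℂ] H) = (π1 g : H →L[ℂ] H) * V := by
  set T : Pw (Fin 2) H →L[ℂ] Pw (Fin 2) H :=
    matOp (Matrix.of ![![(0 : H →L[ℂ] H), 0], ![1, 0]]) with hT
  have hcomm : ∀ x ∈ grpAlg (sumRep π0 π1), ‖T * x - x * T‖ ≤ δ * ‖x‖ := by
    intro x hx
    obtain ⟨c, rfl⟩ := mem_span24 _ hx
    rw [sum_diag24]
    set x0 : H →L[ℂ] H := c.sum fun g a => a • (π0 g : H →L[ℂ] H) with hx0
    set x1 : H →L[ℂ] H := c.sum fun g a => a • (π1 g : H →L[ℂ] H) with hx1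
    have h1 : T * matOp (Matrix.diagonal ![x0, x1]) - matOp (Matrix.diagonal ![x0, x1]) * T =
        matOp (Matrix.of ![![(0 : H →L[ℂ] H), 0], ![x0 - x1, 0]]) := by
      ext v i
      have a1 : ∀ i, T (matOp (Matrix.diagonal ![x0, x1]) v) i =
          (![(0 : H), x0 (v 0)] : Fin 2 → H) i := by
        intro i
        rw [hT, matOp_apply, Fin.sum_univ_two, diag_apply24, diag_apply24]
        fin_cases i <;> simp
      have a2 : ∀ i, matOp (Matrix.diagonal ![x0, x1]) (T v) i =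
          (![(0 : H), x1 (v 0)] : Fin 2 → H) i := by
        intro i
        rw [diag_apply24, hT, matOp_apply, Fin.sum_univ_two]
        fin_cases i <;> simp
      have a3 : (T * matOp (Matrix.diagonal ![x0, x1]) -
          matOp (Matrix.diagonal ![x0, x1]) * T) v i =
          T (matOp (Matrix.diagonal ![x0, x1]) v) i -
            matOp (Matrix.diagonal ![x0, x1]) (T v) i := rfl
      rw [a3, a1, a2, matOp_apply, Fin.sum_univ_two]
      fin_cases i <;> simp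
    rw [h1]
    have h2 : ‖x0‖ ≤ ‖matOp (Matrix.diagonal ![x0, x1])‖ := by
      have h3 := norm_entry_le (matOp (Matrix.diagonal ![x0, x1])) 0 0
      rw [entry_matOp] at h3
      simpa using h3
    calc _ ≤ ‖x0 - x1‖ := norm_low24 _
      _ ≤ δ * ‖x0‖ := hclose c
      _ ≤ _ := mul_le_mul_of_nonneg_left h2 hδ
  obtain ⟨S, hS1, hS2⟩ := Dk27 K L hLK hFL hK (sumRep π0 π1) (mixing_sumRep π0 π1 h0 h1) T δ hδ
    hcomm
  refine exists_unitary π0 π1 (entry S 1 0) ?_ ?_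
  · have h1 : entry (T - S) 1 0 = 1 - entry S 1 0 := by
      have h2 : entry T 1 0 = 1 := by
        rw [hT, entry_matOp]
        rfl
      rw [← h2]
      ext v
      simp [entry_apply]
    rw [← h1]
    exact ((norm_entry_le _ 1 0).trans hS2).trans_lt h27
  · intro g
    have h1 := congrArg (fun X => entry X 1 0) (hS1 g)
    simp only [entry_mul, Fin.sum_univ_two] at h1
    have e : ∀ i j, entry (sumRep π0 π1 g : Pw (Fin 2) H →L[ℂ] Pw (Fin 2) H) i j =
        Matrix.diagonal ![(π0 g : H →L[ℂ] H), (π1 g : H →L[ℂ] H)] i j := fun i j =>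
      entry_matOp _ i j
    simp only [e] at h1
    simpa [Matrix.diagonal] using h1

end Pool.Agent.Helper93.SP
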