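/-
Block SP-FIN (about 200 lines).  The theorem for II_1 factors.

(dk_vn)  M a von Neumann algebra with trace, M = π(G)'' (IsGroupVN), (K, L) free letters, K
  amenable.  If ‖T x - x T‖ ≤ δ ‖x‖ for all x in M then there is S in M' with ‖T - S‖ ≤ 27 δ:
  mixing_of_trace, Dk27 (grpAlg π ⊆ M), and S commutes with π(G), so with M (field gen).
(iso_rep)  θ : M ≃ N normal; π1(g) = θ(π(g)) is a unitary representation; it is mixing
  (IsNormalIso and normal_mixing: ⟪η, θ(π g) ζ⟫ = Σ ⟪a_i, π(g) b_i⟫).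
(spatial_of_close)  ‖θ x - x‖ ≤ δ ‖x‖, 27 δ < 1: two_reps gives a unitary V with V π(g) = θ(π(g)) V.
  hclose: Σ c_g π(g) is in M and θ of it is Σ c_g π1(g).  Then θ(x) = V x V* for all x in M: for
  vectors ξ, η the functionals x ↦ ⟪ξ, θ(x) η⟫ (normal) and x ↦ ⟪V* ξ, x V* η⟫ (normal) agree on
  π(G); normal_ext.
(dim_eq)  hMN: N = V M V* (θ is onto N, and x = V* (V x V*) V; if V x V* is in N then it is
  θ(y) = V y V*, y in M, so x = y).  τN(V x V*) = τM(x): x ↦ τN(θ x) is a trace of M: IsTrace M: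
  normal: τN(θ x) = τN(V x V*) = Σ ⟪a_i, V x V* a_i⟫ = Σ ⟪V* a_i, x V* a_i⟫; so
  trace_unique applies (as a function on B(H) take x ↦ τN(V x V*)).  vnDim_spatial.
-/
import Pool.Agent.Helper93.SP.Two
import Pool.Agent.Helper93.SP.Trc

set_option autoImplicit false

open scoped InnerProductSpace ComplexConjugate ENNReal NNReal
open Filter Topology

namespace Pool.Agent.Helper93.SP

variable {G : Type*} [Group G] {H : Type*} [NormedAddCommGroup H]
  [InnerProductSpace ℂ H] [CompleteSpace H]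

theorem grpAlg_le (M : VonNeumannAlgebra H) (π : G →* unitary (H →L[ℂ] H))
    (hmem : ∀ g, (π g : H →L[ℂ] H) ∈ M) (x : H →L[ℂ] H) (hx : x ∈ grpAlg π) : x ∈ M := by
  have h : grpAlg π ≤ M.toStarSubalgebra := by
    rw [grpAlg, StarAlgebra.adjoin_le_iff]
    rintro _ ⟨g, rfl⟩
    exact hmem g
  exact h hx

theorem dk_vn (K L : Subgroup G) [K.Normal] [L.Normal] (hLK : L ≤ K) (hFL : HasFreeLetters K L)
    (hK : Amen K) (M : VonNeumannAlgebra H) (π : G →* unitary (H →L[ℂ] H)) (hG : IsGroupVN M π)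
    (T : H →L[ℂ] H) (δ : ℝ) (hδ : 0 ≤ δ) (hT : ∀ x ∈ M, ‖T * x - x * T‖ ≤ δ * ‖x‖) :
    ∃ S ∈ M.commutant, ‖T - S‖ ≤ 27 * δ := by
  obtain ⟨τ, hτ, h0⟩ := hG.trace
  obtain ⟨S, hS, hTS⟩ := Dk27 K L hLK hFL hK π (mixing_of_trace hτ π hG.mem h0) T δ hδ
    (fun x hx => hT x (grpAlg_le M π hG.mem x hx))
  refine ⟨S, ?_, hTS⟩
  rw [VonNeumannAlgebra.mem_commutant_iff]
  intro x hx
  exact (hG.gen x hx S hS).symm

private theorem mem_unitary_sub83 {N : VonNeumannAlgebra H} (u : N.toStarSubalgebra)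
    (h1 : star u * u = 1) (h2 : u * star u = 1) : (u : H →L[ℂ] H) ∈ unitary (H →L[ℂ] H) := by
  rw [Unitary.mem_iff]
  constructor
  · have h := congrArg (fun z : N.toStarSubalgebra => (z : H →L[ℂ] H)) h1
    simpa using h
  · have h := congrArg (fun z : N.toStarSubalgebra => (z : H →L[ℂ] H)) h2
    simpa using h

/-- The representation g ↦ θ(π(g)). -/
noncomputable def isoRep {M N : VonNeumannAlgebra H}
    (θ : M.toStarSubalgebra ≃⋆ₐ[ℂ] N.toStarSubalgebra) (π : G →* unitary (H →L[ℂ] H))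
    (hmem : ∀ g, (π g : H →L[ℂ] H) ∈ M) : G →* unitary (H →L[ℂ] H) where
  toFun g := ⟨((θ ⟨π g, hmem g⟩ : N.toStarSubalgebra) : H →L[ℂ] H), by
    have h1 : star (⟨π g, hmem g⟩ : M.toStarSubalgebra) * ⟨π g, hmem g⟩ = 1 :=
      Subtype.ext (Unitary.star_mul_self_of_mem (π g).2)
    have h2 : (⟨π g, hmem g⟩ : M.toStarSubalgebra) * star ⟨π g, hmem g⟩ = 1 :=
      Subtype.ext (Unitary.mul_star_self_of_mem (π g).2)
    refine mem_unitary_sub83 _ ?_ ?_
    · rw [← map_star, ← map_mul, h1, map_one]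
    · rw [← map_star, ← map_mul, h2, map_one]⟩
  map_one' := by
    apply Subtype.ext
    have h1 : (⟨π (1 : G), hmem 1⟩ : M.toStarSubalgebra) = 1 := by
      apply Subtype.ext
      simp
    have h2 : θ ⟨π (1 : G), hmem 1⟩ = 1 := by rw [h1, map_one]
    exact congrArg (fun z : N.toStarSubalgebra => (z : H →L[ℂ] H)) h2
  map_mul' g h := by
    apply Subtype.ext
    have h1 : (⟨π (g * h), hmem (g * h)⟩ : M.toStarSubalgebra) =
        ⟨π g, hmem g⟩ * ⟨π h, hmem h⟩ := by
      apply Subtype.ext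
      simp
    have h2 : θ ⟨π (g * h), hmem (g * h)⟩ = θ ⟨π g, hmem g⟩ * θ ⟨π h, hmem h⟩ := by
      rw [h1, map_mul]
    exact congrArg (fun z : N.toStarSubalgebra => (z : H →L[ℂ] H)) h2

theorem isoRep_apply {M N : VonNeumannAlgebra H}
    (θ : M.toStarSubalgebra ≃⋆ₐ[ℂ] N.toStarSubalgebra) (π : G →* unitary (H →L[ℂ] H))
    (hmem : ∀ g, (π g : H →L[ℂ] H) ∈ M) (g : G) :
    (isoRep θ π hmem g : H →L[ℂ] H) = ((θ ⟨π g, hmem g⟩ : N.toStarSubalgebra) : H →L[ℂ] H) := rfl

private theorem normal_vec83 (M : VonNeumannAlgebra H) (ξ η : H) :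
    IsNormalFun M fun x => ⟪ξ, (x : H →L[ℂ] H) η⟫_ℂ := by
  classical
  refine ⟨fun i => if i = 0 then ξ else 0, fun i => if i = 0 then η else 0, ?_, ?_, ?_⟩
  · refine summable_of_ne_finset_zero (s := {0}) fun i hi => ?_
    have : i ≠ 0 := by simpa using hi
    simp [this]
  · refine summable_of_ne_finset_zero (s := {0}) fun i hi => ?_
    have : i ≠ 0 := by simpa using hi
    simp [this]
  · intro x
    rw [tsum_eq_single 0]
    · simp
    · intro i hi
      simp [hi]

theorem spatial_of_close (K L : Subgroup G) [K.Normal] [L.Normal] (hLK : L ≤ K)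
    (hFL : HasFreeLetters K L) (hK : Amen K) (M N : VonNeumannAlgebra H)
    (π : G →* unitary (H →L[ℂ] H)) (hG : IsGroupVN M π)
    (θ : M.toStarSubalgebra ≃⋆ₐ[ℂ] N.toStarSubalgebra) (hθ : IsNormalIso θ) (δ : ℝ)
    (hδ : 0 ≤ δ) (h27 : 27 * δ < 1)
    (hclose : ∀ x : M.toStarSubalgebra,
      ‖((θ x : N.toStarSubalgebra) : H →L[ℂ] H) - (x : H →L[ℂ] H)‖ ≤ δ * ‖(x : H →L[ℂ] H)‖) :
    ∃ V ∈ unitary (H →L[ℂ] H), ∀ x : M.toStarSubalgebra,
      ((θ x : N.toStarSubalgebra) : H →L[ℂ] H) = V * (x : H →L[ℂ] H) * star V := by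
  obtain ⟨τ, hτ, h0⟩ := hG.trace
  have hmix : Mixing π := mixing_of_trace hτ π hG.mem h0
  have hmix1 : Mixing (isoRep θ π hG.mem) := by
    intro ζ η ε hε
    obtain ⟨a, b, ha, hb, hab⟩ := hθ η ζ
    refine (normal_mixing π hmix a b ha hb ε hε).subset fun g hg => ?_
    simp only [Set.mem_ofPred_eq] at hg ⊢
    rw [isoRep_apply] at hg
    have h1 := hab ⟨π g, hG.mem g⟩
    simp only at h1
    rw [h1] at hg
    exact hg
  obtain ⟨V, hV, hVg⟩ := two_reps K L hLK hFL hK π (isoRep θ π hG.mem) hmix hmix1 δ hδ h27 (by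
    intro c
    set X : M.toStarSubalgebra := c.sum fun g a => a • (⟨π g, hG.mem g⟩ : M.toStarSubalgebra)
      with hX
    have e0 : (X : H →L[ℂ] H) = c.sum fun g a => a • (π g : H →L[ℂ] H) := by
      rw [hX, Finsupp.sum, Finsupp.sum]
      rw [AddSubmonoidClass.coe_finsetSum]
      rfl
    have e1 : ((θ X : N.toStarSubalgebra) : H →L[ℂ] H) =
        c.sum fun g a => a • (isoRep θ π hG.mem g : H →L[ℂ] H) := by
      rw [hX, Finsupp.sum, Finsupp.sum, map_sum, AddSubmonoidClass.coe_finsetSum]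
      refine Finset.sum_congr rfl fun g _ => ?_
      rw [map_smul, isoRep_apply]
      rfl
    rw [← e0, ← e1, norm_sub_rev]
    exact hclose X)
  refine ⟨V, hV, ?_⟩
  intro x
  have hVV : V * star V = 1 := Unitary.mul_star_self_of_mem hV
  refine ContinuousLinearMap.ext fun η => ?_
  refine ext_inner_left ℂ fun ξ => ?_
  have key := normal_ext M π hG.mem hG.gen
    (fun x => ⟪ξ, ((θ x : N.toStarSubalgebra) : H →L[ℂ] H) η⟫_ℂ)
    (fun x => ⟪star V ξ, (x : H →L[ℂ] H) (star V η)⟫_ℂ) (hθ ξ η)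
    (normal_vec83 M (star V ξ) (star V η)) (by
      intro g
      simp only
      have h2 : ((θ ⟨π g, hG.mem g⟩ : N.toStarSubalgebra) : H →L[ℂ] H) =
          V * (π g : H →L[ℂ] H) * star V := by
        rw [hVg g, mul_assoc, hVV, mul_one, isoRep_apply]
      rw [h2]
      rw [ContinuousLinearMap.star_eq_adjoint, ContinuousLinearMap.adjoint_inner_left]
      rfl)
  have h3 := congrFun key x
  rw [h3, ContinuousLinearMap.star_eq_adjoint, ContinuousLinearMap.adjoint_inner_left]
  rfl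

theorem dim_eq (M N : VonNeumannAlgebra H) (hM : IsIIOneFactor M)
    (π : G →* unitary (H →L[ℂ] H)) (hG : IsGroupVN M π)
    (θ : M.toStarSubalgebra ≃⋆ₐ[ℂ] N.toStarSubalgebra) (V : H →L[ℂ] H)
    (hV : V ∈ unitary (H →L[ℂ] H))
    (hθ : ∀ x : M.toStarSubalgebra,
      ((θ x : N.toStarSubalgebra) : H →L[ℂ] H) = V * (x : H →L[ℂ] H) * star V)
    (τM τN : (H →L[ℂ] H) → ℂ) (hτM : IsTrace M τM) (hτN : IsTrace N τN) :
    vnDim M τM = vnDim N τN := by
  have hVV : V * star V = 1 := Unitary.mul_star_self_of_mem hV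
  have hVV' : star V * V = 1 := Unitary.star_mul_self_of_mem hV
  have hto : ∀ x ∈ M, V * x * star V ∈ N := by
    intro x hx
    have h1 := hθ ⟨x, hx⟩
    simp only at h1
    rw [← h1]
    exact (θ ⟨x, hx⟩).2
  have hcancel : ∀ x y : H →L[ℂ] H, V * x * star V = V * y * star V → x = y := by
    intro x y h
    have h1 : star V * (V * x * star V) * V = star V * (V * y * star V) * V := by rw [h]
    have h2 : ∀ z : H →L[ℂ] H, star V * (V * z * star V) * V = z := by
      intro z
      calc star V * (V * z * star V) * V = (star V * V) * z * (star V * V) := by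
            simp only [mul_assoc]
        _ = z := by rw [hVV', one_mul, mul_one]
    rw [h2, h2] at h1
    exact h1
  have hMN : ∀ x, x ∈ M ↔ V * x * star V ∈ N := by
    intro x
    refine ⟨hto x, fun hx => ?_⟩
    have h1 := hθ (θ.symm ⟨V * x * star V, hx⟩)
    rw [StarAlgEquiv.apply_symm_apply] at h1
    simp only at h1
    have h2 := hcancel _ _ h1
    rw [h2]
    exact (θ.symm ⟨V * x * star V, hx⟩).2
  have hmul : ∀ x y : H →L[ℂ] H, (V * x * star V) * (V * y * star V) = V * (x * y) * star V := by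
    intro x y
    calc (V * x * star V) * (V * y * star V) = V * x * (star V * V) * y * star V := by
          simp only [mul_assoc]
      _ = V * (x * y) * star V := by rw [hVV', mul_one]; simp only [mul_assoc]
  have hstar : ∀ x : H →L[ℂ] H, star (V * x * star V) = V * star x * star V := by
    intro x
    rw [star_mul, star_mul, star_star, mul_assoc]
  have htr : IsTrace M (fun x => τN (V * x * star V)) := by
    refine ⟨?_, ?_, ?_, ?_⟩
    · obtain ⟨a, ha, hna⟩ := hτN.normal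
      refine ⟨fun i => star V (a i), ?_, ?_⟩
      · have hnorm : ∀ v : H, ‖star V v‖ = ‖v‖ := fun v =>
          ContinuousLinearMap.norm_map_of_mem_unitary (Unitary.star_mem hV) v
        simpa only [hnorm] using ha
      · intro x hx
        simp only
        rw [hna _ (hto x hx)]
        refine tsum_congr fun i => ?_
        rw [ContinuousLinearMap.star_eq_adjoint, ContinuousLinearMap.adjoint_inner_left]
        rfl
    · rw [mul_one, hVV]
      exact hτN.one
    · intro x hx y hy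
      rw [← hmul, ← hmul]
      exact hτN.tracial _ (hto x hx) _ (hto y hy)
    · intro x hx h
      rw [← hmul, ← hstar] at h
      have h1 := hτN.faithful _ (hto x hx) h
      refine hcancel x 0 ?_
      rw [h1, mul_zero, zero_mul]
  refine vnDim_spatial M N V hV hMN τM τN ?_
  intro x hx
  exact trace_unique hM hG τM (fun x => τN (V * x * star V)) hτM htr x hx

end Pool.Agent.Helper93.SP
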