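/-
Block SP-LF (about 150 lines).  Locally finite groups are amenable; the base group of S_inf wr Γ is
locally finite.

(amen_of_lf)  For a finite set F ⊆ K let K_F be the finite subgroup generated by F, and
 μ(f) = limit along an ultrafilter U on Finset K finer than atTop of (1/card K_F) Σ_{k in K_F} f(k)
 (bounded complex sequences have ultrafilter limits; for unbounded f put anything, e.g. `limUnder`).
 Invariance: for h in K and F containing h, k ↦ h k permutes K_F.
(lf_SBase)  A finite subset F of SBase Γ is contained in the finite subgroup of all a with right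
 component 1, left component trivial outside a finite subset A of Γ, with values permutations of ℕ
 which fix all n ≥ N (finite: it embeds in functions A → Perm (Fin N)).
-/
import Pool.Agent.Helper93.SP.Stmt

set_option autoImplicit false

open scoped InnerProductSpace ComplexConjugate ENNReal NNReal
open Filter Topology

namespace Pool.Agent.Helper93.SP

section average

variable {K : Type*} [Group K]

/-- The mean over the finite subgroup generated by F. -/
private noncomputable def lfAvg (h : ∀ F : Finset K, (Subgroup.closure (F : Set K) : Set K).Finite)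
    (F : Finset K) (f : K → ℂ) : ℂ :=
  ((h F).toFinset.card : ℂ)⁻¹ * ∑ k ∈ (h F).toFinset, f k

private theorem lf_card_pos (h : ∀ F : Finset K, (Subgroup.closure (F : Set K) : Set K).Finite)
    (F : Finset K) : ((h F).toFinset.card : ℂ) ≠ 0 := by
  have h1 : (1 : K) ∈ (h F).toFinset := by
    rw [Set.Finite.mem_toFinset]
    exact one_mem _
  exact_mod_cast (Finset.card_pos.2 ⟨1, h1⟩).ne'

private theorem lfAvg_le (h : ∀ F : Finset K, (Subgroup.closure (F : Set K) : Set K).Finite)
    (F : Finset K) (f : K → ℂ) (C : ℝ) (hf : ∀ k, ‖f k‖ ≤ C) : ‖lfAvg h F f‖ ≤ C := by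
  have h0 := lf_card_pos h F
  have h1 : (0 : ℝ) < (h F).toFinset.card := by
    have h2 : ((h F).toFinset.card : ℕ) ≠ 0 := by exact_mod_cast h0
    exact_mod_cast Nat.pos_of_ne_zero h2
  rw [lfAvg, norm_mul, norm_inv, Complex.norm_natCast]
  have h2 : ‖∑ k ∈ (h F).toFinset, f k‖ ≤ (h F).toFinset.card * C := by
    refine (norm_sum_le _ _).trans ?_
    refine (Finset.sum_le_sum fun k _ => hf k).trans ?_
    rw [Finset.sum_const, nsmul_eq_mul]
  calc ((h F).toFinset.card : ℝ)⁻¹ * ‖∑ k ∈ (h F).toFinset, f k‖
      ≤ ((h F).toFinset.card : ℝ)⁻¹ * ((h F).toFinset.card * C) :=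
        mul_le_mul_of_nonneg_left h2 (by positivity)
    _ = C := by
      rw [← mul_assoc, inv_mul_cancel₀ h1.ne', one_mul]

private theorem lfAvg_inv (h : ∀ F : Finset K, (Subgroup.closure (F : Set K) : Set K).Finite)
    (F : Finset K) (f : K → ℂ) (g : K) (hg : g ∈ F) :
    lfAvg h F (fun k => f (g * k)) = lfAvg h F f := by
  rw [lfAvg, lfAvg]
  congr 1
  have hg' : g ∈ Subgroup.closure (F : Set K) := Subgroup.subset_closure hg
  refine Finset.sum_bij' (fun k _ => g * k) (fun k _ => g⁻¹ * k) ?_ ?_ ?_ ?_ ?_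
  · intro k hk
    rw [Set.Finite.mem_toFinset] at hk ⊢
    exact mul_mem hg' hk
  · intro k hk
    rw [Set.Finite.mem_toFinset] at hk ⊢
    exact mul_mem (inv_mem hg') hk
  · intro k _
    exact inv_mul_cancel_left g k
  · intro k _
    exact mul_inv_cancel_left g k
  · intro k _
    rfl

/-- The ultrafilter limit of the means. -/
private noncomputable def lfMean
    (h : ∀ F : Finset K, (Subgroup.closure (F : Set K) : Set K).Finite) (f : K → ℂ) : ℂ :=
  limUnder (↑(Ultrafilter.of (atTop : Filter (Finset K))) : Filter (Finset K))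
    (fun F => lfAvg h F f)

private theorem lfMean_tendsto
    (h : ∀ F : Finset K, (Subgroup.closure (F : Set K) : Set K).Finite) (f : K → ℂ)
    (hf : ∃ C : ℝ, ∀ k, ‖f k‖ ≤ C) :
    Tendsto (fun F => lfAvg h F f)
      (↑(Ultrafilter.of (atTop : Filter (Finset K))) : Filter (Finset K)) (𝓝 (lfMean h f)) := by
  obtain ⟨C, hC⟩ := hf
  have hcomp : IsCompact (Metric.closedBall (0 : ℂ) C) := isCompact_closedBall 0 C
  obtain ⟨x, _, hx⟩ := hcomp.ultrafilter_le_nhds
    ((Ultrafilter.of (atTop : Filter (Finset K))).map (fun F => lfAvg h F f)) (by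
      rw [le_principal_iff]
      have h1 : (fun F => lfAvg h F f) ⁻¹' (Metric.closedBall (0 : ℂ) C) ∈
          (↑(Ultrafilter.of (atTop : Filter (Finset K))) : Filter (Finset K)) := by
        refine Filter.mem_of_superset Filter.univ_mem fun F _ => ?_
        rw [Set.mem_preimage, mem_closedBall_zero_iff]
        exact lfAvg_le h F f C hC
      exact h1)
  have hx' : Tendsto (fun F => lfAvg h F f)
      (↑(Ultrafilter.of (atTop : Filter (Finset K))) : Filter (Finset K)) (𝓝 x) := hx
  rw [lfMean, hx'.limUnder_eq]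
  exact hx'

end average

theorem amen_of_lf {K : Type*} [Group K]
    (h : ∀ F : Finset K, (Subgroup.closure (F : Set K) : Set K).Finite) : Amen K := by
  refine ⟨lfMean h, ?_, ?_, ?_, ?_, ?_⟩
  · intro f g hf hg
    have h1 := lfMean_tendsto h f hf
    have h2 := lfMean_tendsto h g hg
    obtain ⟨C, hC⟩ := hf
    obtain ⟨C', hC'⟩ := hg
    have h3 := lfMean_tendsto h (fun k => f k + g k)
      ⟨C + C', fun k => (norm_add_le _ _).trans (add_le_add (hC k) (hC' k))⟩
    have h4 : (fun F => lfAvg h F (fun k => f k + g k)) =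
        fun F => lfAvg h F f + lfAvg h F g := by
      ext1 F
      rw [lfAvg, lfAvg, lfAvg, Finset.sum_add_distrib, mul_add]
    rw [h4] at h3
    exact tendsto_nhds_unique h3 (h1.add h2)
  · intro c f hf
    have h1 := lfMean_tendsto h f hf
    obtain ⟨C, hC⟩ := hf
    have h3 := lfMean_tendsto h (fun k => c * f k)
      ⟨‖c‖ * C, fun k => by
        rw [norm_mul]
        exact mul_le_mul_of_nonneg_left (hC k) (norm_nonneg _)⟩
    have h4 : (fun F => lfAvg h F (fun k => c * f k)) = fun F => c * lfAvg h F f := by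
      ext1 F
      rw [lfAvg, lfAvg, ← Finset.mul_sum]
      ring
    rw [h4] at h3
    exact tendsto_nhds_unique h3 (h1.const_mul c)
  · have h3 := lfMean_tendsto h (fun _ => 1) ⟨1, fun k => by rw [norm_one]⟩
    have h4 : (fun F => lfAvg h F (fun _ => 1)) = fun _ => 1 := by
      ext1 F
      rw [lfAvg, Finset.sum_const, nsmul_eq_mul, mul_one]
      exact inv_mul_cancel₀ (lf_card_pos h F)
    rw [h4] at h3
    exact tendsto_nhds_unique h3 tendsto_const_nhds
  · intro f C hf
    have h3 := lfMean_tendsto h f ⟨C, hf⟩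
    exact le_of_tendsto h3.norm (Filter.Eventually.of_forall fun F => lfAvg_le h F f C hf)
  · intro g f hf
    have h1 := lfMean_tendsto h f hf
    obtain ⟨C, hC⟩ := hf
    have h3 := lfMean_tendsto h (fun k => f (g * k)) ⟨C, fun k => hC _⟩
    have h4 : ∀ᶠ F in (↑(Ultrafilter.of (atTop : Filter (Finset K))) : Filter (Finset K)),
        lfAvg h F (fun k => f (g * k)) = lfAvg h F f := by
      have h5 : ∀ᶠ F in (atTop : Filter (Finset K)),
          lfAvg h F (fun k => f (g * k)) = lfAvg h F f := by
        filter_upwards [Filter.eventually_ge_atTop ({g} : Finset K)] with F hF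
        exact lfAvg_inv h F f g (hF (Finset.mem_singleton_self g))
      exact Filter.Eventually.filter_mono (Ultrafilter.of_le _) h5
    exact tendsto_nhds_unique (h3.congr' h4) h1

/-- The subgroup of the base group: functions with values in the permutations of the numbers
below N, trivial outside A. -/
private def lfSub (Γ : Type*) [Group Γ] (A : Set Γ) (N : ℕ) : Subgroup (SBase Γ) where
  carrier := {a | ∀ (x : Γ) (n : ℕ), (x ∉ A ∨ N ≤ n) →
    ((a : SWr Γ) : RegularWreathProduct (Equiv.Perm ℕ) Γ).left x n = n}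
  mul_mem' := by
    intro a b ha hb x n hx
    have hr : ((a : SWr Γ) : RegularWreathProduct (Equiv.Perm ℕ) Γ).right = 1 := a.2
    simp only [Subgroup.coe_mul, RegularWreathProduct.mul_left, Pi.mul_apply, hr, inv_one, one_mul,
      Equiv.Perm.mul_apply]
    rw [hb x n hx, ha x n hx]
  one_mem' := by
    intro x n _
    simp
  inv_mem' := by
    intro a ha x n hx
    have hr : ((a : SWr Γ) : RegularWreathProduct (Equiv.Perm ℕ) Γ).right = 1 := a.2
    simp only [Subgroup.coe_inv, RegularWreathProduct.inv_left, hr, one_mul, Pi.inv_apply]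
    rw [Equiv.Perm.inv_eq_iff_eq]
    exact (ha x n hx).symm

private theorem lfSub_finite (Γ : Type*) [Group Γ] (A : Set Γ) (hA : A.Finite) (N : ℕ) :
    (lfSub Γ A N : Set (SBase Γ)).Finite := by
  have : Finite A := hA
  have key : ∀ a : lfSub Γ A N, ∀ (x : Γ) (n : ℕ), n < N →
      (((a : SBase Γ) : SWr Γ) : RegularWreathProduct (Equiv.Perm ℕ) Γ).left x n < N := by
    intro a x n hn
    by_contra hcon
    push Not at hcon
    have h1 := a.2 x _ (Or.inr hcon)
    have h2 := (((a : SBase Γ) : SWr Γ) : RegularWreathProduct (Equiv.Perm ℕ) Γ).left x |>.injective h1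
    omega
  let f : lfSub Γ A N → (A → Fin N → Fin N) := fun a x n => ⟨_, key a x n n.2⟩
  have hf : Function.Injective f := by
    intro a b hab
    apply Subtype.ext
    apply Subtype.ext
    apply Subtype.ext
    have hra : (((a : SBase Γ) : SWr Γ) : RegularWreathProduct (Equiv.Perm ℕ) Γ).right = 1 :=
      a.1.2
    have hrb : (((b : SBase Γ) : SWr Γ) : RegularWreathProduct (Equiv.Perm ℕ) Γ).right = 1 :=
      b.1.2
    apply RegularWreathProduct.ext
    · ext x n
      by_cases hx : x ∉ A ∨ N ≤ n
      · rw [a.2 x n hx, b.2 x n hx]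
      · push Not at hx
        have h1 := congrFun (congrFun hab ⟨x, hx.1⟩) ⟨n, hx.2⟩
        exact congrArg Fin.val h1
    · rw [hra, hrb]
  have : Finite (lfSub Γ A N) := Finite.of_injective f hf
  exact Set.toFinite _

theorem lf_SBase (Γ : Type*) [Group Γ] (F : Finset (SBase Γ)) :
    (Subgroup.closure (F : Set (SBase Γ)) : Set (SBase Γ)).Finite := by
  have hA : (⋃ a ∈ F, {x | ((a : SWr Γ) : RegularWreathProduct (Equiv.Perm ℕ) Γ).left x ≠ 1}).Finite :=
    Set.Finite.biUnion F.finite_toSet fun a _ => a.1.2.1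
  set A := ⋃ a ∈ F, {x | ((a : SWr Γ) : RegularWreathProduct (Equiv.Perm ℕ) Γ).left x ≠ 1}
    with hAdef
  have hM : (⋃ a ∈ F, ⋃ x ∈ A,
      {n | ((a : SWr Γ) : RegularWreathProduct (Equiv.Perm ℕ) Γ).left x n ≠ n}).Finite :=
    Set.Finite.biUnion F.finite_toSet fun a _ => Set.Finite.biUnion hA fun x _ => a.1.2.2 x
  obtain ⟨N, hN⟩ := hM.bddAbove
  refine (lfSub_finite Γ A hA (N + 1)).subset ?_
  have hle : Subgroup.closure (F : Set (SBase Γ)) ≤ lfSub Γ A (N + 1) := by
    rw [Subgroup.closure_le]
    intro a ha x n hx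
    have haF : a ∈ F := ha
    by_cases hxA : x ∈ A
    · rcases hx with hx | hx
      · exact absurd hxA hx
      · by_contra hne
        have h1 : n ∈ ⋃ a ∈ F, ⋃ x ∈ A,
            {n | ((a : SWr Γ) : RegularWreathProduct (Equiv.Perm ℕ) Γ).left x n ≠ n} := by
          simp only [Set.mem_iUnion]
          exact ⟨a, haF, x, hxA, hne⟩
        have h2 := hN h1
        omega
    · have h1 : ((a : SWr Γ) : RegularWreathProduct (Equiv.Perm ℕ) Γ).left x = 1 := by
        by_contra hne
        apply hxA
        rw [hAdef]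
        simp only [Set.mem_iUnion]
        exact ⟨a, haF, hne⟩
      rw [h1]
      rfl
  exact hle

theorem amen_SBase (Γ : Type*) [Group Γ] : Amen (SBase Γ) :=
  amen_of_lf (lf_SBase Γ)

end Pool.Agent.Helper93.SP
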