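/-
Block SP-PRM (about 180 lines).  Finitely many nontrivial words of a free group are nontrivial on
suitable finitary permutations of ℕ fixing all n < N.

Proof.  One word ω ≠ 1 with reduced form y_1 ... y_k (k ≥ 1), y_i = (a_i, ε_i) (FreeGroup.toWord,
isReduced_toWord).  We want permutations s_a of Fin (k+1) with (product s_(y_1) ... s_(y_k)) (0) = k:
the letter y_(k-i) must send i to i+1 (i = 0..k-1): if y_(k-i) = (a, true): s_a i = i+1, if it is
(a, false): s_a (i+1) = i.  For each a these requirements define a partial injection of Fin (k+1)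
(well defined and injective because the word is reduced: a conflict would need two neighbouring
letters (a, ε), (a, not ε)); a partial injection of a finite set extends to a permutation.
(Alternatively: use any known residual finiteness type statement, or an induction on the word.)
Several words: take the disjoint union X of the finite sets, s_a the union; X finite, choose an
injection of X into {n : N ≤ n} and extend by the identity (`Equiv.Perm.viaEmbedding`).  For letters
a which do not occur in any of the words put s_a = 1.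
-/
import Pool.Agent.Helper93.SP.Stmt

set_option autoImplicit false

namespace Pool.Agent.Helper93.SP

section ResFinite92

variable {α : Type*}

/-- The partial map of the letter `a` defined by the word `L`: `(i+1) ↦ i` if the `i`-th letter is
`(a, true)` and `i ↦ i+1` if the `i`-th letter is `(a,false)`.  (The proof of this section is
the one of Helper8/WindowLoops.lean, for letters in an arbitrary universe.) -/
private def Rel92 (L : List (α × Bool)) (a : α) (p q : ℕ) : Prop :=
  (∃ h : q < L.length, p = q + 1 ∧ L[q] = (a, true)) ∨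
    (∃ h : p < L.length, q = p + 1 ∧ L[p] = (a, false))

private lemma reduced_adj92 {L : List (α × Bool)} (hL : FreeGroup.IsReduced L) {i : ℕ}
    (h : i + 1 < L.length) {a : α} {b : Bool} (h1 : L[i]'(by omega) = (a, b)) :
    L[i + 1] ≠ (a, !b) := by
  intro h2
  have := List.isChain_iff_getElem.1 hL i h
  rw [h1, h2] at this
  simp at this

private lemma Rel92.fun {L : List (α × Bool)} (hL : FreeGroup.IsReduced L) {a : α} {p q q' : ℕ}
    (h : Rel92 L a p q) (h' : Rel92 L a p q') : q = q' := by
  rcases h with ⟨hq, e1, e2⟩ | ⟨hp, e1, e2⟩ <;> rcases h' with ⟨hq', e1', e2'⟩ | ⟨hp', e1', e2'⟩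
  · omega
  · subst e1
    exact absurd e2' (reduced_adj92 hL hp' e2)
  · subst e1'
    exact absurd e2 (reduced_adj92 hL hp e2')
  · omega

private lemma Rel92.inj {L : List (α × Bool)} (hL : FreeGroup.IsReduced L) {a : α} {p p' q : ℕ}
    (h : Rel92 L a p q) (h' : Rel92 L a p' q) : p = p' := by
  rcases h with ⟨hq, e1, e2⟩ | ⟨hp, e1, e2⟩ <;> rcases h' with ⟨hq', e1', e2'⟩ | ⟨hp', e1', e2'⟩
  · omega
  · subst e1'
    exact absurd e2 (reduced_adj92 hL hq e2')
  · subst e1
    exact absurd e2' (reduced_adj92 hL hq' e2)
  · omega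

private lemma exists_perm92 {L : List (α × Bool)} (hL : FreeGroup.IsReduced L) (a : α) :
    ∃ g : Equiv.Perm (Fin (L.length + 1)), ∀ p q : Fin (L.length + 1),
      Rel92 L a p q → g p = q := by
  classical
  let S : Set (Fin (L.length + 1)) := {p | ∃ q : Fin (L.length + 1), Rel92 L a p q}
  let f : Fin (L.length + 1) → Fin (L.length + 1) :=
    fun p => if h : ∃ q : Fin (L.length + 1), Rel92 L a p q then h.choose else p
  have hf : ∀ p q : Fin (L.length + 1), Rel92 L a p q → f p = q := by
    intro p q h
    have hex : ∃ q : Fin (L.length + 1), Rel92 L a p q := ⟨q, h⟩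
    have : f p = hex.choose := dif_pos hex
    rw [this]
    exact Fin.ext (Rel92.fun hL hex.choose_spec h)
  have hinj : Set.InjOn f S := by
    rintro p ⟨q, hq⟩ p' ⟨q', hq'⟩ h
    rw [hf _ _ hq, hf _ _ hq'] at h
    subst h
    exact Fin.ext (Rel92.inj hL hq hq')
  obtain ⟨g, hg⟩ := Set.MapsTo.exists_equiv_extend_of_card_eq
    (t := (Finset.univ : Finset (Fin (L.length + 1)))) (s := S) (f := f) (by simp)
    (fun x _ => by simp) hinj
  refine ⟨g.trans (Equiv.subtypeUnivEquiv (by simp)), fun p q h => ?_⟩
  have := hg p ⟨q, h⟩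
  rw [hf _ _ h] at this
  simpa using this

/-- Free groups are residually finite. -/
private theorem exists_finite_quotient92 (w : FreeGroup α) (hw : w ≠ 1) :
    ∃ (k : ℕ) (g : α → Equiv.Perm (Fin k)), FreeGroup.lift g w ≠ 1 := by
  classical
  set L := w.toWord with hLdef
  have hL : FreeGroup.IsReduced L := FreeGroup.isReduced_toWord
  have hne : L ≠ [] := by
    intro h
    exact hw (FreeGroup.toWord_eq_nil_iff.1 h)
  choose g hg using fun a => exists_perm92 hL a
  refine ⟨L.length + 1, g, fun h => ?_⟩
  have hmk : w = FreeGroup.mk L := FreeGroup.mk_toWord.symm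
  have key : ∀ j : ℕ, ∀ hj : j ≤ L.length,
      ((L.drop j).map fun x => cond x.2 (g x.1) (g x.1)⁻¹).prod
        (⟨L.length, by omega⟩ : Fin (L.length + 1)) = ⟨j, by omega⟩ := by
    intro j hj
    induction hk : L.length - j generalizing j with
    | zero =>
      have : j = L.length := by omega
      subst this
      simp
    | succ k ih =>
      have hj' : j < L.length := by omega
      rw [List.drop_eq_getElem_cons hj', List.map_cons, List.prod_cons, Equiv.Perm.mul_apply,
        ih (j + 1) (by omega) (by omega)]
      rcases hLj : L[j] with ⟨a, b⟩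
      cases b with
      | true =>
        simp only [cond_true]
        apply hg
        left
        exact ⟨hj', rfl, hLj⟩
      | false =>
        simp only [cond_false]
        rw [Equiv.Perm.inv_eq_iff_eq]
        symm
        apply hg
        right
        exact ⟨hj', rfl, hLj⟩
  have h0 := key 0 (Nat.zero_le _)
  rw [List.drop_zero, ← FreeGroup.lift_mk, ← hmk, h, Equiv.Perm.one_apply] at h0
  have : L.length = 0 := by simpa using congrArg Fin.val h0
  exact hne (List.length_eq_zero_iff.1 this)

/-- the value of a word depends only on its letters -/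
private theorem lift_congr92 {G : Type*} [Group G] [DecidableEq α] (f g : α → G)
    (w : FreeGroup α) (h : ∀ x ∈ w.toWord, f x.1 = g x.1) :
    FreeGroup.lift f w = FreeGroup.lift g w := by
  have hmk : w = FreeGroup.mk w.toWord := FreeGroup.mk_toWord.symm
  rw [hmk, FreeGroup.lift_mk, FreeGroup.lift_mk]
  congr 1
  refine List.map_congr_left fun x hx => ?_
  rw [h x hx]

end ResFinite92

theorem free_perm {α : Type*} (F : Set (FreeGroup α)) (hF : F.Finite)
    (h1 : (1 : FreeGroup α) ∉ F) (N : ℕ) :
    ∃ s : α → Equiv.Perm ℕ, (∀ a, Finitary (s a)) ∧ (∀ a n, n < N → s a n = n) ∧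
      {a | s a ≠ 1}.Finite ∧ ∀ ω ∈ F, FreeGroup.lift s ω ≠ 1 := by
  classical
  have hne : ∀ ω : F, (ω : FreeGroup α) ≠ 1 := fun ω h => h1 (h ▸ ω.2)
  choose k g hg using fun ω : F => exists_finite_quotient92 (ω : FreeGroup α) (hne ω)
  have : Finite F := hF.to_subtype
  have : Fintype F := Fintype.ofFinite F
  -- the letters
  set A : Set α := ⋃ ω ∈ F, {a | ∃ x ∈ ω.toWord, x.1 = a} with hA
  have hAf : A.Finite := by
    rw [hA]
    refine hF.biUnion fun ω _ => ?_
    refine ((ω.toWord.map Prod.fst).toFinset.finite_toSet).subset ?_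
    rintro a ⟨x, hx, rfl⟩
    simp only [List.coe_toFinset, List.mem_map, Set.mem_ofPred_eq]
    exact ⟨x, hx, rfl⟩
  let X := Σ ω : F, Fin (k ω)
  let e : X ↪ ℕ := ⟨fun x => N + (Fintype.equivFin X x : ℕ), fun x y h => by
    have h2 : ((Fintype.equivFin X x : ℕ)) = (Fintype.equivFin X y : ℕ) := by
      have h3 : N + (Fintype.equivFin X x : ℕ) = N + (Fintype.equivFin X y : ℕ) := h
      omega
    exact (Fintype.equivFin X).injective (Fin.ext h2)⟩
  have heN : ∀ x, N ≤ e x := fun x => Nat.le_add_right _ _
  let s0 : α → Equiv.Perm X := fun a => Equiv.Perm.sigmaCongrRightHom (fun ω : F => Fin (k ω))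
    (fun ω => g ω a)
  let s1 : α → Equiv.Perm X := fun a => if a ∈ A then s0 a else 1
  let s : α → Equiv.Perm ℕ := fun a => Equiv.Perm.viaEmbeddingHom e (s1 a)
  have hout : ∀ a n, n ∉ Set.range e → s a n = n := fun a n hn =>
    Equiv.Perm.viaEmbedding_apply_of_notMem (s1 a) e n hn
  refine ⟨s, fun a => ?_, fun a n hn => ?_, ?_, fun ω hω => ?_⟩
  · refine (Set.finite_range e).subset fun n hn => ?_
    by_contra h
    exact hn (hout a n h)
  · refine hout a n ?_
    rintro ⟨x, rfl⟩
    exact absurd (heN x) (by omega)
  · refine hAf.subset fun a ha => ?_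
    by_contra h
    refine ha ?_
    show Equiv.Perm.viaEmbeddingHom e (if a ∈ A then s0 a else 1) = 1
    rw [if_neg h, map_one]
  · have e1 : FreeGroup.lift s = (Equiv.Perm.viaEmbeddingHom e).comp (FreeGroup.lift s1) := by
      refine FreeGroup.ext_hom _ _ fun a => ?_
      simp [s]
    have e2 : FreeGroup.lift s1 ω = FreeGroup.lift s0 ω := by
      refine lift_congr92 _ _ _ fun x hx => ?_
      have : x.1 ∈ A := by
        rw [hA]
        exact Set.mem_biUnion hω ⟨x, hx, rfl⟩
      simp only [s1]
      rw [if_pos this]
    have e3 : FreeGroup.lift s0 =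
        (Equiv.Perm.sigmaCongrRightHom (fun ω : F => Fin (k ω))).comp
          (MonoidHom.pi fun ω : F => FreeGroup.lift (g ω)) := by
      refine FreeGroup.ext_hom _ _ fun a => ?_
      rw [FreeGroup.lift_apply_of, MonoidHom.comp_apply]
      simp only [s0]
      congr 1
    intro h
    rw [e1, MonoidHom.comp_apply] at h
    have h2 := Equiv.Perm.viaEmbeddingHom_injective e (h.trans (map_one _).symm)
    rw [e2, e3, MonoidHom.comp_apply] at h2
    have h3 := Equiv.Perm.sigmaCongrRightHom_injective (h2.trans (map_one _).symm)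
    exact hg ⟨ω, hω⟩ (congrFun h3 ⟨ω, hω⟩)

end Pool.Agent.Helper93.SP
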