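/-
Block SP-RT (about 180 lines).  Averages over roots of unity.  E a Hilbert space, u unitary, T
bounded, f_z = (1/2m) g_z* g_z = Σ_{|n| < 2m} (1 - |n|/2m) z^n u^n for |z| = 1 (u^(-n) = (u*)^n).
Suppose ‖T f_z - f_z T‖ ≤ C for all |z| = 1.  Then for ξ, η in E

 ‖ Σ_{a,b < m} (1 - (a+b)/2m) (⟪η, u^(-a) T u^a ξ⟫ - ⟪η, u^b T u^(-b) ξ⟫) ‖ ≤ C m ‖ξ‖ ‖η‖.

Proof.  Let h_z = Σ_{a < m} z^a u^a and let z run through the L-th roots of unity, L = 4m.
(1) The average over z of ‖h_z* ξ‖^2 is Σ_a ‖u^(-a) ξ‖^2 = m ‖ξ‖^2 and the average of ‖h_z η‖^2 is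
    m ‖η‖^2 (expand; the average of z^(a-a') is 0 for a ≠ a', |a - a'| < L).
(2) The average over z of ⟪h_z η, (T f_z - f_z T) h_z* ξ⟫ is
    Σ_{a,b<m, |n|<2m} (1 - |n|/2m) avg(z^(n-a-b)) ⟪η, u^(-a) (T u^n - u^n T) u^(-b) ξ⟫
    = Σ_{a,b} (1 - (a+b)/2m) (⟪η, u^(-a) T u^a ξ⟫ - ⟪η, u^b T u^(-b) ξ⟫)
    (|n - a - b| < 4m = L, so only n = a + b survives).
(3) Cauchy-Schwarz over the average: |avg| ≤ C avg(‖h_z η‖ ‖h_z* ξ‖) ≤ C (m ‖ξ‖^2)^(1/2)
    (m ‖η‖^2)^(1/2).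
To avoid negative powers one may expand f_z directly as (1/2m) Σ_{p,p' < 2m} z^(p'-p) (u*)^p u^p' and
use: the number of pairs p, p' < 2m with p' - p = n (0 ≤ n < 2m) is 2m - n.
Sum of powers of a primitive root: `Complex.isPrimitiveRoot_exp`, `IsPrimitiveRoot.geom_sum_eq_zero`,
or conj z = z⁻¹ and `IsPrimitiveRoot.pow_eq_one_iff_dvd`.
-/
import Pool.Agent.Helper93.SP.Defs

set_option autoImplicit false

open scoped InnerProductSpace ComplexConjugate ENNReal NNReal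
open Filter Topology

namespace Pool.Agent.Helper93.SP

variable {E : Type*} [NormedAddCommGroup E] [InnerProductSpace ℂ E] [CompleteSpace E]

section aux

private theorem le_of_sq_le_sq99 {a b : ℝ} (h : a ^ 2 ≤ b ^ 2) (hb : 0 ≤ b) : a ≤ b :=
  (abs_le_of_sq_le_sq' h hb).2

private theorem geom99 (L : ℕ) (hL : 0 < L) (n k : ℕ) (h1 : n < k + L) (h2 : k < n + L) (ω : ℂ)
    (hω : IsPrimitiveRoot ω L) :
    ∑ j ∈ Finset.range L, ((ω ^ j) ^ n * (conj (ω ^ j)) ^ k) = if n = k then (L : ℂ) else 0 := by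
  have hn : ‖ω‖ = 1 := hω.norm'_eq_one (by omega)
  have hω0 : ω ≠ 0 := by
    intro h
    rw [h, norm_zero] at hn
    exact zero_ne_one hn
  have hconj : conj ω = ω⁻¹ := by
    rw [Complex.inv_def, Complex.normSq_eq_norm_sq, hn]
    simp
  have hterm : ∀ j, (ω ^ j) ^ n * (conj (ω ^ j)) ^ k = (ω ^ n * (ω ^ k)⁻¹) ^ j := by
    intro j
    rw [map_pow, hconj, mul_pow, inv_pow, inv_pow, inv_pow, ← pow_mul, ← pow_mul, ← pow_mul,
      ← pow_mul, mul_comm j n, mul_comm j k]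
  rw [Finset.sum_congr rfl fun j _ => hterm j]
  split_ifs with h
  · subst h
    rw [mul_inv_cancel₀ (pow_ne_zero _ hω0)]
    simp
  · have hne : ω ^ n * (ω ^ k)⁻¹ ≠ 1 := by
      intro he
      have he' : ω ^ n = ω ^ k := by
        rw [mul_inv_eq_one₀ (pow_ne_zero _ hω0)] at he
        exact he
      rcases le_total n k with hnk | hnk
      · obtain ⟨d, rfl⟩ := Nat.exists_eq_add_of_le hnk
        rw [pow_add] at he'
        have h3 : ω ^ d = 1 := by
          have := mul_left_cancel₀ (pow_ne_zero n hω0) (he'.symm.trans (mul_one _).symm)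
          exact this
        have h4 := hω.dvd_of_pow_eq_one d h3
        have h5 : d ≠ 0 := fun h0 => h (by rw [h0, add_zero])
        have := Nat.le_of_dvd (Nat.pos_of_ne_zero h5) h4
        omega
      · obtain ⟨d, rfl⟩ := Nat.exists_eq_add_of_le hnk
        rw [pow_add] at he'
        have h3 : ω ^ d = 1 := by
          have := mul_left_cancel₀ (pow_ne_zero k hω0) (he'.trans (mul_one _).symm)
          exact this
        have h4 := hω.dvd_of_pow_eq_one d h3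
        have h5 : d ≠ 0 := fun h0 => h (by rw [h0, add_zero])
        have := Nat.le_of_dvd (Nat.pos_of_ne_zero h5) h4
        omega
    have hpow : (ω ^ n * (ω ^ k)⁻¹) ^ L = 1 := by
      rw [mul_pow, inv_pow, ← pow_mul, ← pow_mul, mul_comm n L, mul_comm k L, pow_mul, pow_mul,
        hω.pow_eq_one, one_pow, one_pow]
      simp
    have := geom_sum_mul (ω ^ n * (ω ^ k)⁻¹) L
    rw [hpow, sub_self] at this
    exact (mul_eq_zero.mp this).resolve_right (sub_ne_zero.mpr hne)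

omit [CompleteSpace E] in
private theorem avgnorm99 (m L : ℕ) (hL : 0 < L) (hm : m ≤ L) (v : ℕ → E) (ω : ℂ)
    (hω : IsPrimitiveRoot ω L) :
    ∑ j ∈ Finset.range L, ‖∑ a ∈ Finset.range m, (ω ^ j) ^ a • v a‖ ^ 2 =
      L * ∑ a ∈ Finset.range m, ‖v a‖ ^ 2 := by
  have h1 : ∀ j, ((‖∑ a ∈ Finset.range m, (ω ^ j) ^ a • v a‖ ^ 2 : ℝ) : ℂ) =
      ∑ a ∈ Finset.range m, ∑ b ∈ Finset.range m,
        ((ω ^ j) ^ b * (conj (ω ^ j)) ^ a) * ⟪v a, v b⟫_ℂ := by
    intro j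
    have h2 := inner_self_eq_norm_sq_to_K (𝕜 := ℂ) (∑ a ∈ Finset.range m, (ω ^ j) ^ a • v a)
    push_cast
    rw [← show ((‖∑ a ∈ Finset.range m, (ω ^ j) ^ a • v a‖ : ℂ) ^ 2) = _ from rfl]
    refine (h2.symm.trans ?_)
    rw [sum_inner]
    refine Finset.sum_congr rfl fun a _ => ?_
    rw [inner_sum]
    refine Finset.sum_congr rfl fun b _ => ?_
    rw [inner_smul_left, inner_smul_right, map_pow]
    ring
  have h3 : ((∑ j ∈ Finset.range L, ‖∑ a ∈ Finset.range m, (ω ^ j) ^ a • v a‖ ^ 2 : ℝ) : ℂ) =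
      ((L * ∑ a ∈ Finset.range m, ‖v a‖ ^ 2 : ℝ) : ℂ) := by
    rw [Complex.ofReal_sum, Finset.sum_congr rfl fun j _ => h1 j, Finset.sum_comm]
    rw [Complex.ofReal_mul, Complex.ofReal_sum, Finset.mul_sum]
    refine Finset.sum_congr rfl fun a ha => ?_
    rw [Finset.sum_comm, Finset.sum_eq_single a]
    · rw [← Finset.sum_mul, geom99 L hL a a (by omega) (by omega) ω hω, if_pos rfl]
      have h2 := inner_self_eq_norm_sq_to_K (𝕜 := ℂ) (v a)
      rw [h2]
      push_cast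
      rfl
    · intro b hb hba
      rw [Finset.mem_range] at ha hb
      rw [← Finset.sum_mul, geom99 L hL b a (by omega) (by omega) ω hω, if_neg hba, zero_mul]
    · intro h
      exact absurd ha h
  exact_mod_cast h3

omit [CompleteSpace E] in
private theorem avgnorm_conj99 (m L : ℕ) (hL : 0 < L) (hm : m ≤ L) (v : ℕ → E) (ω : ℂ)
    (hω : IsPrimitiveRoot ω L) :
    ∑ j ∈ Finset.range L, ‖∑ a ∈ Finset.range m, (conj (ω ^ j)) ^ a • v a‖ ^ 2 =
      L * ∑ a ∈ Finset.range m, ‖v a‖ ^ 2 := by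
  have hω' : IsPrimitiveRoot (conj ω) L := by
    have hn : ‖ω‖ = 1 := hω.norm'_eq_one (by omega)
    have hconj : conj ω = ω⁻¹ := by
      rw [Complex.inv_def, Complex.normSq_eq_norm_sq, hn]
      simp
    rw [hconj]
    exact hω.inv
  have := avgnorm99 m L hL hm v (conj ω) hω'
  rw [← this]
  refine Finset.sum_congr rfl fun j _ => ?_
  simp only [map_pow]

private theorem unit_pow99 (u : E →L[ℂ] E) (hu : u ∈ unitary (E →L[ℂ] E)) (p n : ℕ) :
    (star u) ^ p * u ^ (p + n) = u ^ n := by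
  have h1 : star u * u = 1 := (Unitary.mem_iff.mp hu).1
  have h2 : (star u) ^ p * u ^ p = 1 := by
    have hc : Commute (star u) u := by
      show star u * u = u * star u
      rw [h1, (Unitary.mem_iff.mp hu).2]
    rw [← hc.mul_pow, h1, one_pow]
  rw [pow_add, ← mul_assoc, h2, one_mul]

private theorem pow_unit99 (u : E →L[ℂ] E) (hu : u ∈ unitary (E →L[ℂ] E)) (p n : ℕ) :
    u ^ (n + p) * (star u) ^ p = u ^ n := by
  have h1 : star u * u = 1 := (Unitary.mem_iff.mp hu).1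
  have h1' : u * star u = 1 := (Unitary.mem_iff.mp hu).2
  have h2 : u ^ p * (star u) ^ p = 1 := by
    have hc : Commute u (star u) := by
      show u * star u = star u * u
      rw [h1, h1']
    rw [← hc.mul_pow, h1', one_pow]
  rw [pow_add, mul_assoc, h2, mul_one]

private theorem norm_pow99 (u : E →L[ℂ] E) (hu : u ∈ unitary (E →L[ℂ] E)) (n : ℕ) (ξ : E) :
    ‖(u ^ n) ξ‖ = ‖ξ‖ := by
  have h1 : u ^ n ∈ unitary (E →L[ℂ] E) := pow_mem hu n
  exact ContinuousLinearMap.norm_map_of_mem_unitary h1 ξ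

private theorem norm_spow99 (u : E →L[ℂ] E) (hu : u ∈ unitary (E →L[ℂ] E)) (n : ℕ) (ξ : E) :
    ‖((star u) ^ n) ξ‖ = ‖ξ‖ :=
  norm_pow99 (star u) (Unitary.star_mem hu) n ξ

private theorem fz_eq99 (m : ℕ) (z : ℂ) (u : E →L[ℂ] E) :
    fz m z u = ∑ p ∈ Finset.range (2 * m), ∑ q ∈ Finset.range (2 * m),
      ((2 * m : ℂ)⁻¹ * ((conj z) ^ p * z ^ q)) • ((star u) ^ p * u ^ q) := by
  unfold fz gz
  rw [star_sum, Finset.sum_mul_sum, Finset.smul_sum]
  refine Finset.sum_congr rfl fun p _ => ?_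
  rw [Finset.smul_sum]
  refine Finset.sum_congr rfl fun q _ => ?_
  rw [star_smul, star_pow, star_pow, smul_mul_smul_comm, smul_smul]
  rfl

end aux

theorem root_avg (m : ℕ) (hm : 0 < m) (u : E →L[ℂ] E) (hu : u ∈ unitary (E →L[ℂ] E))
    (T : E →L[ℂ] E) (C : ℝ)
    (hC : ∀ z : ℂ, ‖z‖ = 1 → ‖T * fz m z u - fz m z u * T‖ ≤ C) (ξ η : E) :
    ‖∑ a ∈ Finset.range m, ∑ b ∈ Finset.range m, ((1 - ((a : ℂ) + (b : ℂ)) / (2 * m)) *
      (⟪η, ((star u) ^ a * T * u ^ a) ξ⟫_ℂ - ⟪η, (u ^ b * T * (star u) ^ b) ξ⟫_ℂ))‖ ≤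
      C * m * ‖ξ‖ * ‖η‖ := by
  set L : ℕ := 4 * m with hLdef
  have hL : 0 < L := by omega
  set ω : ℂ := Complex.exp (2 * Real.pi * Complex.I / (L : ℂ)) with hωdef
  have hω : IsPrimitiveRoot ω L := Complex.isPrimitiveRoot_exp L (by omega)
  have hωn : ∀ j : ℕ, ‖ω ^ j‖ = 1 := by
    intro j
    rw [norm_pow, hω.norm'_eq_one (by omega), one_pow]
  have hC0 : 0 ≤ C := (norm_nonneg _).trans (hC 1 (by simp))
  let x : ℂ → E := fun z => ∑ a ∈ Finset.range m, z ^ a • (u ^ a) η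
  let y : ℂ → E := fun z => ∑ b ∈ Finset.range m, (conj z) ^ b • ((star u) ^ b) ξ
  let P : ℂ → E →L[ℂ] E := fun z => T * fz m z u - fz m z u * T
  let D : ℕ → ℕ → E →L[ℂ] E := fun p q =>
    T * ((star u) ^ p * u ^ q) - ((star u) ^ p * u ^ q) * T
  have hP : ∀ z, P z = ∑ p ∈ Finset.range (2 * m), ∑ q ∈ Finset.range (2 * m),
      ((2 * m : ℂ)⁻¹ * ((conj z) ^ p * z ^ q)) • D p q := by
    intro z
    simp only [P, D]
    rw [fz_eq99, Finset.mul_sum, Finset.sum_mul, ← Finset.sum_sub_distrib]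
    refine Finset.sum_congr rfl fun p _ => ?_
    rw [Finset.mul_sum, Finset.sum_mul, ← Finset.sum_sub_distrib]
    refine Finset.sum_congr rfl fun q _ => ?_
    rw [mul_smul_comm, smul_mul_assoc, ← smul_sub]
  have hG : ∀ z, ⟪x z, P z (y z)⟫_ℂ = ∑ a ∈ Finset.range m, ∑ b ∈ Finset.range m,
      ∑ p ∈ Finset.range (2 * m), ∑ q ∈ Finset.range (2 * m),
        (z ^ q * (conj z) ^ (a + b + p)) *
          ((2 * m : ℂ)⁻¹ * ⟪(u ^ a) η, D p q (((star u) ^ b) ξ)⟫_ℂ) := by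
    intro z
    simp only [x, y]
    rw [sum_inner]
    refine Finset.sum_congr rfl fun a _ => ?_
    rw [map_sum, inner_sum]
    refine Finset.sum_congr rfl fun b _ => ?_
    rw [map_smul, inner_smul_left, inner_smul_right, hP, ContinuousLinearMap.sum_apply, inner_sum,
      Finset.mul_sum, Finset.mul_sum]
    refine Finset.sum_congr rfl fun p _ => ?_
    rw [ContinuousLinearMap.sum_apply, inner_sum, Finset.mul_sum, Finset.mul_sum]
    refine Finset.sum_congr rfl fun q _ => ?_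
    rw [ContinuousLinearMap.smul_apply, inner_smul_right, map_pow, pow_add, pow_add]
    ring
  -- the average
  have hD : ∀ a b p, D p (a + b + p) = T * u ^ (a + b) - u ^ (a + b) * T := by
    intro a b p
    simp only [D]
    rw [add_comm (a + b) p, unit_pow99 u hu]
  have hterm : ∀ a b, ⟪(u ^ a) η, (T * u ^ (a + b) - u ^ (a + b) * T) (((star u) ^ b) ξ)⟫_ℂ =
      ⟪η, ((star u) ^ a * T * u ^ a) ξ⟫_ℂ - ⟪η, (u ^ b * T * (star u) ^ b) ξ⟫_ℂ := by
    intro a b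
    have h1 : ∀ w : E, ⟪(u ^ a) η, w⟫_ℂ = ⟪η, ((star u) ^ a) w⟫_ℂ := by
      intro w
      rw [← star_pow, ContinuousLinearMap.star_eq_adjoint, ContinuousLinearMap.adjoint_inner_right]
    rw [h1, ← inner_sub_right]
    congr 1
    have h2 : (star u) ^ a * (T * u ^ (a + b) - u ^ (a + b) * T) * (star u) ^ b =
        (star u) ^ a * T * u ^ a - u ^ b * T * (star u) ^ b := by
      rw [mul_sub, sub_mul]
      congr 1
      · rw [mul_assoc, mul_assoc, pow_unit99 u hu, mul_assoc]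
      · rw [← mul_assoc ((star u) ^ a), unit_pow99 u hu]
    have h3 := congrArg (fun A : E →L[ℂ] E => A ξ) h2
    simpa using h3
  have havg : ∑ j ∈ Finset.range L, ⟪x (ω ^ j), P (ω ^ j) (y (ω ^ j))⟫_ℂ =
      (L : ℂ) * ∑ a ∈ Finset.range m, ∑ b ∈ Finset.range m,
        ((1 - ((a : ℂ) + (b : ℂ)) / (2 * m)) *
      (⟪η, ((star u) ^ a * T * u ^ a) ξ⟫_ℂ - ⟪η, (u ^ b * T * (star u) ^ b) ξ⟫_ℂ)) := by
    rw [Finset.sum_congr rfl fun j _ => hG (ω ^ j), Finset.sum_comm, Finset.mul_sum]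
    refine Finset.sum_congr rfl fun a ha => ?_
    rw [Finset.sum_comm, Finset.mul_sum]
    refine Finset.sum_congr rfl fun b hb => ?_
    rw [Finset.mem_range] at ha hb
    rw [Finset.sum_comm]
    have h1 : ∀ p ∈ Finset.range (2 * m), ∑ j ∈ Finset.range L, ∑ q ∈ Finset.range (2 * m),
        ((ω ^ j) ^ q * (conj (ω ^ j)) ^ (a + b + p)) *
          ((2 * m : ℂ)⁻¹ * ⟪(u ^ a) η, D p q (((star u) ^ b) ξ)⟫_ℂ) =
        if a + b + p < 2 * m then (L : ℂ) * ((2 * m : ℂ)⁻¹ *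
          (⟪η, ((star u) ^ a * T * u ^ a) ξ⟫_ℂ - ⟪η, (u ^ b * T * (star u) ^ b) ξ⟫_ℂ))
        else 0 := by
      intro p hp
      rw [Finset.mem_range] at hp
      rw [Finset.sum_comm]
      have h2 : ∀ q ∈ Finset.range (2 * m), ∑ j ∈ Finset.range L,
          ((ω ^ j) ^ q * (conj (ω ^ j)) ^ (a + b + p)) *
          ((2 * m : ℂ)⁻¹ * ⟪(u ^ a) η, D p q (((star u) ^ b) ξ)⟫_ℂ) =
          if q = a + b + p then (L : ℂ) * ((2 * m : ℂ)⁻¹ *
          (⟪η, ((star u) ^ a * T * u ^ a) ξ⟫_ℂ - ⟪η, (u ^ b * T * (star u) ^ b) ξ⟫_ℂ))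
          else 0 := by
        intro q hq
        rw [Finset.mem_range] at hq
        rw [← Finset.sum_mul, geom99 L hL q (a + b + p) (by omega) (by omega) ω hω]
        split_ifs with h
        · subst h
          rw [hD, hterm]
        · rw [zero_mul]
      rw [Finset.sum_congr rfl h2, Finset.sum_ite_eq']
      simp only [Finset.mem_range]
    rw [Finset.sum_congr rfl h1, ← Finset.sum_filter, Finset.sum_const, nsmul_eq_mul]
    have h3 : ((Finset.range (2 * m)).filter fun p => a + b + p < 2 * m) =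
        Finset.range (2 * m - (a + b)) := by
      ext p
      simp only [Finset.mem_filter, Finset.mem_range]
      omega
    rw [h3, Finset.card_range, Nat.cast_sub (by omega)]
    have hm0 : (m : ℂ) ≠ 0 := by exact_mod_cast hm.ne'
    push_cast
    field_simp
  have hbound : ‖∑ j ∈ Finset.range L, ⟪x (ω ^ j), P (ω ^ j) (y (ω ^ j))⟫_ℂ‖ ≤
      L * (C * m * ‖ξ‖ * ‖η‖) := by
    have h1 : ∀ j ∈ Finset.range L, ‖⟪x (ω ^ j), P (ω ^ j) (y (ω ^ j))⟫_ℂ‖ ≤
        C * (‖x (ω ^ j)‖ * ‖y (ω ^ j)‖) := by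
      intro j _
      refine (norm_inner_le_norm _ _).trans ?_
      have h2 : ‖P (ω ^ j) (y (ω ^ j))‖ ≤ C * ‖y (ω ^ j)‖ :=
        ((P (ω ^ j)).le_opNorm _).trans
          (mul_le_mul_of_nonneg_right (hC _ (hωn j)) (norm_nonneg _))
      calc _ ≤ ‖x (ω ^ j)‖ * (C * ‖y (ω ^ j)‖) :=
            mul_le_mul_of_nonneg_left h2 (norm_nonneg _)
        _ = _ := by ring
    refine (norm_sum_le _ _).trans ((Finset.sum_le_sum h1).trans ?_)
    rw [← Finset.mul_sum]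
    have hcs := Finset.sum_mul_sq_le_sq_mul_sq (Finset.range L) (fun j => ‖x (ω ^ j)‖)
      (fun j => ‖y (ω ^ j)‖)
    have hx : ∑ j ∈ Finset.range L, ‖x (ω ^ j)‖ ^ 2 = L * (m * ‖η‖ ^ 2) := by
      have := avgnorm99 m L hL (by omega) (fun a => (u ^ a) η) ω hω
      simp only [x]
      rw [this, Finset.sum_congr rfl fun a _ => by rw [norm_pow99 u hu], Finset.sum_const,
        Finset.card_range, nsmul_eq_mul]
    have hy : ∑ j ∈ Finset.range L, ‖y (ω ^ j)‖ ^ 2 = L * (m * ‖ξ‖ ^ 2) := by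
      have := avgnorm_conj99 m L hL (by omega) (fun a => ((star u) ^ a) ξ) ω hω
      simp only [y]
      rw [this, Finset.sum_congr rfl fun a _ => by rw [norm_spow99 u hu], Finset.sum_const,
        Finset.card_range, nsmul_eq_mul]
    rw [hx, hy] at hcs
    have h4 : (∑ j ∈ Finset.range L, ‖x (ω ^ j)‖ * ‖y (ω ^ j)‖) ^ 2 ≤
        (L * (m * ‖ξ‖ * ‖η‖)) ^ 2 := by
      refine hcs.trans (le_of_eq ?_)
      ring
    have h5 : ∑ j ∈ Finset.range L, ‖x (ω ^ j)‖ * ‖y (ω ^ j)‖ ≤ L * (m * ‖ξ‖ * ‖η‖) :=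
      le_of_sq_le_sq99 h4 (by positivity)
    calc _ ≤ C * (L * (m * ‖ξ‖ * ‖η‖)) := mul_le_mul_of_nonneg_left h5 hC0
      _ = _ := by ring
  rw [havg, norm_mul, Complex.norm_natCast] at hbound
  have hL' : (0 : ℝ) < L := by exact_mod_cast hL
  exact le_of_mul_le_mul_left hbound hL'

end Pool.Agent.Helper93.SP
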