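/-
Block SP-WR (about 200 lines).  S_inf wr Γ has free letters in its base group.

G = SWr Γ, K = L = SBase Γ (elements a with a.right = 1, i.e. finitely supported functions
Γ → finitary permutations).  Multiplication (a b).left x = a.left x * b.left (a.right⁻¹ x).
The cosets G ⧸ K correspond to Γ (right component): for c in G ⧸ K let γ(c) = (c.out).right; the
map c ↦ γ(c) is injective.
Given m, finite E ⊆ K, finite F not containing 1, finite D ⊆ G: let Λ be the finite set of labels c
which occur in words of F (or use all of them), r_c = c.out.  Choose N such that all permutations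
e.left x (e in E), d.left x (d in D), r_c.left x (c in Λ) fix all n ≥ N (finitely many nontrivial
finitary permutations).  Let F' be the set of words in the letters (i, x) in Fin m × Γ which are
the images of the words of F under the injective relabelling (i, c) ↦ (i, γ(c)⁻¹); by free_perm
there are s_(i,x), finitary, fixing n < N, only finitely many of them nontrivial, such that no word
of F' is trivial on s.  Put x_i = (x ↦ s_(i,x), 1) in K.
* x_i commutes with E: e.left x and s_(i,x) have disjoint supports (moved points < N resp. ≥ N).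
* For c in Λ: the conjugate r_c x_i r_c⁻¹ has left component at 1 equal to
  r_c.left 1 * s_(i, γ(c)⁻¹) * (r_c.left 1)⁻¹ = s_(i, γ(c)⁻¹) (disjoint supports).
  The map k ↦ k.left 1 is a homomorphism on K.  So the left component at 1 of letterHom ω is the
  value of the relabelled word of F' on s, which is not 1 and fixes all n < N.  If letterHom ω = d
  in D then d.left 1 fixes all n ≥ N and all n < N, so it is 1: contradiction.
(The words of F involve only finitely many letters; FreeGroup.lift agrees with the relabelled lift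
on words whose letters have labels in Λ.)
-/
import Pool.Agent.Helper93.SP.Prm

set_option autoImplicit false

namespace Pool.Agent.Helper93.SP

theorem normal_SBase (Γ : Type*) [Group Γ] : (SBase Γ).Normal := by
  unfold SBase
  infer_instance

private theorem lift_congr2w {α G : Type*} [Group G] [DecidableEq α] (f g : α → G)
    (w : FreeGroup α) (h : ∀ x ∈ w.toWord, f x.1 = g x.1) :
    FreeGroup.lift f w = FreeGroup.lift g w := by
  have hmk : w = FreeGroup.mk w.toWord := FreeGroup.mk_toWord.symm
  rw [hmk, FreeGroup.lift_mk, FreeGroup.lift_mk]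
  congr 1
  refine List.map_congr_left fun x hx => ?_
  rw [h x hx]

/-- a word in permutations which fix `n` fixes `n` -/
private theorem lift_fix2w {α : Type*} (s : α → Equiv.Perm ℕ) (n : ℕ) (h : ∀ a, s a n = n)
    (w : FreeGroup α) : FreeGroup.lift s w n = n := by
  induction w using FreeGroup.induction_on with
  | C1 => simp
  | of a => simpa using h a
  | inv_of a _ =>
    rw [map_inv, FreeGroup.lift_apply_of, Equiv.Perm.inv_eq_iff_eq]
    exact (h a).symm
  | mul x y hx hy => rw [map_mul, Equiv.Perm.mul_apply, hy, hx]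

/-- an element of the wreath product with a given value of the right component -/
private def toG2w {Γ : Type*} [Group Γ] (y : Γ) : SWr Γ :=
  ⟨⟨1, y⟩, by
    constructor
    · simp
    · intro x
      simp [Finitary]⟩

private theorem mk_eq2w {Γ : Type*} [Group Γ] (c : SWr Γ ⧸ SBase Γ) :
    (QuotientGroup.mk (toG2w (((c.out : SWr Γ) : RegularWreathProduct (Equiv.Perm ℕ) Γ).right)) :
      SWr Γ ⧸ SBase Γ) = c := by
  have h1 : (QuotientGroup.mk c.out : SWr Γ ⧸ SBase Γ) = c := Quotient.out_eq' c
  conv_rhs => rw [← h1]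
  rw [QuotientGroup.eq]
  show (RegularWreathProduct.rightHom.comp (SWr Γ).subtype) _ = 1
  rw [map_mul, map_inv]
  show (((c.out : SWr Γ) : RegularWreathProduct (Equiv.Perm ℕ) Γ).right)⁻¹ *
    ((c.out : SWr Γ) : RegularWreathProduct (Equiv.Perm ℕ) Γ).right = 1
  exact inv_mul_cancel _

private theorem mk_inj2w {Γ : Type*} [Group Γ] {y z : Γ}
    (h : (QuotientGroup.mk (toG2w y) : SWr Γ ⧸ SBase Γ) = QuotientGroup.mk (toG2w z)) : y = z := by
  rw [QuotientGroup.eq] at h
  have h1 : (RegularWreathProduct.rightHom.comp (SWr Γ).subtype) ((toG2w y)⁻¹ * toG2w z) = 1 := h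
  rw [map_mul, map_inv] at h1
  have h2 : y⁻¹ * z = 1 := h1
  rw [inv_mul_eq_one] at h2
  exact h2

theorem hasFreeLetters_SBase (Γ : Type*) [Group Γ] : HasFreeLetters (SBase Γ) (SBase Γ) := by
  classical
  intro m E F D hE hF hD hEL h1F
  -- the bound
  have hS1 : (⋃ e ∈ E, ⋃ y ∈ {y | ((e : SWr Γ) : RegularWreathProduct (Equiv.Perm ℕ) Γ).left y ≠ 1},
      {n | ((e : SWr Γ) : RegularWreathProduct (Equiv.Perm ℕ) Γ).left y n ≠ n}).Finite :=
    hE.biUnion fun e _ => (e.2.1).biUnion fun y _ => e.2.2 y
  have hS2 : (⋃ d ∈ D,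
      {n | ((d : SWr Γ) : RegularWreathProduct (Equiv.Perm ℕ) Γ).left 1 n ≠ n}).Finite :=
    hD.biUnion fun d _ => d.2.2 1
  have hS3 : (⋃ ω ∈ F, ⋃ x ∈ ω.toWord.toFinset,
      {n | ((x.1.2.out : SWr Γ) : RegularWreathProduct (Equiv.Perm ℕ) Γ).left 1 n ≠ n}).Finite :=
    hF.biUnion fun ω _ => (ω.toWord.toFinset.finite_toSet).biUnion fun x _ => x.1.2.out.2.2 1
  obtain ⟨N1, hN1⟩ := hS1.bddAbove
  obtain ⟨N2, hN2⟩ := hS2.bddAbove
  obtain ⟨N3, hN3⟩ := hS3.bddAbove
  obtain ⟨N, hN⟩ : ∃ N, N = N1 + N2 + N3 + 1 := ⟨_, rfl⟩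
  have hE' : ∀ e ∈ E, ∀ y n, N ≤ n →
      ((e : SWr Γ) : RegularWreathProduct (Equiv.Perm ℕ) Γ).left y n = n := by
    intro e he y n hn
    by_contra hne
    have h2 : n ∈ ⋃ e ∈ E, ⋃ y ∈ {y | ((e : SWr Γ) : RegularWreathProduct (Equiv.Perm ℕ) Γ).left y ≠ 1},
        {n | ((e : SWr Γ) : RegularWreathProduct (Equiv.Perm ℕ) Γ).left y n ≠ n} := by
      simp only [Set.mem_iUnion]
      refine ⟨e, he, y, fun h3 => ?_, hne⟩
      rw [h3] at hne
      exact hne rfl
    have h3 := hN1 h2
    omega
  have hD' : ∀ d ∈ D, ∀ n, N ≤ n →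
      ((d : SWr Γ) : RegularWreathProduct (Equiv.Perm ℕ) Γ).left 1 n = n := by
    intro d hd n hn
    by_contra hne
    have h2 : n ∈ ⋃ d ∈ D,
        {n | ((d : SWr Γ) : RegularWreathProduct (Equiv.Perm ℕ) Γ).left 1 n ≠ n} := by
      simp only [Set.mem_iUnion]
      exact ⟨d, hd, hne⟩
    have h3 := hN2 h2
    omega
  have hF' : ∀ ω ∈ F, ∀ x ∈ ω.toWord, ∀ n, N ≤ n →
      ((x.1.2.out : SWr Γ) : RegularWreathProduct (Equiv.Perm ℕ) Γ).left 1 n = n := by
    intro ω hω x hx n hn
    by_contra hne
    have h2 : n ∈ ⋃ ω ∈ F, ⋃ x ∈ ω.toWord.toFinset,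
        {n | ((x.1.2.out : SWr Γ) : RegularWreathProduct (Equiv.Perm ℕ) Γ).left 1 n ≠ n} := by
      simp only [Set.mem_iUnion]
      exact ⟨ω, hω, x, List.mem_toFinset.2 hx, hne⟩
    have h3 := hN3 h2
    omega
  obtain ⟨s, hs1, hs2, hs3, hs4⟩ := free_perm F hF h1F N
  -- the elements
  have hinj : ∀ i : Fin m, Function.Injective (fun y : Γ =>
      ((i, (QuotientGroup.mk (toG2w y⁻¹) : SWr Γ ⧸ SBase Γ)) : Fin m × (SWr Γ ⧸ SBase Γ))) := by
    intro i y z h
    have h2 := mk_inj2w (congrArg Prod.snd h)
    exact inv_injective h2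
  let x : Fin m → SWr Γ := fun i => ⟨⟨fun y => s (i, QuotientGroup.mk (toG2w y⁻¹)), 1⟩,
    hs3.preimage (f := fun y : Γ =>
      ((i, (QuotientGroup.mk (toG2w y⁻¹) : SWr Γ ⧸ SBase Γ)) : Fin m × (SWr Γ ⧸ SBase Γ)))
      (hinj i).injOn, fun y => hs1 _⟩
  have hxl : ∀ i y, ((x i : SWr Γ) : RegularWreathProduct (Equiv.Perm ℕ) Γ).left y =
      s (i, QuotientGroup.mk (toG2w y⁻¹)) := fun i y => rfl
  have hxr : ∀ i, ((x i : SWr Γ) : RegularWreathProduct (Equiv.Perm ℕ) Γ).right = 1 := fun i => rfl
  refine ⟨x, fun i => ?_, fun i e he => ?_, fun ω hω hωD => ?_⟩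
  · show (RegularWreathProduct.rightHom.comp (SWr Γ).subtype) _ = 1
    exact hxr i
  · have her : ((e : SWr Γ) : RegularWreathProduct (Equiv.Perm ℕ) Γ).right = 1 := hEL he
    apply Subtype.ext
    apply RegularWreathProduct.ext
    · funext y
      simp only [Subgroup.coe_mul, RegularWreathProduct.mul_left, Pi.mul_apply, hxr, her, inv_one,
        one_mul]
      have hd : Equiv.Perm.Disjoint (((e : SWr Γ) : RegularWreathProduct (Equiv.Perm ℕ) Γ).left y)
          (((x i : SWr Γ) : RegularWreathProduct (Equiv.Perm ℕ) Γ).left y) := by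
        intro n
        rcases Nat.lt_or_ge n N with hn | hn
        · right
          rw [hxl]
          exact hs2 _ n hn
        · left
          exact hE' e he y n hn
      exact hd.commute
    · simp only [Subgroup.coe_mul, RegularWreathProduct.mul_right, hxr, her]
  · -- the value of the word
    let g1 : Fin m × (SWr Γ ⧸ SBase Γ) → Equiv.Perm ℕ := fun p =>
      ((p.2.out : SWr Γ) : RegularWreathProduct (Equiv.Perm ℕ) Γ).left 1 * s p *
        (((p.2.out : SWr Γ) : RegularWreathProduct (Equiv.Perm ℕ) Γ).left 1)⁻¹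
    have hgen : ∀ p : Fin m × (SWr Γ ⧸ SBase Γ),
        (((p.2.out * x p.1 * (p.2.out)⁻¹ : SWr Γ)) :
          RegularWreathProduct (Equiv.Perm ℕ) Γ).right = 1 ∧
        (((p.2.out * x p.1 * (p.2.out)⁻¹ : SWr Γ)) :
          RegularWreathProduct (Equiv.Perm ℕ) Γ).left 1 = g1 p := by
      intro p
      constructor
      · simp only [Subgroup.coe_mul, Subgroup.coe_inv, RegularWreathProduct.mul_right,
          RegularWreathProduct.inv_right, hxr, mul_one, mul_inv_cancel]
      · simp only [Subgroup.coe_mul, Subgroup.coe_inv, RegularWreathProduct.mul_left,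
          RegularWreathProduct.mul_right, RegularWreathProduct.inv_left, hxr, mul_one,
          Pi.mul_apply, Pi.inv_apply, hxl, inv_inv, mul_inv_cancel, mk_eq2w]
        rfl
    have key : ∀ w : FreeGroup (Fin m × (SWr Γ ⧸ SBase Γ)),
        ((letterHom (SBase Γ) x w : SWr Γ) : RegularWreathProduct (Equiv.Perm ℕ) Γ).right = 1 ∧
        ((letterHom (SBase Γ) x w : SWr Γ) : RegularWreathProduct (Equiv.Perm ℕ) Γ).left 1 =
          FreeGroup.lift g1 w := by
      intro w
      induction w using FreeGroup.induction_on with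
      | C1 => simp
      | of p =>
        rw [letterHom, FreeGroup.lift_apply_of, FreeGroup.lift_apply_of]
        exact hgen p
      | inv_of p hp =>
        rw [map_inv, map_inv]
        obtain ⟨h2, h3⟩ := hp
        constructor
        · simp only [Subgroup.coe_inv, RegularWreathProduct.inv_right, h2, inv_one]
        · simp only [Subgroup.coe_inv, RegularWreathProduct.inv_left, h2, mul_one, Pi.inv_apply, h3]
      | mul a b ha hb =>
        rw [map_mul, map_mul]
        obtain ⟨h2, h3⟩ := ha
        obtain ⟨h4, h5⟩ := hb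
        constructor
        · simp only [Subgroup.coe_mul, RegularWreathProduct.mul_right, h2, h4, mul_one]
        · simp only [Subgroup.coe_mul, RegularWreathProduct.mul_left, Pi.mul_apply, h2, inv_one,
            mul_one, h3, h5]
    have hlift : FreeGroup.lift g1 ω = FreeGroup.lift s ω := by
      refine lift_congr2w _ _ _ fun p hp => ?_
      have hd : Equiv.Perm.Disjoint
          (((p.1.2.out : SWr Γ) : RegularWreathProduct (Equiv.Perm ℕ) Γ).left 1) (s p.1) := by
        intro n
        rcases Nat.lt_or_ge n N with hn | hn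
        · right
          exact hs2 _ n hn
        · left
          exact hF' ω hω p hp n hn
      show ((p.1.2.out : SWr Γ) : RegularWreathProduct (Equiv.Perm ℕ) Γ).left 1 * s p.1 *
        (((p.1.2.out : SWr Γ) : RegularWreathProduct (Equiv.Perm ℕ) Γ).left 1)⁻¹ = s p.1
      rw [hd.commute.eq, mul_inv_cancel_right]
    have h2 := (key ω).2
    rw [hlift] at h2
    refine hs4 ω hω ?_
    ext n
    rcases Nat.lt_or_ge n N with hn | hn
    · rw [lift_fix2w s n (fun a => hs2 a n hn)]
      rfl
    · rw [← h2]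
      exact hD' _ hωD n hn

end Pool.Agent.Helper93.SP
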